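import Pool.Agent.H.MP_374efc_lc.Fr.Defs

/-!
# MP_374efc_lc, free case: growth of images, ratio of lengths

Paper proof: /team-store/h43_374efc_L3.md
-/

set_option autoImplicit false

namespace D0L

/-- Images are monotone for the factor relation. -/
theorem it_infix {α : Type} {h : α → List α} {x y : List α} (n : ℕ) (hxy : x <:+: y) :
    it h n x <:+: it h n y := by
  obtain ⟨s, t, rfl⟩ := hxy
  exact ⟨it h n s, it h n t, by rw [it_append, it_append]⟩

/-- `|h^n(x)| ≥ |x|`. -/
theorem length_le_it {α : Type} {h : α → List α} (hn : ∀ a, h a ≠ []) (n : ℕ) (w : List α) :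
    w.length ≤ (it h n w).length := by
  induction n with
  | zero => rw [it_zero]
  | succ n ih =>
    rw [it_succ]
    exact ih.trans (length_le_app hn _)

/-- The image of a letter of `w` is a factor of the image of `w`. -/
theorem ln1_mem {α : Type} {h : α → List α} {c : α} {w : List α} (n : ℕ) (hc : c ∈ w) :
    it h n [c] <:+: it h n w := by
  obtain ⟨s, t, rfl⟩ := List.append_of_mem hc
  exact it_infix n ⟨s, t, by simp⟩

/-- `2 |x| ≤ |it h r x|`. -/
theorem ln1_double {α : Type} [Fintype α] {h : α → List α} {m r : ℕ} (hs : Std h m r)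
    (x : List α) : 2 * x.length ≤ (it h r x).length := by
  classical
  induction x with
  | nil => simp
  | cons c x ih =>
    have h1 : it h r (c :: x) = it h r [c] ++ it h r x := by
      rw [← it_append]
      rfl
    have h2 : 2 ≤ (it h r [c]).length := by
      have h3 : (Finset.univ : Finset α) ⊆ (it h r [c]).toFinset := by
        intro b _
        rw [List.mem_toFinset]
        exact hs.full r le_rfl c b
      have h4 := Finset.card_le_card h3
      rw [Finset.card_univ] at h4
      exact hs.two.trans (h4.trans (List.toFinset_card_le _))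
    rw [h1, List.length_append, List.length_cons]
    omega

/-- Proof: `m ≥ 1`; for `k < r` `|it h k [b]| ≤ m ^ k ≤ m ^ r`, `1 ≤ |it h k [a]|`.  For `k = r + i`: `it h k [b] = it h i (it h r [b])` is the
product of at most `m ^ r` words `it h i [c]`, and `it h k [a] = it h i (it h r [a])` contains `it h i [c]` for every letter `c`: with `c` a
letter maximizing `|it h i [c]|` we get the claim. -/
theorem ratio {α : Type} [Fintype α] {h : α → List α} {m r : ℕ} (hs : Std h m r) (k : ℕ) (a b : α) :
    (it h k [b]).length ≤ m ^ r * (it h k [a]).length := by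
  have hm : 1 ≤ m := (List.length_pos_of_ne_nil (hs.ne a)).trans_le (hs.len a)
  rcases Nat.lt_or_ge k r with hk | hk
  · have h1 : (it h k [b]).length ≤ m ^ k * [b].length := length_it_le hs.len k [b]
    have h2 : [a].length ≤ (it h k [a]).length := length_le_it hs.ne k [a]
    have h3 : m ^ k ≤ m ^ r := Nat.pow_le_pow_right hm hk.le
    rw [List.length_singleton, mul_one] at h1
    rw [List.length_singleton] at h2
    calc (it h k [b]).length ≤ m ^ r := h1.trans h3
      _ = m ^ r * 1 := (mul_one _).symm
      _ ≤ m ^ r * (it h k [a]).length := Nat.mul_le_mul_left _ h2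
  · obtain ⟨i, rfl⟩ : ∃ i, k = i + r := ⟨k - r, by omega⟩
    obtain ⟨c, -, hc⟩ := Finset.exists_max_image (Finset.univ : Finset α)
      (fun c => (it h i [c]).length) ⟨a, Finset.mem_univ a⟩
    have h1 : (it h (i + r) [b]).length ≤ (it h i [c]).length * (it h r [b]).length := by
      rw [it_add, it_eq_app h i (it h r [b])]
      exact length_app_le (fun d => hc d (Finset.mem_univ d)) _
    have h2 : (it h r [b]).length ≤ m ^ r := by
      have := length_it_le hs.len r [b]
      rwa [List.length_singleton, mul_one] at this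
    have h3 : (it h i [c]).length ≤ (it h (i + r) [a]).length := by
      rw [it_add]
      exact (ln1_mem i (hs.full r le_rfl a c)).length_le
    calc (it h (i + r) [b]).length ≤ (it h i [c]).length * (it h r [b]).length := h1
      _ ≤ (it h (i + r) [a]).length * m ^ r := Nat.mul_le_mul h3 h2
      _ = m ^ r * (it h (i + r) [a]).length := Nat.mul_comm _ _

/-- `2 ^ k ≤ |h^(r k)(a)|`.  Proof: `it h r [c]` contains every letter, `card α ≥ 2` (`List.toFinset`, `Finset.card_le_card`, `List.toFinset_card_le`), so
`2 |x| ≤ |it h r x|`; induction on `k`. -/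
theorem two_pow_le {α : Type} [Fintype α] {h : α → List α} {m r : ℕ} (hs : Std h m r) (k : ℕ)
    (a : α) : 2 ^ k ≤ (it h (r * k) [a]).length := by
  induction k with
  | zero => simp [it_zero]
  | succ k ih =>
    have h1 : it h (r * (k + 1)) [a] = it h r (it h (r * k) [a]) := by
      rw [← it_add]
      congr 1
      ring
    rw [h1, pow_succ]
    have h2 := ln1_double hs (it h (r * k) [a])
    omega

/-- Growth.  Proof: `two_pow_le` with `k = B`, and `|it h k [a]|` is nondecreasing in `k`. -/
theorem Std.grow {α : Type} [Fintype α] {h : α → List α} {m r : ℕ} (hs : Std h m r) (B : ℕ) :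
    ∃ K, ∀ k, K ≤ k → ∀ a, B ≤ (it h k [a]).length := by
  refine ⟨r * B, fun k hk a => ?_⟩
  obtain ⟨i, rfl⟩ : ∃ i, k = i + r * B := ⟨k - r * B, by omega⟩
  rw [it_add]
  have h1 := two_pow_le hs B a
  have h2 := length_le_it hs.ne i (it h (r * B) [a])
  have h3 : B < 2 ^ B := Nat.lt_two_pow_self
  omega

/-- Legal words occur at every sufficiently high level in the image of every letter.
Proof: `v <:+: it h n [c]`, `c ∈ it h k [a]` for `k ≥ r`, so `v <:+: it h (n + k) [a]`. -/
theorem Legal.high {α : Type} [Fintype α] {h : α → List α} {m r : ℕ} (hs : Std h m r) {v : List α}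
    (hv : Legal h v) : ∃ K, ∀ k, K ≤ k → ∀ a, v <:+: it h k [a] := by
  obtain ⟨c, n, hv⟩ := hv
  refine ⟨n + r, fun k hk a => ?_⟩
  obtain ⟨i, rfl⟩ : ∃ i, k = n + i := ⟨k - n, by omega⟩
  rw [it_add]
  exact hv.trans (ln1_mem n (hs.full i (by omega) a c))

end D0L
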