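import Pool.Agent.H.MP_374efc_lc.Fr.Dl2

/-!
# MP_374efc_lc, free case: delay of powers

Paper proof: /team-store/h43_374efc_L3.md
-/

set_option autoImplicit false

namespace D0L

/-- the longest common initial piece -/
theorem dl3_lcp {α : Type} (U V : List α) : ∃ y u' v', U = y ++ u' ∧ V = y ++ v' ∧
    (u' = [] ∨ v' = [] ∨ ∃ c d s t, c ≠ d ∧ u' = c :: s ∧ v' = d :: t) := by
  classical
  induction U generalizing V with
  | nil => exact ⟨[], [], V, rfl, rfl, Or.inl rfl⟩
  | cons a U ih =>
    cases V with
    | nil => exact ⟨[], a :: U, [], rfl, rfl, Or.inr (Or.inl rfl)⟩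
    | cons b V =>
      by_cases hab : a = b
      · subst hab
        obtain ⟨y, u', v', h1, h2, h3⟩ := ih V
        exact ⟨a :: y, u', v', by rw [h1]; rfl, by rw [h2]; rfl, h3⟩
      · exact ⟨[], a :: U, b :: V, rfl, rfl, Or.inr (Or.inr ⟨a, b, U, V, hab, rfl, rfl⟩)⟩

theorem dl3_app_pw {α : Type} (h : α → List α) (k : ℕ) (w : List α) : app (pw h k) w = it h k w :=
  (it_eq_app h k w).symm

theorem dl3_mono {α β : Type} {g : α → List β} {D D' : ℕ} (h : Delay g D) (hD : D ≤ D') :
    Delay g D' := fun a b u v x hab hx hx' => (h a b u v x hab hx hx').trans hD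

theorem dl3_app_rev {α β : Type} (h : α → List β) (w : List α) :
    app (rev h) w.reverse = (app h w).reverse := by
  induction w with
  | nil => rfl
  | cons a w ih =>
    rw [List.reverse_cons, app_append, ih, app_singleton, app_cons h, List.reverse_append]
    rfl

theorem dl3_it_rev {α : Type} (h : α → List α) (n : ℕ) (w : List α) :
    it (rev h) n w.reverse = (it h n w).reverse := by
  induction n with
  | zero => rfl
  | succ n ih => rw [it_succ, it_succ, ih, dl3_app_rev]

theorem dl3_pw_rev {α : Type} (h : α → List α) (n : ℕ) : pw (rev h) n = rev (pw h n) := by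
  funext a
  have h1 := dl3_it_rev h n [a]
  rw [List.reverse_singleton] at h1
  exact h1

theorem dl3_sum {α : Type} [Fintype α] {β : Type} {h : α → List β} {m : ℕ}
    (hm : ∀ a, (h a).length ≤ m) : ∑ c, (h c).length ≤ Fintype.card α * m := by
  have h1 := Finset.sum_le_card_nsmul Finset.univ (fun c => (h c).length) m fun c _ => hm c
  simpa using h1

/-- Delay of the powers.  Proof: induction on `k`; `k = 0`: `x` is a common initial piece of `a :: u`, `b :: v`, so `[]`.
`k + 1`: let `y` be the longest common initial piece of `it h k (a :: u)`, `it h k (b :: v)`, `|y| ≤ dly m S k`, the words are `y ++ u'`,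
`y ++ v'` where `u'`, `v'` have different first letters or one of them is empty.  `x` is a common initial piece of `app h y ++ app h u'` and
`app h y ++ app h v'`, so `|x| ≤ |app h y| + S ≤ m |y| + S`. -/
theorem Delay.pow {α : Type} {h : α → List α} {m S : ℕ} (hm : ∀ a, (h a).length ≤ m)
    (hS : Delay h S) (k : ℕ) : Delay (pw h k) (dly m S k) := by
  induction k with
  | zero =>
    intro a b u v x hab hx hx'
    rw [dl3_app_pw, it_zero] at hx hx'
    cases x with
    | nil => exact Nat.zero_le _
    | cons c x =>
      rw [List.cons_prefix_cons] at hx hx'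
      exact absurd (hx.1.symm.trans hx'.1) hab
  | succ k ih =>
    intro a b u v x hab hx hx'
    rw [dl3_app_pw, it_succ] at hx hx'
    obtain ⟨y, u', v', h1, h2, h3⟩ := dl3_lcp (it h k (a :: u)) (it h k (b :: v))
    have hy : y.length ≤ dly m S k := by
      refine ih a b u v y hab ?_ ?_
      · rw [dl3_app_pw, h1]
        exact List.prefix_append _ _
      · rw [dl3_app_pw, h2]
        exact List.prefix_append _ _
    rw [h1, app_append] at hx
    rw [h2, app_append] at hx'
    have hm' : (app h y).length ≤ m * dly m S k :=
      (length_app_le hm y).trans (Nat.mul_le_mul_left m hy)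
    have key : x.length ≤ (app h y).length + S := by
      rcases h3 with h3 | h3 | ⟨c, d, s, t, hcd, hs, ht⟩
      · rw [h3, app_nil, List.append_nil] at hx
        exact hx.length_le.trans (Nat.le_add_right _ _)
      · rw [h3, app_nil, List.append_nil] at hx'
        exact hx'.length_le.trans (Nat.le_add_right _ _)
      · rcases Nat.le_total x.length (app h y).length with h4 | h4
        · exact h4.trans (Nat.le_add_right _ _)
        · obtain ⟨x', rfl⟩ := List.prefix_of_prefix_length_le (List.prefix_append _ _) hx h4
          rw [List.prefix_append_right_inj] at hx hx'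
          rw [hs] at hx
          rw [ht] at hx'
          have h5 := hS c d s t x' hcd hx hx'
          rw [List.length_append]
          omega
    show x.length ≤ m * dly m S k + S
    omega

/-- Proof: `Elem.delay`, `∑ ≤ n m`, `Delay.pow` and monotonicity of `dly m · k`. -/
theorem Std.delay {α : Type} [Fintype α] {h : α → List α} {m r : ℕ} (hs : Std h m r) :
    Delay (pw h r) (dly m (Fintype.card α * m) r) :=
  Delay.pow hs.len (dl3_mono hs.elem.delay (dl3_sum hs.len)) r

/-- Proof: the same for `rev h` (`Elem.rev`), `pw (rev h) r = rev (pw h r)`. -/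
theorem Std.delay_rev {α : Type} [Fintype α] {h : α → List α} {m r : ℕ} (hs : Std h m r) :
    Delay (rev (pw h r)) (dly m (Fintype.card α * m) r) := by
  have hlen : ∀ a, (rev h a).length ≤ m := fun a => by
    rw [rev, List.length_reverse]
    exact hs.len a
  rw [← dl3_pw_rev]
  exact Delay.pow hlen (dl3_mono hs.elem.rev.delay (dl3_sum hlen)) r

end D0L
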