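import Pool.Agent.H.MP_374efc_lc.Fr.Ln3

/-!
# MP_374efc_lc, free case: linear recurrence

Paper proof: /team-store/h43_374efc_L3.md
-/

set_option autoImplicit false

namespace D0L

/-- The least level at which all images have length at least `ℓ`. -/
theorem ln4_level {α : Type} [Fintype α] {h : α → List α} {m r : ℕ} (hs : Std h m r) {ℓ : ℕ}
    (hl : 1 ≤ ℓ) : ∃ K, (∀ a, ℓ ≤ (it h K [a]).length) ∧
      ∀ b, (it h K [b]).length ≤ m * m ^ r * ℓ := by
  classical
  have hex : ∃ K, ∀ a, ℓ ≤ (it h K [a]).length := by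
    obtain ⟨K, hK⟩ := hs.grow ℓ
    exact ⟨K, hK K le_rfl⟩
  refine ⟨Nat.find hex, Nat.find_spec hex, ?_⟩
  intro b
  have hm : 1 ≤ m := by
    have h1 := List.length_pos_of_ne_nil (hs.ne b)
    have h2 := hs.len b
    omega
  have hmr : 1 ≤ m * m ^ r := Nat.mul_pos hm (Nat.pow_pos hm)
  rcases Nat.eq_zero_or_pos (Nat.find hex) with h0 | h0
  · rw [h0, it_zero]
    have : 1 * 1 ≤ m * m ^ r * ℓ := Nat.mul_le_mul hmr hl
    simpa using this
  · obtain ⟨K', hK'⟩ : ∃ K', Nat.find hex = K' + 1 := ⟨Nat.find hex - 1, by omega⟩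
    have h3 : ¬ ∀ a, ℓ ≤ (it h K' [a]).length := Nat.find_min hex (by omega)
    push Not at h3
    obtain ⟨a, ha⟩ := h3
    rw [hK', it_succ]
    calc (app h (it h K' [b])).length ≤ m * (it h K' [b]).length := length_app_le hs.len _
      _ ≤ m * (m ^ r * (it h K' [a]).length) := Nat.mul_le_mul_left _ (ratio hs K' a b)
      _ ≤ m * (m ^ r * ℓ) := Nat.mul_le_mul_left _ (Nat.mul_le_mul_left _ ha.le)
      _ = m * m ^ r * ℓ := by ring

/-- Linear recurrence.
Proof.  Let `K` be least with `ℓ ≤ |it h K [a]|` for all `a` (`Std.grow`, `Nat.find`).  Then `|it h K [b]| ≤ m * m ^ r * ℓ` for all `b`: trivial if `K = 0`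
(`1 ≤ ℓ`, `m ≥ 1`); otherwise some `a` has `|it h (K-1) [a]| < ℓ`, use `ratio` and one more application of `h`.  With `n = card α`, `R1 = n ^ 2 + r`:
`|it h (K + R1) [b]| ≤ m ^ R1 * m ^ (r+1) * ℓ`, and `2 m ^ R1 m ^ (r+1) ℓ = cLR n m r * ℓ ≤ |v|`.
`v <:+: it h k [c]` for some `k ≥ K + R1` (`Legal.high`), `= app (pw h (K + R1)) (it h (k - K - R1) [c])` (`it_eq_app`), so by `full_block` `v` contains
`it h (K + R1) [a]` for some `a`.  `z <:+: it h k' [c']` with `k' ≥ K`, so by `short_factor` (`g = pw h K`) `z <:+: it h K [a']` or `z <:+: it h K [a', b']` with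
`[a', b']` legal; `a' ∈ it h R1 [a]` (`R1 ≥ r`), `[a', b'] <:+: it h R1 [a]` (`legal_pair_all`), so `z <:+: it h (K + R1) [a]`. -/
theorem lin_rec {α : Type} [Fintype α] {h : α → List α} {m r : ℕ} (hs : Std h m r) {ℓ : ℕ}
    (hl : 1 ≤ ℓ) {v z : List α} (hv : Legal h v) (hvl : cLR (Fintype.card α) m r * ℓ ≤ v.length)
    (hz : Legal h z) (hzl : z.length ≤ ℓ) : z <:+: v := by
  obtain ⟨K, hK1, hK2⟩ := ln4_level hs hl
  obtain ⟨c, -⟩ := hv.imp fun c _ => trivial
  have hm : 1 ≤ m := by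
    have h1 := List.length_pos_of_ne_nil (hs.ne c)
    have h2 := hs.len c
    omega
  set R1 : ℕ := Fintype.card α ^ 2 + r with hR1
  have hRB : ∀ b, (it h (K + R1) [b]).length ≤ m ^ R1 * (m * m ^ r * ℓ) := by
    intro b
    rw [Nat.add_comm K R1, it_add]
    exact (length_it_le hs.len R1 _).trans (Nat.mul_le_mul_left _ (hK2 b))
  have hB0 : 0 < m ^ R1 * (m * m ^ r * ℓ) := by
    have h1 : 0 < m ^ R1 := Nat.pow_pos hm
    have h2 : 0 < m ^ r := Nat.pow_pos hm
    have h3 : 0 < ℓ := hl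
    positivity
  have hcl : 2 * (m ^ R1 * (m * m ^ r * ℓ)) = cLR (Fintype.card α) m r * ℓ := by
    unfold cLR
    have h4 : 2 * r + Fintype.card α ^ 2 + 1 = R1 + (1 + r) := by omega
    rw [h4, pow_add m R1 (1 + r), pow_add m 1 r, pow_one]
    ring
  -- a full block inside `v`
  obtain ⟨a, hav⟩ : ∃ a, it h (K + R1) [a] <:+: v := by
    obtain ⟨k1, hk1⟩ := hv.high hs
    have h5 : v <:+: it h (max k1 (K + R1)) [c] := hk1 _ (le_max_left _ _) c
    have h6 : it h (max k1 (K + R1)) [c] =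
        app (pw h (K + R1)) (it h (max k1 (K + R1) - (K + R1)) [c]) := by
      have h7 : max k1 (K + R1) = (K + R1) + (max k1 (K + R1) - (K + R1)) := by
        have := le_max_right k1 (K + R1)
        omega
      conv_lhs => rw [h7, it_add, it_eq_app]
      rfl
    rw [h6] at h5
    obtain ⟨a, -, ha⟩ := full_block (g := pw h (K + R1)) (B := m ^ R1 * (m * m ^ r * ℓ)) hRB hB0
      h5 (by rw [hcl]; exact hvl)
    exact ⟨a, ha⟩
  refine List.IsInfix.trans ?_ hav
  rw [it_add]
  -- the short word `z`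
  obtain ⟨k2, hk2⟩ := hz.high hs
  have h8 : z <:+: it h (max k2 K) [c] := hk2 _ (le_max_left _ _) c
  have h9 : it h (max k2 K) [c] = app (pw h K) (it h (max k2 K - K) [c]) := by
    have h7 : max k2 K = K + (max k2 K - K) := by
      have := le_max_right k2 K
      omega
    conv_lhs => rw [h7, it_add, it_eq_app]
    rfl
  have hyne : it h (max k2 K - K) [c] ≠ [] := by
    intro he
    have h10 := length_le_it hs.ne (max k2 K - K) [c]
    rw [he] at h10
    simp at h10
  rw [h9] at h8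
  have hzg : ∀ a, z.length ≤ (pw h K a).length := fun a => hzl.trans (hK1 a)
  rcases short_factor hzg hyne h8 with ⟨a', ha', hz'⟩ | ⟨a', b', hab, hz'⟩
  · have h11 : [a'] <:+: it h R1 [a] := by
      have h12 : a' ∈ it h R1 [a] := hs.full R1 (by omega) a a'
      obtain ⟨s, t, hst⟩ := List.append_of_mem h12
      exact ⟨s, t, by rw [hst]; simp⟩
    exact hz'.trans (it_infix K h11)
  · have hleg : Legal h [a', b'] := ⟨c, max k2 K - K, hab⟩
    have h13 : [a', b'] <:+: it h R1 [a] := legal_pair_all hs hleg a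
    have h14 : pw h K a' ++ pw h K b' = it h K [a', b'] := by
      have : it h K ([a'] ++ [b']) = it h K [a'] ++ it h K [b'] := it_append h K _ _
      simpa [pw] using this.symm
    rw [h14] at hz'
    exact hz'.trans (it_infix K h13)

end D0L
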