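import Pool.Agent.H.MP_374efc_lc.Fr.Defs

/-!
# MP_374efc_lc, free case: token systems (L3, section 3): definitions

`P` is the finite set of token positions (elements of tiles), `T` the finite set of tokens, `tk t` the
word of the positions of the token `t`, `hh` the lift of `h`, `H` the morphism on tokens.
-/

set_option autoImplicit false

namespace D0L

/-- Token systems. -/
structure TS (α P T : Type) where
  h : α → List α
  pr : P → α
  hh : P → List P
  tk : T → List P
  H : T → List T
  pr_hh : ∀ e, (hh e).map pr = h (pr e)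
  hh_tk : ∀ t, app hh (tk t) = app tk (H t)
  ne : ∀ a, h a ≠ []
  grow : ∀ B, ∃ K, ∀ k, K ≤ k → ∀ a, B ≤ (it h k [a]).length
  sur : ∀ a, ∃ e, pr e = a
  cov : ∀ e, ∃ t, e ∈ tk t
  uniq : ∀ e t u v t' u' v', tk t = u ++ e :: v → tk t' = u' ++ e :: v' → t = t' ∧ u = u' ∧ v = v'
  tkne : ∀ t, tk t ≠ []
  irr : ∀ t t', ∃ q, t' ∈ it H q [t]
  code : ∀ z z', (app tk z).map pr = (app tk z').map pr → z = z'

namespace TS

variable {α P T : Type} (S : TS α P T)

/-- The word of the product of the tokens `z`. -/
def W (z : List T) : List α := (app S.tk z).map S.pr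

/-- Tile words: factors of products of tokens (on the level of positions). -/
def Tile (V : List P) : Prop := ∃ z, V <:+: app S.tk z

/-- First elements of tokens. -/
def St (e : P) : Prop := ∃ t v, S.tk t = e :: v

/-- Last elements of tokens. -/
def En (e : P) : Prop := ∃ t v, S.tk t = v ++ [e]

/-- Number of values of the map `e ↦ (it hh k [e])[J]` on the fibre of `a`. -/
noncomputable def rk [Fintype P] (a : α) (k J : ℕ) : ℕ := by
  classical
  exact ((Finset.univ.filter (fun e : P => S.pr e = a)).image
    (fun e => (it S.hh k [e])[J]?)).card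

/-- The minimal rank. -/
noncomputable def c [Fintype P] : ℕ := sInf {n | ∃ a k J, J < (it S.h k [a]).length ∧ S.rk a k J = n}

/-- Positions of minimal rank. -/
def RC [Fintype P] (a : α) (k J : ℕ) : Prop := J < (it S.h k [a]).length ∧ S.rk a k J = S.c

/-- Minimal images (over the letter `b`). -/
def MI [Fintype P] (b : α) (I : Finset P) : Prop :=
  ∃ a k J, S.RC a k J ∧ (it S.h k [a])[J]? = some b ∧
    ∀ x, x ∈ I ↔ ∃ e, S.pr e = a ∧ (it S.hh k [e])[J]? = some x

/-- A switch from (the tokens of) `e` to `f` at level `k`: a product of tokens between a token start of `hh^k(e)` and a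
later one of `hh^k(f)`. -/
def Sw (k : ℕ) (e f : P) : Prop :=
  ∃ X Y Z z x y, it S.h k [S.pr e] = X ++ Y ++ Z ∧ Y = S.W z ∧
    (it S.hh k [e])[X.length]? = some x ∧ S.St x ∧
    (it S.hh k [f])[(X ++ Y).length]? = some y ∧ S.St y

/-- Equivalent elements: same letter, same image at all positions of minimal rank. -/
def Eqv [Fintype P] (e e' : P) : Prop :=
  S.pr e = S.pr e' ∧ ∀ k J, S.RC (S.pr e) k J → (it S.hh k [e])[J]? = (it S.hh k [e'])[J]?

/-- Neighbouring elements. -/
def Adj (e f : P) : Prop := ∃ g k A B, it S.hh k [g] = A ++ e :: f :: B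

end TS

end D0L
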