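import Pool.Agent.H.MP_374efc_lc.Fr.In1
import Pool.Agent.H.MP_374efc_lc.Fr.TS
import Pool.Agent.H.MP_374efc_lc.Fr.Ln4

/-!
# MP_374efc_lc, free case: the token system of an invariant code

Paper proof: /team-store/h43_374efc_L3.md (section 3; for an arbitrary finite code `t_0, .., t_(n-1)` mapped into itself by `h`,
`h(t_i)` = product over `H i`)
-/

set_option autoImplicit false

namespace D0L

/-- The word of the positions of the token `i`. -/
def in2_tk {α : Type} {n : ℕ} (t : Fin n → List α) (i : Fin n) :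
    List (Σ i : Fin n, Fin (t i).length) :=
  List.ofFn (fun p : Fin (t i).length => (⟨i, p⟩ : Σ i : Fin n, Fin (t i).length))

/-- The letter at a position. -/
def in2_pr {α : Type} {n : ℕ} (t : Fin n → List α) (e : Σ i : Fin n, Fin (t i).length) : α :=
  (t e.1)[e.2.1]

theorem in2_tk_pr {α : Type} {n : ℕ} (t : Fin n → List α) (i : Fin n) :
    (in2_tk t i).map (in2_pr t) = t i := by
  unfold in2_tk
  rw [List.map_ofFn]
  exact List.ofFn_getElem

theorem in2_app_pr {α : Type} {n : ℕ} (t : Fin n → List α) (z : List (Fin n)) :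
    (app (in2_tk t) z).map (in2_pr t) = app t z := by
  induction z with
  | nil => rfl
  | cons i z ih => rw [app_cons, app_cons, List.map_append, ih, in2_tk_pr]

/-- The lift of `h`. -/
def in2_hh {α : Type} (h : α → List α) {n : ℕ} (t : Fin n → List α) (H : Fin n → List (Fin n))
    (e : Σ i : Fin n, Fin (t i).length) : List (Σ i : Fin n, Fin (t i).length) :=
  ((app (in2_tk t) (H e.1)).drop (app h ((t e.1).take e.2.1)).length).take
    (h (in2_pr t e)).length

theorem in2_get {α : Type} {n : ℕ} (t : Fin n → List α) (e : Σ i : Fin n, Fin (t i).length) :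
    (t e.1)[e.2.1]? = some (in2_pr t e) := by
  exact List.getElem?_eq_getElem e.2.2

theorem in2_pr_hh {α : Type} {h : α → List α} {n : ℕ} {t : Fin n → List α}
    {H : Fin n → List (Fin n)} (comm : ∀ i, app h (t i) = app t (H i))
    (e : Σ i : Fin n, Fin (t i).length) :
    (in2_hh h t H e).map (in2_pr t) = h (in2_pr t e) := by
  have h1 : (app (in2_tk t) (H e.1)).map (in2_pr t) = app h (t e.1) := by
    rw [in2_app_pr, comm]
  exact (lift_blocks (t e.1) _ h1).2 e.2.1 _ (in2_get t e)

theorem in2_hh_tk {α : Type} {h : α → List α} {n : ℕ} {t : Fin n → List α}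
    {H : Fin n → List (Fin n)} (comm : ∀ i, app h (t i) = app t (H i)) (i : Fin n) :
    app (in2_hh h t H) (in2_tk t i) = app (in2_tk t) (H i) := by
  have h1 : (app (in2_tk t) (H i)).map (in2_pr t) = app h (t i) := by
    rw [in2_app_pr, comm]
  have h2 := (lift_blocks (t i) _ h1).1
  rw [← h2]
  unfold app in2_tk
  rw [List.flatMap_def, List.map_ofFn, ← List.map_coe_finRange_eq_range, List.map_map,
    List.ofFn_eq_map]
  congr 1
  apply List.map_congr_left
  intro p _
  simp only [Function.comp]
  have h3 : (t i)[p.1]? = some (in2_pr t ⟨i, p⟩) := in2_get t ⟨i, p⟩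
  rw [h3]
  rfl

theorem in2_mem {α : Type} {n : ℕ} {t : Fin n → List α} {i : Fin n}
    {e : Σ i : Fin n, Fin (t i).length} (he : e ∈ in2_tk t i) : e.1 = i := by
  unfold in2_tk at he
  rw [List.mem_ofFn] at he
  obtain ⟨p, hp⟩ := he
  rw [← hp]

theorem in2_pos {α : Type} {n : ℕ} {t : Fin n → List α} {i : Fin n}
    {e : Σ i : Fin n, Fin (t i).length} {u v : List (Σ i : Fin n, Fin (t i).length)}
    (he : in2_tk t i = u ++ e :: v) : u.length = e.2.1 := by
  have h1 : (in2_tk t i)[u.length]? = some e := by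
    rw [he]
    simp
  unfold in2_tk at h1
  rw [List.getElem?_ofFn] at h1
  split_ifs at h1 with h2
  have h3 := Option.some.inj h1
  rw [← h3]

theorem in2_it {α : Type} {h : α → List α} {n : ℕ} {t : Fin n → List α}
    {H : Fin n → List (Fin n)} (comm : ∀ i, app h (t i) = app t (H i)) (k : ℕ)
    (z : List (Fin n)) : it h k (app t z) = app t (it H k z) := by
  have h1 : ∀ z : List (Fin n), app h (app t z) = app t (app H z) := by
    intro z
    rw [app_app, app_app]
    congr 1
    funext i
    exact comm i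
  induction k with
  | zero => rfl
  | succ k ih => rw [it_succ, it_succ, ih, h1]

/-- The token system.
Proof.  `T = Fin n`, `P = Σ i : Fin n, Fin (t i).length`, `tk i = List.ofFn (fun p => ⟨i, p⟩)`, `pr ⟨i, p⟩ = (t i)[p]`; `(app tk z).map pr = app t z`.
`hh ⟨i, p⟩ = ((app tk (H i)).drop |app h ((t i).take p)|).take |h (pr ⟨i, p⟩)|`; `lift_blocks` (with `Z = app tk (H i)`, `Z.map pr = app t (H i) = app h (t i)`) gives `pr_hh` and
`hh_tk`.  `sur`: every letter occurs in `it h i w` for large `i` (`Std.full`, `w ≠ []`), `it h i w = app t (it H i b0)` (induction), so the letter occurs in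
some `t j`.  `tkne`: `t i ≠ []` because otherwise `app t [i] = app t []`.  `grow`: `Std.grow`.  `code`: `inj`. -/
theorem exists_TS {α : Type} [Fintype α] {h : α → List α} {m r : ℕ} (hs : Std h m r) {w : List α}
    (hw : w ≠ []) {n : ℕ} (t : Fin n → List α) (H : Fin n → List (Fin n)) (b0 : List (Fin n))
    (inj : Function.Injective (app t)) (comm : ∀ i, app h (t i) = app t (H i))
    (ax : app t b0 = w) (irr : ∀ i j, ∃ q, 0 < q ∧ j ∈ it H q [i]) :
    ∃ (P : Type) (_ : Fintype P) (S : TS α P (Fin n)), S.h = h ∧ S.H = H ∧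
      ∀ i, (S.tk i).map S.pr = t i := by
  refine ⟨Σ i : Fin n, Fin (t i).length, inferInstance,
    { h := h
      pr := in2_pr t
      hh := in2_hh h t H
      tk := in2_tk t
      H := H
      pr_hh := in2_pr_hh comm
      hh_tk := in2_hh_tk comm
      ne := hs.ne
      grow := hs.grow
      sur := ?_
      cov := ?_
      uniq := ?_
      tkne := ?_
      irr := ?_
      code := ?_ }, rfl, rfl, fun i => in2_tk_pr t i⟩
  · intro a
    obtain ⟨c, w', hc⟩ := List.exists_cons_of_ne_nil hw
    have h1 : a ∈ it h r w := by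
      have h2 : it h r w = it h r [c] ++ it h r w' := by
        rw [hc]
        exact it_append h r [c] w'
      rw [h2]
      exact List.mem_append_left _ (hs.full r le_rfl c a)
    rw [← ax, in2_it comm] at h1
    obtain ⟨j, _, h3⟩ := mem_app.1 h1
    obtain ⟨p, hp, h4⟩ := List.mem_iff_getElem.1 h3
    exact ⟨⟨j, ⟨p, hp⟩⟩, h4⟩
  · intro e
    refine ⟨e.1, ?_⟩
    unfold in2_tk
    rw [List.mem_ofFn]
    exact ⟨e.2, rfl⟩
  · intro e i u v i' u' v' h1 h2
    have h3 : e.1 = i := in2_mem (by rw [h1]; simp)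
    have h4 : e.1 = i' := in2_mem (by rw [h2]; simp)
    have h5 := in2_pos h1
    have h6 := in2_pos h2
    have h7 : i = i' := h3.symm.trans h4
    rw [← h7, h1] at h2
    obtain ⟨h8, h9⟩ := List.append_inj h2 (h5.trans h6.symm)
    refine ⟨h7, h8, ?_⟩
    simpa using h9
  · intro i h1
    have h2 : t i = [] := by
      rw [← in2_tk_pr t i, h1]
      rfl
    have h3 : app t [i] = app t [] := by
      rw [app_singleton, h2, app_nil]
    have h4 := inj h3
    simp at h4
  · intro i j
    obtain ⟨q, _, h1⟩ := irr i j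
    exact ⟨q, h1⟩
  · intro z z' h1
    rw [in2_app_pr, in2_app_pr] at h1
    exact inj h1

end D0L
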