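import Pool.Agent.H.MP_374efc_lc.Fr.Vv1
import Pool.Agent.H.MP_374efc_lc.Fr.In2
import Pool.Agent.H.MP_374efc_lc.Fr.Dl3
import Pool.Agent.H.MP_374efc_lc.Red.Legal

/-!
# MP_374efc_lc, free case: preparations for the valid structure of the classes

Paper proof: /team-store/h43_374efc_L3.md
-/

set_option autoImplicit false

namespace D0L

/-- The token map is injective on vectors.  Proof: `Matrix.eq_zero_of_mulVec_eq_zero`. -/
theorem det_token {n : ℕ} {H : Fin n → List (Fin n)}
    (det : (Matrix.of fun (j i : Fin n) => ((H i).count j : ℚ)).det ≠ 0) (x : Fin n → ℚ)
    (hx : ∀ s, ∑ t, ((H t).count s : ℚ) * x t = 0) : x = 0 := by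
  refine Matrix.eq_zero_of_mulVec_eq_zero det ?_
  funext s
  exact hx s

/-- Proof: a first difference `a ≠ b` of `x`, `x'` gives `app h (a :: u) = app h (b :: v)` after cancelling; append a long word to both sides: common initial pieces
of arbitrary length, against `Elem.delay`.  If one of the words ends, use that `h` is nonerasing. -/
theorem Std.inj {α : Type} [Fintype α] {h : α → List α} {m r : ℕ} (hs : Std h m r) :
    Function.Injective (app h) := by
  have hnil : ∀ y : List α, app h y = [] → y = [] := by
    intro y hy
    have h1 := length_le_app hs.ne y
    rw [hy, List.length_nil] at h1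
    exact List.length_eq_zero_iff.1 (Nat.le_zero.1 h1)
  have key : ∀ x x' : List α, app h x = app h x' → x = x' := by
    intro x
    induction x with
    | nil =>
      intro x' hx
      exact (hnil x' hx.symm).symm
    | cons a u ih =>
      intro x' hx
      cases x' with
      | nil =>
        exact absurd (hnil _ hx) (List.cons_ne_nil _ _)
      | cons b v =>
        by_cases hab : a = b
        · subst hab
          rw [app_cons, app_cons] at hx
          rw [ih v (List.append_cancel_left hx)]
        · exfalso
          have hd := Elem.delay hs.elem
          let z : List α := List.replicate (∑ c, (h c).length) a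
          have h1 : app h (a :: (u ++ z)) = app h (b :: (v ++ z)) := by
            rw [← List.cons_append, ← List.cons_append, app_append, app_append, hx]
          have h2 := hd a b (u ++ z) (v ++ z) (app h (a :: (u ++ z))) hab (List.prefix_refl _)
            (by rw [h1])
          have h3 := length_le_app hs.ne (a :: (u ++ z))
          rw [List.length_cons, List.length_append, List.length_replicate] at h3
          omega
  exact fun x x' hx => key x x' hx

/-- The token words are growing, and the axiom is legal for `H`.
Proof.  `|app t (it H k [i])| = |it h k (t i)|` (`comm`) tends to infinity, and `|app t z| ≤ max |t i| * |z|`, so all letters of `H` are growing (`Gr`).  `app H` is injective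
(`app t (app H z) = app h (app t z)`), `H i ≠ []`.  `legal` of `Red/Legal.lean` for `(H, b0)`. -/
theorem legal_token {α : Type} [Fintype α] {h : α → List α} {m r : ℕ} (hs : Std h m r) {w : List α}
    (hw : w ≠ []) {n : ℕ} {t : Fin n → List α} {H : Fin n → List (Fin n)} {b0 : List (Fin n)}
    (inj : Function.Injective (app t)) (comm : ∀ i, app h (t i) = app t (H i))
    (ax : app t b0 = w) (lc : LC H b0) : Legal H b0 := by
  have htne : ∀ i, t i ≠ [] := by
    intro i hi
    have h1 : app t [i] = app t [] := by rw [app_singleton, app_nil, hi]
    exact absurd (inj h1) (List.cons_ne_nil _ _)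
  have hHne : ∀ i, H i ≠ [] := by
    intro i hi
    have h1 : app h (t i) = [] := by rw [comm i, hi, app_nil]
    have h2 := length_le_app hs.ne (t i)
    rw [h1, List.length_nil] at h2
    exact htne i (List.length_eq_zero_iff.1 (Nat.le_zero.1 h2))
  have hinj : Function.Injective (app H) := by
    intro z z' hz
    apply inj
    apply hs.inj
    have h1 : ∀ z, app h (app t z) = app t (app H z) := by
      intro z
      rw [app_app, app_app]
      congr 1
      funext i
      exact comm i
    rw [h1, h1, hz]
  have hb0 : b0 ≠ [] := by
    rintro rfl
    exact hw (ax.symm.trans (app_nil t))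
  refine legal hHne hinj hb0 lc ?_
  intro i B
  let M := ∑ j, (t j).length
  have hM : ∀ j, (t j).length ≤ M :=
    fun j => Finset.single_le_sum (f := fun j => (t j).length) (fun _ _ => Nat.zero_le _)
      (Finset.mem_univ j)
  obtain ⟨K, hK⟩ := hs.grow (M * B + 1)
  refine ⟨K, ?_⟩
  obtain ⟨a, ha⟩ := List.exists_mem_of_ne_nil _ (htne i)
  obtain ⟨u, v, huv⟩ := List.append_of_mem ha
  have h1 : M * B + 1 ≤ (it h K (t i)).length := by
    have h2 := hK K le_rfl a
    have h3 : it h K (t i) = it h K u ++ (it h K [a] ++ it h K v) := by
      rw [huv, ← it_append, ← it_append]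
      rfl
    rw [h3, List.length_append, List.length_append]
    omega
  have h4 : app t (it H K [i]) = it h K (t i) := by
    have h5 := it_code (h := h) (k := H) (c := t) comm K [i]
    rw [app_singleton] at h5
    exact h5
  have h6 := length_app_le hM (it H K [i])
  rw [h4] at h6
  by_contra hlt
  have h7 : M * (it H K [i]).length ≤ M * B := Nat.mul_le_mul_left _ (not_le.1 hlt).le
  omega

end D0L
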