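import Pool.Agent.H.MP_374efc_lc.Fr.Cp2

/-!
# MP_374efc_lc, free case: the bound is primitive recursive

Paper proof: /team-store/h43_374efc_L3.md
-/

set_option autoImplicit false

namespace D0L

theorem cp3_add {f g : ℕ → ℕ} (hf : Primrec f) (hg : Primrec g) :
    Primrec (fun s => f s + g s) := Primrec.nat_add.comp hf hg

theorem cp3_mul {f g : ℕ → ℕ} (hf : Primrec f) (hg : Primrec g) :
    Primrec (fun s => f s * g s) := Primrec.nat_mul.comp hf hg

theorem cp3_pow {f g : ℕ → ℕ} (hf : Primrec f) (hg : Primrec g) :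
    Primrec (fun s => f s ^ g s) := (Primrec₂.unpaired'.1 Nat.Primrec.pow).comp hf hg

theorem cp3_const (c : ℕ) : Primrec (fun _ : ℕ => c) := Primrec.const c

theorem cp3_dly {m S k : ℕ → ℕ} (hm : Primrec m) (hS : Primrec S) (hk : Primrec k) :
    Primrec (fun s => dly (m s) (S s) (k s)) := by
  have hg : Primrec₂ (fun (s : ℕ) (p : ℕ × ℕ) => m s * p.2 + S s) := by
    refine Primrec.nat_add.comp (Primrec.nat_mul.comp (hm.comp Primrec.fst)
      (Primrec.snd.comp Primrec.snd)) (hS.comp Primrec.fst)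
  have h := Primrec.nat_rec (f := fun _ : ℕ => (0 : ℕ)) (Primrec.const 0) hg
  refine (h.comp Primrec.id hk).of_eq fun s => ?_
  show Nat.rec 0 (fun _ IH => m s * IH + S s) (k s) = dly (m s) (S s) (k s)
  generalize k s = j
  induction j with
  | zero => rfl
  | succ j ih =>
    show m s * _ + S s = m s * dly (m s) (S s) j + S s
    rw [ih]

/-- The computable bound of the free case. -/
def freeF (s : ℕ) : ℕ := bF s s (2 ^ s) s

section

variable {n m r l δ t W Q : ℕ → ℕ}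

theorem cp3_cLR (hn : Primrec n) (hm : Primrec m) (hr : Primrec r) :
    Primrec (fun s => cLR (n s) (m s) (r s)) :=
  cp3_mul (cp3_const 2) (cp3_pow hm (cp3_add (cp3_add (cp3_mul (cp3_const 2) hr)
    (cp3_pow hn (cp3_const 2))) (cp3_const 1)))

theorem cp3_k0 (hn : Primrec n) (hm : Primrec m) (hr : Primrec r) :
    Primrec (fun s => k0 (n s) (m s) (r s)) :=
  cp3_mul hn (cp3_add (cp3_mul (cp3_mul (cp3_const 2) (cp3_pow hm hr))
    (cp3_add (cp3_cLR hn hm hr) (cp3_const 1))) (cp3_const 1))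

theorem cp3_l0 (hn : Primrec n) (hm : Primrec m) (hr : Primrec r) :
    Primrec (fun s => l0 (n s) (m s) (r s)) :=
  cp3_mul (cp3_const 2) (cp3_pow (cp3_pow hm hr) (cp3_k0 hn hm hr))

theorem cp3_D0 (hn : Primrec n) (hm : Primrec m) (hr : Primrec r) :
    Primrec (fun s => D0 (n s) (m s) (r s)) :=
  cp3_add (cp3_mul (cp3_cLR hn hm hr) (cp3_l0 hn hm hr)) (cp3_dly hm (cp3_mul hn hm) hr)

theorem cp3_dF (hn : Primrec n) (hm : Primrec m) (hr : Primrec r) (hl : Primrec l) :
    Primrec (fun s => dF (n s) (m s) (r s) (l s)) :=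
  cp3_add (cp3_mul (cp3_const 2) (cp3_D0 hn hm hr)) (cp3_mul (cp3_pow hm hr) hl)

theorem cp3_tF (hn : Primrec n) (hm : Primrec m) (hr : Primrec r) (hl : Primrec l) :
    Primrec (fun s => tF (n s) (m s) (r s) (l s)) :=
  cp3_mul (cp3_const 2) (cp3_pow hn (cp3_add (cp3_dF hn hm hr hl) (cp3_const 2)))

theorem cp3_oF (hn : Primrec n) (hm : Primrec m) : Primrec (fun s => oF (n s) (m s)) :=
  cp3_mul (cp3_const 2) (cp3_add (cp3_mul hn hm) (cp3_pow hn (cp3_const 2)))

theorem cp3_wF (hn : Primrec n) (hm : Primrec m) (hr : Primrec r) (hl : Primrec l) :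
    Primrec (fun s => wF (n s) (m s) (r s) (l s)) :=
  cp3_mul (cp3_oF hn hm) (cp3_mul (cp3_add (cp3_pow hn (cp3_const 2)) (cp3_const 1))
    (cp3_mul (cp3_add hr (cp3_const 3)) (cp3_tF hn hm hr hl)))

theorem cp3_thC (hn : Primrec n) (hδ : Primrec δ) (hQ : Primrec Q) :
    Primrec (fun s => thC (n s) (δ s) (Q s)) :=
  cp3_pow (cp3_mul (cp3_add (cp3_mul (cp3_const 6) hn) (cp3_const 1))
    (cp3_pow (cp3_add hQ (cp3_const 1)) hδ)) hQ

theorem cp3_sq (hδ : Primrec δ) (ht : Primrec t) :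
    Primrec (fun s => t s * (1 + δ s) ^ 2) :=
  cp3_mul ht (cp3_pow (cp3_add (cp3_const 1) hδ) (cp3_const 2))

theorem cp3_qC (hδ : Primrec δ) (ht : Primrec t) (hW : Primrec W) :
    Primrec (fun s => qC (δ s) (t s) (W s)) :=
  cp3_add (cp3_sq hδ ht) (cp3_mul (cp3_mul (cp3_const 2) hW) (cp3_add (cp3_const 1) hδ))

theorem cp3_eC (hn : Primrec n) (hδ : Primrec δ) (ht : Primrec t) (hW : Primrec W) :
    Primrec (fun s => eC (n s) (δ s) (t s) (W s)) :=
  cp3_add (cp3_sq hδ ht) (cp3_mul (cp3_add (cp3_sq hδ ht) (cp3_const 1))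
    (cp3_thC hn hδ (cp3_qC hδ ht hW)))

theorem cp3_bF (hn : Primrec n) (hm : Primrec m) (hr : Primrec r) (hl : Primrec l) :
    Primrec (fun s => bF (n s) (m s) (r s) (l s)) :=
  cp3_add (cp3_mul (cp3_add hn (cp3_const 1))
    (cp3_eC hn (cp3_oF hn hm) (cp3_tF hn hm hr hl) (cp3_wF hn hm hr hl)))
    (cp3_mul (cp3_const 2) hn)

end

/-- Proof: `Primrec` closure (`Primrec.nat_add`, `Primrec.nat_mul`, powers by `Primrec.nat_rec`, `dly` by `Primrec.nat_rec`), all constants are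
polynomials and powers. -/
theorem freeF_primrec : Primrec freeF :=
  cp3_bF Primrec.id Primrec.id (cp3_pow (cp3_const 2) Primrec.id) Primrec.id

theorem freeF_computable : Computable freeF := freeF_primrec.to_comp

end D0L
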