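import Pool.Agent.H.MP_374efc_lc.Base

/-!
# MP_374efc_lc, free case (L3): definitions

Elementary morphisms, standing hypotheses, covering letters, cuts, constants.
The paper proof is `/team-store/h43_374efc_L3.md`.
-/

set_option autoImplicit false

namespace D0L

/-- `h` does not factor through a smaller alphabet. -/
def Elem {α β : Type} [Fintype α] (h : α → List β) : Prop :=
  ¬ ∃ (δ : Type) (_ : Fintype δ) (f : α → List δ) (g : δ → List β),
    Fintype.card δ < Fintype.card α ∧ (∀ a, app g (f a) = h a) ∧ (∀ d, g d ≠ []) ∧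
      ∀ d, ∃ a, d ∈ f a

/-- The morphism `h ^ k`. -/
def pw {α : Type} (h : α → List α) (k : ℕ) (a : α) : List α := it h k [a]

/-- Standing hypotheses: nonerasing, images of length at most `m`, all letters occur in all
`h^k(a)`, `k ≥ r`, at least two letters, no factorisation, not periodic. -/
structure Std {α : Type} [Fintype α] (h : α → List α) (m r : ℕ) : Prop where
  ne : ∀ a, h a ≠ []
  len : ∀ a, (h a).length ≤ m
  full : ∀ k, r ≤ k → ∀ a b, b ∈ it h k [a]
  two : 2 ≤ Fintype.card α
  elem : Elem h
  aper : ¬ Per h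

/-- `a` is the `i`-th letter of `x` and the position `q` of `app g x` lies in its block, at
offset `o`. -/
def Cov {α β : Type} (g : α → List β) (x : List α) (q i : ℕ) (a : α) (o : ℕ) : Prop :=
  ∃ x1 x2, x = x1 ++ a :: x2 ∧ x1.length = i ∧ (app g x1).length + o = q ∧ o < (g a).length

/-- `y` (counted from the position `p`) is a block boundary of `app g x`. -/
def CutAt {α β : Type} (g : α → List β) (x : List α) (p y : ℕ) : Prop :=
  ∃ x1 x2, x = x1 ++ x2 ∧ (app g x1).length = p + y

/-- `D` bounds the common prefixes of `app g (a :: u)` and `app g (b :: v)`, `a ≠ b`. -/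
def Delay {α β : Type} (g : α → List β) (D : ℕ) : Prop :=
  ∀ a b u v x, a ≠ b → x <+: app g (a :: u) → x <+: app g (b :: v) → x.length ≤ D

/-- delay constant of `h ^ k` when `h` has delay `S` and images of length at most `m` -/
def dly (m S : ℕ) : ℕ → ℕ
  | 0 => 0
  | k + 1 => m * dly m S k + S

/-- linear recurrence constant -/
def cLR (n m r : ℕ) : ℕ := 2 * m ^ (2 * r + n ^ 2 + 1)

/-- number of doublings -/
def k0 (n m r : ℕ) : ℕ := n * (2 * m ^ r * (cLR n m r + 1) + 1)

/-- a length -/
def l0 (n m r : ℕ) : ℕ := 2 * (m ^ r) ^ k0 n m r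

/-- the recognizability constant of `h ^ r` -/
def D0 (n m r : ℕ) : ℕ := cLR n m r * l0 n m r + dly m (n * m) r

end D0L
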