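import Pool.Agent.H.MP_374efc_lc.Fr.Cp3

/-!
# MP_374efc_lc, free case: the free case

Paper proof: /team-store/h43_374efc_L3.md
-/

set_option autoImplicit false

namespace D0L

/-- The free case in the form needed by the main theorem (`FreeBound freeF` of `Asm/Cod.lean`).
Proof.  `Std h s (2^s)` (`full_of_prim`, `two_letters`, `Elem.ne`), `free_bound`, `bF_mono`. -/
theorem free_case {α : Type} [Fintype α] {h : α → List α} {w : List α} {s : ℕ} (hs : Sz s h w)
    (hel : Elem h) (hp : Prim h) (hper : ¬ Per h) (hl : Legal h w) (hw : w ≠ []) {n : ℕ}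
    {t : Fin n → List α} {H : Fin n → List (Fin n)} {b0 : List (Fin n)}
    (inj : Function.Injective (app t)) (comm : ∀ i, app h (t i) = app t (H i))
    (ax : app t b0 = w) (irr : ∀ i j, ∃ q, 0 < q ∧ j ∈ it H q [i])
    (det : (Matrix.of fun (j i : Fin n) => ((H i).count j : ℚ)).det ≠ 0) (lc : LC H b0) :
    n ≤ freeF s := by
  obtain ⟨h1, h2, h3⟩ := hs
  have hn2 : 2 ≤ Fintype.card α := two_letters hper hw
  have hstd : Std h s (2 ^ s) :=
    { ne := hel.ne
      len := h2
      full := fun k hk a b => full_of_prim hp hel.ne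
        ((Nat.pow_le_pow_right (by norm_num) h1).trans hk) a b
      two := hn2
      elem := hel
      aper := hper }
  refine (free_bound hstd hw h3 hl inj comm ax irr det lc).trans ?_
  exact bF_mono h1 le_rfl le_rfl le_rfl (by omega) (by omega)

end D0L
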