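import Pool.Agent.H.MP_374efc_lc.Fr.Tb2

/-!
# MP_374efc_lc, free case: the reversed token system

Paper proof: /team-store/h43_374efc_L3.md
-/

set_option autoImplicit false

namespace D0L

theorem tb3_app_rev {α β : Type} (h : α → List β) (x : List α) :
    app (rev h) x = (app h x.reverse).reverse := by
  rw [← tb1_app_rev, List.reverse_reverse]

theorem tb3_it_rev {α : Type} (h : α → List α) (k : ℕ) (a : α) :
    it (rev h) k [a] = (it h k [a]).reverse := by
  rw [← tb1_it_rev, List.reverse_singleton]

namespace TS

variable {α P T : Type} (S : TS α P T)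

/-- Reversed system. -/
def rev : TS α P T where
  h := D0L.rev S.h
  pr := S.pr
  hh := D0L.rev S.hh
  tk := D0L.rev S.tk
  H := D0L.rev S.H
  pr_hh := by
    intro e
    show ((S.hh e).reverse).map S.pr = (S.h (S.pr e)).reverse
    rw [List.map_reverse, S.pr_hh]
  hh_tk := by
    intro t
    show app (D0L.rev S.hh) (S.tk t).reverse = app (D0L.rev S.tk) (S.H t).reverse
    rw [tb1_app_rev, tb1_app_rev, S.hh_tk]
  ne := by
    intro a h1
    exact S.ne a (List.reverse_eq_nil_iff.1 h1)
  grow := by
    intro B
    obtain ⟨K, hK⟩ := S.grow B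
    refine ⟨K, fun k hk a => ?_⟩
    rw [tb3_it_rev, List.length_reverse]
    exact hK k hk a
  sur := S.sur
  cov := by
    intro e
    obtain ⟨t, ht⟩ := S.cov e
    exact ⟨t, List.mem_reverse.2 ht⟩
  uniq := by
    intro e t u v t' u' v' h1 h2
    have h3 : S.tk t = v.reverse ++ e :: u.reverse := by
      have h5 : (S.tk t).reverse = u ++ e :: v := h1
      have h6 := congrArg List.reverse h5
      rw [List.reverse_reverse] at h6
      rw [h6]
      simp
    have h4 : S.tk t' = v'.reverse ++ e :: u'.reverse := by
      have h5 : (S.tk t').reverse = u' ++ e :: v' := h2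
      have h6 := congrArg List.reverse h5
      rw [List.reverse_reverse] at h6
      rw [h6]
      simp
    obtain ⟨h5, h6, h7⟩ := S.uniq e t _ _ t' _ _ h3 h4
    exact ⟨h5, List.reverse_injective h7, List.reverse_injective h6⟩
  tkne := by
    intro t h1
    exact S.tkne t (List.reverse_eq_nil_iff.1 h1)
  irr := by
    intro t t'
    obtain ⟨q, hq⟩ := S.irr t t'
    refine ⟨q, ?_⟩
    rw [tb3_it_rev]
    exact List.mem_reverse.2 hq
  code := by
    intro z z' h1
    rw [tb3_app_rev, tb3_app_rev, List.map_reverse, List.map_reverse] at h1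
    exact List.reverse_injective (S.code _ _ (List.reverse_injective h1))

end TS

end D0L
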