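import Pool.Agent.H.MP_374efc_lc.Fr.Act
import Pool.Agent.H.MP_374efc_lc.Fr.Tb3

/-!
# MP_374efc_lc, free case: actions from relations

Paper proof: /team-store/h43_374efc_L3.md
-/

set_option autoImplicit false

namespace D0L

theorem osrc_oinv {α : Type} (h : α → List α) (θ : Op h) : osrc h (oinv h θ) = otgt h θ := by
  rcases θ with ⟨g, b⟩
  cases b <;> simp [osrc, otgt, oinv]

theorem otgt_oinv {α : Type} (h : α → List α) (θ : Op h) : otgt h (oinv h θ) = osrc h θ := by
  rcases θ with ⟨g, b⟩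
  cases b <;> simp [osrc, otgt, oinv]

theorem oinv_oinv {α : Type} (h : α → List α) (θ : Op h) : oinv h (oinv h θ) = θ := by
  rcases θ with ⟨g, b⟩
  cases b <;> simp [oinv]

/-- An action from bijective relations. -/
theorem Act.ofRel {α E : Type} {h : α → List α} (π : E → α) (R : Op0 h → E → E → Prop)
    (h1 : ∀ g e, π e = src0 h g → ∃! f, π f = tgt0 h g ∧ R g e f)
    (h2 : ∀ g f, π f = tgt0 h g → ∃! e, π e = src0 h g ∧ R g e f) :
    ∃ A : Act α (Op h) E (osrc h) (otgt h) (oinv h), A.π = π ∧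
      ∀ g e f, π e = src0 h g → π f = tgt0 h g → (A.op (g, false) e = f ↔ R g e f) := by
  classical
  have k1 : ∀ g e, ∃ f, π e = src0 h g → (π f = tgt0 h g ∧ R g e f) := by
    intro g e
    by_cases hc : π e = src0 h g
    · obtain ⟨f, hf, -⟩ := h1 g e hc
      exact ⟨f, fun _ => hf⟩
    · exact ⟨e, fun hc' => absurd hc' hc⟩
  have k2 : ∀ g f, ∃ e, π f = tgt0 h g → (π e = src0 h g ∧ R g e f) := by
    intro g f
    by_cases hc : π f = tgt0 h g
    · obtain ⟨e, he, -⟩ := h2 g f hc
      exact ⟨e, fun _ => he⟩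
    · exact ⟨f, fun hc' => absurd hc' hc⟩
  choose F hF using k1
  choose G hG using k2
  refine ⟨⟨π, fun θ e => if θ.2 then G θ.1 e else F θ.1 e, ?_, ?_⟩, rfl, ?_⟩
  · rintro ⟨g, b⟩ e he
    cases b
    · simp only [osrc, otgt, Bool.false_eq_true, if_false] at he ⊢
      exact (hF g e he).1
    · simp only [osrc, otgt, if_true] at he ⊢
      exact (hG g e he).1
  · rintro ⟨g, b⟩ e he
    cases b
    · simp only [osrc, oinv, Bool.false_eq_true, if_false, Bool.not_false, if_true] at he ⊢
      have a1 := hF g e he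
      have a2 := hG g (F g e) a1.1
      obtain ⟨x, -, hx⟩ := h2 g (F g e) a1.1
      exact (hx _ a2).trans (hx _ ⟨he, a1.2⟩).symm
    · simp only [osrc, oinv, Bool.false_eq_true, if_false, Bool.not_true, if_true] at he ⊢
      have a1 := hG g e he
      have a2 := hF g (G g e) a1.1
      obtain ⟨x, -, hx⟩ := h1 g (G g e) a1.1
      exact (hx _ a2).trans (hx _ ⟨he, a1.2⟩).symm
  · intro g e f he hf
    simp only [Bool.false_eq_true, if_false]
    have a1 := hF g e he
    constructor
    · rintro rfl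
      exact a1.2
    · intro hr
      obtain ⟨x, -, hx⟩ := h1 g e he
      exact (hx _ a1).trans (hx _ ⟨hf, hr⟩).symm

end D0L
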