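import Pool.Agent.H.MP_374efc_lc.Fr.Ab1

/-!
# MP_374efc_lc, free case: words and chains of an action

Paper proof: /team-store/h43_374efc_L3.md
-/

set_option autoImplicit false

namespace D0L

variable {α E : Type} {h : α → List α} (A : Act α (Op h) E (osrc h) (otgt h) (oinv h))

namespace Act

theorem map_et (e : E) : (A.et e).map A.π = h (A.π e) := by
  have h1 : (A.π ∘ fun j : Fin (h (A.π e)).length => A.op (fwd (A.π e) j) e) =
      (h (A.π e)).get := by
    funext j
    exact A.π_op (fwd (A.π e) j) e rfl
  unfold Act.et
  rw [List.map_ofFn, h1, List.ofFn_get]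

theorem ab2_map_app (U : List E) : (app A.et U).map A.π = app h (U.map A.π) := by
  induction U with
  | nil => rfl
  | cons x t ih => rw [app_cons, List.map_append, A.map_et, ih, List.map_cons, app_cons]

theorem ab2_et_get {e : E} {a : α} (he : A.π e = a) {i : ℕ} (hi : i < (h a).length) :
    (A.et e)[i]? = some (A.op (fwd a ⟨i, hi⟩) e) := by
  subst he
  unfold Act.et
  rw [List.getElem?_ofFn, dif_pos hi]

theorem ab2_et_len (e : E) : (A.et e).length = (h (A.π e)).length := by
  rw [← A.map_et e, List.length_map]

theorem map_it_et (k : ℕ) (V : List E) : (it A.et k V).map A.π = it h k (V.map A.π) := by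
  induction k with
  | zero => rfl
  | succ k ih => rw [it_succ, it_succ, A.ab2_map_app, ih]

theorem ab2_it_len (k : ℕ) (V : List E) :
    (it A.et k V).length = (it h k (V.map A.π)).length := by
  rw [← A.map_it_et k V, List.length_map]

/-- `et` is injective at every position (for elements over the same letter), also the iterates.
Proof: induction on `k`: `it A.et (k+1) [e] = it A.et k (A.et e)`, the position `J` is in the block of some `j < |h (π e)|` at the same relative place for `e`, `e'`
(`it_get_inv`, `it_get`), so `op (fwd a j) e = op (fwd a j) e'` by induction, and `inv_op`. -/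
theorem it_et_inj {e e' : E} (hp : A.π e = A.π e') {k J : ℕ} (hJ : J < (it h k [A.π e]).length)
    (h1 : (it A.et k [e])[J]? = (it A.et k [e'])[J]?) : e = e' := by
  induction k generalizing e e' J with
  | zero =>
    have hJ0 : J = 0 := by
      rw [it_zero, List.length_singleton] at hJ
      omega
    subst hJ0
    rw [it_zero, it_zero] at h1
    simpa using h1
  | succ k ih =>
    have e1 : it A.et (k + 1) [e] = it A.et k (A.et e) := by
      rw [it_succ', app_singleton]
    have e2 : it A.et (k + 1) [e'] = it A.et k (A.et e') := by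
      rw [it_succ', app_singleton]
    rw [e1, e2] at h1
    have hq : J < (it A.et k (A.et e)).length := by
      rw [A.ab2_it_len, A.map_et]
      rw [it_succ', app_singleton] at hJ
      exact hJ
    obtain ⟨i, f, J', hf, hJ', hq'⟩ := it_get_inv A.et k hq
    have hi : i < (h (A.π e)).length := by
      have h2 := (List.getElem?_eq_some_iff.1 hf).1
      rwa [A.ab2_et_len] at h2
    have hf1 : (A.et e)[i]? = some (A.op (fwd (A.π e) ⟨i, hi⟩) e) := A.ab2_et_get rfl hi
    have hf2 : (A.et e')[i]? = some (A.op (fwd (A.π e) ⟨i, hi⟩) e') := A.ab2_et_get hp.symm hi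
    have hff : f = A.op (fwd (A.π e) ⟨i, hi⟩) e := by
      rw [hf1] at hf
      exact (Option.some.inj hf).symm
    have hp1 : A.π (A.op (fwd (A.π e) ⟨i, hi⟩) e) = otgt h (fwd (A.π e) ⟨i, hi⟩) :=
      A.π_op _ _ rfl
    have hp2 : A.π (A.op (fwd (A.π e) ⟨i, hi⟩) e') = otgt h (fwd (A.π e) ⟨i, hi⟩) :=
      A.π_op _ _ hp.symm
    have hpp : A.π f = A.π (A.op (fwd (A.π e) ⟨i, hi⟩) e') := by
      rw [hff, hp1, hp2]
    have hlen : (it A.et k ((A.et e).take i)).length = (it A.et k ((A.et e').take i)).length := by
      rw [A.ab2_it_len, A.ab2_it_len, List.map_take, List.map_take, A.map_et, A.map_et, hp]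
    have hJf : J' < (it h k [A.π f]).length := by
      have h2 := hJ'
      rw [A.ab2_it_len, List.map_singleton] at h2
      exact h2
    have hJ2 : J' < (it A.et k [A.op (fwd (A.π e) ⟨i, hi⟩) e']).length := by
      rw [A.ab2_it_len, List.map_singleton, ← hpp]
      exact hJf
    have g1 := it_get A.et k hf hJ'
    have g2 := it_get A.et k hf2 hJ2
    rw [← hlen] at g2
    rw [hq', g1, g2] at h1
    have hfe := ih hpp hJf h1
    rw [hff] at hfe
    have i1 := A.inv_op (fwd (A.π e) ⟨i, hi⟩) e rfl
    have i2 := A.inv_op (fwd (A.π e) ⟨i, hi⟩) e' hp.symm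
    rw [← i1, ← i2, hfe]

theorem nb_det {x y y' : E} (h1 : A.Nb x y) (h2 : A.Nb x y') (hp : A.π y = A.π y') : y = y' := by
  obtain ⟨hl, e1⟩ := h1
  obtain ⟨hl', e2⟩ := h2
  have key : ∀ (b : α) (hb : Legal h [A.π x, b]) (b' : α) (hb' : Legal h [A.π x, b']), b = b' →
      A.op (tauo (A.π x) b hb) x = A.op (tauo (A.π x) b' hb') x := by
    intro b hb b' hb' hbb
    subst hbb
    rfl
  exact e1.trans ((key _ hl _ hl' hp).trans e2.symm)

theorem nb_det' {x x' y : E} (h1 : A.Nb x y) (h2 : A.Nb x' y) (hp : A.π x = A.π x') : x = x' := by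
  obtain ⟨hl, e1⟩ := h1
  obtain ⟨hl', e2⟩ := h2
  have key : ∀ (b : α) (hb : Legal h [b, A.π y]) (b' : α) (hb' : Legal h [b', A.π y]), b = b' →
      A.op (oinv h (tauo b (A.π y) hb)) y = A.op (oinv h (tauo b' (A.π y) hb')) y := by
    intro b hb b' hb' hbb
    subst hbb
    rfl
  have i1 : A.op (oinv h (tauo (A.π x) (A.π y) hl)) y = x := by
    have h3 := A.inv_op (tauo (A.π x) (A.π y) hl) x rfl
    rwa [← e1] at h3
  have i2 : A.op (oinv h (tauo (A.π x') (A.π y) hl')) y = x' := by
    have h3 := A.inv_op (tauo (A.π x') (A.π y) hl') x' rfl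
    rwa [← e2] at h3
  exact i1.symm.trans ((key _ hl _ hl' hp).trans i2)

/-- Chains of a deterministic relation over the same word. -/
theorem ab2_chain {β γ : Type} {R : β → β → Prop} {f : β → γ}
    (hR : ∀ x y y', R x y → R x y' → f y = f y' → y = y') {V V' : List β}
    (hV : List.IsChain R V) (hV' : List.IsChain R V') (hp : V.map f = V'.map f)
    (h0 : V.head? = V'.head?) : V = V' := by
  induction V generalizing V' with
  | nil =>
    cases V' with
    | nil => rfl
    | cons x' t' => simp at hp
  | cons x t ih =>
    cases V' with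
    | nil => simp at hp
    | cons x' t' =>
      have hx : x = x' := by simpa using h0
      subst hx
      have hpt : t.map f = t'.map f := by simpa using hp
      have c1 := List.isChain_cons.1 hV
      have c2 := List.isChain_cons.1 hV'
      have hh : t.head? = t'.head? := by
        cases t with
        | nil =>
          cases t' with
          | nil => rfl
          | cons y' s' => simp at hpt
        | cons y s =>
          cases t' with
          | nil => simp at hpt
          | cons y' s' =>
            have hy : f y = f y' := by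
              rw [List.map_cons, List.map_cons] at hpt
              exact (List.cons.inj hpt).1
            have h3 : y = y' := hR x y y' (c1.1 y rfl) (c2.1 y' rfl) hy
            rw [List.head?_cons, List.head?_cons, h3]
      rw [ih c1.2 c2.2 hpt hh]

/-- Two chains of neighbours over the same word with the same first element are equal. -/
theorem chain_eq {V V' : List E} (hV : List.IsChain A.Nb V) (hV' : List.IsChain A.Nb V')
    (hp : V.map A.π = V'.map A.π) (h0 : V.head? = V'.head?) : V = V' := by
  exact ab2_chain (R := A.Nb) (f := A.π) (fun _ _ _ h1 h2 h3 => A.nb_det h1 h2 h3) hV hV' hp h0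

theorem chain_eq_last {V V' : List E} (hV : List.IsChain A.Nb V) (hV' : List.IsChain A.Nb V')
    (hp : V.map A.π = V'.map A.π) (h0 : V.getLast? = V'.getLast?) : V = V' := by
  have h1 : V.reverse = V'.reverse := by
    refine ab2_chain (R := fun a b => A.Nb b a) (f := A.π)
      (fun _ _ _ h1 h2 h3 => A.nb_det' h1 h2 h3) ?_ ?_ ?_ ?_
    · exact List.isChain_reverse.2 hV
    · exact List.isChain_reverse.2 hV'
    · rw [List.map_reverse, List.map_reverse, hp]
    · rw [List.head?_reverse, List.head?_reverse, h0]
  exact List.reverse_injective h1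

end Act

end D0L
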