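import Pool.Agent.H.MP_374efc_lc.Fr.Ab2

/-!
# MP_374efc_lc, free case: images of chains are chains

Paper proof: /team-store/h43_374efc_L3.md
-/

set_option autoImplicit false

namespace D0L

variable {α E : Type} {h : α → List α} (A : Act α (Op h) E (osrc h) (otgt h) (oinv h))

namespace Act

theorem ab3_nb {x y : E} {b b' : α} (hx : A.π x = b) (hy : A.π y = b') (hl : Legal h [b, b'])
    (e : y = A.op (tauo b b' hl) x) : A.Nb x y := by
  subst hx hy
  exact ⟨hl, e⟩

theorem ab3_pi_fwd {e : E} {a : α} (he : A.π e = a) (j : Fin (h a).length) :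
    A.π (A.op (fwd a j) e) = (h a).get j := A.π_op (fwd a j) e he

end Act

theorem ab3_last {β : Type} {l : List β} {j : Fin l.length} (hj : j.1 + 1 = l.length) :
    ∃ l', l = l' ++ [l.get j] := by
  refine ⟨l.take j.1, ?_⟩
  have h1 := List.take_concat_get' l j.1 j.2
  rw [List.get_eq_getElem, h1, hj, List.take_length]

/-- Letters of the alphabet: a factor of length two of some `h a`, `a` arbitrary, is legal; also the junctions of
legal pairs. -/
theorem legal_of_get {h : α → List α} {a : α} {j j' : Fin (h a).length} (hj : j'.1 = j.1 + 1) :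
    Legal h [(h a).get j, (h a).get j'] := by
  refine ⟨a, 1, ?_⟩
  rw [it_one, app_singleton]
  have h1 : (h a).drop j.1 = (h a).get j :: (h a).drop (j.1 + 1) :=
    List.drop_eq_getElem_cons j.2
  have h2 : (h a).drop j'.1 = (h a).get j' :: (h a).drop (j'.1 + 1) :=
    List.drop_eq_getElem_cons j'.2
  rw [← hj, h2] at h1
  refine ⟨(h a).take j.1, (h a).drop (j'.1 + 1), ?_⟩
  conv_rhs => rw [← List.take_append_drop j.1 (h a), h1]
  simp

theorem legal_junction {h : α → List α} {a b : α} (hab : Legal h [a, b]) {j : Fin (h a).length}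
    (hj : j.1 + 1 = (h a).length) {j' : Fin (h b).length} (hj' : j'.1 = 0) :
    Legal h [(h a).get j, (h b).get j'] := by
  obtain ⟨c, n, s, t, hst⟩ := hab
  obtain ⟨l, hl⟩ := ab3_last hj
  have h2 : (h b) = (h b).get j' :: (h b).drop (j'.1 + 1) := by
    have h3 : (h b).drop j'.1 = (h b).get j' :: (h b).drop (j'.1 + 1) :=
      List.drop_eq_getElem_cons j'.2
    rw [← h3, hj', List.drop_zero]
  refine ⟨c, n + 1, app h s ++ l, (h b).drop (j'.1 + 1) ++ app h t, ?_⟩
  rw [it_succ, ← hst, app_append, app_append, app_cons, app_singleton]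
  conv_rhs => rw [hl, h2]
  simp only [List.append_assoc, List.cons_append, List.nil_append]

/-- `η` maps chains of neighbours to chains of neighbours (nonerasing `h`).
Proof: (V1) inside the blocks, (V2) at the junctions. -/
theorem Cpt.chain_app {A : Act α (Op h) E (osrc h) (otgt h) (oinv h)} (hA : Cpt A)
    (hne : ∀ a, h a ≠ []) {V : List E} (hV : List.IsChain A.Nb V) :
    List.IsChain A.Nb (app A.et V) := by
  have hblock : ∀ e, List.IsChain A.Nb (A.et e) := by
    intro e
    unfold Act.et
    rw [List.isChain_ofFn]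
    intro i hi
    refine A.ab3_nb (A.ab3_pi_fwd rfl _) (A.ab3_pi_fwd rfl _)
      (legal_of_get (j := ⟨i, Nat.lt_of_succ_lt hi⟩) (j' := ⟨i + 1, hi⟩) rfl) ?_
    exact hA.V1 (A.π e) ⟨i, Nat.lt_of_succ_lt hi⟩ ⟨i + 1, hi⟩ rfl _ e rfl
  induction V with
  | nil => exact List.isChain_nil
  | cons e V ih =>
    rw [app_cons, List.isChain_append]
    have hc := List.isChain_cons.1 hV
    refine ⟨hblock e, ih hc.2, ?_⟩
    intro x hx y hy
    cases V with
    | nil => simp [app_nil] at hy
    | cons f V =>
      obtain ⟨hl, hf⟩ := hc.1 f rfl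
      have he0 : 0 < (h (A.π e)).length := List.length_pos_of_ne_nil (hne _)
      have hf0 : 0 < (h (A.π f)).length := List.length_pos_of_ne_nil (hne _)
      have hx1 : (A.et e).getLast? = some (A.op (fwd (A.π e)
          ⟨(h (A.π e)).length - 1, by omega⟩) e) := by
        rw [List.getLast?_eq_getElem?, A.ab2_et_len]
        exact A.ab2_et_get rfl _
      have hy1 : (A.et f).head? = some (A.op (fwd (A.π f) ⟨0, hf0⟩) f) := by
        rw [List.head?_eq_getElem?]
        exact A.ab2_et_get rfl _
      rw [app_cons, List.head?_append, hy1] at hy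
      rw [hx1] at hx
      have hx2 := (Option.some.inj hx).symm
      have hy2 := (Option.some.inj hy).symm
      subst hx2 hy2
      refine A.ab3_nb (A.ab3_pi_fwd rfl _) (A.ab3_pi_fwd rfl _)
        (legal_junction hl (j := ⟨(h (A.π e)).length - 1, by omega⟩)
          (by
            change (h (A.π e)).length - 1 + 1 = (h (A.π e)).length
            omega) (j' := ⟨0, hf0⟩) rfl) ?_
      have h2 := hA.V2 (A.π e) (A.π f) hl ⟨(h (A.π e)).length - 1, by omega⟩
        (by
            change (h (A.π e)).length - 1 + 1 = (h (A.π e)).length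
            omega) ⟨0, hf0⟩ rfl (legal_junction hl
          (by
            change (h (A.π e)).length - 1 + 1 = (h (A.π e)).length
            omega) rfl) e rfl
      rw [← hf] at h2
      exact h2

theorem Cpt.chain_it {A : Act α (Op h) E (osrc h) (otgt h) (oinv h)} (hA : Cpt A)
    (hne : ∀ a, h a ≠ []) {V : List E} (hV : List.IsChain A.Nb V) (k : ℕ) :
    List.IsChain A.Nb (it A.et k V) := by
  induction k with
  | zero => exact hV
  | succ k ih =>
    rw [it_succ]
    exact hA.chain_app hne ih

end D0L
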