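import Pool.Agent.H.MP_374efc_lc.Fr.Ab3
import Pool.Agent.H.MP_374efc_lc.Red.Tile

/-!
# MP_374efc_lc, free case: valid structures are finite

Paper proof: /team-store/h43_374efc_L3.md
-/

set_option autoImplicit false

namespace D0L

variable {α E : Type} {h : α → List α} (A : Act α (Op h) E (osrc h) (otgt h) (oinv h))

namespace Act

end Act

namespace VS

variable {w : List α} {N : ℕ} {js : List ℕ} (M : VS h w N js E)

theorem map_om (i : ℕ) : (it M.A.et i M.om).map M.A.π = it h i w := by
  rw [M.A.map_it_et, M.om_π]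

theorem length_om (i : ℕ) : (it M.A.et i M.om).length = (it h i w).length := by
  rw [← M.map_om i, List.length_map]

/-- Every word `om i` is a product of words `om j`, `j < N`.  Proof: strong induction on `i`, as in `tiles` (`Red/Tile.lean`) (or apply `tiles` to the
system `(et, om)`: `Rel M.A.et M.om N`). -/
theorem tiles_om (hjs : js ≠ []) (hj : ∀ j ∈ js, j < N) (i : ℕ) : ∃ ks : List ℕ, ks ≠ [] ∧
    (∀ k ∈ ks, k < N) ∧ it M.A.et i M.om = (ks.map (fun k => it M.A.et k M.om)).flatten := by
  have hR : Rel M.A.et M.om N := ⟨js, hjs, hj, M.rel⟩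
  exact tiles hR i

include M in
/-- Proof: `gen` and `tiles_om`: every element is in some `om i`, `i < N`. -/
theorem card_le [Fintype E] (hjs : js ≠ []) (hj : ∀ j ∈ js, j < N) :
    Fintype.card E ≤ ∑ i ∈ Finset.range N, (it h i w).length := by
  classical
  have h1 : (Finset.univ : Finset E) ⊆
      (Finset.range N).biUnion (fun k => (it M.A.et k M.om).toFinset) := by
    intro e _
    obtain ⟨i, hi⟩ := M.gen e
    obtain ⟨ks, -, hk, he⟩ := M.tiles_om hjs hj i
    rw [he, List.mem_flatten] at hi
    obtain ⟨l, hl, hel⟩ := hi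
    rw [List.mem_map] at hl
    obtain ⟨k, hk1, rfl⟩ := hl
    rw [Finset.mem_biUnion]
    exact ⟨k, Finset.mem_range.2 (hk k hk1), List.mem_toFinset.2 hel⟩
  calc Fintype.card E = (Finset.univ : Finset E).card := Finset.card_univ.symm
    _ ≤ ((Finset.range N).biUnion (fun k => (it M.A.et k M.om).toFinset)).card :=
      Finset.card_le_card h1
    _ ≤ ∑ k ∈ Finset.range N, (it M.A.et k M.om).toFinset.card := Finset.card_biUnion_le
    _ ≤ ∑ k ∈ Finset.range N, (it h k w).length := by
      refine Finset.sum_le_sum fun k _ => ?_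
      rw [← M.length_om k]
      exact List.toFinset_card_le _

end VS

end D0L
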