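import Pool.Agent.H.MP_374efc_lc.Fr.Rc1

/-!
# MP_374efc_lc, free case: aligned desubstitution

Paper proof: /team-store/h43_374efc_L3.md
-/

set_option autoImplicit false

namespace D0L

/-- Two letters and all letters in `h ^ r (a)`: the images have length at least two. -/
theorem rc2_two {α : Type} [Fintype α] {h : α → List α} {m r : ℕ} (hs : Std h m r) (a : α) :
    2 ≤ (pw h r a).length := by
  classical
  have h1 := hs.full r le_rfl a
  have h2 : Fintype.card α ≤ (pw h r a).length := by
    calc Fintype.card α = (Finset.univ : Finset α).card := rfl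
      _ ≤ (pw h r a).toFinset.card :=
        Finset.card_le_card (fun b _ => List.mem_toFinset.2 (h1 b))
      _ ≤ (pw h r a).length := List.toFinset_card_le _
  exact hs.two.trans h2

theorem rc2_split {β : Type} (l : List β) (i n : ℕ) :
    l = l.take i ++ (l.drop i).take n ++ (l.drop i).drop n := by
  rw [List.append_assoc, List.take_append_drop, List.take_append_drop]

/-- The covering letters and offsets agree at the positions of `J`. -/
theorem rc2_one {α : Type} [Fintype α] {h : α → List α} {m r : ℕ} (hs : Std h m r)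
    {x y : List α} (hx : Legal h x) (hy : Legal h y) {p q : ℕ}
    (hag : ∀ s, D0 (Fintype.card α) m r ≤ s →
      s + D0 (Fintype.card α) m r < (app (pw h r) x).length →
      p ≤ s + q ∧ (app (pw h r) y)[s + q - p]? = (app (pw h r) x)[s]?) {s : ℕ}
    (h1 : 2 * D0 (Fintype.card α) m r ≤ s)
    (h2 : s + 2 * D0 (Fintype.card α) m r < (app (pw h r) x).length) :
    ∃ i i' a o, Cov (pw h r) x s i a o ∧ Cov (pw h r) y (s + q - p) i' a o := by
  have hrec := @recog α _ h m r hs x y
  obtain ⟨D, hD⟩ : ∃ D, D = D0 (Fintype.card α) m r := ⟨_, rfl⟩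
  obtain ⟨g, hg⟩ : ∃ g, g = pw h r := ⟨_, rfl⟩
  rw [← hD, ← hg] at hrec
  rw [← hD, ← hg] at hag h2
  rw [← hD] at h1
  rw [← hg]
  have hsd : p ≤ (s - D) + q := (hag (s - D) (by omega) (by omega)).1
  have hlen : s + D + q - p < (app g y).length := by
    have h3 := (hag (s + D) (by omega) (by omega)).2
    rw [List.getElem?_eq_getElem (by omega : s + D < (app g x).length)] at h3
    exact (List.getElem?_eq_some_iff.1 h3).1
  have hvy : ((app g x).drop (s - D)).take (2 * D + 1) =
      ((app g y).drop (s - D + q - p)).take (2 * D + 1) := by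
    apply List.ext_getElem?
    intro k
    rw [List.getElem?_take, List.getElem?_take]
    split_ifs with hk
    · rw [List.getElem?_drop, List.getElem?_drop]
      have h4 := (hag (s - D + k) (by omega) (by omega)).2
      rw [← h4]
      congr 1
      omega
    · rfl
  have e1 := rc2_split (app g x) (s - D) (2 * D + 1)
  have e2 := rc2_split (app g y) (s - D + q - p) (2 * D + 1)
  rw [← hvy] at e2
  have hv : (((app g x).drop (s - D)).take (2 * D + 1)).length = 2 * D + 1 := by
    rw [List.length_take, List.length_drop]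
    omega
  have l1 : ((app g x).take (s - D)).length + D = s := by
    rw [List.length_take]
    omega
  have l2 : ((app g y).take (s - D + q - p)).length + D = s + q - p := by
    rw [List.length_take]
    omega
  obtain ⟨i, a, o, c1⟩ := Cov.exists (g := g) (x := x) (q := s) (by omega)
  obtain ⟨i', a', o', c2⟩ := Cov.exists (g := g) (x := y) (q := s + q - p) (by omega)
  have h5 := hrec hx hy e1 e2 hv (i := i) (i' := i') (a := a) (a' := a') (o := o) (o' := o')
    (by rw [l1]; exact c1) (by rw [l2]; exact c2)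
  obtain ⟨rfl, rfl⟩ := h5
  exact ⟨i, i', a, o, c1, c2⟩

/-- The difference of the indices does not depend on the position. -/
theorem rc2_const {α β : Type} {g : α → List β} (hg : ∀ a, g a ≠ []) {x y : List α} {D p q : ℕ}
    (hpq : ∀ s, 2 * D ≤ s → s + 2 * D < (app g x).length → p ≤ s + q)
    (hone : ∀ s, 2 * D ≤ s → s + 2 * D < (app g x).length →
      ∃ i i' a o, Cov g x s i a o ∧ Cov g y (s + q - p) i' a o)
    {c c' : ℕ} {a0 : α} {o0 : ℕ} (h0 : Cov g x (2 * D) c a0 o0)
    (h0' : Cov g y (2 * D + q - p) c' a0 o0) (k : ℕ) :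
    2 * D + k + 2 * D < (app g x).length →
    ∃ i i' a o, Cov g x (2 * D + k) i a o ∧ Cov g y (2 * D + k + q - p) i' a o ∧
      i + c' = i' + c := by
  induction k with
  | zero =>
    intro _
    exact ⟨c, c', a0, o0, h0, h0', by omega⟩
  | succ k ih =>
    intro hk
    obtain ⟨i, i', a, o, c1, c2, e⟩ := ih (by omega)
    have hp1 := hpq (2 * D + k) (by omega) (by omega)
    have e3 : 2 * D + (k + 1) + q - p = 2 * D + k + q - p + 1 := by omega
    have hy : 2 * D + k + q - p + 1 < (app g y).length := by
      obtain ⟨j, j', b, o', _, c4⟩ := hone (2 * D + (k + 1)) (by omega) hk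
      rw [e3] at c4
      exact c4.get.2.2.1
    rw [e3, ← Nat.add_assoc]
    rcases c1.succ hg (by omega) with ⟨ho, c3⟩ | ⟨ho, b, c3⟩
    · rcases c2.succ hg hy with ⟨ho', c4⟩ | ⟨ho', b', c4⟩
      · exact ⟨i, i', a, o + 1, c3, c4, e⟩
      · omega
    · rcases c2.succ hg hy with ⟨ho', c4⟩ | ⟨ho', b', c4⟩
      · omega
      · obtain ⟨j, j', b2, o2, c5, c6⟩ := hone (2 * D + (k + 1)) (by omega) hk
        rw [e3] at c6
        rw [← Nat.add_assoc] at c5
        obtain ⟨u1, u2, u3⟩ := c3.unique c5
        obtain ⟨w1, w2, w3⟩ := c4.unique c6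
        subst u1 u3 w1
        rw [u2, ← u2] at c3
        refine ⟨i + 1, i' + 1, b, 0, c3, ?_, by omega⟩
        rw [u2, ← w2]
        exact c4

/-- Aligned desubstitution.  `p` is a position of `app g x`, `q` a position of `app g y`; if the words agree (aligned at `p`, `q`) except at distance
less than `D0` from the ends of `app g x`, and `p` is at distance at least `2 D0` from the ends of `app g x`, then the covering letters and
offsets agree and `x`, `y` agree (aligned at the covering letters) except at distance less than `D0` from the ends of `x`.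
Proof.  `g = pw h r`, `D = D0`.  For `s ∈ J := [2 D, |app g x| - 2 D)` the words `app g x`, `app g y` agree on `[s - D, s + D]` (aligned), so by `recog` the
covering letter and the offset at `s` in `x` and at `s + q - p` in `y` are the same; let `i s`, `i' s` be the indices.  For `s, s + 1 ∈ J`
`i (s+1) - i s = i' (s+1) - i' s ∈ {0, 1}` (`Cov.succ`, `Cov.unique`: it is `0` iff `o + 1 < |g a|`).  So `i s - i' s` is constant on `J` (`= p' - q'`).
Let `D ≤ j`, `j + D < |x|`, `b = x[j]`.  The start `s` of the block of `j` satisfies `s ≥ 2 j ≥ 2 D` and `s + 2 (|x| - j) ≤ |app g x|`, so `s ∈ J`, `i s = j`,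
and `y[i' s] = b`, `i' s = j + q' - p'`. -/
theorem align {α : Type} [Fintype α] {h : α → List α} {m r : ℕ} (hs : Std h m r)
    {x y : List α} (hx : Legal h x) (hy : Legal h y) {p q : ℕ}
    (hp : 2 * D0 (Fintype.card α) m r ≤ p)
    (hp' : p + 2 * D0 (Fintype.card α) m r < (app (pw h r) x).length)
    (hag : ∀ s, D0 (Fintype.card α) m r ≤ s →
      s + D0 (Fintype.card α) m r < (app (pw h r) x).length →
      p ≤ s + q ∧ (app (pw h r) y)[s + q - p]? = (app (pw h r) x)[s]?) :
    ∃ p' q' a o, Cov (pw h r) x p p' a o ∧ Cov (pw h r) y q q' a o ∧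
      ∀ s, D0 (Fintype.card α) m r ≤ s → s + D0 (Fintype.card α) m r < x.length →
        p' ≤ s + q' ∧ y[s + q' - p']? = x[s]? := by
  have hone := fun s => @rc2_one α _ h m r hs x y hx hy p q hag s
  have h2 := rc2_two hs
  obtain ⟨D, hD⟩ : ∃ D, D = D0 (Fintype.card α) m r := ⟨_, rfl⟩
  obtain ⟨g, hg⟩ : ∃ g, g = pw h r := ⟨_, rfl⟩
  rw [← hD, ← hg] at hag
  rw [← hD] at hp ⊢
  rw [← hD, ← hg] at hp'
  rw [← hg] at h2 ⊢
  rw [← hD, ← hg] at hone
  have hgn : ∀ a, g a ≠ [] := by
    intro a ha
    have := h2 a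
    rw [ha, List.length_nil] at this
    omega
  have hpq : ∀ s, 2 * D ≤ s → s + 2 * D < (app g x).length → p ≤ s + q :=
    fun s h3 h4 => (hag s (by omega) (by omega)).1
  obtain ⟨c, c', a0, o0, h0, h0'⟩ := hone (2 * D) le_rfl (by omega)
  have hall : ∀ s, 2 * D ≤ s → s + 2 * D < (app g x).length →
      ∃ i i' a o, Cov g x s i a o ∧ Cov g y (s + q - p) i' a o ∧ i + c' = i' + c := by
    intro s h3 h4
    have h5 := rc2_const hgn hpq hone h0 h0' (s - 2 * D) (by omega)
    rw [show 2 * D + (s - 2 * D) = s by omega] at h5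
    exact h5
  obtain ⟨p', q', a, o, c1, c2, e⟩ := hall p hp hp'
  rw [show p + q - p = q by omega] at c2
  refine ⟨p', q', a, o, c1, c2, ?_⟩
  intro s hs1 hs2
  have hb : x[s]? = some x[s] := List.getElem?_eq_getElem (by omega)
  have c3 := Cov.of_get (g := g) hb (o := 0) (by have := h2 x[s]; omega)
  have h6 := c3.two_mul_le h2
  have h7 := c3.get.2.2.1
  obtain ⟨i, i', a1, o1, c4, c5, e1⟩ := hall _ (by omega : 2 * D ≤ (app g (x.take s)).length + 0)
    (by omega)
  obtain ⟨u1, u2, u3⟩ := c3.unique c4
  have h8 := c5.get.2.1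
  refine ⟨by omega, ?_⟩
  rw [show s + q' - p' = i' by omega, h8, ← u2, hb]

end D0L
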