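import Pool.Agent.H.MP_374efc_lc.Fr.Se2
import Pool.Agent.H.MP_374efc_lc.Fr.Rc2

/-!
# MP_374efc_lc, free case: realisation of arrow paths

Paper proof: /team-store/h43_374efc_L3.md
-/

set_option autoImplicit false

namespace D0L.VS

variable {α E : Type} [Fintype α] {h : α → List α} {w : List α} {N : ℕ} {js : List ℕ}
  (M : VS h w N js E)

theorem ac1_app_pw (g : α → List α) (r : ℕ) (x : List α) : app (pw g r) x = it g r x :=
  (it_eq_app g r x).symm

/-- A backward path of `r`-fold arrows is realised.
Let `f K` occur in `om i`; then there are positions `P k`, `k ≤ K`, with `(om (i + r (K - k)))[P k] = f k` and such that `P k` is in the block of the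
position `P (k+1)` of `it h (i + r (K - k - 1)) w`, at an offset `o k` with `(it et r [f (k+1)])[o k] = f k`.
Proof: induction downwards from `K`: `P k = |it h r ((it h (..) w).take (P (k+1)))| + o k` (`it_get`). -/
theorem realise {r K : ℕ} (f : ℕ → E) (hf : ∀ k < K, f k ∈ it M.A.et r [f (k + 1)]) :
    ∃ (i : ℕ) (P o : ℕ → ℕ), (∀ k ≤ K, (it M.A.et (i + r * (K - k)) M.om)[P k]? = some (f k)) ∧
      ∀ k < K, Cov (pw h r) (it h (i + r * (K - (k + 1))) w) (P k) (P (k + 1)) (M.A.π (f (k + 1)))
        (o k) ∧ (it M.A.et r [f (k + 1)])[o k]? = some (f k) := by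
  obtain ⟨i, hi⟩ := M.gen (f K)
  obtain ⟨p0, hp0⟩ := List.mem_iff_getElem?.1 hi
  have ho : ∀ k, ∃ o : ℕ, k < K → (it M.A.et r [f (k + 1)])[o]? = some (f k) := by
    intro k
    by_cases hk : k < K
    · obtain ⟨o, h1⟩ := List.mem_iff_getElem?.1 (hf k hk)
      exact ⟨o, fun _ => h1⟩
    · exact ⟨0, fun h1 => absurd h1 hk⟩
  choose o ho using ho
  obtain ⟨Q, hQ0, hQs⟩ : ∃ Q : ℕ → ℕ, Q 0 = p0 ∧ ∀ d, Q (d + 1) =
      (it M.A.et r ((it M.A.et (i + r * d) M.om).take (Q d))).length + o (K - (d + 1)) :=
    ⟨fun d => Nat.rec p0 (fun d q =>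
      (it M.A.et r ((it M.A.et (i + r * d) M.om).take q)).length + o (K - (d + 1))) d,
      rfl, fun _ => rfl⟩
  have hA : ∀ d, d ≤ K → (it M.A.et (i + r * d) M.om)[Q d]? = some (f (K - d)) := by
    intro d
    induction d with
    | zero =>
      intro _
      rw [hQ0, Nat.mul_zero, Nat.add_zero, Nat.sub_zero]
      exact hp0
    | succ d ih =>
      intro hd
      have h1 := ih (by omega)
      have h2 : K - d = K - (d + 1) + 1 := by omega
      rw [h2] at h1
      have h3 := ho (K - (d + 1)) (by omega)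
      have h4 := (List.getElem?_eq_some_iff.1 h3).1
      have h5 := it_get M.A.et r h1 h4
      have h6 : i + r * (d + 1) = r + (i + r * d) := by ring
      rw [hQs, h6, it_add, h5, h3]
  refine ⟨i, fun k => Q (K - k), o, ?_, ?_⟩
  · intro k hk
    have h1 := hA (K - k) (by omega)
    have h2 : K - (K - k) = k := by omega
    rw [h2] at h1
    exact h1
  · intro k hk
    refine ⟨?_, ho k hk⟩
    have h1 := hA (K - (k + 1)) (by omega)
    have h2 : K - (K - (k + 1)) = k + 1 := by omega
    rw [h2] at h1
    obtain ⟨hl, hg⟩ := List.getElem?_eq_some_iff.1 h1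
    have h3 : it h (i + r * (K - (k + 1))) w =
        (it M.A.et (i + r * (K - (k + 1))) M.om).map M.A.π := (M.map_om _).symm
    have h4 : it M.A.et (i + r * (K - (k + 1))) M.om =
        (it M.A.et (i + r * (K - (k + 1))) M.om).take (Q (K - (k + 1))) ++
          f (k + 1) :: (it M.A.et (i + r * (K - (k + 1))) M.om).drop (Q (K - (k + 1)) + 1) := by
      rw [← hg, ← List.drop_eq_getElem_cons hl, List.take_append_drop]
    refine ⟨((it M.A.et (i + r * (K - (k + 1))) M.om).take (Q (K - (k + 1)))).map M.A.π,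
      ((it M.A.et (i + r * (K - (k + 1))) M.om).drop (Q (K - (k + 1)) + 1)).map M.A.π, ?_, ?_, ?_,
      ?_⟩
    · rw [h3]
      conv_lhs => rw [h4]
      rw [List.map_append, List.map_cons]
    · rw [List.length_map, List.length_take]
      change min (Q (K - (k + 1))) _ = Q (K - (k + 1))
      omega
    · rw [ac1_app_pw, ← M.A.map_it_et, List.length_map]
      have h5 : K - k = K - (k + 1) + 1 := by omega
      have h6 : K - (K - (k + 1) + 1) = k := by omega
      simp only [h5]
      rw [hQs, h6]
    · have h5 := (List.getElem?_eq_some_iff.1 (ho k hk)).1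
      have h6 := congrArg List.length (M.A.map_it_et r [f (k + 1)])
      rw [List.length_map, List.map_singleton] at h6
      rw [h6] at h5
      exact h5

end D0L.VS
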