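import Pool.Agent.H.MP_374efc_lc.Fr.Ac1

/-!
# MP_374efc_lc, free case: no long arrow paths outside T

Paper proof: /team-store/h43_374efc_L3.md
-/

set_option autoImplicit false

namespace D0L

theorem ac2_legal {α : Type} {h : α → List α} {w : List α} (hw : Legal h w) (k : ℕ) :
    Legal h (it h k w) := by
  obtain ⟨c, n, u, v, e⟩ := hw
  refine ⟨c, k + n, it h k u, it h k v, ?_⟩
  rw [it_add, ← e, it_append, it_append]

/-- A position of a product lies in one of the factors. -/
theorem ac2_split {E : Type} (L : List (List E)) {p : ℕ} {e : E} (he : L.flatten[p]? = some e) :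
    ∃ A B t : List E, t ∈ L ∧ L.flatten = A ++ t ++ B ∧
      ∃ p0, p = A.length + p0 ∧ t[p0]? = some e := by
  induction L generalizing p with
  | nil => simp at he
  | cons x L ih =>
    rw [List.flatten_cons] at he
    by_cases hp : p < x.length
    · refine ⟨[], L.flatten, x, List.mem_cons_self, by simp, p, by simp, ?_⟩
      rwa [List.getElem?_append_left hp] at he
    · rw [List.getElem?_append_right (by omega)] at he
      obtain ⟨A, B, t, ht, hAB, p0, hp0, h0⟩ := ih he
      refine ⟨x ++ A, B, t, List.mem_cons_of_mem _ ht, ?_, p0, ?_, h0⟩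
      · rw [List.flatten_cons, hAB]
        simp only [List.append_assoc]
      · rw [List.length_append]
        omega

end D0L

namespace D0L.VS

variable {α E : Type} [Fintype α] {h : α → List α} {w : List α} {N : ℕ} {js : List ℕ}
  (M : VS h w N js E)

/-- No backward path of `r`-fold arrows of length `≥ N` outside `T D`, if `D ≥ 2 D0` and `|w_i| ≤ D` for `i < r`.
Proof.  `K = N`.  `realise` gives `i`, `P`, `o`.  Let `i' = i + r N`, `v k = it h (i' - r k) w`.  `om i'` is a product of words `om j`, `j < N` (`tiles_om`), so the position `P 0`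
lies in some factor `om j`, at the position `p 0` of `om j`: `om i' = A ++ om j ++ B`, `P 0 = |A| + p 0`, `p 0 < |om j|`.
Claim, for `u` with `r u ≤ j`, by induction: there is `p` with `(om (j - r u))[p] = f u` and for all `s` with `D0 ≤ s`, `s + D0 < |w_(j - r u)|`: `p ≤ s + P u` and
`(v u)[s + P u - p] = (w_(j-ru))[s]`.  `u = 0`: clear.  Step `u → u + 1`, `r (u+1) ≤ j < N` (so `u < N`): `f u ∉ T D`, so `D < p` and `p + 1 + D < |w_(j-ru)|`; `align` with
`x = w_(j - r(u+1))`, `y = v (u+1)` (`app (pw h r) x = w_(j - ru)`, `app (pw h r) y = v u`) gives `p', q', a, o'` with `Cov .. x p p' a o'`, `Cov .. y (P u) q' a o'`; by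
`Cov.unique` `q' = P (u+1)`, `a = π (f (u+1))`, `o' = o u`.  Let `e' = (om (j - r(u+1)))[p']`: `π e' = x[p'] = a`, and `(it et r [e'])[o u] = (om (j-ru))[p] = f u`
(`it_get`), so `e' = f (u+1)` by `it_et_inj`.
Let `u = j / r` (`r ≥ 1`: for `r = 0` `Std.full` fails): `j - r u < r`, so `|w_(j-ru)| ≤ D` and `f u ∈ T D`, `u ≤ N`: contradiction. -/
theorem no_long_path {m r : ℕ} (hs : Std h m r) (hw : Legal h w) (hjs : js ≠ [])
    (hj : ∀ j ∈ js, j < N) {D : ℕ} (hD : 2 * D0 (Fintype.card α) m r ≤ D)
    (hD' : ∀ i < r, (it h i w).length ≤ D) (f : ℕ → E) (hf : ∀ k ≤ N, f k ∉ M.T D)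
    (hf' : ∀ k < N, f k ∈ it M.A.et r [f (k + 1)]) : False := by
  have hr : 1 ≤ r := by
    by_contra h0
    have h1 : r = 0 := by omega
    obtain ⟨a, b, hab⟩ := Fintype.one_lt_card_iff.1 (by have := hs.two; omega : 1 < Fintype.card α)
    have h2 := hs.full 0 (by omega) a b
    rw [it_zero, List.mem_singleton] at h2
    exact hab h2.symm
  obtain ⟨i, P, o, hP, hC⟩ := M.realise (K := N) f hf'
  have h0 := hP 0 (Nat.zero_le N)
  obtain ⟨ks, _, hksN, hom⟩ := M.tiles_om hjs hj (i + r * (N - 0))
  rw [hom] at h0
  obtain ⟨A, B, t, ht, hAB, p0, hp0, ht0⟩ := ac2_split _ h0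
  obtain ⟨j, hjm, rfl⟩ := List.mem_map.1 ht
  have hjN : j < N := hksN j hjm
  have claim : ∀ u, r * u ≤ j → ∃ p, (it M.A.et (j - r * u) M.om)[p]? = some (f u) ∧
      ∀ s, D0 (Fintype.card α) m r ≤ s →
        s + D0 (Fintype.card α) m r < (it h (j - r * u) w).length →
        p ≤ s + P u ∧ (it h (i + r * (N - u)) w)[s + P u - p]? = (it h (j - r * u) w)[s]? := by
    intro u
    induction u with
    | zero =>
      intro _
      refine ⟨p0, ht0, ?_⟩
      intro s _ hs2
      have e1 : it h (i + r * (N - 0)) w = A.map M.A.π ++ it h j w ++ B.map M.A.π := by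
        rw [← M.map_om (i + r * (N - 0)), hom, hAB, List.map_append, List.map_append, M.map_om j]
      have e2 : s + P 0 - p0 = (A.map M.A.π).length + s := by
        rw [List.length_map]
        omega
      have hs3 : s < (it h j w).length := by
        have : j - r * 0 = j := by omega
        rw [this] at hs2
        omega
      refine ⟨by omega, ?_⟩
      rw [e1, e2, List.append_assoc, List.getElem?_append_right (Nat.le_add_right _ _),
        Nat.add_sub_cancel_left, List.getElem?_append_left hs3]
      rfl
    | succ u ih =>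
      intro hu
      have hmul : r * (u + 1) = r * u + r := Nat.mul_succ r u
      have huN : u < N := by
        have h1 : u + 1 ≤ r * (u + 1) := Nat.le_mul_of_pos_left _ hr
        omega
      obtain ⟨p, hp, hag⟩ := ih (by omega)
      have ex : app (pw h r) (it h (j - r * (u + 1)) w) = it h (j - r * u) w := by
        have h1 : j - r * u = r + (j - r * (u + 1)) := by omega
        rw [h1, it_add]
        exact (it_eq_app h r _).symm
      have ey : app (pw h r) (it h (i + r * (N - (u + 1))) w) = it h (i + r * (N - u)) w := by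
        have h1 : N - u = (N - (u + 1)) + 1 := by omega
        have h2 : i + r * (N - u) = r + (i + r * (N - (u + 1))) := by
          rw [h1, Nat.mul_succ]
          omega
        rw [h2, it_add h r (i + r * (N - (u + 1)))]
        exact (it_eq_app h r _).symm
      have hnT := hf u huN.le
      have hpD : D < p := by
        by_contra hc
        exact hnT ⟨j - r * u, p, hp, Or.inl (by omega)⟩
      have hpD' : p + 1 + D < (it h (j - r * u) w).length := by
        by_contra hc
        refine hnT ⟨j - r * u, p, hp, Or.inr ?_⟩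
        rw [M.length_om]
        omega
      obtain ⟨p', q', a, o', c1, c2, hs'⟩ := align hs (ac2_legal hw (j - r * (u + 1)))
        (ac2_legal hw (i + r * (N - (u + 1)))) (p := p) (q := P u) (by omega)
        (by rw [ex]; omega) (by rw [ex, ey]; exact hag)
      obtain ⟨c3, c4⟩ := hC u huN
      obtain ⟨u1, u2, u3⟩ := c2.unique c3
      subst u1
      subst u2
      subst u3
      obtain ⟨_, hxp, _, _⟩ := c1.get
      obtain ⟨x1, x2, hx12, hx1, hpx, ho⟩ := c1
      have hmap := M.map_om (j - r * (u + 1))
      rw [← hmap, List.getElem?_map, Option.map_eq_some_iff] at hxp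
      obtain ⟨e', he', hπ⟩ := hxp
      have hlen : (it M.A.et r ((it M.A.et (j - r * (u + 1)) M.om).take p')).length =
          (app (pw h r) x1).length := by
        rw [← List.length_map (f := M.A.π), M.A.map_it_et, List.map_take, hmap, hx12, ← hx1,
          List.take_left]
        exact congrArg List.length (it_eq_app h r x1)
      have hoL : o u < (it M.A.et r [e']).length := by
        rw [← List.length_map (f := M.A.π), M.A.map_it_et, List.map_singleton, hπ]
        exact ho
      have hg := it_get M.A.et r he' hoL
      rw [hlen, hpx] at hg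
      have h1 : it M.A.et r (it M.A.et (j - r * (u + 1)) M.om) = it M.A.et (j - r * u) M.om := by
        rw [← it_add]
        congr 1
        omega
      rw [h1, hp] at hg
      have he : e' = f (u + 1) := by
        refine M.A.it_et_inj hπ (k := r) (J := o u) ?_ (hg.symm.trans c4.symm)
        rw [hπ]
        exact ho
      refine ⟨p', by rw [he', he], hs'⟩
  obtain ⟨p, hp, _⟩ := claim (j / r) (Nat.mul_div_le j r)
  have hmod : j - r * (j / r) = j % r := by
    have := Nat.mod_add_div j r
    omega
  have hlt : j - r * (j / r) < r := by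
    rw [hmod]
    exact Nat.mod_lt _ hr
  have hpl := (List.getElem?_eq_some_iff.1 hp).1
  rw [M.length_om] at hpl
  have h3 := hD' _ hlt
  have h4 : j / r ≤ j := Nat.div_le_self j r
  exact hf (j / r) (by omega) ⟨_, p, hp, Or.inl (by omega)⟩

end D0L.VS
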