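import Pool.Agent.H.MP_374efc_lc.Fr.Ac2

/-!
# MP_374efc_lc, free case: a rank function

Paper proof: /team-store/h43_374efc_L3.md
-/

set_option autoImplicit false

namespace D0L.VS

variable {α E : Type} [Fintype α] {h : α → List α} {w : List α} {N : ℕ} {js : List ℕ}
  (M : VS h w N js E)

/-- An infinite backward path on a cycle. -/
theorem ac3_backward {V : Type} {R : V → V → Prop} {x : V} (hx : Relation.TransGen R x x) :
    ∃ g : ℕ → V, ∀ k, R (g (k + 1)) (g k) := by
  have key : ∀ z : {z // Relation.TransGen R x z}, ∃ z' : {z // Relation.TransGen R x z},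
      R z'.1 z.1 := by
    rintro ⟨z, hz⟩
    cases hz with
    | single h => exact ⟨⟨x, hx⟩, h⟩
    | tail h1 h2 => exact ⟨⟨_, h1⟩, h2⟩
  choose F hF using key
  refine ⟨fun k => (F^[k] ⟨x, hx⟩).1, fun k => ?_⟩
  change R (F^[k + 1] ⟨x, hx⟩).1 (F^[k] ⟨x, hx⟩).1
  rw [Function.iterate_succ_apply']
  exact hF _

/-- Consecutive arrows. -/
theorem ac3_iterate {V : Type} {et : V → List V} {g : ℕ → V} (hg : ∀ k, g k ∈ et (g (k + 1)))
    (s j : ℕ) : g j ∈ it et s [g (j + s)] := by
  induction s with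
  | zero =>
    rw [it_zero]
    exact List.mem_singleton.2 rfl
  | succ s ih =>
    rw [it_succ', app_singleton, it_eq_app, mem_app]
    exact ⟨g (j + s), hg _, ih⟩

/-- A rank function.
Proof.  Let `R x y := y ∈ et x ∧ x ∉ T ∧ y ∉ T`.  `TransGen R x x` is impossible: go round the cycle `r N` times, `f k` = the element reached after `r N - r k` steps:
`f k ∈ it et r [f (k+1)]` (`r` consecutive arrows), contradiction to `no_long_path`.  Let `ρ x` be the number of `z` with `TransGen R z x`. -/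
theorem exists_rank [Fintype E] {m r : ℕ} (hs : Std h m r) (hw : Legal h w) (hjs : js ≠ [])
    (hj : ∀ j ∈ js, j < N) {D : ℕ} (hD : 2 * D0 (Fintype.card α) m r ≤ D)
    (hD' : ∀ i < r, (it h i w).length ≤ D) :
    ∃ ρ : E → ℕ, ∀ x y, x ∉ M.T D → y ∉ M.T D → y ∈ M.A.et x → ρ x < ρ y := by
  classical
  let R : E → E → Prop := fun x y => y ∈ M.A.et x ∧ x ∉ M.T D ∧ y ∉ M.T D
  have hcyc : ∀ x, ¬ Relation.TransGen R x x := by
    intro x hx
    obtain ⟨g, hg⟩ := ac3_backward hx
    refine no_long_path M hs hw hjs hj hD hD' (fun k => g (r * k)) (fun k _ => (hg _).2.2)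
      fun k _ => ?_
    have := ac3_iterate (et := M.A.et) (g := g) (fun k => (hg k).1) r (r * k)
    rw [Nat.mul_succ]
    exact this
  refine ⟨fun x => (Finset.univ.filter fun z => Relation.TransGen R z x).card,
    fun x y hx hy hxy => ?_⟩
  have hR : R x y := ⟨hxy, hx, hy⟩
  refine Finset.card_lt_card ?_
  rw [Finset.ssubset_iff_of_subset]
  · refine ⟨x, ?_, ?_⟩
    · rw [Finset.mem_filter]
      exact ⟨Finset.mem_univ _, Relation.TransGen.single hR⟩
    · rw [Finset.mem_filter]
      exact fun h => hcyc x h.2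
  · intro z hz
    rw [Finset.mem_filter] at hz ⊢
    exact ⟨Finset.mem_univ _, hz.2.tail hR⟩

end D0L.VS
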