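import Pool.Agent.H.MP_374efc_lc.Fr.Defs

/-!
# MP_374efc_lc, free case: actions and valid structures (L3, section 5): definitions
-/

set_option autoImplicit false

namespace D0L

/-- Actions: `op θ` is a bijection from the fibre of `src θ` to the fibre of `tgt θ`, with inverse `op (inv θ)`. -/
structure Act (α Θ E : Type) (src tgt : Θ → α) (inv : Θ → Θ) where
  π : E → α
  op : Θ → E → E
  π_op : ∀ θ e, π e = src θ → π (op θ e) = tgt θ
  inv_op : ∀ θ e, π e = src θ → op (inv θ) (op θ e) = e

/-- Unsigned operations for the morphism `h`: `η_(a,j)`, `j < |h a|`, and `τ_(a,b)`, `ab` legal. -/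
abbrev Op0 {α : Type} (h : α → List α) : Type :=
  (Σ a : α, Fin (h a).length) ⊕ {p : α × α // Legal h [p.1, p.2]}

/-- Signed operations. -/
abbrev Op {α : Type} (h : α → List α) : Type := Op0 h × Bool

/-- Source of an unsigned operation. -/
def src0 {α : Type} (h : α → List α) : Op0 h → α
  | Sum.inl p => p.1
  | Sum.inr p => p.1.1

/-- Target of an unsigned operation. -/
def tgt0 {α : Type} (h : α → List α) : Op0 h → α
  | Sum.inl p => (h p.1).get p.2
  | Sum.inr p => p.1.2

/-- Source of a signed operation. -/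
def osrc {α : Type} (h : α → List α) (θ : Op h) : α := if θ.2 then tgt0 h θ.1 else src0 h θ.1

/-- Target of a signed operation. -/
def otgt {α : Type} (h : α → List α) (θ : Op h) : α := if θ.2 then src0 h θ.1 else tgt0 h θ.1

/-- Inverse operation. -/
def oinv {α : Type} (h : α → List α) (θ : Op h) : Op h := (θ.1, !θ.2)

/-- `η_(a,j)` -/
def fwd {α : Type} {h : α → List α} (a : α) (j : Fin (h a).length) : Op h := (Sum.inl ⟨a, j⟩, false)

/-- `τ_(a,b)` -/
def tauo {α : Type} {h : α → List α} (a b : α) (hab : Legal h [a, b]) : Op h :=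
  (Sum.inr ⟨(a, b), hab⟩, false)

/-- The word `η(e)`. -/
def Act.et {α E : Type} {h : α → List α} (A : Act α (Op h) E (osrc h) (otgt h) (oinv h)) (e : E) :
    List E :=
  List.ofFn (fun j : Fin (h (A.π e)).length => A.op (fwd (A.π e) j) e)

/-- Neighbours: `y = τ(x)`. -/
def Act.Nb {α E : Type} {h : α → List α} (A : Act α (Op h) E (osrc h) (otgt h) (oinv h)) (x y : E) :
    Prop := ∃ hl : Legal h [A.π x, A.π y], y = A.op (tauo (A.π x) (A.π y) hl) x

/-- The relations (V1), (V2). -/
structure Cpt {α E : Type} {h : α → List α} (A : Act α (Op h) E (osrc h) (otgt h) (oinv h)) :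
    Prop where
  V1 : ∀ (a : α) (j j' : Fin (h a).length) (_ : j'.1 = j.1 + 1)
    (hl : Legal h [(h a).get j, (h a).get j']) (e : E), A.π e = a →
    A.op (fwd a j') e = A.op (tauo ((h a).get j) ((h a).get j') hl) (A.op (fwd a j) e)
  V2 : ∀ (a b : α) (hab : Legal h [a, b]) (j : Fin (h a).length) (_ : j.1 + 1 = (h a).length)
    (j' : Fin (h b).length) (_ : j'.1 = 0) (hl : Legal h [(h a).get j, (h b).get j']) (e : E),
    A.π e = a →
    A.op (fwd b j') (A.op (tauo a b hab) e) =
      A.op (tauo ((h a).get j) ((h b).get j') hl) (A.op (fwd a j) e)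

/-- Valid structures for the system `(h, w)` and the relation `w_N = ∏ w_j` (`j ∈ js`). -/
structure VS {α : Type} (h : α → List α) (w : List α) (N : ℕ) (js : List ℕ) (E : Type) where
  A : Act α (Op h) E (osrc h) (otgt h) (oinv h)
  cpt : Cpt A
  om : List E
  om_π : om.map A.π = w
  om_nb : List.IsChain A.Nb om
  rel : it A.et N om = (js.map (fun j => it A.et j om)).flatten
  gen : ∀ e, ∃ i, e ∈ it A.et i om
  first : ∀ i i' x x' V V', it A.et i om = x :: V → it A.et i' om = x' :: V' →
    A.π x = A.π x' → x = x'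
  last : ∀ i i' x x' V V', it A.et i om = V ++ [x] → it A.et i' om = V' ++ [x'] →
    A.π x = A.π x' → x = x'

end D0L
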