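import Pool.Agent.H.MP_374efc_lc.Fr.Co1

/-!
# MP_374efc_lc, free case: extension of injections

Paper proof: /team-store/h43_374efc_L3.md
-/

set_option autoImplicit false

namespace D0L

/-- Extension of an injection.
Proof: `card (N \ S) ≤ Q - card S = card (Fin Q \ f S)`. -/
theorem extend_inj {E : Type} [Fintype E] {S N : Set E} (hSN : S ⊆ N) {Q : ℕ} (hN : N.ncard ≤ Q)
    (f : E → Fin Q) (hf : Set.InjOn f S) : ∃ g : E → Fin Q, Set.InjOn g N ∧ ∀ e ∈ S, g e = f e := by
  classical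
  have h1 : (N \ S).ncard = N.ncard - S.ncard := Set.ncard_sdiff hSN (Set.toFinite S)
  have h2 : (f '' S).ncard = S.ncard := hf.ncard_image
  have h3 : (f '' S).ncard + (f '' S)ᶜ.ncard = Q := by
    have := Set.ncard_add_ncard_compl (f '' S)
    simpa using this
  have h4 : Fintype.card ↥(N \ S) ≤ Fintype.card ↥((f '' S)ᶜ) := by
    rw [← Nat.card_eq_fintype_card, ← Nat.card_eq_fintype_card, Nat.card_coe_set_eq,
      Nat.card_coe_set_eq]
    omega
  obtain ⟨e⟩ := Function.Embedding.nonempty_of_card_le h4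
  refine ⟨fun x => if h : x ∈ N \ S then (e ⟨x, h⟩ : Fin Q) else f x, ?_, ?_⟩
  · intro x hx y hy hxy
    by_cases hxS : x ∈ S <;> by_cases hyS : y ∈ S
    · have h5 : x ∉ N \ S := fun h => h.2 hxS
      have h6 : y ∉ N \ S := fun h => h.2 hyS
      simp only [dif_neg h5, dif_neg h6] at hxy
      exact hf hxS hyS hxy
    · have h5 : x ∉ N \ S := fun h => h.2 hxS
      have h6 : y ∈ N \ S := ⟨hy, hyS⟩
      simp only [dif_neg h5, dif_pos h6] at hxy
      exact absurd (hxy ▸ Set.mem_image_of_mem f hxS) (e ⟨y, h6⟩).2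
    · have h5 : x ∈ N \ S := ⟨hx, hxS⟩
      have h6 : y ∉ N \ S := fun h => h.2 hyS
      simp only [dif_pos h5, dif_neg h6] at hxy
      exact absurd (hxy.symm ▸ Set.mem_image_of_mem f hyS) (e ⟨x, h5⟩).2
    · have h5 : x ∈ N \ S := ⟨hx, hxS⟩
      have h6 : y ∈ N \ S := ⟨hy, hyS⟩
      simp only [dif_pos h5, dif_pos h6] at hxy
      have h7 := e.injective (Subtype.ext hxy)
      exact congrArg Subtype.val h7
  · intro x hx
    have h5 : x ∉ N \ S := fun h => h.2 hx
    simp only [dif_neg h5]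

/-- An injection into `Fin Q`. -/
theorem exists_inj {E : Type} [Fintype E] {N : Set E} {Q : ℕ} (hN : N.ncard ≤ Q) (hQ : 0 < Q) :
    ∃ g : E → Fin Q, Set.InjOn g N := by
  obtain ⟨g, h1, -⟩ := extend_inj (Set.empty_subset N) hN (fun _ => ⟨0, hQ⟩)
    (Set.injOn_empty _)
  exact ⟨g, h1⟩

end D0L
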