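import Pool.Agent.H.MP_374efc_lc.Fr.Cd1

/-!
# MP_374efc_lc, free case: codes of collars

Paper proof: /team-store/h43_374efc_L3.md
-/

set_option autoImplicit false

namespace D0L

/-- Many sets: two of them have isomorphic collars.
Proof.  If `Q = 0` all collars are empty and any two sets will do (`1 < card ι`, as `thC _ _ 0 = 1`).  Otherwise fix `f` injective on `T2` (`exists_inj`) and
`f i` injective on `NN (X i)` extending `f` on `T2` (`extend_inj`).  Code of `i`: the function on `Fin Q` which maps `q` to the pair of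
* `none` if `q` is not in `f i (NN (X i))`; otherwise, `q = f i u`, `some (π u, side, c)`, `side : Fin 3` telling `u ∈ T`, `u ∈ X i`, `u ∉ X i`, `c : Bool` telling
`u ∈ CC (X i)` (type `Option (α × Fin 3 × Bool)`, `6 n + 1` elements);
* the function `Θ → Option (Fin Q)`: `θ ↦ some (f i (op θ u))` if `q = f i u`, `u ∈ CC (X i)`, and `none` otherwise (`(Q + 1)^δ` elements).
The type of the codes has `thC` elements: two indices `i ≠ i'` have the same code.  For `u ∈ NN (X i)` there is a unique `ψ u ∈ NN (X i')` with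
`f i' (ψ u) = f i u`; `ψ'` in the other direction.  All properties of `Iso` follow (for `op`: `f i (op θ u) = f i' (op θ (ψ u))` and `op θ u ∈ NN (X i)`,
`op θ (ψ u) ∈ NN (X i')`; `idT`: `f i u = f u = f i' u`). -/
theorem codes {α Θ E ι : Type} [Fintype α] [Fintype Θ] [Fintype E] [Fintype ι] {src tgt : Θ → α}
    {inv : Θ → Θ} (A : Act α Θ E src tgt inv) {T : Set E} (X : ι → Set E) (hT : ∀ i, T ⊆ X i)
    {Q : ℕ} (hQ : ∀ i, (A.NN T (X i)).ncard ≤ Q)
    (hc : thC (Fintype.card α) (Fintype.card Θ) Q < Fintype.card ι) :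
    ∃ i i', i ≠ i' ∧ ∃ ψ ψ', A.Iso T (X i) (X i') ψ ψ' := by
  classical
  have hN2 : ∀ i, A.T2 T ⊆ A.NN T (X i) := fun i e he => Or.inl he
  have hNC : ∀ i, A.CC T (X i) ⊆ A.NN T (X i) := fun i e he => Or.inr (Or.inl he)
  have hNO : ∀ i, ∀ u ∈ A.CC T (X i), ∀ θ, A.op θ u ∈ A.NN T (X i) :=
    fun i u hu θ => Or.inr (Or.inr ⟨u, hu, θ, rfl⟩)
  rcases Nat.eq_zero_or_pos Q with hQ0 | hQ0
  · subst hQ0
    have hemp : ∀ i, ∀ u, u ∉ A.NN T (X i) := by
      intro i u hu
      have h1 := (Set.ncard_eq_zero (Set.toFinite _)).1 (Nat.le_zero.1 (hQ i))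
      rw [h1] at hu
      exact hu
    have h1 : 1 < Fintype.card ι := by
      unfold thC at hc
      rwa [pow_zero] at hc
    obtain ⟨i, i', hii⟩ := Fintype.one_lt_card_iff.1 h1
    exact ⟨i, i', hii, id, id,
      { mem := fun u hu => absurd hu (hemp _ u)
        mem' := fun u hu => absurd hu (hemp _ u)
        left := fun u _ => rfl
        right := fun u _ => rfl
        letter := fun u _ => rfl
        inT := fun u _ => Iff.rfl
        inX := fun u hu => absurd hu (hemp _ u)
        inC := fun u hu => absurd hu (hemp _ u)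
        idT := fun u _ => rfl
        op := fun u _ _ => rfl }⟩
  have hι : 0 < Fintype.card ι := lt_of_le_of_lt (Nat.zero_le _) hc
  obtain ⟨i0⟩ := Fintype.card_pos_iff.1 hι
  obtain ⟨f0, hf0⟩ := exists_inj
    ((Set.ncard_le_ncard (hN2 i0) (Set.toFinite _)).trans (hQ i0)) hQ0
  have hex : ∀ i, ∃ g : E → Fin Q, Set.InjOn g (A.NN T (X i)) ∧ ∀ e ∈ A.T2 T, g e = f0 e :=
    fun i => extend_inj (hN2 i) (hQ i) f0 hf0
  choose f hf hfT using hex
  obtain ⟨sd, hsd0, hsd2⟩ : ∃ sd : ι → E → Fin 3, (∀ i u, sd i u = 0 ↔ u ∈ T) ∧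
      ∀ i u, sd i u = 2 ↔ u ∉ X i := by
    refine ⟨fun i u => if u ∈ T then 0 else if u ∈ X i then 1 else 2, ?_, ?_⟩
    · intro i u
      by_cases h1 : u ∈ T
      · simp [h1]
      · by_cases h2 : u ∈ X i
        · simp [h1, h2]
        · simp [h1, h2]
    · intro i u
      by_cases h1 : u ∈ T
      · simp [h1, hT i h1]
      · by_cases h2 : u ∈ X i
        · simp [h1, h2]
        · simp [h1, h2]
  obtain ⟨cod, hcod1, hcod2⟩ :
      ∃ cod : ι → Fin Q → Option (α × Fin 3 × Bool) × (Θ → Option (Fin Q)),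
      (∀ i, ∀ u ∈ A.NN T (X i), cod i (f i u) =
        (some (A.π u, sd i u, decide (u ∈ A.CC T (X i))),
          fun θ => if u ∈ A.CC T (X i) then some (f i (A.op θ u)) else none)) ∧
      ∀ i q, (∀ u ∈ A.NN T (X i), f i u ≠ q) → (cod i q).1 = none := by
    refine ⟨fun i q => if h : ∃ u, u ∈ A.NN T (X i) ∧ f i u = q then
        (some (A.π h.choose, sd i h.choose, decide (h.choose ∈ A.CC T (X i))),
          fun θ => if h.choose ∈ A.CC T (X i) then some (f i (A.op θ h.choose)) else none)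
        else (none, fun _ => none), ?_, ?_⟩
    · intro i u hu
      have h : ∃ v, v ∈ A.NN T (X i) ∧ f i v = f i u := ⟨u, hu, rfl⟩
      have hch : h.choose = u := hf i h.choose_spec.1 hu h.choose_spec.2
      show (if h : ∃ v, v ∈ A.NN T (X i) ∧ f i v = f i u then _ else _) = _
      rw [dif_pos h, hch]
    · intro i q hq
      have h : ¬ ∃ v, v ∈ A.NN T (X i) ∧ f i v = q := by
        rintro ⟨v, hv, hv'⟩
        exact hq v hv hv'
      show (dite (∃ v, v ∈ A.NN T (X i) ∧ f i v = q) _ _ :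
        Option (α × Fin 3 × Bool) × (Θ → Option (Fin Q))).1 = none
      rw [dif_neg h]
  have hcard : Fintype.card (Fin Q → Option (α × Fin 3 × Bool) × (Θ → Option (Fin Q))) =
      thC (Fintype.card α) (Fintype.card Θ) Q := by
    unfold thC
    rw [Fintype.card_fun, Fintype.card_prod, Fintype.card_option, Fintype.card_prod,
      Fintype.card_prod, Fintype.card_fun, Fintype.card_option, Fintype.card_fin,
      Fintype.card_fin, Fintype.card_bool]
    congr 3
    ring
  obtain ⟨i, i', hii, hcc⟩ := Fintype.exists_ne_map_eq_of_card_lt cod (by rw [hcard]; exact hc)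
  -- the partner of an element
  have partner : ∀ i i', cod i = cod i' → ∀ u ∈ A.NN T (X i), ∃ u' ∈ A.NN T (X i'),
      f i' u' = f i u := by
    intro i i' hcc u hu
    by_contra hno
    have h1 : (cod i' (f i u)).1 = none := by
      refine hcod2 i' _ fun v hv hv' => hno ⟨v, hv, hv'⟩
    rw [← hcc, hcod1 i u hu] at h1
    exact absurd h1 (by simp)
  have agree : ∀ i i', cod i = cod i' → ∀ u ∈ A.NN T (X i), ∀ u' ∈ A.NN T (X i'),
      f i' u' = f i u → A.π u' = A.π u ∧ sd i' u' = sd i u ∧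
        (u' ∈ A.CC T (X i') ↔ u ∈ A.CC T (X i)) ∧
        ∀ θ, u ∈ A.CC T (X i) → f i' (A.op θ u') = f i (A.op θ u) := by
    intro i i' hcc u hu u' hu' hff
    have h1 := hcod1 i u hu
    have h2 := hcod1 i' u' hu'
    rw [hff, ← hcc, h1] at h2
    have h3 := (Prod.mk.inj h2).1
    have h4 := (Prod.mk.inj h2).2
    have h5 := Option.some.inj h3
    have h6 := (Prod.mk.inj h5).1
    have h7 := (Prod.mk.inj (Prod.mk.inj h5).2).1
    have h8 := (Prod.mk.inj (Prod.mk.inj h5).2).2
    have h9 : (u' ∈ A.CC T (X i') ↔ u ∈ A.CC T (X i)) := (decide_eq_decide.1 h8).symm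
    refine ⟨h6.symm, h7.symm, h9, ?_⟩
    intro θ hu1
    have h10 := congrFun h4 θ
    rw [if_pos hu1, if_pos (h9.2 hu1)] at h10
    exact (Option.some.inj h10).symm
  have mk : ∀ i i', cod i = cod i' → ∃ ψ : E → E, ∀ u ∈ A.NN T (X i),
      ψ u ∈ A.NN T (X i') ∧ f i' (ψ u) = f i u := by
    intro i i' hcc
    have h1 : ∀ u, ∃ v, u ∈ A.NN T (X i) → v ∈ A.NN T (X i') ∧ f i' v = f i u := by
      intro u
      by_cases hu : u ∈ A.NN T (X i)
      · obtain ⟨v, hv, hv'⟩ := partner i i' hcc u hu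
        exact ⟨v, fun _ => ⟨hv, hv'⟩⟩
      · exact ⟨u, fun h => absurd h hu⟩
    choose ψ hψ using h1
    exact ⟨ψ, hψ⟩
  obtain ⟨ψ, hψ⟩ := mk i i' hcc
  obtain ⟨ψ', hψ'⟩ := mk i' i hcc.symm
  refine ⟨i, i', hii, ψ, ψ', ?_⟩
  exact
    { mem := fun u hu => (hψ u hu).1
      mem' := fun u hu => (hψ' u hu).1
      left := by
        intro u hu
        have h1 := hψ u hu
        have h2 := hψ' (ψ u) h1.1
        exact hf i h2.1 hu (h2.2.trans h1.2)
      right := by
        intro u hu
        have h1 := hψ' u hu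
        have h2 := hψ (ψ' u) h1.1
        exact hf i' h2.1 hu (h2.2.trans h1.2)
      letter := fun u hu => (agree i i' hcc u hu _ (hψ u hu).1 (hψ u hu).2).1
      inT := by
        intro u hu
        have h1 := (agree i i' hcc u hu _ (hψ u hu).1 (hψ u hu).2).2.1
        rw [← hsd0 i' (ψ u), ← hsd0 i u, h1]
      inX := by
        intro u hu
        have h1 := (agree i i' hcc u hu _ (hψ u hu).1 (hψ u hu).2).2.1
        have h2 : ψ u ∉ X i' ↔ u ∉ X i := by
          rw [← hsd2 i' (ψ u), ← hsd2 i u, h1]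
        exact not_iff_not.1 h2
      inC := fun u hu => (agree i i' hcc u hu _ (hψ u hu).1 (hψ u hu).2).2.2.1
      idT := by
        intro u hu
        have h1 := hψ u (hN2 i hu)
        refine hf i' h1.1 (hN2 i' hu) ?_
        rw [h1.2, hfT i u hu, hfT i' u hu]
      op := by
        intro u hu θ
        have h1 := hψ u (hNC i hu)
        have h2 := agree i i' hcc u (hNC i hu) _ h1.1 h1.2
        have h3 := hψ (A.op θ u) (hNO i u hu θ)
        refine hf i' h3.1 (hNO i' _ (h2.2.2.1.2 hu) θ) ?_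
        rw [h3.2, h2.2.2.2 θ hu] }

end D0L
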