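import Pool.Agent.H.MP_374efc_lc.Fr.Pu1

/-!
# MP_374efc_lc, free case: collars

Paper proof: /team-store/h43_374efc_L3.md
-/

set_option autoImplicit false

namespace D0L

/-- Number of codes. -/
def thC (n δ Q : ℕ) : ℕ := ((6 * n + 1) * (Q + 1) ^ δ) ^ Q

/-- bound on the size of the collars -/
def qC (δ t W : ℕ) : ℕ := t * (1 + δ) ^ 2 + 2 * W * (1 + δ)

/-- Bound on the number of elements. -/
def eC (n δ t W : ℕ) : ℕ :=
  t * (1 + δ) ^ 2 + (t * (1 + δ) ^ 2 + 1) * thC n δ (qC δ t W)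

variable {α Θ E : Type} {src tgt : Θ → α} {inv : Θ → Θ} (A : Act α Θ E src tgt inv) (T : Set E)

/-- Elements at distance at most `2` from `T`. -/
def Act.T2 : Set E :=
  {e | e ∈ T ∨ (∃ y ∈ T, ∃ θ, e = A.op θ y) ∨ ∃ y ∈ T, ∃ θ θ', e = A.op θ' (A.op θ y)}

/-- Cut edges of `X`. -/
def Act.CE (X : Set E) : Set (E × Θ) :=
  {p | p.1 ∈ X ∧ p.1 ∉ T ∧ A.π p.1 = src p.2 ∧ A.op p.2 p.1 ∉ X}

/-- End points of the cut edges of `X`. -/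
def Act.CC (X : Set E) : Set E :=
  {e | ∃ p ∈ A.CE T X, e = p.1 ∨ e = A.op p.2 p.1}

/-- The collar of `X`. -/
def Act.NN (X : Set E) : Set E :=
  {e | e ∈ A.T2 T ∨ e ∈ A.CC T X ∨ ∃ u ∈ A.CC T X, ∃ θ, e = A.op θ u}

/-- Isomorphism of the collars of `X` and `X'`. -/
structure Act.Iso (X X' : Set E) (ψ ψ' : E → E) : Prop where
  mem : ∀ u ∈ A.NN T X, ψ u ∈ A.NN T X'
  mem' : ∀ u ∈ A.NN T X', ψ' u ∈ A.NN T X
  left : ∀ u ∈ A.NN T X, ψ' (ψ u) = u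
  right : ∀ u ∈ A.NN T X', ψ (ψ' u) = u
  letter : ∀ u ∈ A.NN T X, A.π (ψ u) = A.π u
  inT : ∀ u ∈ A.NN T X, ψ u ∈ T ↔ u ∈ T
  inX : ∀ u ∈ A.NN T X, ψ u ∈ X' ↔ u ∈ X
  inC : ∀ u ∈ A.NN T X, ψ u ∈ A.CC T X' ↔ u ∈ A.CC T X
  idT : ∀ u ∈ A.T2 T, ψ u = u
  op : ∀ u ∈ A.CC T X, ∀ θ, ψ (A.op θ u) = A.op θ (ψ u)

/-- the image of a product with all operations -/
theorem co1_img [Fintype E] [Fintype Θ] (f : Θ → E → E) (U : Set E) :
    {e | ∃ y ∈ U, ∃ θ, e = f θ y}.ncard ≤ U.ncard * Fintype.card Θ := by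
  have h1 : {e | ∃ y ∈ U, ∃ θ, e = f θ y} =
      (fun p : E × Θ => f p.2 p.1) '' (U ×ˢ (Set.univ : Set Θ)) := by
    ext e
    constructor
    · rintro ⟨y, hy, θ, rfl⟩
      exact ⟨(y, θ), ⟨hy, Set.mem_univ _⟩, rfl⟩
    · rintro ⟨⟨y, θ⟩, ⟨hy, -⟩, rfl⟩
      exact ⟨y, hy, θ, rfl⟩
  rw [h1]
  refine (Set.ncard_image_le (Set.toFinite _)).trans ?_
  rw [Set.ncard_prod, Set.ncard_univ, Nat.card_eq_fintype_card]

/-- Proof: `T2` is the union of `T`, of the images of `T × Θ` and of `T × Θ × Θ`: `t + t δ + t δ^2 ≤ t (1 + δ)^2`. -/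
theorem Act.card_T2 [Fintype E] [Fintype Θ] {t : ℕ} (ht : T.ncard ≤ t) :
    (A.T2 T).ncard ≤ t * (1 + Fintype.card Θ) ^ 2 := by
  have h1 : A.T2 T ⊆ T ∪ {e | ∃ y ∈ T, ∃ θ, e = A.op θ y} ∪
      {e | ∃ y ∈ {e | ∃ y ∈ T, ∃ θ, e = A.op θ y}, ∃ θ, e = A.op θ y} := by
    rintro e (he | ⟨y, hy, θ, he⟩ | ⟨y, hy, θ, θ', he⟩)
    · exact Or.inl (Or.inl he)
    · exact Or.inl (Or.inr ⟨y, hy, θ, he⟩)
    · exact Or.inr ⟨A.op θ y, ⟨y, hy, θ, rfl⟩, θ', he⟩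
  have h2 := co1_img A.op T
  have h3 := co1_img A.op {e | ∃ y ∈ T, ∃ θ, e = A.op θ y}
  have h4 := Set.ncard_le_ncard h1 (Set.toFinite _)
  have h5 := Set.ncard_union_le (T ∪ {e | ∃ y ∈ T, ∃ θ, e = A.op θ y})
    {e | ∃ y ∈ {e | ∃ y ∈ T, ∃ θ, e = A.op θ y}, ∃ θ, e = A.op θ y}
  have h6 := Set.ncard_union_le T {e | ∃ y ∈ T, ∃ θ, e = A.op θ y}
  have h7 : T.ncard * Fintype.card Θ ≤ t * Fintype.card Θ := Nat.mul_le_mul_right _ ht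
  have h8 : {e | ∃ y ∈ T, ∃ θ, e = A.op θ y}.ncard * Fintype.card Θ ≤
      t * Fintype.card Θ * Fintype.card Θ := Nat.mul_le_mul_right _ (h2.trans h7)
  have h9 : t * (1 + Fintype.card Θ) ^ 2 = t + t * Fintype.card Θ +
      t * Fintype.card Θ * Fintype.card Θ + t * Fintype.card Θ := by ring
  rw [h9]
  omega

/-- Proof: `CC` is the union of two images of `CE`; `NN = T2 ∪ CC ∪` image of `CC × Θ`. -/
theorem Act.card_NN [Fintype E] [Fintype Θ] {t W : ℕ} (ht : T.ncard ≤ t) {X : Set E}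
    (hW : (A.CE T X).ncard ≤ W) : (A.NN T X).ncard ≤ qC (Fintype.card Θ) t W := by
  have h1 : A.CC T X ⊆ (Prod.fst '' A.CE T X) ∪ ((fun p : E × Θ => A.op p.2 p.1) '' A.CE T X) := by
    rintro e ⟨p, hp, he | he⟩
    · exact Or.inl ⟨p, hp, he.symm⟩
    · exact Or.inr ⟨p, hp, he.symm⟩
  have h2 : (A.CC T X).ncard ≤ 2 * W := by
    have e1 := Set.ncard_le_ncard h1 (Set.toFinite _)
    have e2 := Set.ncard_union_le (Prod.fst '' A.CE T X)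
      ((fun p : E × Θ => A.op p.2 p.1) '' A.CE T X)
    have e3 := Set.ncard_image_le (f := (Prod.fst : E × Θ → E)) (Set.toFinite (A.CE T X))
    have e4 := Set.ncard_image_le (f := (fun p : E × Θ => A.op p.2 p.1)) (Set.toFinite (A.CE T X))
    omega
  have h3 : A.NN T X ⊆ A.T2 T ∪ A.CC T X ∪ {e | ∃ u ∈ A.CC T X, ∃ θ, e = A.op θ u} := by
    rintro e (he | he | he)
    · exact Or.inl (Or.inl he)
    · exact Or.inl (Or.inr he)
    · exact Or.inr he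
  have h4 := Set.ncard_le_ncard h3 (Set.toFinite _)
  have h5 := Set.ncard_union_le (A.T2 T ∪ A.CC T X) {e | ∃ u ∈ A.CC T X, ∃ θ, e = A.op θ u}
  have h6 := Set.ncard_union_le (A.T2 T) (A.CC T X)
  have h7 := co1_img A.op (A.CC T X)
  have h8 : (A.CC T X).ncard * Fintype.card Θ ≤ 2 * W * Fintype.card Θ :=
    Nat.mul_le_mul_right _ h2
  have h9 := Act.card_T2 A T ht
  have h10 : 2 * W * (1 + Fintype.card Θ) = 2 * W + 2 * W * Fintype.card Θ := by ring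
  unfold qC
  rw [h10]
  omega

end D0L
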