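import Pool.Agent.H.MP_374efc_lc.Fr.Fi3

/-!
# MP_374efc_lc, free case: primitive morphisms: 2^n steps; two letters

Paper proof: /team-store/h43_374efc_L3.md
-/

set_option autoImplicit false

namespace D0L

/-- Sets of letters: `2 ^ card α` steps are enough.
Proof.  For a letter `a` let `S k` be the set of letters of `it h k [a]`; `S (k+1)` depends only on `S k`.  Two of `S 0, .., S (2^n)` are equal, `S i = S j`,
`i < j ≤ 2^n`; the sequence is periodic from `i` on, and it is eventually constant `= univ` (primitivity: `b ∈ it h K [a]` for all `a, b` implies the same for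
all multiples of `K`, and for all larger numbers since every letter occurs in some `h c`), so `S i = univ`, and `S k = univ` for `k ≥ i`. -/
theorem full_of_prim {α : Type} [Fintype α] {h : α → List α} (hp : Prim h) (hne : ∀ a, h a ≠ [])
    {k : ℕ} (hk : 2 ^ Fintype.card α ≤ k) (a b : α) : b ∈ it h k [a] := by
  classical
  obtain ⟨K, hK, hfull⟩ := hp
  have hocc : ∀ c : α, ∃ d, c ∈ h d := by
    intro c
    obtain ⟨K', rfl⟩ : ∃ K', K = K' + 1 := ⟨K - 1, by omega⟩
    have h1 := hfull a c
    rw [it_succ, mem_app] at h1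
    obtain ⟨d, -, hd⟩ := h1
    exact ⟨d, hd⟩
  have hup : ∀ i j, i ≤ j → (∀ c, c ∈ it h i [a]) → ∀ c, c ∈ it h j [a] := by
    intro i j hij hi
    induction j, hij using Nat.le_induction with
    | base => exact hi
    | succ j _ ih =>
      intro c
      obtain ⟨d, hd⟩ := hocc c
      rw [it_succ, mem_app]
      exact ⟨d, ih d, hd⟩
  obtain ⟨L, hL⟩ : ∃ L : ℕ → Finset α, L = fun k => (it h k [a]).toFinset := ⟨_, rfl⟩
  have hLm : ∀ k c, c ∈ L k ↔ c ∈ it h k [a] := by
    intro k c
    rw [hL]
    exact List.mem_toFinset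
  have hstep : ∀ i j, L i = L j → L (i + 1) = L (j + 1) := by
    intro i j hij
    ext c
    rw [hLm, hLm, it_succ, it_succ, mem_app, mem_app]
    constructor
    · rintro ⟨d, h1, h2⟩
      exact ⟨d, (hLm j d).1 (hij ▸ (hLm i d).2 h1), h2⟩
    · rintro ⟨d, h1, h2⟩
      exact ⟨d, (hLm i d).1 (hij ▸ (hLm j d).2 h1), h2⟩
  have hsteps : ∀ i j t, L i = L j → L (i + t) = L (j + t) := by
    intro i j t hij
    induction t with
    | zero => exact hij
    | succ t ih => exact hstep _ _ ih
  obtain ⟨i, j, hij, hjle, hLij⟩ : ∃ i j, i < j ∧ j ≤ 2 ^ Fintype.card α ∧ L i = L j := by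
    have hc : Fintype.card (Finset α) < Fintype.card (Fin (2 ^ Fintype.card α + 1)) := by
      rw [Fintype.card_finset, Fintype.card_fin]
      omega
    obtain ⟨x, y, hxy, he⟩ := Fintype.exists_ne_map_eq_of_card_lt
      (fun i : Fin (2 ^ Fintype.card α + 1) => L i.1) hc
    have hx := x.2
    have hy := y.2
    rcases lt_or_gt_of_ne (fun h1 => hxy (Fin.ext h1) : x.1 ≠ y.1) with h1 | h1
    · exact ⟨x.1, y.1, h1, by omega, he⟩
    · exact ⟨y.1, x.1, h1, by omega, he.symm⟩
  have hper : ∀ t, L i = L (i + t * (j - i)) := by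
    intro t
    induction t with
    | zero => rw [Nat.zero_mul, Nat.add_zero]
    | succ t ih =>
      have h1 := hsteps i j (t * (j - i)) hLij
      rw [ih, h1]
      congr 1
      rw [Nat.add_mul, Nat.one_mul]
      omega
  have hi : ∀ c, c ∈ it h i [a] := by
    intro c
    rw [← hLm, hper K, hLm]
    refine hup K _ ?_ (hfull a) c
    have : K * 1 ≤ K * (j - i) := Nat.mul_le_mul_left _ (by omega)
    omega
  exact hup i k (by omega) hi b

/-- At least two letters.  Proof: with one letter `a` all words `it h n [a]` are powers of `a`: `Per h` (`U = fun _ => a`, `q = 1`); without letters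
`w ≠ []` is impossible. -/
theorem two_letters {α : Type} [Fintype α] {h : α → List α} (hp : ¬ Per h) {w : List α}
    (hw : w ≠ []) : 2 ≤ Fintype.card α := by
  by_contra hc
  obtain ⟨a, u, rfl⟩ := List.exists_cons_of_ne_nil hw
  have hs : Subsingleton α := Fintype.card_le_one_iff_subsingleton.1 (by omega)
  refine hp ⟨fun _ => a, 1, Nat.one_pos, fun _ => rfl, fun c n => ⟨0, ?_⟩⟩
  refine List.ext_getElem ?_ (fun _ _ _ => Subsingleton.elim _ _)
  rw [List.length_map, List.length_range]

end D0L
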