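import Pool.Agent.H.MP_374efc_lc.Fr.Cp1

/-!
# MP_374efc_lc, free case: monotonicity of the bound

Paper proof: /team-store/h43_374efc_L3.md
-/

set_option autoImplicit false

namespace D0L

theorem cp2_pow {a b k l : ℕ} (h : a ≤ b) (h' : k ≤ l) (ha : 1 ≤ a) : a ^ k ≤ b ^ l :=
  (Nat.pow_le_pow_left h k).trans (Nat.pow_le_pow_right (ha.trans h) h')

theorem cp2_dly {m m' S S' k k' : ℕ} (hm : m ≤ m') (hS : S ≤ S') (hk : k ≤ k') (h1 : 1 ≤ m) :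
    dly m S k ≤ dly m' S' k' := by
  have h2 : ∀ j, dly m S j ≤ dly m' S' j := by
    intro j
    induction j with
    | zero => exact le_refl 0
    | succ j ih =>
      show m * dly m S j + S ≤ m' * dly m' S' j + S'
      exact Nat.add_le_add (Nat.mul_le_mul hm ih) hS
  have h3 : ∀ j, dly m' S' j ≤ dly m' S' (j + 1) := by
    intro j
    show dly m' S' j ≤ m' * dly m' S' j + S'
    have h4 : 1 * dly m' S' j ≤ m' * dly m' S' j := Nat.mul_le_mul_right _ (h1.trans hm)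
    omega
  exact (h2 k).trans (monotone_nat_of_le_succ h3 hk)

section

variable {n n' m m' r r' l l' : ℕ}

theorem cp2_cLR (hn : n ≤ n') (hm : m ≤ m') (hr : r ≤ r') (h2 : 1 ≤ m) :
    cLR n m r ≤ cLR n' m' r' := by
  unfold cLR
  refine Nat.mul_le_mul_left _ (cp2_pow hm ?_ h2)
  have := Nat.pow_le_pow_left hn 2
  omega

theorem cp2_k0 (hn : n ≤ n') (hm : m ≤ m') (hr : r ≤ r') (h2 : 1 ≤ m) :
    k0 n m r ≤ k0 n' m' r' := by
  unfold k0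
  exact Nat.mul_le_mul hn (Nat.add_le_add_right (Nat.mul_le_mul
    (Nat.mul_le_mul_left _ (cp2_pow hm hr h2)) (Nat.add_le_add_right (cp2_cLR hn hm hr h2) _)) _)

theorem cp2_l0 (hn : n ≤ n') (hm : m ≤ m') (hr : r ≤ r') (h2 : 1 ≤ m) :
    l0 n m r ≤ l0 n' m' r' := by
  unfold l0
  exact Nat.mul_le_mul_left _ (cp2_pow (cp2_pow hm hr h2) (cp2_k0 hn hm hr h2)
    (Nat.one_le_pow _ _ h2))

theorem cp2_D0 (hn : n ≤ n') (hm : m ≤ m') (hr : r ≤ r') (h2 : 1 ≤ m) :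
    D0 n m r ≤ D0 n' m' r' := by
  unfold D0
  exact Nat.add_le_add (Nat.mul_le_mul (cp2_cLR hn hm hr h2) (cp2_l0 hn hm hr h2))
    (cp2_dly hm (Nat.mul_le_mul hn hm) hr h2)

theorem cp2_dF (hn : n ≤ n') (hm : m ≤ m') (hr : r ≤ r') (hl : l ≤ l') (h2 : 1 ≤ m) :
    dF n m r l ≤ dF n' m' r' l' := by
  unfold dF
  exact Nat.add_le_add (Nat.mul_le_mul_left _ (cp2_D0 hn hm hr h2))
    (Nat.mul_le_mul (cp2_pow hm hr h2) hl)

theorem cp2_tF (hn : n ≤ n') (hm : m ≤ m') (hr : r ≤ r') (hl : l ≤ l') (h1 : 1 ≤ n)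
    (h2 : 1 ≤ m) : tF n m r l ≤ tF n' m' r' l' := by
  unfold tF
  exact Nat.mul_le_mul_left _ (cp2_pow hn (Nat.add_le_add_right (cp2_dF hn hm hr hl h2) _) h1)

theorem cp2_oF (hn : n ≤ n') (hm : m ≤ m') : oF n m ≤ oF n' m' := by
  unfold oF
  exact Nat.mul_le_mul_left _ (Nat.add_le_add (Nat.mul_le_mul hn hm) (Nat.pow_le_pow_left hn 2))

theorem cp2_wF (hn : n ≤ n') (hm : m ≤ m') (hr : r ≤ r') (hl : l ≤ l') (h1 : 1 ≤ n)
    (h2 : 1 ≤ m) : wF n m r l ≤ wF n' m' r' l' := by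
  unfold wF
  exact Nat.mul_le_mul (cp2_oF hn hm) (Nat.mul_le_mul
    (Nat.add_le_add_right (Nat.pow_le_pow_left hn 2) _)
    (Nat.mul_le_mul (Nat.add_le_add_right hr _) (cp2_tF hn hm hr hl h1 h2)))

end

theorem cp2_thC {n n' δ δ' Q Q' : ℕ} (hn : n ≤ n') (hδ : δ ≤ δ') (hQ : Q ≤ Q') :
    thC n δ Q ≤ thC n' δ' Q' := by
  unfold thC
  refine cp2_pow (Nat.mul_le_mul (by omega)
    (cp2_pow (Nat.add_le_add_right hQ _) hδ (by omega))) hQ ?_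
  exact Nat.mul_pos (by omega) (Nat.pow_pos (by omega))

theorem cp2_sq {δ δ' t t' : ℕ} (hδ : δ ≤ δ') (ht : t ≤ t') :
    t * (1 + δ) ^ 2 ≤ t' * (1 + δ') ^ 2 :=
  Nat.mul_le_mul ht (Nat.pow_le_pow_left (Nat.add_le_add_left hδ _) 2)

theorem cp2_qC {δ δ' t t' W W' : ℕ} (hδ : δ ≤ δ') (ht : t ≤ t') (hW : W ≤ W') :
    qC δ t W ≤ qC δ' t' W' := by
  unfold qC
  exact Nat.add_le_add (cp2_sq hδ ht) (Nat.mul_le_mul (Nat.mul_le_mul_left _ hW)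
    (Nat.add_le_add_left hδ _))

theorem cp2_eC {n n' δ δ' t t' W W' : ℕ} (hn : n ≤ n') (hδ : δ ≤ δ') (ht : t ≤ t')
    (hW : W ≤ W') : eC n δ t W ≤ eC n' δ' t' W' := by
  unfold eC
  exact Nat.add_le_add (cp2_sq hδ ht) (Nat.mul_le_mul (Nat.add_le_add_right (cp2_sq hδ ht) _)
    (cp2_thC hn hδ (cp2_qC hδ ht hW)))

/-- Monotonicity in the number of letters and the other parameters. -/
theorem bF_mono {n n' m m' r r' l l' : ℕ} (hn : n ≤ n') (hm : m ≤ m') (hr : r ≤ r') (hl : l ≤ l')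
    (h1 : 1 ≤ n) (h2 : 1 ≤ m) : bF n m r l ≤ bF n' m' r' l' := by
  unfold bF
  exact Nat.add_le_add (Nat.mul_le_mul (Nat.add_le_add_right hn _)
    (cp2_eC hn (cp2_oF hn hm) (cp2_tF hn hm hr hl h1 h2) (cp2_wF hn hm hr hl h1 h2)))
    (Nat.mul_le_mul_left _ hn)

end D0L
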