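import Pool.Agent.H.MP_374efc_lc.Fr.Defs

/-!
# MP_374efc_lc, free case: covering letters

Paper proof: /team-store/h43_374efc_L3.md
-/

set_option autoImplicit false

namespace D0L

variable {α β : Type}

/-- Proof: induction on `x`. -/
theorem Cov.exists {g : α → List β} {x : List α} {q : ℕ} (hq : q < (app g x).length) :
    ∃ i a o, Cov g x q i a o := by
  induction x generalizing q with
  | nil => exact absurd hq (by simp [app_nil])
  | cons a x ih =>
    rw [app_cons, List.length_append] at hq
    by_cases hqa : q < (g a).length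
    · exact ⟨0, a, q, [], x, rfl, rfl, by simp [app_nil], hqa⟩
    · obtain ⟨i, b, o, x1, x2, h1, h2, h3, h4⟩ := ih (q := q - (g a).length) (by omega)
      refine ⟨i + 1, b, o, a :: x1, x2, by rw [h1]; rfl, by simp [h2], ?_, h4⟩
      rw [app_cons, List.length_append]
      omega

theorem cv1_split {x1 x2 y1 y2 : List α} {a b : α} (h : x1 ++ a :: x2 = y1 ++ b :: y2)
    (hl : x1.length < y1.length) : ∃ t, y1 = x1 ++ a :: t := by
  rcases List.append_eq_append_iff.mp h with ⟨as, h1, h2⟩ | ⟨bs, h1, h2⟩
  · cases as with
    | nil =>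
      rw [h1, List.append_nil] at hl
      omega
    | cons c t =>
      rw [List.cons_append] at h2
      have h3 : a = c := (List.cons.inj h2).1
      exact ⟨t, by rw [h1, h3]⟩
  · rw [h1, List.length_append] at hl
    omega

/-- Proof: compare the two factorisations of `x`; if `i < i'` then `|app g x1'| ≥ |app g x1| + |g a|`. -/
theorem Cov.unique {g : α → List β} {x : List α} {q i i' : ℕ} {a a' : α} {o o' : ℕ}
    (h1 : Cov g x q i a o) (h2 : Cov g x q i' a' o') : i = i' ∧ a = a' ∧ o = o' := by
  obtain ⟨x1, x2, e1, l1, q1, o1⟩ := h1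
  obtain ⟨y1, y2, e2, l2, q2, o2⟩ := h2
  have hlt : ¬ i < i' := by
    intro hi
    obtain ⟨t, ht⟩ := cv1_split (e1.symm.trans e2) (by omega)
    rw [ht, app_append, app_cons, List.length_append, List.length_append] at q2
    omega
  have hgt : ¬ i' < i := by
    intro hi
    obtain ⟨t, ht⟩ := cv1_split (e2.symm.trans e1) (by omega)
    rw [ht, app_append, app_cons, List.length_append, List.length_append] at q1
    omega
  have hi : i = i' := by omega
  have h3 := List.append_inj (e1.symm.trans e2) (by omega)
  have h4 : a = a' := (List.cons.inj h3.2).1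
  refine ⟨hi, h4, ?_⟩
  have h5 : x1 = y1 := h3.1
  rw [h5] at q1
  omega

theorem Cov.get {g : α → List β} {x : List α} {q i : ℕ} {a : α} {o : ℕ} (h1 : Cov g x q i a o) :
    (app g x)[q]? = (g a)[o]? ∧ x[i]? = some a ∧ q < (app g x).length ∧ i < x.length := by
  obtain ⟨x1, x2, e1, l1, q1, o1⟩ := h1
  refine ⟨?_, ?_, ?_, ?_⟩
  · rw [e1, app_append, app_cons, List.getElem?_append_right (by omega),
      List.getElem?_append_left (by omega)]
    congr 1
    omega
  · rw [e1, List.getElem?_append_right (by omega), l1, Nat.sub_self]
    rfl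
  · rw [e1, app_append, app_cons, List.length_append, List.length_append]
    omega
  · rw [e1, List.length_append, List.length_cons]
    omega

/-- The block of the `i`-th letter: all its positions. -/
theorem Cov.of_get {g : α → List β} {x : List α} {i : ℕ} {a : α} (hi : x[i]? = some a) {o : ℕ}
    (ho : o < (g a).length) : Cov g x ((app g (x.take i)).length + o) i a o := by
  obtain ⟨hl, h1⟩ := List.getElem?_eq_some_iff.mp hi
  refine ⟨x.take i, x.drop (i + 1), ?_, ?_, rfl, ho⟩
  · rw [← h1, ← List.drop_eq_getElem_cons hl, List.take_append_drop]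
  · rw [List.length_take]
    omega

/-- The next position. -/
theorem Cov.succ {g : α → List β} (hg : ∀ a, g a ≠ []) {x : List α} {q i : ℕ} {a : α} {o : ℕ}
    (h1 : Cov g x q i a o) (hq : q + 1 < (app g x).length) :
    (o + 1 < (g a).length ∧ Cov g x (q + 1) i a (o + 1)) ∨
      (o + 1 = (g a).length ∧ ∃ b, Cov g x (q + 1) (i + 1) b 0) := by
  obtain ⟨x1, x2, e1, l1, q1, o1⟩ := h1
  by_cases ho : o + 1 < (g a).length
  · exact Or.inl ⟨ho, x1, x2, e1, l1, by omega, ho⟩
  · refine Or.inr ⟨by omega, ?_⟩
    rw [e1, app_append, app_cons, List.length_append, List.length_append] at hq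
    cases x2 with
    | nil =>
      rw [app_nil, List.length_nil] at hq
      omega
    | cons b t =>
      refine ⟨b, x1 ++ [a], t, ?_, ?_, ?_, List.length_pos_of_ne_nil (hg b)⟩
      · rw [e1, List.append_assoc]
        rfl
      · rw [List.length_append, List.length_singleton, l1]
      · rw [app_append, app_singleton, List.length_append]
        omega

/-- If all images have length at least `2`. -/
theorem Cov.two_mul_le {g : α → List β} (hg : ∀ a, 2 ≤ (g a).length) {x : List α} {q i : ℕ} {a : α}
    {o : ℕ} (h1 : Cov g x q i a o) :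
    2 * i ≤ q ∧ 2 * (x.length - 1 - i) ≤ (app g x).length - 1 - q := by
  have hl : ∀ w : List α, 2 * w.length ≤ (app g w).length := by
    intro w
    induction w with
    | nil => simp
    | cons b w ih =>
      rw [app_cons, List.length_append, List.length_cons]
      have := hg b
      omega
  obtain ⟨x1, x2, e1, l1, q1, o1⟩ := h1
  have h2 := hl x1
  have h3 := hl x2
  rw [e1, app_append, app_cons, List.length_append, List.length_append, List.length_append,
    List.length_cons]
  omega

end D0L
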