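import Pool.Agent.H.MP_374efc_lc.Fr.Cv1

/-!
# MP_374efc_lc, free case: synchronization

Paper proof: /team-store/h43_374efc_L3.md
-/

set_option autoImplicit false

namespace D0L

variable {α β : Type}

/-- Synchronization to the right.  If `app g z = V ++ S`, `app g z' = V ++ S'` and `z = c ++ a :: t` with
`|app g c| + D < |V|` then `z' = c ++ a :: t'`.
Proof: induction on `c` for all `z'`, `V`: `z'` is not empty (`V` is not), `z' = b :: z''`; if the first letters of `z`, `z'` differ, `V` is a common
initial piece of the images, `|V| ≤ D`, contradiction.  Strip the first letter (if `c ≠ []`): its image is a initial piece of `V`. -/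
theorem sync_right {g : α → List β} {D : ℕ} (hD : Delay g D) {z z' c t : List α} {a : α}
    {V S S' : List β} (h1 : app g z = V ++ S) (h2 : app g z' = V ++ S') (hz : z = c ++ a :: t)
    (hc : (app g c).length + D < V.length) : ∃ t', z' = c ++ a :: t' := by
  classical
  subst hz
  induction c generalizing z' V with
  | nil =>
    rw [List.nil_append] at h1
    cases z' with
    | nil =>
      exfalso
      rw [app_nil] at h2
      have h3 := congrArg List.length h2
      rw [List.length_append, List.length_nil] at h3
      omega
    | cons b z'' =>
      by_cases hab : a = b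
      · subst hab
        exact ⟨z'', by simp⟩
      · exfalso
        have h3 := hD a b t z'' V hab ⟨S, h1.symm⟩ ⟨S', h2.symm⟩
        omega
  | cons x c' ih =>
    cases z' with
    | nil =>
      exfalso
      rw [app_nil] at h2
      have h3 := congrArg List.length h2
      rw [List.length_append, List.length_nil] at h3
      omega
    | cons b z'' =>
      by_cases hxb : x = b
      · subst hxb
        rw [app_cons, List.length_append] at hc
        rw [List.cons_append, app_cons] at h1
        rw [app_cons] at h2
        have hp : g x <+: V := by
          have e1 : g x <+: V ++ S := ⟨_, h1⟩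
          have e2 : V <+: V ++ S := ⟨S, rfl⟩
          exact List.prefix_of_prefix_length_le e1 e2 (by omega)
        obtain ⟨V', hV'⟩ := hp
        subst hV'
        rw [List.append_assoc] at h1 h2
        have h1' := List.append_cancel_left h1
        have h2' := List.append_cancel_left h2
        rw [List.length_append] at hc
        obtain ⟨t', ht'⟩ := ih h2' (by omega) h1'
        exact ⟨t', by rw [ht']; simp⟩
      · exfalso
        have h3 := hD x b (c' ++ a :: t) z'' V hxb ⟨S, h1.symm⟩ ⟨S', h2.symm⟩
        omega

theorem cv2_app_rev (g : α → List β) (l : List α) :
    app (rev g) l.reverse = (app g l).reverse := by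
  induction l with
  | nil => rfl
  | cons a l ih =>
    rw [List.reverse_cons, app_append, ih, app_singleton, app_cons, List.reverse_append]
    rfl

/-- Mirror image. -/
theorem sync_left {g : α → List β} {D : ℕ} (hD : Delay (rev g) D) {z z' c t : List α} {a : α}
    {V S S' : List β} (h1 : app g z = S ++ V) (h2 : app g z' = S' ++ V) (hz : z = t ++ a :: c)
    (hc : (app g c).length + D < V.length) : ∃ t', z' = t' ++ a :: c := by
  have e1 : app (rev g) z.reverse = V.reverse ++ S.reverse := by
    rw [cv2_app_rev, h1, List.reverse_append]
  have e2 : app (rev g) z'.reverse = V.reverse ++ S'.reverse := by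
    rw [cv2_app_rev, h2, List.reverse_append]
  have e3 : z.reverse = c.reverse ++ a :: t.reverse := by
    rw [hz]; simp
  have e4 : (app (rev g) c.reverse).length + D < V.reverse.length := by
    rw [cv2_app_rev, List.length_reverse, List.length_reverse]
    exact hc
  obtain ⟨t', ht'⟩ := sync_right hD e1 e2 e3 e4
  refine ⟨t'.reverse, ?_⟩
  have h3 := congrArg List.reverse ht'
  rw [List.reverse_reverse] at h3
  rw [h3]
  simp

end D0L
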