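import Pool.Agent.H.MP_374efc_lc.Fr.Cv2

/-!
# MP_374efc_lc, free case: interpretations which differ at the center have no common cut

Paper proof: /team-store/h43_374efc_L3.md
-/

set_option autoImplicit false

namespace D0L

variable {α β : Type}

/-- The two sides of a cut. -/
theorem cv3_split {g : α → List β} {x x1 x2 : List α} {P S v : List β} {y : ℕ}
    (hx : x = x1 ++ x2) (hl : (app g x1).length = P.length + y) (h : app g x = P ++ v ++ S)
    (hy : y ≤ v.length) : app g x1 = P ++ v.take y ∧ app g x2 = v.drop y ++ S := by
  rw [hx, app_append] at h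
  have h3 : P ++ v ++ S = (P ++ v.take y) ++ (v.drop y ++ S) := by
    rw [List.append_assoc, List.append_assoc, ← List.append_assoc (v.take y), List.take_append_drop]
  rw [h3] at h
  refine List.append_inj h ?_
  rw [hl, List.length_append, List.length_take]
  omega

/-- Two interpretations of a word of length `2 D + 1` which have different covering letters or offsets at
the center have no common cut.
Proof.  Let `y ≤ 2 D1 + 1` be a common cut: `x = x1 ++ x2`, `|app g x1| = |P| + y`, `x' = x1' ++ x2'`, `|app g x1'| = |P'| + y`.
If `y ≤ D1`: `app g x2 = v.drop y ++ S`, `app g x2' = v.drop y ++ S'`.  The letter covering `|P| + D1` in `x` is in `x2`: `x2 = c ++ a :: t`,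
`|app g c| + o = D1 - y`, `|v.drop y| = 2 D1 + 1 - y`, so `sync_right` gives `x2' = c ++ a :: t'`, so the covering letter and the offset in `x'`
are the same (`Cov.unique`).  If `y ≥ D1 + 1`: the covering letter is in `x1 = t ++ a :: c`, `app g x1 = P ++ v.take y`, `app g x1' = P' ++ v.take y`,
`|app g c| + D1 + 1 ≤ y` because the block of `a` ends after `D1`; `sync_left` with `V = v.take y`. -/
theorem no_common_cut {g : α → List β} {D : ℕ} (hD : Delay g D) (hD' : Delay (rev g) D)
    {D1 : ℕ} (hDD : D ≤ D1) {x x' : List α} {P P' S S' v : List β}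
    (h1 : app g x = P ++ v ++ S) (h2 : app g x' = P' ++ v ++ S') (hv : v.length = 2 * D1 + 1)
    {i i' : ℕ} {a a' : α} {o o' : ℕ} (c1 : Cov g x (P.length + D1) i a o)
    (c2 : Cov g x' (P'.length + D1) i' a' o') (hne : ¬ (a = a' ∧ o = o')) :
    ∀ y ≤ v.length, ¬ (CutAt g x P.length y ∧ CutAt g x' P'.length y) := by
  rintro y hy ⟨⟨x1, x2, hx, hl⟩, ⟨x1', x2', hx', hl'⟩⟩
  obtain ⟨u1, u2, hu, hi, ho, hoa⟩ := c1
  have e1 := cv3_split hx hl h1 hy
  have e2 := cv3_split hx' hl' h2 hy
  apply hne
  rcases le_or_gt y D1 with hyD | hyD
  · -- the covering letter is in `x2`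
    obtain ⟨c, hc1, hc2⟩ : ∃ c, u1 = x1 ++ c ∧ x2 = c ++ a :: u2 := by
      rw [hx] at hu
      rcases List.append_eq_append_iff.1 hu with ⟨s, hs1, hs2⟩ | ⟨s, hs1, hs2⟩
      · exact ⟨s, hs1, hs2⟩
      · rcases s with _ | ⟨b, s⟩
        · refine ⟨[], ?_, ?_⟩
          · simpa using hs1.symm
          · simpa using hs2.symm
        · exfalso
          rw [List.cons_append] at hs2
          injection hs2 with hb hs3
          subst hb
          rw [hs1, app_append, app_cons, List.length_append, List.length_append] at hl
          omega
    have hlc : (app g u1).length = (app g x1).length + (app g c).length := by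
      rw [hc1, app_append, List.length_append]
    have hdl : (v.drop y).length = v.length - y := List.length_drop
    obtain ⟨t', ht'⟩ := sync_right hD e1.2 e2.2 hc2 (by omega)
    have c3 : Cov g x' (P'.length + D1) (x1' ++ c).length a o := by
      refine ⟨x1' ++ c, t', ?_, rfl, ?_, hoa⟩
      · rw [hx', ht', List.append_assoc]
      · rw [app_append, List.length_append]
        omega
    have := Cov.unique c3 c2
    exact ⟨this.2.1, this.2.2⟩
  · -- the covering letter is in `x1`
    obtain ⟨c, hc1⟩ : ∃ c, x1 = u1 ++ a :: c := by
      rw [hx] at hu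
      rcases List.append_eq_append_iff.1 hu with ⟨s, hs1, hs2⟩ | ⟨s, hs1, hs2⟩
      · exfalso
        rw [hs1, app_append, List.length_append] at ho
        omega
      · rcases s with _ | ⟨b, s⟩
        · exfalso
          rw [hs1, List.append_nil] at hl
          omega
        · rw [List.cons_append] at hs2
          injection hs2 with hb hs3
          subst hb
          exact ⟨s, hs1⟩
    have hlc : (app g x1).length = (app g u1).length + ((g a).length + (app g c).length) := by
      rw [hc1, app_append, List.length_append, app_cons, List.length_append]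
    have hdl : (v.take y).length = y := by
      rw [List.length_take]
      omega
    obtain ⟨t', ht'⟩ := sync_left hD' e1.1 e2.1 hc1 (by omega)
    have hlc' : (app g x1').length = (app g t').length + ((g a).length + (app g c).length) := by
      rw [ht', app_append, List.length_append, app_cons, List.length_append]
    have c3 : Cov g x' (P'.length + D1) t'.length a o := by
      refine ⟨t', c ++ x2', ?_, rfl, ?_, hoa⟩
      · rw [hx', ht', List.append_assoc, List.cons_append]
      · omega
    have := Cov.unique c3 c2
    exact ⟨this.2.1, this.2.2⟩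

end D0L
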