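import Pool.Agent.H.MP_374efc_lc.Fr.Mh3
import Pool.Agent.H.MP_374efc_lc.Fr.Cv3

/-!
# MP_374efc_lc, free case: trimming of interpretations

Paper proof: /team-store/h43_374efc_L3.md
-/

set_option autoImplicit false

namespace D0L

/-- An interpretation `(x, P, S)` of the word `v`: `app g x = P ++ v ++ S` with `x` legal. -/
def Itp {α : Type} (h g : α → List α) (v : List α) (I : List α × List α × List α) : Prop :=
  Legal h I.1 ∧ app g I.1 = I.2.1 ++ v ++ I.2.2

/-- Two interpretations of `v` without common cut. -/
def Dsj {α : Type} (g : α → List α) (v : List α) (I J : List α × List α × List α) : Prop :=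
  ∀ y ≤ v.length, ¬ (CutAt g I.1 I.2.1.length y ∧ CutAt g J.1 J.2.1.length y)

/-- Every legal word of length in `[1, ℓ]` has `j` pairwise cut-disjoint interpretations. -/
def Many {α : Type} (h g : α → List α) (ℓ j : ℕ) : Prop :=
  ∀ v, Legal h v → v ≠ [] → v.length ≤ ℓ → ∃ F : Fin j → List α × List α × List α,
    (∀ i, Itp h g v (F i)) ∧ ∀ i i', i ≠ i' → Dsj g v (F i) (F i')

theorem db1_left {α β : Type} {g : α → List β} (x : List α) :
    ∀ n : ℕ, n < (app g x).length →
      ∃ x1 a y, x = x1 ++ a :: y ∧ (app g x1).length ≤ n ∧
        n < (app g x1).length + (g a).length := by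
  induction x with
  | nil =>
    intro n hn
    rw [app_nil, List.length_nil] at hn
    omega
  | cons b t ih =>
    intro n hn
    rw [app_cons, List.length_append] at hn
    by_cases hb : n < (g b).length
    · refine ⟨[], b, t, rfl, ?_, ?_⟩
      · rw [app_nil, List.length_nil]
        omega
      · rw [app_nil, List.length_nil]
        omega
    · obtain ⟨x1, a, y, h1, h2, h3⟩ := ih (n - (g b).length) (by omega)
      refine ⟨b :: x1, a, y, ?_, ?_, ?_⟩
      · rw [h1, List.cons_append]
      · rw [app_cons, List.length_append]
        omega
      · rw [app_cons, List.length_append]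
        omega

theorem db1_right {α β : Type} {g : α → List β} (x : List α) :
    ∀ m : ℕ, m < (app g x).length →
      ∃ y b x2, x = y ++ b :: x2 ∧ (app g x2).length ≤ m ∧
        m < (g b).length + (app g x2).length := by
  induction x with
  | nil =>
    intro n hn
    rw [app_nil, List.length_nil] at hn
    omega
  | cons b t ih =>
    intro m hm
    rw [app_cons, List.length_append] at hm
    by_cases hb : m < (app g t).length
    · obtain ⟨y, c, x2, h1, h2, h3⟩ := ih m hb
      refine ⟨b :: y, c, x2, ?_, h2, h3⟩
      rw [h1, List.cons_append]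
    · exact ⟨[], b, t, rfl, by omega, hm⟩

theorem db1_len {α β : Type} {g : α → List β} (hg : ∀ a, 2 ≤ (g a).length) (x : List α) :
    2 * x.length ≤ (app g x).length := by
  induction x with
  | nil => simp
  | cons b t ih =>
    rw [app_cons, List.length_append, List.length_cons]
    have := hg b
    omega

/-- Trimming.  Proof: let `i` be the index of the letter of `x` covering the first position of `v`, `i'` the one covering the last position of
`v`; `xt` = letters `i..i'`.  If `i < i'` the blocks of the letters strictly between are inside `v`, as well as one position of the first and of the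
last block: `2 (|xt| - 2) + 2 ≤ |v|`, so `|xt| ≤ |v|`. -/
theorem trim {α β : Type} {g : α → List β} (hg : ∀ a, 2 ≤ (g a).length) {x : List α}
    {P v S : List β} (hx : app g x = P ++ v ++ S) (hv : v ≠ []) :
    ∃ x1 xt x2 Pt St, x = x1 ++ xt ++ x2 ∧ app g xt = Pt ++ v ++ St ∧ P = app g x1 ++ Pt ∧
      S = St ++ app g x2 ∧ xt ≠ [] ∧ xt.length ≤ v.length := by
  have hvl : 0 < v.length := List.length_pos_iff.2 hv
  have hlen : (app g x).length = P.length + v.length + S.length := by
    rw [hx, List.length_append, List.length_append]
  obtain ⟨x1, a, y, h1, h2, h3⟩ := db1_left (g := g) x P.length (by omega)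
  have hlen2 : (app g x).length = (app g x1).length + (app g (a :: y)).length := by
    rw [h1, app_append, List.length_append]
  obtain ⟨y2, b, x2, h4, h5, h6⟩ := db1_right (g := g) (a :: y) S.length (by omega)
  have hxx : x = x1 ++ (y2 ++ [b]) ++ x2 := by
    rw [h1, h4]
    simp
  have happ : app g x1 ++ (app g (y2 ++ [b]) ++ app g x2) = P ++ (v ++ S) := by
    have e : app g x = app g x1 ++ (app g (y2 ++ [b]) ++ app g x2) := by
      conv_lhs => rw [hxx, app_append, app_append, List.append_assoc]
    rw [← e, hx, List.append_assoc]
  obtain ⟨Pt, hPt, hrest⟩ : ∃ Pt, P = app g x1 ++ Pt ∧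
      app g (y2 ++ [b]) ++ app g x2 = Pt ++ (v ++ S) := by
    rcases List.append_eq_append_iff.1 happ with ⟨s, hs1, hs2⟩ | ⟨s, hs1, hs2⟩
    · exact ⟨s, hs1, hs2⟩
    · have hs0 : s = [] := by
        have e := congrArg List.length hs1
        rw [List.length_append] at e
        exact List.eq_nil_of_length_eq_zero (by omega)
      subst hs0
      refine ⟨[], ?_, ?_⟩
      · simpa using hs1.symm
      · simpa using hs2.symm
  rw [← List.append_assoc] at hrest
  obtain ⟨St, hSt, hmid⟩ : ∃ St, S = St ++ app g x2 ∧ app g (y2 ++ [b]) = Pt ++ v ++ St := by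
    rcases List.append_eq_append_iff.1 hrest with ⟨s, hs1, hs2⟩ | ⟨s, hs1, hs2⟩
    · have hs0 : s = [] := by
        have e := congrArg List.length hs2
        rw [List.length_append] at e
        exact List.eq_nil_of_length_eq_zero (by omega)
      subst hs0
      refine ⟨[], ?_, ?_⟩
      · simpa using hs2.symm
      · simpa using hs1.symm
    · exact ⟨s, hs2, hs1⟩
  refine ⟨x1, y2 ++ [b], x2, Pt, St, hxx, hmid, hPt, hSt, by simp, ?_⟩
  have lP := congrArg List.length hPt
  have lS := congrArg List.length hSt
  have lm := congrArg List.length hmid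
  rw [List.length_append] at lP lS
  rw [List.length_append, List.length_append, app_append, List.length_append, app_singleton] at lm
  rw [List.length_append, List.length_singleton]
  rcases y2 with _ | ⟨c, mid⟩
  · rw [List.length_nil]
    omega
  · have hc : a = c := by
      rw [List.cons_append] at h4
      injection h4
    subst hc
    have hm := db1_len hg mid
    rw [app_cons, List.length_append] at lm
    rw [List.length_cons]
    omega

end D0L
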