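import Pool.Agent.H.MP_374efc_lc.Fr.Db1

/-!
# MP_374efc_lc, free case: cuts of composed interpretations

Paper proof: /team-store/h43_374efc_L3.md
-/

set_option autoImplicit false

namespace D0L

theorem db2_pw_succ {α : Type} (g : α → List α) (k : ℕ) (y : List α) :
    app (pw g (k + 1)) y = app g (app (pw g k) y) := by
  rw [app_app]
  congr 1
  funext a
  exact it_succ g k [a]

theorem db2_pos {α : Type} {g : α → List α} (hg : ∀ a, g a ≠ []) {w : List α} (hw : w ≠ []) :
    0 < (app g w).length :=
  lt_of_lt_of_le (List.length_pos_of_ne_nil hw) (length_le_app hg w)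

/-- Cuts of composed interpretations.  `app g x = P ++ v ++ S`, `app G y = P' ++ x ++ S'` (`G = pw g k`, so that
`app (pw g (k+1)) y = app g (app G y) = (app g P' ++ P) ++ v ++ (S ++ app g S')`).  Every cut `q ≤ |v|` of the composed interpretation comes from a cut
`p ≤ |x|` of `(y, P', S')` such that `q` is the image: `|app g (x.take p)| = |P| + q`.
Proof: `y = y1 ++ y2`, `|app g (app G y1)| = |app g P'| + |P| + q`.  `app G y1` is a initial piece of `P' ++ x ++ S'`.  If `app G y1 <+: P'` then
`|app g (app G y1)| ≤ |app g P'|`, so `P = []`, `q = 0` and `app G y1 = P'` (`g` nonerasing), `p = 0`.  If `P' ++ x` is a proper initial piece of `app G y1` then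
`|app g (app G y1)| > |app g P'| + |app g x| ≥ |app g P'| + |P| + |v|`, impossible.  Otherwise `app G y1 = P' ++ x.take p`. -/
theorem cut_comp {α : Type} {g : α → List α} (hg : ∀ a, g a ≠ []) {k : ℕ} {x y : List α}
    {P v S P' S' : List α} (hx : app g x = P ++ v ++ S)
    (hy : app (pw g k) y = P' ++ x ++ S') {q : ℕ} (hq : q ≤ v.length)
    (hc : CutAt (pw g (k + 1)) y (app g P' ++ P).length q) :
    ∃ p ≤ x.length, CutAt (pw g k) y P'.length p ∧ (app g (x.take p)).length = P.length + q := by
  obtain ⟨y1, y2, hy12, hlen⟩ := hc
  rw [db2_pw_succ, List.length_append] at hlen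
  have hz : app (pw g k) y1 ++ app (pw g k) y2 = P' ++ x ++ S' := by
    rw [← app_append, ← hy12]
    exact hy
  set z : List α := app (pw g k) y1 with hzdef
  have hxl : (app g x).length = P.length + v.length + S.length := by
    rw [hx, List.length_append, List.length_append]
  rcases lt_or_ge z.length P'.length with h1 | h1
  · -- `z` is a proper initial piece of `P'`
    exfalso
    have hpre : z <+: P' := by
      refine List.prefix_of_prefix_length_le (l₃ := P' ++ x ++ S') ?_ ?_ h1.le
      · exact ⟨_, hz⟩
      · exact ⟨x ++ S', by rw [List.append_assoc]⟩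
    obtain ⟨w, hw⟩ := hpre
    have hwne : w ≠ [] := by
      rintro rfl
      rw [List.append_nil] at hw
      rw [hw] at h1
      exact lt_irrefl _ h1
    have h2 : (app g P').length = (app g z).length + (app g w).length := by
      rw [← hw, app_append, List.length_append]
    have h3 := db2_pos hg hwne
    omega
  · rcases le_or_gt z.length (P'.length + x.length) with h2 | h2
    · -- `z = P' ++ x.take p`
      obtain ⟨w, hw⟩ : P' <+: z := by
        refine List.prefix_of_prefix_length_le (l₃ := P' ++ x ++ S') ?_ ?_ h1
        · exact ⟨x ++ S', by rw [List.append_assoc]⟩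
        · exact ⟨_, hz⟩
      have hwl : w.length ≤ x.length := by
        have := congrArg List.length hw
        rw [List.length_append] at this
        omega
      have hwx : w <+: x := by
        have h4 : w ++ app (pw g k) y2 = x ++ S' := by
          apply List.append_cancel_left (as := P')
          rw [← List.append_assoc, hw, hz, List.append_assoc]
        refine List.prefix_of_prefix_length_le (l₃ := x ++ S') ?_ ?_ hwl
        · exact ⟨_, h4⟩
        · exact ⟨S', rfl⟩
      have hwt : w = x.take w.length := List.prefix_iff_eq_take.mp hwx
      refine ⟨w.length, hwl, ⟨y1, y2, hy12, ?_⟩, ?_⟩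
      · rw [← hzdef, ← hw, List.length_append]
      · rw [← hwt]
        have h5 : (app g z).length = (app g P').length + (app g w).length := by
          rw [← hw, app_append, List.length_append]
        omega
    · -- `P' ++ x` is a proper initial piece of `z`
      exfalso
      obtain ⟨w, hw⟩ : P' ++ x <+: z := by
        refine List.prefix_of_prefix_length_le (l₃ := P' ++ x ++ S') ?_ ?_ ?_
        · exact ⟨S', rfl⟩
        · exact ⟨_, hz⟩
        · rw [List.length_append]
          exact h2.le
      have hwne : w ≠ [] := by
        rintro rfl
        rw [List.append_nil] at hw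
        rw [← hw, List.length_append] at h2
        exact lt_irrefl _ h2
      have h3 : (app g z).length = (app g P').length + (app g x).length + (app g w).length := by
        rw [← hw, app_append, app_append, List.length_append, List.length_append]
      have h4 := db2_pos hg hwne
      omega

end D0L
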