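import Pool.Agent.H.MP_374efc_lc.Fr.Db2

/-!
# MP_374efc_lc, free case: doubling

Paper proof: /team-store/h43_374efc_L3.md
-/

set_option autoImplicit false

namespace D0L

/-- Two initial pieces of a word with images of the same length are equal (nonerasing `g`). -/
theorem db3_take {α : Type} {g : α → List α} (hg : ∀ a, g a ≠ []) {x : List α} {p q : ℕ}
    (hp : p ≤ x.length) (hq : q ≤ x.length)
    (he : (app g (x.take p)).length = (app g (x.take q)).length) : p = q := by
  by_contra hne
  wlog hlt : p < q generalizing p q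
  · exact this hq hp he.symm (fun h => hne h.symm) (by omega)
  have h1 : x.take q = x.take p ++ (x.take q).drop p := by
    have h2 : (x.take q).take p = x.take p := by
      rw [List.take_take, Nat.min_eq_left hlt.le]
    rw [← h2, List.take_append_drop]
  have h3 : (x.take q).drop p ≠ [] := by
    intro h4
    have h5 := congrArg List.length h4
    rw [List.length_drop, List.length_take, List.length_nil] at h5
    omega
  have h6 := db2_pos hg h3
  rw [h1, app_append, List.length_append] at he
  omega

/-- Composition of an interpretation `(x, P, S)` of `v` with an interpretation of `x`. -/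
def db3_comp {α : Type} (g : α → List α) (P S : List α) (J : List α × List α × List α) :
    List α × List α × List α :=
  (J.1, app g J.2.1 ++ P, S ++ app g J.2.2)

theorem db3_itp {α : Type} {h g : α → List α} {k : ℕ} {x v P S : List α}
    {J : List α × List α × List α} (hx : app g x = P ++ v ++ S) (hJ : Itp h (pw g k) x J) :
    Itp h (pw g (k + 1)) v (db3_comp g P S J) := by
  refine ⟨hJ.1, ?_⟩
  show app (pw g (k + 1)) J.1 = (app g J.2.1 ++ P) ++ v ++ (S ++ app g J.2.2)
  rw [db2_pw_succ, hJ.2, app_append, app_append, hx]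
  simp only [List.append_assoc]

/-- A cut of the composed interpretation comes from a cut of the inner one. -/
theorem db3_cut {α : Type} {h g : α → List α} (hg : ∀ a, g a ≠ []) {k : ℕ}
    {x v P S : List α} {J : List α × List α × List α} (hx : app g x = P ++ v ++ S)
    (hJ : Itp h (pw g k) x J) {q : ℕ} (hq : q ≤ v.length)
    (hc : CutAt (pw g (k + 1)) (db3_comp g P S J).1 (db3_comp g P S J).2.1.length q) :
    ∃ p ≤ x.length, CutAt (pw g k) J.1 J.2.1.length p ∧
      (app g (x.take p)).length = P.length + q :=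
  cut_comp hg hx hJ.2 hq hc

/-- Composition keeps interpretations disjoint. -/
theorem db3_same {α : Type} {h g : α → List α} (hg : ∀ a, g a ≠ []) {k : ℕ}
    {x v P S : List α} {J J' : List α × List α × List α} (hx : app g x = P ++ v ++ S)
    (hJ : Itp h (pw g k) x J) (hJ' : Itp h (pw g k) x J') (hd : Dsj (pw g k) x J J') :
    Dsj (pw g (k + 1)) v (db3_comp g P S J) (db3_comp g P S J') := by
  intro q hq hc
  obtain ⟨p, hp, hc1, hl⟩ := db3_cut hg hx hJ hq hc.1
  obtain ⟨p', hp', hc1', hl'⟩ := db3_cut hg hx hJ' hq hc.2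
  have e : p = p' := db3_take hg hp hp' (hl.trans hl'.symm)
  subst e
  exact hd p hp ⟨hc1, hc1'⟩

/-- A cut of the composed interpretation gives a cut of the outer one, before trimming. -/
theorem db3_outer {α : Type} {h g : α → List α} (hg : ∀ a, g a ≠ []) {k : ℕ}
    {x1 x x2 v P S : List α} {J : List α × List α × List α} (hx : app g x = P ++ v ++ S)
    (hJ : Itp h (pw g k) x J) {q : ℕ} (hq : q ≤ v.length)
    (hc : CutAt (pw g (k + 1)) (db3_comp g P S J).1 (db3_comp g P S J).2.1.length q) :
    CutAt g (x1 ++ x ++ x2) (app g x1 ++ P).length q := by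
  obtain ⟨p, _, _, hl⟩ := db3_cut hg hx hJ hq hc
  refine ⟨x1 ++ x.take p, x.drop p ++ x2, ?_, ?_⟩
  · have e : x = x.take p ++ x.drop p := (List.take_append_drop p x).symm
    conv_lhs => rw [e]
    simp only [List.append_assoc]
  · rw [app_append, List.length_append, List.length_append, hl]
    omega

/-- Doubling.
Proof: induction on `k`; `k = 0`: `pw g 0 a = [a]`, the interpretation `(v, [], [])`, `Fin 1`.  Step: `v` has two cut-disjoint interpretations, trim them
(`trim`; cuts of the trimmed interpretations are cuts of the original ones, `xt` is legal as a factor of `x`): `(x, P, S)`, `(x', P', S')` with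
`x, x'` nonempty legal of length `≤ |v| ≤ ℓ`.  By induction `x` and `x'` have `2 ^ k` pairwise cut-disjoint interpretations each; compose
(`cut_comp`).  Two interpretations over the same `x` with a common cut `q`: cuts `p`, `p'` of the two with `|app g (x.take p)| = |app g (x.take p')|`,
so `p = p'` (nonerasing): a common cut.  One over `x`, one over `x'`: `q` would be a cut of `(x, P, S)` and of `(x', P', S')`
(`x = x.take p ++ x.drop p`).  Use `Fin (2 ^ (k+1)) ≃ Fin (2 ^ k) ⊕ Fin (2 ^ k)` (`finSumFinEquiv`). -/
theorem doubling {α : Type} {h g : α → List α} (hg : ∀ a, 2 ≤ (g a).length) {ℓ : ℕ}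
    (h2 : Many h g ℓ 2) (k : ℕ) : Many h (pw g k) ℓ (2 ^ k) := by
  have hg' : ∀ a, g a ≠ [] := by
    intro a e
    have := hg a
    rw [e, List.length_nil] at this
    omega
  induction k with
  | zero =>
    intro v hv _ _
    refine ⟨fun _ => (v, [], []), ?_, ?_⟩
    · intro _
      refine ⟨hv, ?_⟩
      show app (pw g 0) v = [] ++ v ++ []
      rw [List.nil_append, List.append_nil]
      exact (it_eq_app g 0 v).symm
    · intro i i' hii
      exact absurd (Fin.ext (by have := i.isLt; have := i'.isLt; omega)) hii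
  | succ k ih =>
    intro v hv hv0 hvl
    obtain ⟨F, hF, hFd⟩ := h2 v hv hv0 hvl
    have hstep : ∀ s : Fin 2, ∃ (x1 xt x2 Pt St : List α) (G : Fin (2 ^ k) → List α × List α × List α),
        (F s).1 = x1 ++ xt ++ x2 ∧ app g xt = Pt ++ v ++ St ∧ (F s).2.1 = app g x1 ++ Pt ∧
        (∀ i, Itp h (pw g k) xt (G i)) ∧ ∀ i i', i ≠ i' → Dsj (pw g k) xt (G i) (G i') := by
      intro s
      obtain ⟨x1, xt, x2, Pt, St, e1, e2, e3, _, hxt, hlt⟩ := trim hg (hF s).2 hv0
      have hleg : Legal h xt := by
        obtain ⟨c, n, hcn⟩ := (hF s).1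
        refine ⟨c, n, List.IsInfix.trans ?_ hcn⟩
        exact ⟨x1, x2, e1.symm⟩
      obtain ⟨G, hG, hGd⟩ := ih xt hleg hxt (hlt.trans hvl)
      exact ⟨x1, xt, x2, Pt, St, G, e1, e2, e3, hG, hGd⟩
    choose x1 xt x2 Pt St G e1 e2 e3 hG hGd using hstep
    let e : Fin (2 ^ (k + 1)) ≃ Fin (2 ^ k) ⊕ Fin (2 ^ k) :=
      (finCongr (by rw [pow_succ]; omega)).trans finSumFinEquiv.symm
    have hcross : ∀ (s s' : Fin 2) (i i' : Fin (2 ^ k)), s ≠ s' →
        Dsj (pw g (k + 1)) v (db3_comp g (Pt s) (St s) (G s i))
          (db3_comp g (Pt s') (St s') (G s' i')) := by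
      intro s s' i i' hss q hq hc
      have c1 := db3_outer (x1 := x1 s) (x2 := x2 s) hg' (e2 s) (hG s i) hq hc.1
      have c2 := db3_outer (x1 := x1 s') (x2 := x2 s') hg' (e2 s') (hG s' i') hq hc.2
      rw [← e1, ← e3] at c1 c2
      exact hFd s s' hss q hq ⟨c1, c2⟩
    refine ⟨fun i => Sum.elim (fun j => db3_comp g (Pt 0) (St 0) (G 0 j))
      (fun j => db3_comp g (Pt 1) (St 1) (G 1 j)) (e i), ?_, ?_⟩
    · intro i
      show Itp h (pw g (k + 1)) v (Sum.elim _ _ (e i))
      rcases e i with j | j
      · exact db3_itp (e2 0) (hG 0 j)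
      · exact db3_itp (e2 1) (hG 1 j)
    · intro i i' hii
      have hne : e i ≠ e i' := fun h => hii (e.injective h)
      show Dsj (pw g (k + 1)) v (Sum.elim _ _ (e i)) (Sum.elim _ _ (e i'))
      generalize e i = z at hne
      generalize e i' = z' at hne
      rcases z with j | j <;> rcases z' with j' | j'
      · exact db3_same hg' (e2 0) (hG 0 j) (hG 0 j') (hGd 0 j j' (fun h => hne (by rw [h])))
      · exact hcross 0 1 j j' (by decide)
      · exact hcross 1 0 j j' (by decide)
      · exact db3_same hg' (e2 1) (hG 1 j) (hG 1 j') (hGd 1 j j' (fun h => hne (by rw [h])))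

end D0L
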