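import Pool.Agent.H.MP_374efc_lc.Fr.Defs

/-!
# MP_374efc_lc, free case: elementary morphisms: nonerasing, injective on letters, reversal

Paper proof: /team-store/h43_374efc_L3.md
-/

set_option autoImplicit false

namespace D0L

/-- Proof.  If some `h a = []`: factor through `{c // c ≠ a}` (`f a = []`, `f c = [c]`); then `g d = h d` may be empty
for other letters, so drop ALL erased letters: `δ = {c // h c ≠ []}`, `f c = [c]` or `[]`. -/
theorem Elem.ne {α β : Type} [Fintype α] {h : α → List β} (hh : Elem h) : ∀ a, h a ≠ [] := by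
  classical
  intro a0 ha0
  apply hh
  refine ⟨{c // h c ≠ []}, inferInstance, fun c => if hc : h c ≠ [] then [⟨c, hc⟩] else [],
    fun d => h d.1, ?_, ?_, fun d => d.2, ?_⟩
  · exact Fintype.card_subtype_lt (x := a0) (by simpa using ha0)
  · intro c
    by_cases hc : h c ≠ []
    · simp only [dif_pos hc]
      rw [app_singleton]
    · simp only [dif_neg hc]
      rw [app_nil]
      exact (not_not.1 hc).symm
  · intro d
    refine ⟨d.1, ?_⟩
    simp only [dif_pos d.2]
    exact List.mem_singleton.2 rfl

/-- Proof.  If `h a = h b`, `a ≠ b`: factor through `{c // c ≠ b}` (all `h c` are nonempty). -/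
theorem Elem.inj1 {α β : Type} [Fintype α] {h : α → List β} (hh : Elem h) {a b : α}
    (hab : h a = h b) : a = b := by
  classical
  by_contra hne
  apply hh
  refine ⟨{c // c ≠ b}, inferInstance, fun c => if hc : c ≠ b then [⟨c, hc⟩] else [⟨a, hne⟩],
    fun d => h d.1, ?_, ?_, fun d => hh.ne d.1, ?_⟩
  · exact Fintype.card_subtype_lt (x := b) (by simp)
  · intro c
    by_cases hc : c ≠ b
    · simp only [dif_pos hc]
      rw [app_singleton]
    · simp only [dif_neg hc]
      rw [app_singleton, not_not.1 hc, ← hab]
  · intro d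
    refine ⟨d.1, ?_⟩
    simp only [dif_pos d.2]
    exact List.mem_singleton.2 rfl

theorem dl1_app_rev {α β : Type} (g : α → List β) (l : List α) :
    app (D0L.rev g) l.reverse = (app g l).reverse := by
  induction l with
  | nil => rfl
  | cons a l ih =>
    rw [List.reverse_cons, app_append, ih, app_singleton, app_cons, List.reverse_append]
    rfl

/-- Proof.  Reverse all images of a factorisation (`Simp_rev` in `Red/Simp.lean` is the computation). -/
theorem Elem.rev {α β : Type} [Fintype α] {h : α → List β} (hh : Elem h) : Elem (rev h) := by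
  rintro ⟨δ, i, f, g, c1, c2, c3, c4⟩
  apply hh
  refine ⟨δ, i, D0L.rev f, D0L.rev g, c1, fun a => ?_, fun d hd => ?_, fun d => ?_⟩
  · show app (D0L.rev g) (f a).reverse = h a
    rw [dl1_app_rev, c2]
    exact List.reverse_reverse _
  · exact c3 d (List.reverse_eq_nil_iff.1 hd)
  · obtain ⟨a, ha⟩ := c4 d
    exact ⟨a, List.mem_reverse.2 ha⟩

end D0L
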