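import Pool.Agent.H.MP_374efc_lc.Fr.Dl1

/-!
# MP_374efc_lc, free case: bounded delay of elementary morphisms

Paper proof: /team-store/h43_374efc_L3.md
-/

set_option autoImplicit false

namespace D0L

/-- recoding of the letters: `b` becomes `a b`, the other letters are fixed -/
def dl2_kap {α : Type} [DecidableEq α] (a b : α) (c : α) : List α := if c = b then [a, b] else [c]

theorem dl2_mem_kap {α : Type} [DecidableEq α] (a b c : α) : c ∈ dl2_kap a b c := by
  unfold dl2_kap
  split_ifs with hc
  · subst hc; simp
  · simp

theorem dl2_app_kap {α β : Type} [DecidableEq α] {h : α → List β} {a b : α} {z : List β}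
    (hab : a ≠ b) (hz : h b = h a ++ z) (c : α) :
    app (Function.update h b z) (dl2_kap a b c) = h c := by
  unfold dl2_kap
  split_ifs with hc
  · subst hc
    rw [app_cons, app_singleton, Function.update_of_ne hab, Function.update_self, hz]
  · rw [app_singleton, Function.update_of_ne hc]

theorem dl2_app_app_kap {α β : Type} [DecidableEq α] {h : α → List β} {a b : α} {z : List β}
    (hab : a ≠ b) (hz : h b = h a ++ z) (u : List α) :
    app h u = app (Function.update h b z) (app (dl2_kap a b) u) := by
  rw [app_app]
  congr 1
  funext c
  exact (dl2_app_kap hab hz c).symm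

theorem dl2_elem {α β : Type} [Fintype α] [DecidableEq α] {h : α → List β} {a b : α}
    {z : List β} (hab : a ≠ b) (hz : h b = h a ++ z) (hh : Elem h) :
    Elem (Function.update h b z) := by
  rintro ⟨δ, i, f, g, c1, c2, c3, c4⟩
  apply hh
  refine ⟨δ, i, fun c => app f (dl2_kap a b c), g, c1, fun c => ?_, c3, fun d => ?_⟩
  · rw [app_app]
    have e : (fun c => app g (f c)) = Function.update h b z := funext c2
    rw [e]
    exact dl2_app_kap hab hz c
  · obtain ⟨c, hc⟩ := c4 d
    exact ⟨c, mem_app.2 ⟨c, dl2_mem_kap a b c, hc⟩⟩

theorem dl2_sum {α β : Type} [Fintype α] [DecidableEq α] {h : α → List β} {a b : α}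
    {z : List β} (hz : h b = h a ++ z) :
    ∑ c, (h c).length = (h a).length + ∑ c, (Function.update h b z c).length := by
  have e1 := Finset.add_sum_erase Finset.univ (fun c => (h c).length) (Finset.mem_univ b)
  have e2 := Finset.add_sum_erase Finset.univ (fun c => (Function.update h b z c).length)
    (Finset.mem_univ b)
  have e3 : ∑ c ∈ Finset.univ.erase b, (Function.update h b z c).length
      = ∑ c ∈ Finset.univ.erase b, (h c).length := by
    refine Finset.sum_congr rfl fun c hc => ?_
    rw [Function.update_of_ne (Finset.ne_of_mem_erase hc)]
  have e4 : (h b).length = (h a).length + z.length := by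
    rw [hz, List.length_append]
  have e5 : (Function.update h b z b).length = z.length := by
    rw [Function.update_self]
  simp only [e3, e4, e5] at e1 e2
  omega

theorem dl2_step {α β : Type} [Fintype α] [DecidableEq α] {h : α → List β} {a b : α}
    {z : List β} (hab : a ≠ b) (hz : h b = h a ++ z)
    (ih : Delay (Function.update h b z) (∑ c, (Function.update h b z c).length))
    {u v : List α} {x : List β} (h1 : x <+: app h (a :: u)) (h2 : x <+: app h (b :: v)) :
    x.length ≤ ∑ c, (h c).length := by
  rw [dl2_sum hz]
  by_cases hx : x.length ≤ (h a).length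
  · exact hx.trans (Nat.le_add_right _ _)
  have hpre : h a <+: x := by
    refine List.prefix_of_prefix_length_le (l₃ := app h (a :: u)) ?_ h1 (by omega)
    rw [app_cons]
    exact List.prefix_append _ _
  obtain ⟨x', rfl⟩ := hpre
  rw [app_cons, List.prefix_append_right_inj, dl2_app_app_kap hab hz] at h1
  rw [app_cons, hz, List.append_assoc, List.prefix_append_right_inj,
    dl2_app_app_kap hab hz] at h2
  have h2' : x' <+: app (Function.update h b z) (b :: app (dl2_kap a b) v) := by
    rw [app_cons, Function.update_self]
    exact h2
  rw [List.length_append]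
  refine Nat.add_le_add_left ?_ _
  cases u with
  | nil =>
    rw [app_nil, app_nil, List.prefix_nil] at h1
    rw [h1]
    exact Nat.zero_le _
  | cons c u =>
    rw [app_cons] at h1
    by_cases hc : c = b
    · have e : dl2_kap a b c = a :: [b] := by
        unfold dl2_kap
        rw [if_pos hc]
      rw [e] at h1
      exact ih a b _ _ x' hab h1 h2'
    · have e : dl2_kap a b c = c :: [] := by
        unfold dl2_kap
        rw [if_neg hc]
      rw [e] at h1
      exact ih c b _ _ x' hc h1 h2'

theorem dl2_main {α β : Type} [Fintype α] (n : ℕ) : ∀ h : α → List β, Elem h →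
    ∑ c, (h c).length = n → Delay h (∑ c, (h c).length) := by
  classical
  induction n using Nat.strong_induction_on with
  | _ n ih =>
    intro h hh hn a b u v x hab h1 h2
    have key : ∀ a b : α, ∀ z : List β, a ≠ b → h b = h a ++ z →
        Delay (Function.update h b z) (∑ c, (Function.update h b z c).length) := by
      intro a b z hab hz
      have hs := dl2_sum hz
      have hp : 0 < (h a).length := List.length_pos_of_ne_nil (hh.ne a)
      exact ih (∑ c, (Function.update h b z c).length) (by omega) _
        (dl2_elem hab hz hh) rfl
    by_cases hA : h a <+: h b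
    · obtain ⟨z, hz⟩ := hA
      exact dl2_step hab hz.symm (key a b z hab hz.symm) h1 h2
    by_cases hB : h b <+: h a
    · obtain ⟨z, hz⟩ := hB
      exact dl2_step hab.symm hz.symm (key b a z hab.symm hz.symm) h2 h1
    have hlt : x.length < (h a).length := by
      by_contra hcon
      have hpa : h a <+: app h (a :: u) := by
        rw [app_cons]
        exact List.prefix_append _ _
      have hpb : h b <+: app h (b :: v) := by
        rw [app_cons]
        exact List.prefix_append _ _
      have hax : h a <+: x := List.prefix_of_prefix_length_le hpa h1 (not_lt.1 hcon)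
      rcases List.prefix_or_prefix_of_prefix (hax.trans h2) hpb with h3 | h3
      · exact hA h3
      · exact hB h3
    have hle : (h a).length ≤ ∑ c, (h c).length :=
      Finset.single_le_sum (f := fun c => (h c).length) (fun _ _ => Nat.zero_le _)
        (Finset.mem_univ a)
    exact hlt.le.trans hle

/-- Bounded delay of elementary morphisms.
Proof: strong induction on `∑ c, (h c).length` (for all `h`).  `x` is a common initial piece of `app h (a :: u) = h a ++ app h u` and
`app h (b :: v) = h b ++ app h v`.  If neither `h a <+: h b` nor `h b <+: h a`, then `|x| < |h a|` (if `h a <+: x` then `h a` and `h b` are both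
prefixes of one word, so comparable).  Otherwise (symmetry) `h b = h a ++ z`, `z ≠ []` (`Elem.inj1`).  Let `h' = Function.update h b z`,
`κ c = if c = b then [a, b] else [c]`; `app h' (κ c) = h c` for all `c`.  `h'` is `Elem`: from a factorisation `g, f'` of `h'` we get the factorisation
`g, fun c => app f' (κ c)` of `h` (`d ∈ f' c` implies `d ∈ app f' (κ c)` because `c ∈ κ c`).  `∑ |h' c| = ∑ |h c| - |h a|`.
`app h (a :: u) = h a ++ app h' (app κ u)`, `app h (b :: v) = h a ++ app h' (b :: app κ v)`, so `|x| ≤ |h a| + |x'|` with `x'` a common initial piece of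
`app h' (app κ u)` and `app h' (b :: app κ v)`.  If `u = []`, `x' = []`; otherwise the first letter of `app κ u` is `≠ b`: induction. -/
theorem Elem.delay {α β : Type} [Fintype α] {h : α → List β} (hh : Elem h) :
    Delay h (∑ c, (h c).length) := by
  exact dl2_main _ h hh rfl

end D0L
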