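import Pool.Agent.H.MP_374efc_lc.Fr.Pu3

/-!
# MP_374efc_lc, free case: the pump

Paper proof: /team-store/h43_374efc_L3.md
-/

set_option autoImplicit false

namespace D0L.VS

variable {α E : Type} {h : α → List α} {w : List α} {N : ℕ} {js : List ℕ}

theorem pu4_mem_et {F : Type} (A : Act α (Op h) F (osrc h) (otgt h) (oinv h)) {e : F} {a : α}
    (ha : A.π e = a) (j : Fin (h a).length) : A.op (fwd a j) e ∈ A.et e := by
  subst ha
  unfold Act.et
  rw [List.mem_ofFn]
  exact ⟨j, rfl⟩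

/-- An arrow predecessor. -/
theorem pu4_pred {F : Type} (A : Act α (Op h) F (osrc h) (otgt h) (oinv h))
    (hpos : ∀ b, ∃ a, b ∈ h a) (y : F) : ∃ (a : α) (j : Fin (h a).length) (y1 : F),
      (h a).get j = A.π y ∧ A.π y1 = a ∧ A.op (fwd a j) y1 = y ∧
        y1 = A.op (oinv h (fwd a j)) y := by
  obtain ⟨a, ha⟩ := hpos (A.π y)
  obtain ⟨j, hj⟩ := List.mem_iff_get.mp ha
  have e1 : A.π y = osrc h (oinv h (fwd a j)) := by
    rw [osrc_oinv]
    exact hj.symm
  refine ⟨a, j, A.op (oinv h (fwd a j)) y, hj, ?_, ?_, rfl⟩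
  · have h2 := A.π_op (oinv h (fwd a j)) y e1
    rw [h2, otgt_oinv]
    rfl
  · have h3 := A.inv_op (oinv h (fwd a j)) y e1
    rw [oinv_oinv] at h3
    exact h3

theorem pu4_cpt {F : Type} (M : VS h w N js E) (B : Act α (Op h) F (osrc h) (otgt h) (oinv h))
    (H : ∀ e : F, ∃ (y : E) (g : E → F), B.π e = M.A.π y ∧ (∀ θ, B.op θ e = g (M.A.op θ y)) ∧
      ∀ θ0 θ, M.A.π y = osrc h θ0 → otgt h θ0 = osrc h θ →
        B.op θ (B.op θ0 e) = g (M.A.op θ (M.A.op θ0 y))) : Cpt B := by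
  constructor
  · intro a j j' hj hl e he
    obtain ⟨y, g, g1, g2, g3⟩ := H e
    rw [g2, g3 (fwd a j) _ (g1.symm.trans he) rfl]
    rw [M.cpt.V1 a j j' hj hl y (g1.symm.trans he)]
  · intro a b hab j hj j' hj' hl e he
    obtain ⟨y, g, g1, g2, g3⟩ := H e
    rw [g3 (tauo a b hab) (fwd b j') (g1.symm.trans he) rfl,
      g3 (fwd a j) (tauo ((h a).get j) ((h b).get j') hl) (g1.symm.trans he) rfl]
    rw [M.cpt.V2 a b hab j hj j' hj' hl y (g1.symm.trans he)]

/-- The pump.
Proof.  `surgery` gives the action `B` on `Sg X X'`; `Cpt B` from the two-step formulas and `M.cpt`.  `f = Sg.lo`; `f2`: for `e ∈ T ⊆ X'` `f e = inl e`.  `transport`.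
`hgen`: let `C` be given.  (1) `inl y ∈ C` for all `y ∈ X'`, by strong induction on the index of `y` in `l` (elements of `T` are clear): let `π y = h a [j]` (`hpos`),
`θ = fwd a j`, `y1 = A.op (oinv θ) y`, so `y = A.op θ y1 ∈ et y1`.  If `y1 ∉ T` then `y1` is before `y` in `l` (`hord`), so `y1 ∈ X'`, `inl y1 ∈ C`; in any case
`inl y1 ∈ C` and `B.op θ (inl y1) = lo y = inl y ∈ B.et (inl y1)`.  (2) `inr y ∈ C` for `y ∉ X` by strong induction on the index: `y1` as before; if `y1 ∉ X`: `inr y1 ∈ C`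
and `B.op θ (inr y1) = up y = inr y`; if `y1 ∈ X`: `B.op (oinv θ) (inr y) = up y1 = inl _ ∈ C`, and `B.op θ` of it is `inr y`.
`card (Sg X X') = card X' + card Xᶜ > card E` because `X` is properly contained in `X'`. -/
theorem pump [Fintype E] (M : VS h w N js E) (hne : ∀ a, h a ≠ []) (hpos : ∀ b, ∃ a, b ∈ h a)
    (hw : w ≠ []) (hjs : js ≠ []) {D : ℕ} (hwD : w.length ≤ D + 1) (l : List E)
    (hl : l.Nodup) (hlT : ∀ e, e ∈ l ↔ e ∉ M.T D)
    (hord : l.Pairwise (fun x y => x ∉ M.A.et y)) (hself : ∀ x, x ∉ M.T D → x ∉ M.A.et x)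
    {i i' : ℕ} (hi : i < i') (hi' : i' ≤ l.length) (X X' : Set E)
    (hX : X = M.T D ∪ {e | e ∈ l.take i}) (hX' : X' = M.T D ∪ {e | e ∈ l.take i'})
    (Ψ Ψ' : E → E) (q1 : ∀ y, y ∉ X' → Ψ' y ∉ X) (q2 : ∀ y, y ∈ X → Ψ y ∈ X')
    (p1 : ∀ y, y ∉ X' → M.A.π (Ψ' y) = M.A.π y) (p2 : ∀ y, y ∈ X → M.A.π (Ψ y) = M.A.π y)
    (CA : ∀ b ∈ X', ∀ θ0, M.A.π b = osrc h θ0 → M.A.op θ0 b ∉ X' → ∀ θ,
      M.A.π (M.A.op θ0 b) = osrc h θ →
      Sg.up X X' Ψ q2 (M.A.op θ (Ψ' (M.A.op θ0 b))) = Sg.lo X X' Ψ' q1 (M.A.op θ (M.A.op θ0 b)))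
    (CB : ∀ b, b ∉ X → ∀ θ0, M.A.π b = osrc h θ0 → M.A.op θ0 b ∈ X → ∀ θ,
      M.A.π (M.A.op θ0 b) = osrc h θ →
      Sg.lo X X' Ψ' q1 (M.A.op θ (Ψ (M.A.op θ0 b))) = Sg.up X X' Ψ q2 (M.A.op θ (M.A.op θ0 b))) :
    ∃ (E' : Type) (_ : Fintype E') (_ : VS h w N js E'), Fintype.card E < Fintype.card E' := by
  classical
  obtain ⟨B, b1, b2, b3, b4, b5, b6⟩ := surgery (fun θ => osrc_oinv h θ) M.A X X' Ψ Ψ' q1 q2 p1 p2
    CA CB
  have lo_pos : ∀ y (hy : y ∈ X'), Sg.lo X X' Ψ' q1 y = Sum.inl ⟨y, hy⟩ := by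
    intro y hy
    unfold Sg.lo
    rw [dif_pos hy]
  have lo_neg : ∀ y (hy : y ∉ X'), Sg.lo X X' Ψ' q1 y = Sum.inr ⟨Ψ' y, q1 y hy⟩ := by
    intro y hy
    unfold Sg.lo
    rw [dif_neg hy]
  have up_pos : ∀ y (hy : y ∈ X), Sg.up X X' Ψ q2 y = Sum.inl ⟨Ψ y, q2 y hy⟩ := by
    intro y hy
    unfold Sg.up
    rw [dif_pos hy]
  have up_neg : ∀ y (hy : y ∉ X), Sg.up X X' Ψ q2 y = Sum.inr ⟨y, hy⟩ := by
    intro y hy
    unfold Sg.up
    rw [dif_neg hy]
  have hB : Cpt B := by
    apply pu4_cpt M B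
    intro e
    rcases e with y | y
    · exact ⟨y.1, Sg.lo X X' Ψ' q1, b1 y, fun θ => b3 θ y, fun θ0 θ => b5 θ0 θ y⟩
    · exact ⟨y.1, Sg.up X X' Ψ q2, b2 y, fun θ => b4 θ y, fun θ0 θ => b6 θ0 θ y⟩
  have hTX : ∀ e ∈ M.T D, e ∈ X := by
    intro e he
    rw [hX]
    exact Or.inl he
  have hTX' : ∀ e ∈ M.T D, e ∈ X' := by
    intro e he
    rw [hX']
    exact Or.inl he
  -- positions
  have hpos1 : ∀ y : E, y ∉ M.T D → ∃ n : ℕ, l[n]? = some y := by
    intro y hy
    exact List.mem_iff_getElem?.mp ((hlT y).mpr hy)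
  have huniq : ∀ (n n' : ℕ) (y : E), l[n]? = some y → l[n']? = some y → n = n' := by
    intro n n' y hn hn'
    obtain ⟨k1, e1⟩ := List.getElem?_eq_some_iff.mp hn
    obtain ⟨k2, e2⟩ := List.getElem?_eq_some_iff.mp hn'
    exact (List.Nodup.getElem_inj_iff hl).mp (e1.trans e2.symm)
  have hlt : ∀ (n n1 : ℕ) (y y1 : E), l[n]? = some y → l[n1]? = some y1 → y ∈ M.A.et y1 → n1 < n := by
    intro n n1 y y1 hn hn1 hy
    obtain ⟨k1, e1⟩ := List.getElem?_eq_some_iff.mp hn
    obtain ⟨k2, e2⟩ := List.getElem?_eq_some_iff.mp hn1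
    rcases lt_trichotomy n n1 with hlt | heq | hgt
    · exfalso
      have h3 := List.pairwise_iff_getElem.mp hord n n1 k1 k2 hlt
      rw [e1, e2] at h3
      exact h3 hy
    · exfalso
      subst heq
      rw [hn] at hn1
      obtain rfl := Option.some.inj hn1
      have hyT : y ∉ M.T D := (hlT y).mp (List.mem_iff_getElem?.mpr ⟨n, hn⟩)
      exact hself y hyT hy
    · exact hgt
  have hXi : ∀ (n : ℕ) (y : E), l[n]? = some y → (y ∈ X ↔ n < i) := by
    intro n y hn
    have hyT : y ∉ M.T D := (hlT y).mp (List.mem_iff_getElem?.mpr ⟨n, hn⟩)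
    rw [hX]
    constructor
    · rintro (h4 | h4)
      · exact absurd h4 hyT
      · obtain ⟨n', hn'⟩ := List.mem_iff_getElem?.mp h4
        rw [List.getElem?_take] at hn'
        split_ifs at hn' with h5
        have := huniq n n' y hn hn'
        omega
    · intro h4
      refine Or.inr (List.mem_iff_getElem?.mpr ⟨n, ?_⟩)
      rw [List.getElem?_take, if_pos h4, hn]
  have hXi' : ∀ (n : ℕ) (y : E), l[n]? = some y → (y ∈ X' ↔ n < i') := by
    intro n y hn
    have hyT : y ∉ M.T D := (hlT y).mp (List.mem_iff_getElem?.mpr ⟨n, hn⟩)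
    rw [hX']
    constructor
    · rintro (h4 | h4)
      · exact absurd h4 hyT
      · obtain ⟨n', hn'⟩ := List.mem_iff_getElem?.mp h4
        rw [List.getElem?_take] at hn'
        split_ifs at hn' with h5
        have := huniq n n' y hn hn'
        omega
    · intro h4
      refine Or.inr (List.mem_iff_getElem?.mpr ⟨n, ?_⟩)
      rw [List.getElem?_take, if_pos h4, hn]
  have hV : Nonempty (VS h w N js (Sg X X')) := by
    refine transport M hne hw hjs hwD B hB (Sg.lo X X' Ψ' q1) ?_ ?_ ?_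
    · intro e
      by_cases he : e ∈ X'
      · rw [lo_pos e he, b1]
      · rw [lo_neg e he, b2]
        exact p1 e he
    · intro e he θ _
      rw [lo_pos e (hTX' e he), b3]
    · intro C hC1 hC2
      have c1 : ∀ n : ℕ, ∀ y : E, l[n]? = some y → ∀ hy : y ∈ X',
          (Sum.inl ⟨y, hy⟩ : Sg X X') ∈ C := by
        intro n
        induction n using Nat.strong_induction_on with
        | _ n ih =>
          intro y hn hy
          obtain ⟨a, j, y1, t1, t2, t3, t4⟩ := pu4_pred M.A hpos y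
          have hm : y ∈ M.A.et y1 := by
            have := pu4_mem_et M.A t2 j
            rwa [t3] at this
          have key : ∃ hy1 : y1 ∈ X', (Sum.inl ⟨y1, hy1⟩ : Sg X X') ∈ C := by
            by_cases h4 : y1 ∈ M.T D
            · refine ⟨hTX' y1 h4, ?_⟩
              have := hC1 y1 h4
              rwa [lo_pos y1 (hTX' y1 h4)] at this
            · obtain ⟨n1, hn1⟩ := hpos1 y1 h4
              have h5 := hlt n n1 y y1 hn hn1 hm
              have h6 := (hXi' n y hn).mp hy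
              have h7 : y1 ∈ X' := (hXi' n1 y1 hn1).mpr (by omega)
              exact ⟨h7, ih n1 h5 y1 hn1 h7⟩
          obtain ⟨hy1, h8⟩ := key
          have h9 := hC2 _ h8 _ (pu4_mem_et B (e := Sum.inl ⟨y1, hy1⟩) ((b1 _).trans t2) j)
          rw [b3] at h9
          have h10 : Sg.lo X X' Ψ' q1 (M.A.op (fwd a j) y1) = Sum.inl ⟨y, hy⟩ := by
            rw [t3, lo_pos y hy]
          rw [h10] at h9
          exact h9
      have c2 : ∀ z : {y : E // y ∈ X'}, (Sum.inl z : Sg X X') ∈ C := by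
        rintro ⟨y, hy⟩
        by_cases h4 : y ∈ M.T D
        · have := hC1 y h4
          rwa [lo_pos y hy] at this
        · obtain ⟨n, hn⟩ := hpos1 y h4
          exact c1 n y hn hy
      have c3 : ∀ n : ℕ, ∀ y : E, l[n]? = some y → ∀ hy : y ∉ X,
          (Sum.inr ⟨y, hy⟩ : Sg X X') ∈ C := by
        intro n
        induction n using Nat.strong_induction_on with
        | _ n ih =>
          intro y hn hy
          obtain ⟨a, j, y1, t1, t2, t3, t4⟩ := pu4_pred M.A hpos y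
          have hm : y ∈ M.A.et y1 := by
            have := pu4_mem_et M.A t2 j
            rwa [t3] at this
          by_cases h4 : y1 ∈ X
          · have e1 : B.op (oinv h (fwd a j)) (Sum.inr ⟨y, hy⟩) = Sum.inl ⟨Ψ y1, q2 y1 h4⟩ := by
              rw [b4]
              show Sg.up X X' Ψ q2 (M.A.op (oinv h (fwd a j)) y) = _
              rw [← t4, up_pos y1 h4]
            have e2 : B.π (Sum.inr ⟨y, hy⟩) = osrc h (oinv h (fwd a j)) := by
              rw [b2, osrc_oinv]
              exact t1.symm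
            have e3 := B.inv_op _ _ e2
            have e4 := B.π_op _ _ e2
            rw [e1, otgt_oinv] at e4
            rw [oinv_oinv, e1] at e3
            have h9 := hC2 _ (c2 ⟨Ψ y1, q2 y1 h4⟩) _ (pu4_mem_et B e4 j)
            have e5 : B.op (fwd (osrc h (fwd a j)) j) (Sum.inl ⟨Ψ y1, q2 y1 h4⟩)
                = Sum.inr ⟨y, hy⟩ := e3
            rw [e5] at h9
            exact h9
          · have h5 : y1 ∉ M.T D := fun h => h4 (hTX y1 h)
            obtain ⟨n1, hn1⟩ := hpos1 y1 h5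
            have h6 := hlt n n1 y y1 hn hn1 hm
            have h8 := ih n1 h6 y1 hn1 h4
            have h9 := hC2 _ h8 _ (pu4_mem_et B (e := Sum.inr ⟨y1, h4⟩) ((b2 _).trans t2) j)
            rw [b4] at h9
            have h10 : Sg.up X X' Ψ q2 (M.A.op (fwd a j) y1) = Sum.inr ⟨y, hy⟩ := by
              rw [t3, up_neg y hy]
            rw [h10] at h9
            exact h9
      intro x
      rcases x with z | ⟨y, hy⟩
      · exact c2 z
      · obtain ⟨n, hn⟩ := hpos1 y (fun h => hy (hTX y h))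
        exact c3 n y hn hy
  obtain ⟨V⟩ := hV
  have : Finite (Sg X X') := by
    unfold Sg
    infer_instance
  refine ⟨Sg X X', Fintype.ofFinite _, V, ?_⟩
  have hi2 : i < l.length := by omega
  have hss : X ⊂ X' := by
    constructor
    · intro y hy
      rw [hX] at hy
      rcases hy with hy | hy
      · exact hTX' y hy
      · obtain ⟨n, hn⟩ := List.mem_iff_getElem?.mp hy
        rw [List.getElem?_take] at hn
        split_ifs at hn with h5
        exact (hXi' n y hn).mpr (by omega)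
    · intro hsub
      have e1 : l[i]? = some l[i] := List.getElem?_eq_getElem hi2
      have e2 := (hXi' i _ e1).mpr (by omega)
      have e3 := (hXi i _ e1).mp (hsub e2)
      omega
  have k1 : X.ncard < X'.ncard := Set.ncard_lt_ncard hss (Set.toFinite _)
  have k2 : X.ncard + Xᶜ.ncard = Nat.card E := Set.ncard_add_ncard_compl X (Set.toFinite _) (Set.toFinite _)
  have k3 : Nat.card (Sg X X') = X'.ncard + Xᶜ.ncard := by
    show Nat.card ({y : E // y ∈ X'} ⊕ {y : E // y ∉ X}) = _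
    rw [Nat.card_sum]
    rfl
  have k4 := @Nat.card_eq_fintype_card (Sg X X') (Fintype.ofFinite _)
  have k5 : Nat.card E = Fintype.card E := Nat.card_eq_fintype_card
  rw [← k4, ← k5, k3, ← k2]
  omega

end D0L.VS
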