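import Pool.Agent.H.MP_374efc_lc.Fr.Re1

/-!
# MP_374efc_lc, free case: the valid structure of the classes

Paper proof: /team-store/h43_374efc_L3.md, 5.1, for an arbitrary invariant code
-/

set_option autoImplicit false

namespace D0L

theorem re2_app_map {α β γ : Type} (f : α → List β) (g : β → γ) (z : List α) :
    (app f z).map g = app (fun i => (f i).map g) z := by
  induction z with
  | nil => rfl
  | cons a z ih => rw [app_cons, List.map_append, ih, app_cons]

theorem re2_it_map {E P : Type} (f : P → List P) (g : E → List E) (mk : P → E)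
    (h : ∀ e, g (mk e) = (f e).map mk) (k : ℕ) (V : List P) :
    it g k (V.map mk) = (it f k V).map mk := by
  have h1 : ∀ V : List P, app g (V.map mk) = (app f V).map mk := by
    intro V
    induction V with
    | nil => rfl
    | cons a V ih => rw [List.map_cons, app_cons, app_cons, List.map_append, ih, h]
  induction k with
  | zero => rfl
  | succ k ih => rw [it_succ, it_succ, ih, h1]

/-- Existence of a valid structure with the rank bound.
Proof.  `exists_TS` (`S.H = H`), `real_act`; `E = Quotient S.setoid` (finite, `Fintype.ofFinite`), `N`, `js` from `lc : Rel H b0 N`, `om = (app tk b0).map mk`.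
`it A.et i om = (it hh i (app tk b0)).map mk = (app tk (it H i b0)).map mk` (`real_act`, `it_tk`): this gives `rel`.  `om_π`: `(app tk b0).map pr = app t b0 = w`.
`om_nb`: `legal_token` gives `b0 <:+: it H q [c]`; `adj_word`.  `gen`: every `e : P` is in some `tk i` (`cov`), and `i ∈ it H q b0` for some `q` (`irr`, `b0 ≠ []`).
`first`: the first element of `app tk (it H i b0)` is a token start: `st_eqv`.  `last`: `en_eqv`.  The bound: `rank_bound` with `det_token`, `Fintype.card (Fin n) = n`,
`Nat.card = Fintype.card`. -/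
theorem exists_VS {α : Type} [Fintype α] {h : α → List α} {m r : ℕ} (hs : Std h m r) {w : List α}
    (hw : w ≠ []) {n : ℕ} {t : Fin n → List α} {H : Fin n → List (Fin n)} {b0 : List (Fin n)}
    (inj : Function.Injective (app t)) (comm : ∀ i, app h (t i) = app t (H i))
    (ax : app t b0 = w) (irr : ∀ i j, ∃ q, 0 < q ∧ j ∈ it H q [i])
    (det : (Matrix.of fun (j i : Fin n) => ((H i).count j : ℚ)).det ≠ 0) (lc : LC H b0) :
    ∃ (N : ℕ) (js : List ℕ) (E : Type) (_ : Fintype E) (_ : VS h w N js E), js ≠ [] ∧
      (∀ j ∈ js, j < N) ∧ n ≤ (Fintype.card α + 1) * Fintype.card E + 2 * Fintype.card α := by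
  classical
  obtain ⟨P, iP, S, hSh, hSH, hSt⟩ := exists_TS hs hw t H b0 inj comm ax irr
  have hleg : Legal H b0 := legal_token hs hw inj comm ax lc
  have ht : t = fun i => (S.tk i).map S.pr := by
    funext i
    exact (hSt i).symm
  subst hSh
  subst hSH
  haveI : Nonempty α := Fintype.card_pos_iff.1 (by have := hs.two; omega)
  obtain ⟨A, hcpt, hπ, het, hnb⟩ := S.real_act
  obtain ⟨N, js, hjs, hlt, hrel⟩ := lc
  haveI hfinE : Finite (Quotient S.setoid) := inferInstance
  letI iE : Fintype (Quotient S.setoid) := Fintype.ofFinite _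
  have hit : ∀ i, it A.et i ((app S.tk b0).map (Quotient.mk S.setoid)) =
      (app S.tk (it S.H i b0)).map (Quotient.mk S.setoid) := by
    intro i
    rw [re2_it_map S.hh A.et (Quotient.mk S.setoid) het, S.it_tk]
  have hb0 : b0 ≠ [] := by
    rintro rfl
    exact hw ax.symm
  obtain ⟨c0, q0, hq0⟩ := hleg
  have hfirst : ∀ i x V, it A.et i ((app S.tk b0).map (Quotient.mk S.setoid)) = x :: V →
      ∃ e, S.St e ∧ x = Quotient.mk S.setoid e := by
    intro i x V hx
    rw [hit] at hx
    cases hz : it S.H i b0 with
    | nil =>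
      rw [hz, app_nil] at hx
      exact absurd hx (by simp)
    | cons z zs =>
      rw [hz, app_cons] at hx
      cases hv : S.tk z with
      | nil => exact absurd hv (S.tkne z)
      | cons e v =>
        rw [hv, List.cons_append, List.map_cons] at hx
        exact ⟨e, ⟨z, v, hv⟩, (List.cons.inj hx).1.symm⟩
  have hlast : ∀ i x V, it A.et i ((app S.tk b0).map (Quotient.mk S.setoid)) = V ++ [x] →
      ∃ e, S.En e ∧ x = Quotient.mk S.setoid e := by
    intro i x V hx
    rw [hit] at hx
    rcases List.eq_nil_or_concat (it S.H i b0) with hz | ⟨zs, z, hz⟩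
    · rw [hz, app_nil] at hx
      exact absurd hx.symm (by simp)
    · rw [hz, List.concat_eq_append, app_append, app_singleton] at hx
      rcases List.eq_nil_or_concat (S.tk z) with hv | ⟨v, e, hv⟩
      · exact absurd hv (S.tkne z)
      · rw [List.concat_eq_append] at hv
        rw [hv, ← List.append_assoc, List.map_append, List.map_singleton] at hx
        have h5 := (List.append_inj' hx rfl).2
        exact ⟨e, ⟨z, v, hv⟩, (List.cons.inj h5).1.symm⟩
  refine ⟨N, js, Quotient S.setoid, iE, ⟨A, hcpt, (app S.tk b0).map (Quotient.mk S.setoid),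
    ?_, ?_, ?_, ?_, ?_, ?_⟩, hjs, hlt, ?_⟩
  · rw [List.map_map]
    have h1 : A.π ∘ Quotient.mk S.setoid = S.pr := by
      funext e
      exact hπ e
    rw [h1, re2_app_map, ← ht, ax]
  · rw [List.isChain_map, List.isChain_iff_forall_rel_of_append_cons_cons]
    intro a b l1 l2 hl
    exact hnb a b (S.adj_word hq0 hl)
  · rw [hit, hrel, app_flatten, List.map_flatten, List.map_map, List.map_map]
    congr 1
    apply List.map_congr_left
    intro j _
    rw [Function.comp, Function.comp, hit]
  · intro e
    obtain ⟨p, rfl⟩ := Quotient.exists_rep e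
    obtain ⟨s, hs'⟩ := S.cov p
    obtain ⟨c, rest, rfl⟩ := List.exists_cons_of_ne_nil hb0
    obtain ⟨q, -, hq⟩ := irr c s
    refine ⟨q, ?_⟩
    rw [hit]
    refine List.mem_map_of_mem ?_
    rw [mem_app]
    refine ⟨s, ?_, hs'⟩
    have h2 : it S.H q (c :: rest) = it S.H q [c] ++ it S.H q rest := by
      rw [← it_append]
      rfl
    rw [h2]
    exact List.mem_append_left _ hq
  · intro i i' x x' V V' h1 h2 h3
    obtain ⟨e, he, rfl⟩ := hfirst i x V h1
    obtain ⟨e', he', rfl⟩ := hfirst i' x' V' h2
    rw [hπ, hπ] at h3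
    exact Quotient.sound (S.st_eqv h3 he he')
  · intro i i' x x' V V' h1 h2 h3
    obtain ⟨e, he, rfl⟩ := hlast i x V h1
    obtain ⟨e', he', rfl⟩ := hlast i' x' V' h2
    rw [hπ, hπ] at h3
    exact Quotient.sound (S.en_eqv h3 he he')
  · have h1 := S.rank_bound (fun x hx => det_token det x hx)
    rw [Fintype.card_fin, Nat.card_eq_fintype_card] at h1
    exact h1

end D0L
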