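import Pool.Agent.H.MP_374efc_lc.Fr.Wi2

/-!
# MP_374efc_lc, free case: closed sets: inverse tau edges

Paper proof: /team-store/h43_374efc_L3.md
-/

set_option autoImplicit false

namespace D0L

variable {α E : Type} [Fintype α] [Fintype E] {h : α → List α}
  (A : Act α (Op h) E (osrc h) (otgt h) (oinv h))

/-- Inverse `τ`-edges.
Proof: `S_b` has at least `|S_a| - |cut| - |T|` elements of the form `τ e`, `e ∈ S_a`; so the number of elements of `S_b` whose preimage is not in `X` is at most
`|S_b| - |S_a| + |cut (tauo a b)| + |T|`. -/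
theorem Act.cut_tau_inv {m r : ℕ} (hs : Std h m r) (hA : Cpt A) {T X : Finset E}
    (hX : A.Closed T X) (k : ℕ) {a b c : α} (hc : [a, b] <:+: it h k [c]) (hab : Legal h [a, b]) :
    (A.cut T X (oinv h (tauo a b hab))).card ≤ (k + 1) * ((r + 3) * T.card) := by
  classical
  obtain ⟨f, hf⟩ : ∃ f : E → E, f = A.op (tauo a b hab) := ⟨_, rfl⟩
  have hmem : ∀ (c : α) (e : E), e ∈ A.Sa T X c ↔ e ∈ X ∧ e ∉ T ∧ A.π e = c := by
    intro c e
    unfold Act.Sa
    rw [Finset.mem_filter]
  -- elements of `S_a` mapped into `S_b`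
  have h1 : (A.Sa T X a).card ≤ (A.cut T X (tauo a b hab)).card + T.card +
      ((A.Sa T X a).filter (fun e => f e ∈ A.Sa T X b)).card := by
    have h2 : A.Sa T X a ⊆ A.cut T X (tauo a b hab) ∪
        ((A.Sa T X a).filter (fun e => f e ∈ T)) ∪
        (A.Sa T X a).filter (fun e => f e ∈ A.Sa T X b) := by
      intro e he
      obtain ⟨e1, e2, e3⟩ := (hmem a e).1 he
      rw [Finset.mem_union, Finset.mem_union, Finset.mem_filter, Finset.mem_filter]
      by_cases hx : f e ∈ X
      · by_cases hT : f e ∈ T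
        · exact Or.inl (Or.inr ⟨he, hT⟩)
        · refine Or.inr ⟨he, (hmem b _).2 ⟨hx, hT, ?_⟩⟩
          rw [hf]
          exact A.π_op (tauo a b hab) e e3
      · refine Or.inl (Or.inl ((wi2_mem_cut A).2 ⟨e1, e2, e3, ?_⟩))
        rw [← hf]
        exact hx
    have h3 : ((A.Sa T X a).filter (fun e => f e ∈ T)).card ≤ T.card := by
      apply Finset.card_le_card_of_injOn f
      · intro e he
        exact Finset.mem_coe.2 (Finset.mem_filter.1 (Finset.mem_coe.1 he)).2
      · intro e he e' he' hee
        have k1 := ((hmem a e).1 (Finset.mem_filter.1 (Finset.mem_coe.1 he)).1).2.2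
        have k2 := ((hmem a e').1 (Finset.mem_filter.1 (Finset.mem_coe.1 he')).1).2.2
        rw [hf] at hee
        rw [← A.inv_op (tauo a b hab) e k1, ← A.inv_op (tauo a b hab) e' k2, hee]
    have h4 := Finset.card_le_card h2
    have h5 := Finset.card_union_le (A.cut T X (tauo a b hab) ∪
        ((A.Sa T X a).filter (fun e => f e ∈ T)))
        ((A.Sa T X a).filter (fun e => f e ∈ A.Sa T X b))
    have h6 := Finset.card_union_le (A.cut T X (tauo a b hab))
        ((A.Sa T X a).filter (fun e => f e ∈ T))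
    omega
  -- the cut of the inverse and the image of the good elements are disjoint in `S_b`
  have h7 : (A.cut T X (oinv h (tauo a b hab))).card +
      ((A.Sa T X a).filter (fun e => f e ∈ A.Sa T X b)).card ≤ (A.Sa T X b).card := by
    have h8 : (((A.Sa T X a).filter (fun e => f e ∈ A.Sa T X b)).image f).card =
        ((A.Sa T X a).filter (fun e => f e ∈ A.Sa T X b)).card := by
      apply Finset.card_image_of_injOn
      intro e he e' he' hee
      have k1 := ((hmem a e).1 (Finset.mem_filter.1 (Finset.mem_coe.1 he)).1).2.2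
      have k2 := ((hmem a e').1 (Finset.mem_filter.1 (Finset.mem_coe.1 he')).1).2.2
      have hee' : f e = f e' := hee
      rw [hf] at hee'
      rw [← A.inv_op (tauo a b hab) e k1, ← A.inv_op (tauo a b hab) e' k2, hee']
    rw [← h8, ← Finset.card_union_of_disjoint]
    · apply Finset.card_le_card
      intro e he
      rcases Finset.mem_union.1 he with he | he
      · obtain ⟨e1, e2, e3, -⟩ := (wi2_mem_cut A).1 he
        exact (hmem b e).2 ⟨e1, e2, e3⟩
      · obtain ⟨e', he', rfl⟩ := Finset.mem_image.1 he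
        exact (Finset.mem_filter.1 he').2
    · rw [Finset.disjoint_left]
      intro e he he'
      obtain ⟨e', he'', rfl⟩ := Finset.mem_image.1 he'
      obtain ⟨e1, e2, e3, e4⟩ := (wi2_mem_cut A).1 he
      obtain ⟨k1, k2, k3⟩ := (hmem a e').1 (Finset.mem_filter.1 he'').1
      apply e4
      rw [hf, A.inv_op (tauo a b hab) e' k3]
      exact k1
  have h9 := A.cut_tau hs hA hX k hc hab
  have h10 := A.card_step' hX (k := r) (a := a) (b := b) (hs.full r le_rfl a b)
  have h11 : (k + 1) * ((r + 3) * T.card) =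
      k * ((r + 3) * T.card) + (r * T.card + T.card + T.card + T.card) := by ring
  rw [h11]
  omega

/-- All signed operations.  Proof: `legal_pair_level`: all legal pairs occur in `it h (n^2) [c]`. -/
theorem Act.cut_le {m r : ℕ} (hs : Std h m r) (hA : Cpt A) {T X : Finset E}
    (hX : A.Closed T X) (θ : Op h) :
    (A.cut T X θ).card ≤ (Fintype.card α ^ 2 + 1) * ((r + 3) * T.card) := by
  have h0 : (r + 1) * T.card ≤ (Fintype.card α ^ 2 + 1) * ((r + 3) * T.card) := by
    calc (r + 1) * T.card ≤ (r + 3) * T.card := Nat.mul_le_mul_right _ (by omega)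
      _ = 1 * ((r + 3) * T.card) := (one_mul _).symm
      _ ≤ _ := Nat.mul_le_mul_right _ (by omega)
  obtain ⟨θ0, s⟩ := θ
  rcases θ0 with ⟨a, j⟩ | ⟨⟨a, b⟩, hab⟩
  · cases s with
    | false => exact (A.cut_fwd hs hX a j).trans h0
    | true =>
      have h1 := A.cut_bwd hX a j
      have h2 : ((Sum.inl ⟨a, j⟩, true) : Op h) = oinv h (fwd a j) := rfl
      rw [h2, h1]
      simp
  · obtain ⟨c, hc⟩ := legal_pair_level hs.ne hs.sur hab
    cases s with
    | false =>
      exact (A.cut_tau hs hA hX _ hc hab).trans (Nat.mul_le_mul_right _ (Nat.le_succ _))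
    | true => exact A.cut_tau_inv hs hA hX _ hc hab

end D0L
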