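import Pool.Agent.H.MP_374efc_lc.Fr.Pi2
import Pool.Agent.H.MP_374efc_lc.Fr.Pu4
import Pool.Agent.H.MP_374efc_lc.Fr.Wi3
import Pool.Agent.H.MP_374efc_lc.Fr.Ac3
import Pool.Agent.H.MP_374efc_lc.Fr.Re2

/-!
# MP_374efc_lc, free case: constants, ordering by the rank

Paper proof: /team-store/h43_374efc_L3.md
-/

set_option autoImplicit false

namespace D0L

/-- radius of `T` -/
def dF (n m r l : ℕ) : ℕ := 2 * D0 n m r + m ^ r * l

/-- bound for `|T|` -/
def tF (n m r l : ℕ) : ℕ := 2 * n ^ (dF n m r l + 2)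

/-- bound for the number of signed operations -/
def oF (n m : ℕ) : ℕ := 2 * (n * m + n ^ 2)

/-- bound for the number of cut edges -/
def wF (n m r l : ℕ) : ℕ := oF n m * ((n ^ 2 + 1) * ((r + 3) * tF n m r l))

/-- the bound of the free case -/
def bF (n m r l : ℕ) : ℕ := (n + 1) * eC n (oF n m) (tF n m r l) (wF n m r l) + 2 * n

theorem eC_mono {n δ δ' t t' W W' : ℕ} (h1 : δ ≤ δ') (h2 : t ≤ t') (h3 : W ≤ W') :
    eC n δ t W ≤ eC n δ' t' W' := by
  have a1 : t * (1 + δ) ^ 2 ≤ t' * (1 + δ') ^ 2 :=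
    Nat.mul_le_mul h2 (Nat.pow_le_pow_left (by omega) 2)
  have a2 : qC δ t W ≤ qC δ' t' W' := by
    unfold qC
    exact Nat.add_le_add a1 (Nat.mul_le_mul (Nat.mul_le_mul le_rfl h3) (by omega))
  have a3 : ∀ Q Q' : ℕ, Q ≤ Q' → thC n δ Q ≤ thC n δ' Q' := by
    intro Q Q' hQ
    unfold thC
    have b1 : (Q + 1) ^ δ ≤ (Q' + 1) ^ δ' :=
      (Nat.pow_le_pow_left (by omega) δ).trans (Nat.pow_le_pow_right (by omega) h1)
    have b2 : (6 * n + 1) * (Q + 1) ^ δ ≤ (6 * n + 1) * (Q' + 1) ^ δ' := Nat.mul_le_mul le_rfl b1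
    have b3 : 0 < (6 * n + 1) * (Q' + 1) ^ δ' := by positivity
    exact (Nat.pow_le_pow_left b2 Q).trans (Nat.pow_le_pow_right b3 hQ)
  unfold eC
  exact Nat.add_le_add a1 (Nat.mul_le_mul (by omega) (a3 _ _ a2))

/-- Number of signed operations. -/
theorem card_op {α : Type} [Fintype α] {h : α → List α} {m : ℕ} (hm : ∀ a, (h a).length ≤ m)
    [Fintype (Op h)] : Fintype.card (Op h) ≤ oF (Fintype.card α) m := by
  classical
  have c1 : Fintype.card (Op h) = Nat.card (Op h) := Nat.card_eq_fintype_card.symm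
  have c2 : Nat.card (Op h) = Nat.card (Op0 h) * 2 := by
    rw [Nat.card_prod]
    simp
  have c3 : Nat.card (Op0 h) =
      Nat.card (Σ a : α, Fin (h a).length) + Nat.card {p : α × α // Legal h [p.1, p.2]} :=
    Nat.card_sum
  have c4 : Nat.card (Σ a : α, Fin (h a).length) ≤ Fintype.card α * m := by
    rw [Nat.card_sigma]
    calc ∑ a : α, Nat.card (Fin (h a).length) = ∑ a : α, (h a).length := by simp
      _ ≤ ∑ _a : α, m := Finset.sum_le_sum (fun a _ => hm a)
      _ = Fintype.card α * m := by simp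
  have c5 : Nat.card {p : α × α // Legal h [p.1, p.2]} ≤ (Fintype.card α) ^ 2 := by
    have : Nat.card {p : α × α // Legal h [p.1, p.2]} ≤ Nat.card (α × α) :=
      Nat.card_le_card_of_injective _ Subtype.val_injective
    rw [Nat.card_prod, Nat.card_eq_fintype_card (α := α)] at this
    rw [pow_two]
    exact this
  rw [c1, c2, c3]
  unfold oF
  have := Nat.add_le_add c4 c5
  nlinarith

/-- A list of the elements outside `T` ordered by the rank. -/
theorem exists_order {E : Type} [Fintype E] (T : Set E) (R : E → E → Prop) (ρ : E → ℕ)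
    (hρ : ∀ x y, x ∉ T → y ∉ T → R x y → ρ x < ρ y) :
    ∃ l : List E, l.Nodup ∧ (∀ e, e ∈ l ↔ e ∉ T) ∧ l.Pairwise (fun x y => ¬ R y x) := by
  classical
  let r : E → E → Prop := fun x y => ρ x ≤ ρ y
  have ht : ∀ x y, r x y ∨ r y x := fun x y => le_total _ _
  have htr : ∀ x y z, r x y → r y z → r x z := fun x y z h1 h2 => le_trans h1 h2
  let l0 : List E := (Finset.univ.filter (fun e => e ∉ T)).toList
  have hl0 : l0.Nodup := Finset.nodup_toList _
  have hm0 : ∀ e, e ∈ l0 ↔ e ∉ T := by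
    intro e
    simp [l0]
  let l : List E := l0.insertionSort r
  have hp : l.Perm l0 := List.perm_insertionSort r l0
  have hm1 : ∀ e, e ∈ l ↔ e ∉ T := fun e => (hp.mem_iff).trans (hm0 e)
  have hs : l.Pairwise r := by
    let _ : Std.Total r := ⟨ht⟩
    let _ : IsTrans E r := ⟨htr⟩
    exact List.pairwise_insertionSort r l0
  refine ⟨l, hp.nodup_iff.2 hl0, hm1, ?_⟩
  refine List.Pairwise.imp_of_mem ?_ hs
  intro x y hx hy hxy hR
  have := hρ y x ((hm1 y).1 hy) ((hm1 x).1 hx) hR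
  exact absurd hxy (not_le.2 this)

end D0L
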