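import Pool.Agent.H.MP_374efc_lc.Fr.Fi1

/-!
# MP_374efc_lc, free case: number of cut edges

Paper proof: /team-store/h43_374efc_L3.md
-/

set_option autoImplicit false

namespace D0L

/-- The number of cut edges.
Proof.  `CE T X` (for `X = T ∪ take i`) is the disjoint union over `θ` of the sets `cut T X θ` of `Width` (with `Finset`s; `Closed` holds by the order of `l`: if `y ∈ take i`,
`y ∈ et x`, `x ∉ T` then `x ∈ l` is before `y`). -/
theorem card_CE {α E : Type} [Fintype α] [Fintype E] {h : α → List α} {m r : ℕ} (hs : Std h m r)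
    (A : Act α (Op h) E (osrc h) (otgt h) (oinv h)) (hA : Cpt A) {T : Set E} {t : ℕ}
    (ht : T.ncard ≤ t) (l : List E) (hl : l.Nodup) (hlT : ∀ e, e ∈ l ↔ e ∉ T)
    (hord : l.Pairwise (fun x y => x ∉ A.et y)) (hself : ∀ x, x ∉ T → x ∉ A.et x) (i : ℕ) :
    (A.CE T (T ∪ {e | e ∈ l.take i})).ncard ≤
      oF (Fintype.card α) m * ((Fintype.card α ^ 2 + 1) * ((r + 3) * t)) := by
  classical
  have hfin : Fintype (Op h) := Fintype.ofFinite _
  have hT' : (T.toFinset).card ≤ t := by
    rw [← Set.ncard_eq_toFinset_card']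
    exact ht
  obtain ⟨X, hX⟩ : ∃ X : Set E, X = T ∪ {e | e ∈ l.take i} := ⟨_, rfl⟩
  rw [← hX]
  have hc : A.Closed T.toFinset X.toFinset := by
    refine ⟨?_, ?_⟩
    · intro e he
      rw [Set.mem_toFinset] at he ⊢
      rw [hX]
      exact Or.inl he
    · intro x y hy hyT hyx
      rw [Set.mem_toFinset] at hy hyT ⊢
      by_contra hx
      rw [hX] at hy hx
      have hy1 : y ∈ l.take i := by
        rcases hy with hy | hy
        · exact absurd hy hyT
        · exact hy
      have hx1 : x ∈ l := (hlT x).2 fun h => hx (Or.inl h)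
      rw [← List.take_append_drop i l, List.mem_append] at hx1
      have hx2 : x ∈ l.drop i := by
        rcases hx1 with h | h
        · exact absurd (Or.inr h) hx
        · exact h
      rw [← List.take_append_drop i l, List.pairwise_append] at hord
      exact hord.2.2 y hy1 x hx2 hyx
  have h1 : A.CE T X ⊆ ((Finset.univ : Finset (Op h)).biUnion
      (fun θ => (A.cut T.toFinset X.toFinset θ).image (fun e => (e, θ))) : Finset (E × Op h)) := by
    rintro ⟨e, θ⟩ ⟨h1, h2, h3, h4⟩
    rw [Finset.mem_coe, Finset.mem_biUnion]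
    refine ⟨θ, Finset.mem_univ _, ?_⟩
    rw [Finset.mem_image]
    refine ⟨e, ?_, rfl⟩
    rw [wi2_mem_cut]
    rw [Set.mem_toFinset, Set.mem_toFinset, Set.mem_toFinset]
    exact ⟨h1, h2, h3, h4⟩
  calc (A.CE T X).ncard
      ≤ ((Finset.univ : Finset (Op h)).biUnion
        (fun θ => (A.cut T.toFinset X.toFinset θ).image (fun e => (e, θ)))).card := by
        rw [← Set.ncard_coe_finset]
        exact Set.ncard_le_ncard h1 (Finset.finite_toSet _)
    _ ≤ ∑ θ : Op h, ((A.cut T.toFinset X.toFinset θ).image (fun e => (e, θ))).card :=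
        Finset.card_biUnion_le
    _ ≤ ∑ θ : Op h, (Fintype.card α ^ 2 + 1) * ((r + 3) * t) := by
        refine Finset.sum_le_sum fun θ _ => ?_
        refine Finset.card_image_le.trans ?_
        refine (A.cut_le hs hA hc θ).trans ?_
        gcongr
    _ = Fintype.card (Op h) * ((Fintype.card α ^ 2 + 1) * ((r + 3) * t)) := by
        rw [Finset.sum_const, smul_eq_mul, Finset.card_univ]
    _ ≤ oF (Fintype.card α) m * ((Fintype.card α ^ 2 + 1) * ((r + 3) * t)) :=
        Nat.mul_le_mul_right _ (card_op hs.len)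

end D0L
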