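import Pool.Agent.H.MP_374efc_lc.Fr.Fi2

/-!
# MP_374efc_lc, free case: the bound for valid structures and for N

Paper proof: /team-store/h43_374efc_L3.md
-/

set_option autoImplicit false

namespace D0L

theorem fi3_step {α : Type} [Fintype α] {h : α → List α} {m r l : ℕ} (hs : Std h m r)
    {w : List α} (hw : w ≠ []) (hwl : w.length ≤ l) (hlw : Legal h w) {N : ℕ} {js : List ℕ}
    (hjs : js ≠ []) (hj : ∀ j ∈ js, j < N) {E : Type} [Fintype E] (M : VS h w N js E)
    (hE : eC (Fintype.card α) (oF (Fintype.card α) m) (tF (Fintype.card α) m r l)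
        (wF (Fintype.card α) m r l) < Fintype.card E) :
    ∃ (E' : Type) (_ : Fintype E') (_ : VS h w N js E'), Fintype.card E < Fintype.card E' := by
  classical
  have : Finite (Op h) := by
    unfold Op Op0
    infer_instance
  let _ : Fintype (Op h) := Fintype.ofFinite _
  have hm1 : 1 ≤ m := by
    have h2 := hs.two
    have h3 : 0 < Fintype.card α := by omega
    obtain ⟨a⟩ := Fintype.card_pos_iff.mp h3
    have h4 := hs.len a
    have h5 := List.length_pos_of_ne_nil (hs.ne a)
    omega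
  have hmr : 1 ≤ m ^ r := Nat.one_le_pow _ _ hm1
  have hl1 : l ≤ m ^ r * l := Nat.le_mul_of_pos_left _ hmr
  have hD1 : 2 * D0 (Fintype.card α) m r ≤ dF (Fintype.card α) m r l := by
    unfold dF
    omega
  have hD2 : ∀ i < r, (it h i w).length ≤ dF (Fintype.card α) m r l := by
    intro i hi
    have h1 := length_it_le hs.len i w
    have h2 : m ^ i * w.length ≤ m ^ r * l :=
      Nat.mul_le_mul (Nat.pow_le_pow_right hm1 hi.le) hwl
    unfold dF
    omega
  have hD3 : w.length ≤ dF (Fintype.card α) m r l + 1 := by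
    unfold dF
    omega
  have hT := M.card_T hs.two hs.ne (dF (Fintype.card α) m r l)
  obtain ⟨ρ, hρ⟩ := M.exists_rank hs hlw hjs hj hD1 hD2
  obtain ⟨l0, o1, o2, o3⟩ := exists_order (M.T (dF (Fintype.card α) m r l))
    (fun x y => y ∈ M.A.et x) ρ hρ
  have hself : ∀ x, x ∉ M.T (dF (Fintype.card α) m r l) → x ∉ M.A.et x := by
    intro x hx hxx
    exact lt_irrefl _ (hρ x x hx hx hxx)
  have hW := fun i => card_CE hs M.A M.cpt hT l0 o1 o2 o3 hself i
  have hE2 : eC (Fintype.card α) (Fintype.card (Op h)) (tF (Fintype.card α) m r l)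
      (wF (Fintype.card α) m r l) < Fintype.card E :=
    lt_of_le_of_lt (eC_mono (card_op hs.len) le_rfl le_rfl) hE
  obtain ⟨i, i', hi, hi', X, X', hX, hX', Ψ, Ψ', q1, q2, p1, p2, CA, CB⟩ :=
    pigeon (fun θ => osrc_oinv h θ) M.A (M.T (dF (Fintype.card α) m r l)) l0 o1 o2
      (tF (Fintype.card α) m r l) (wF (Fintype.card α) m r l) hT hW hE2
  have hpos : ∀ b, ∃ a, b ∈ h a := by
    intro b
    have h1 := hs.full (r + 1) (by omega) b b
    rw [it_succ, mem_app] at h1
    obtain ⟨a, _, ha⟩ := h1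
    exact ⟨a, ha⟩
  exact VS.pump M hs.ne hpos hw hjs hD3 l0 o1 o2 o3 hself hi hi' X X' hX hX' Ψ Ψ' q1 q2 p1 p2 CA CB

theorem fi3_aux {α : Type} [Fintype α] {h : α → List α} {m r l : ℕ} (hs : Std h m r)
    {w : List α} (hw : w ≠ []) (hwl : w.length ≤ l) (hlw : Legal h w) {N : ℕ} {js : List ℕ}
    (hjs : js ≠ []) (hj : ∀ j ∈ js, j < N) (d : ℕ) : ∀ (E : Type) (_ : Fintype E)
    (_ : VS h w N js E), ∑ i ∈ Finset.range N, (it h i w).length ≤ Fintype.card E + d →
    ∃ (E' : Type) (_ : Fintype E') (_ : VS h w N js E'), Fintype.card E ≤ Fintype.card E' ∧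
      Fintype.card E' ≤ eC (Fintype.card α) (oF (Fintype.card α) m) (tF (Fintype.card α) m r l)
        (wF (Fintype.card α) m r l) := by
  induction d with
  | zero =>
    intro E _ M hd
    by_cases hE : eC (Fintype.card α) (oF (Fintype.card α) m) (tF (Fintype.card α) m r l)
        (wF (Fintype.card α) m r l) < Fintype.card E
    · exfalso
      obtain ⟨E2, i2, M2, h2⟩ := fi3_step hs hw hwl hlw hjs hj M hE
      have h3 := M2.card_le hjs hj
      omega
    · exact ⟨E, _, M, le_rfl, by omega⟩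
  | succ d ih =>
    intro E _ M hd
    by_cases hE : eC (Fintype.card α) (oF (Fintype.card α) m) (tF (Fintype.card α) m r l)
        (wF (Fintype.card α) m r l) < Fintype.card E
    · obtain ⟨E2, i2, M2, h2⟩ := fi3_step hs hw hwl hlw hjs hj M hE
      obtain ⟨E3, i3, M3, h3, h4⟩ := ih E2 i2 M2 (by omega)
      exact ⟨E3, i3, M3, by omega, h4⟩
    · exact ⟨E, _, M, le_rfl, by omega⟩

/-- The bound for valid structures.
Proof.  If `M` is a valid structure on a set with more than `eC ..` elements then there is a larger one: `D = dF n m r |w| + ..` (`2 D0 ≤ D`,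
`|it h i w| ≤ m ^ i |w| ≤ m ^ r |w| ≤ D` for `i < r`, `|w| ≤ D`), `card_T`, `exists_rank` (with `y ∈ et x`), `exists_order`, `card_CE`, `pigeon` (`osrc_oinv`), `pump`.
But the cardinalities are bounded (`VS.card_le`): take `M` with the maximal cardinality. -/
theorem card_VS_le {α : Type} [Fintype α] {h : α → List α} {m r l : ℕ} (hs : Std h m r)
    {w : List α} (hw : w ≠ []) (hwl : w.length ≤ l) (hlw : Legal h w) {N : ℕ} {js : List ℕ}
    (hjs : js ≠ []) (hj : ∀ j ∈ js, j < N) {E : Type} [Fintype E] (M : VS h w N js E) :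
    ∃ (E' : Type) (_ : Fintype E') (_ : VS h w N js E'), Fintype.card E ≤ Fintype.card E' ∧
      Fintype.card E' ≤ eC (Fintype.card α) (oF (Fintype.card α) m) (tF (Fintype.card α) m r l)
        (wF (Fintype.card α) m r l) := by
  exact fi3_aux hs hw hwl hlw hjs hj (∑ i ∈ Finset.range N, (it h i w).length) E _ M
    (Nat.le_add_left _ _)

/-- The free case for an arbitrary invariant code.  Proof: `exists_VS` and `card_VS_le`. -/
theorem free_bound {α : Type} [Fintype α] {h : α → List α} {m r l : ℕ} (hs : Std h m r)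
    {w : List α} (hw : w ≠ []) (hwl : w.length ≤ l) (hlw : Legal h w) {n : ℕ}
    {t : Fin n → List α} {H : Fin n → List (Fin n)} {b0 : List (Fin n)}
    (inj : Function.Injective (app t)) (comm : ∀ i, app h (t i) = app t (H i))
    (ax : app t b0 = w) (irr : ∀ i j, ∃ q, 0 < q ∧ j ∈ it H q [i])
    (det : (Matrix.of fun (j i : Fin n) => ((H i).count j : ℚ)).det ≠ 0) (lc : LC H b0) :
    n ≤ bF (Fintype.card α) m r l := by
  obtain ⟨N, js, E, iE, M, hjs, hj, hn⟩ := exists_VS hs hw inj comm ax irr det lc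
  obtain ⟨E', iE', M', h1, h2⟩ := card_VS_le hs hw hwl hlw hjs hj M
  have h3 := Nat.mul_le_mul_left (Fintype.card α + 1) (h1.trans h2)
  unfold bF
  omega

end D0L
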