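import Pool.Agent.H.MP_374efc_lc.Fr.Co1

/-!
# MP_374efc_lc, free case: gluing data from an isomorphism of collars

Paper proof: /team-store/h43_374efc_L3.md
-/

set_option autoImplicit false

namespace D0L

/-- Proof.  `Ψ = ψ` on `NN X`, identity elsewhere; `Ψ' = ψ'` on `NN X'`, identity elsewhere (`X ⊆ X'`; for `y ∉ X'` in `NN X'`: `ψ' y ∉ X` because otherwise
`y = ψ (ψ' y) ∈ X'` by `inX`).  `up z = lo z` for `z ∈ T2`: `ψ z = z`, `ψ' z = ψ' (ψ z) = z`, and `z ∈ X ↔ z ∈ X'` by `hd`.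
`CA`: `b ∈ X'`, `y = op θ0 b ∉ X'`.  If `b ∈ T`: `y, op θ y ∈ T2`, `Ψ' y = y`.  If `b ∉ T`: `(b, θ0) ∈ CE X'`, so `y ∈ CC X' ⊆ NN X'`, `u = Ψ' y = ψ' y`, `ψ u = y`, so `u ∈ CC X`
(`inC`), `ψ (op θ u) = op θ y` (`op`).  With `z = op θ u ∈ NN X`, `ψ z = op θ y`: `up z = lo (ψ z)`: if `z ∈ X` then `ψ z ∈ X'` and both are `inl (ψ z)`; if `z ∉ X` then `ψ z ∉ X'`,
both are `inr z` (`Ψ' (ψ z) = z`).
`CB`: `b ∉ X`, `y = op θ0 b ∈ X`.  If `y ∈ T`: `op θ y ∈ T2`, `Ψ y = y`.  If `y ∉ T`: `(y, inv θ0) ∈ CE X` (`inv_op`, `h1`), `y ∈ CC X`, `Ψ y = ψ y`,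
`op θ (ψ y) = ψ (op θ y)`; with `z = op θ y` again `lo (ψ z) = up z`. -/
theorem glue {α Θ E : Type} {src tgt : Θ → α} {inv : Θ → Θ}
    (h1 : ∀ θ, src (inv θ) = tgt θ) (A : Act α Θ E src tgt inv) {T X X' : Set E} (hT : T ⊆ X)
    (hX : X ⊆ X') {ψ ψ' : E → E} (hi : A.Iso T X X' ψ ψ') (hd : ∀ e ∈ X', e ∉ X → e ∉ A.T2 T) :
    ∃ Ψ Ψ' : E → E, ∃ (q1 : ∀ y, y ∉ X' → Ψ' y ∉ X) (q2 : ∀ y, y ∈ X → Ψ y ∈ X'),
      (∀ y, y ∉ X' → A.π (Ψ' y) = A.π y) ∧ (∀ y, y ∈ X → A.π (Ψ y) = A.π y) ∧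
      (∀ b ∈ X', ∀ θ0, A.π b = src θ0 → A.op θ0 b ∉ X' → ∀ θ, A.π (A.op θ0 b) = src θ →
        Sg.up X X' Ψ q2 (A.op θ (Ψ' (A.op θ0 b))) = Sg.lo X X' Ψ' q1 (A.op θ (A.op θ0 b))) ∧
      ∀ b, b ∉ X → ∀ θ0, A.π b = src θ0 → A.op θ0 b ∈ X → ∀ θ, A.π (A.op θ0 b) = src θ →
        Sg.lo X X' Ψ' q1 (A.op θ (Ψ (A.op θ0 b))) = Sg.up X X' Ψ q2 (A.op θ (A.op θ0 b)) := by
  classical
  obtain ⟨Ψ, hΨ⟩ : ∃ f : E → E, f = fun y => if y ∈ A.NN T X then ψ y else y := ⟨_, rfl⟩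
  obtain ⟨Ψ', hΨ'⟩ : ∃ f : E → E, f = fun y => if y ∈ A.NN T X' then ψ' y else y := ⟨_, rfl⟩
  have eΨ : ∀ y ∈ A.NN T X, Ψ y = ψ y := fun y hy => by
    rw [hΨ]
    exact if_pos hy
  have eΨn : ∀ y, y ∉ A.NN T X → Ψ y = y := fun y hy => by
    rw [hΨ]
    exact if_neg hy
  have eΨ' : ∀ y ∈ A.NN T X', Ψ' y = ψ' y := fun y hy => by
    rw [hΨ']
    exact if_pos hy
  have eΨn' : ∀ y, y ∉ A.NN T X' → Ψ' y = y := fun y hy => by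
    rw [hΨ']
    exact if_neg hy
  have q1 : ∀ y, y ∉ X' → Ψ' y ∉ X := by
    intro y hy
    by_cases hN : y ∈ A.NN T X'
    · rw [eΨ' y hN]
      intro h
      have h2 := (hi.inX _ (hi.mem' y hN)).2 h
      rw [hi.right y hN] at h2
      exact hy h2
    · rw [eΨn' y hN]
      exact fun h => hy (hX h)
  have q2 : ∀ y, y ∈ X → Ψ y ∈ X' := by
    intro y hy
    by_cases hN : y ∈ A.NN T X
    · rw [eΨ y hN]
      exact (hi.inX y hN).2 hy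
    · rw [eΨn y hN]
      exact hX hy
  -- the two landings agree
  have key : ∀ z ∈ A.NN T X, Sg.up X X' Ψ q2 z = Sg.lo X X' Ψ' q1 (ψ z) := by
    intro z hz
    by_cases hzX : z ∈ X
    · have hzX' : ψ z ∈ X' := (hi.inX z hz).2 hzX
      unfold Sg.up Sg.lo
      rw [dif_pos hzX, dif_pos hzX']
      exact congrArg Sum.inl (Subtype.ext (eΨ z hz))
    · have hzX' : ψ z ∉ X' := fun h => hzX ((hi.inX z hz).1 h)
      unfold Sg.up Sg.lo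
      rw [dif_neg hzX, dif_neg hzX']
      refine congrArg Sum.inr (Subtype.ext ?_)
      change z = Ψ' (ψ z)
      rw [eΨ' _ (hi.mem z hz), hi.left z hz]
  have keyT : ∀ z ∈ A.T2 T, Sg.up X X' Ψ q2 z = Sg.lo X X' Ψ' q1 z := by
    intro z hz
    have h2 := key z (Or.inl hz)
    rwa [hi.idT z hz] at h2
  refine ⟨Ψ, Ψ', q1, q2, ?_, ?_, ?_, ?_⟩
  · intro y hy
    by_cases hN : y ∈ A.NN T X'
    · have h2 := hi.letter _ (hi.mem' y hN)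
      rw [hi.right y hN] at h2
      rw [eΨ' y hN, h2]
    · rw [eΨn' y hN]
  · intro y hy
    by_cases hN : y ∈ A.NN T X
    · rw [eΨ y hN, hi.letter y hN]
    · rw [eΨn y hN]
  · intro b hb θ0 hθ0 hy θ hθ
    by_cases hbT : b ∈ T
    · have hyT : A.op θ0 b ∈ A.T2 T := Or.inr (Or.inl ⟨b, hbT, θ0, rfl⟩)
      have hzT : A.op θ (A.op θ0 b) ∈ A.T2 T := Or.inr (Or.inr ⟨b, hbT, θ0, θ, rfl⟩)
      have hyy : Ψ' (A.op θ0 b) = A.op θ0 b := by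
        have h2 := hi.left (A.op θ0 b) (Or.inl hyT)
        rw [hi.idT _ hyT] at h2
        rw [eΨ' _ (Or.inl hyT), h2]
      rw [hyy]
      exact keyT _ hzT
    · have hyC : A.op θ0 b ∈ A.CC T X' := ⟨(b, θ0), ⟨hb, hbT, hθ0, hy⟩, Or.inr rfl⟩
      have hyN : A.op θ0 b ∈ A.NN T X' := Or.inr (Or.inl hyC)
      have huN := hi.mem' _ hyN
      have hu : ψ (ψ' (A.op θ0 b)) = A.op θ0 b := hi.right _ hyN
      have huC : ψ' (A.op θ0 b) ∈ A.CC T X := by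
        apply (hi.inC _ huN).1
        rw [hu]
        exact hyC
      have hop := hi.op _ huC θ
      rw [hu] at hop
      rw [eΨ' _ hyN, ← hop]
      exact key _ (Or.inr (Or.inr ⟨_, huC, θ, rfl⟩))
  · intro b hb θ0 hθ0 hy θ hθ
    by_cases hyT : A.op θ0 b ∈ T
    · have hyT2 : A.op θ0 b ∈ A.T2 T := Or.inl hyT
      have hzT : A.op θ (A.op θ0 b) ∈ A.T2 T := Or.inr (Or.inl ⟨_, hyT, θ, rfl⟩)
      rw [eΨ _ (Or.inl hyT2), hi.idT _ hyT2]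
      exact (keyT _ hzT).symm
    · have hyC : A.op θ0 b ∈ A.CC T X := by
        refine ⟨(A.op θ0 b, inv θ0), ⟨hy, hyT, ?_, ?_⟩, Or.inl rfl⟩
        · rw [A.π_op θ0 b hθ0, h1]
        · change A.op (inv θ0) (A.op θ0 b) ∉ X
          rw [A.inv_op θ0 b hθ0]
          exact hb
      have hop := hi.op _ hyC θ
      rw [eΨ _ (Or.inr (Or.inl hyC)), ← hop]
      exact (key _ (Or.inr (Or.inr ⟨_, hyC, θ, rfl⟩))).symm

end D0L
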