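import Pool.Agent.H.MP_374efc_lc.Fr.TS
import Pool.Agent.H.MP_374efc_lc.Fr.Ln4

/-!
# MP_374efc_lc, free case: splitting of lifts

Paper proof: /team-store/h43_374efc_L3.md
-/

set_option autoImplicit false

namespace D0L

/-- Lifting: if `Z.map pr = app h u` then `Z` splits into blocks.
Proof: induction on `u` with `List.take`, `List.drop`. -/
theorem lift_blocks {α P : Type} {h : α → List α} {pr : P → α} (u : List α) (Z : List P)
    (hZ : Z.map pr = app h u) :
    ((List.range u.length).map (fun p => (Z.drop (app h (u.take p)).length).take
      ((u[p]?).elim 0 (fun a => (h a).length)))).flatten = Z ∧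
    ∀ p a, u[p]? = some a →
      ((Z.drop (app h (u.take p)).length).take (h a).length).map pr = h a := by
  induction u generalizing Z with
  | nil =>
    rw [app_nil, List.map_eq_nil_iff] at hZ
    subst hZ
    refine ⟨rfl, ?_⟩
    intro p a hp
    rw [List.getElem?_nil] at hp
    exact absurd hp (by simp)
  | cons b u ih =>
    rw [app_cons] at hZ
    have h1 : (Z.take (h b).length).map pr = h b := by
      rw [List.map_take, hZ, List.take_left]
    have h2 : (Z.drop (h b).length).map pr = app h u := by
      rw [List.map_drop, hZ, List.drop_left]
    have h3 : ∀ (p : ℕ) (n : ℕ), (Z.drop (app h ((b :: u).take (p + 1))).length).take n =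
        ((Z.drop (h b).length).drop (app h (u.take p)).length).take n := by
      intro p n
      rw [List.take_succ_cons, app_cons, List.length_append, List.drop_drop]
    obtain ⟨i1, i2⟩ := ih _ h2
    constructor
    · rw [List.length_cons, List.range_succ_eq_map, List.map_cons, List.flatten_cons,
        List.map_map]
      have h4 : (List.range u.length).map ((fun p => (Z.drop (app h ((b :: u).take p)).length).take
          (((b :: u)[p]?).elim 0 (fun a => (h a).length))) ∘ Nat.succ) =
          (List.range u.length).map (fun p => ((Z.drop (h b).length).drop
            (app h (u.take p)).length).take ((u[p]?).elim 0 (fun a => (h a).length))) := by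
        refine List.map_congr_left fun p _ => ?_
        simp only [Function.comp]
        rw [Nat.succ_eq_add_one, h3 p, List.getElem?_cons_succ]
      rw [h4, i1]
      exact List.take_append_drop _ _
    · intro p a hp
      rcases p with _ | p
      · rw [List.getElem?_cons_zero] at hp
        have h5 : b = a := Option.some.inj hp
        subst h5
        rw [List.take_zero, app_nil, List.length_nil, List.drop_zero]
        exact h1
      · rw [List.getElem?_cons_succ] at hp
        rw [h3 p]
        exact i2 p a hp

end D0L
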