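import Pool.Agent.H.MP_374efc_lc.Fr.Ln1

/-!
# MP_374efc_lc, free case: legal pairs occur at level n^2

Paper proof: /team-store/h43_374efc_L3.md
-/

set_option autoImplicit false

namespace D0L

/-- every letter occurs in an image -/
theorem Std.sur {α : Type} [Fintype α] {h : α → List α} {m r : ℕ} (hs : Std h m r) (b : α) :
    ∃ a, b ∈ h a := by
  have h1 := hs.full (r + 1) (Nat.le_succ r) b b
  rw [it_succ, mem_app] at h1
  obtain ⟨a, _, ha⟩ := h1
  exact ⟨a, ha⟩

theorem ln2_pair {β : Type} (a b : β) (u v : List β) (hab : [a, b] <:+: u ++ v) :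
    [a, b] <:+: u ∨ [a, b] <:+: v ∨ ([a] <:+ u ∧ [b] <+: v) := by
  induction u with
  | nil => exact Or.inr (Or.inl hab)
  | cons x u ih =>
    rw [List.cons_append, List.infix_cons_iff] at hab
    rcases hab with h1 | h1
    · rw [List.cons_prefix_cons] at h1
      obtain ⟨rfl, h2⟩ := h1
      cases u with
      | nil => exact Or.inr (Or.inr ⟨List.suffix_refl _, h2⟩)
      | cons y u =>
        rw [List.cons_append, List.cons_prefix_cons] at h2
        obtain ⟨rfl, -⟩ := h2
        exact Or.inl (List.IsPrefix.isInfix ⟨u, rfl⟩)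
    · rcases ih h1 with h2 | h2 | ⟨h2, h3⟩
      · exact Or.inl (List.infix_cons_iff.2 (Or.inr h2))
      · exact Or.inr (Or.inl h2)
      · exact Or.inr (Or.inr ⟨h2.trans (List.suffix_cons _ _), h3⟩)

theorem ln2_pair' {β : Type} {a b : β} {u v : List β} (ha : [a] <:+ u) (hb : [b] <+: v) :
    [a, b] <:+: u ++ v := by
  obtain ⟨u', rfl⟩ := ha
  obtain ⟨v', rfl⟩ := hb
  exact ⟨u', v', by simp⟩

theorem ln2_app {α β : Type} {h : α → List β} (hne : ∀ a, h a ≠ []) (a b : β) (y : List α)
    (hab : [a, b] <:+: app h y) : (∃ c ∈ y, [a, b] <:+: h c) ∨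
      ∃ a' b', [a', b'] <:+: y ∧ [a] <:+ h a' ∧ [b] <+: h b' := by
  induction y with
  | nil =>
    have h1 := hab.length_le
    simp [app_nil] at h1
  | cons c y ih =>
    rw [app_cons] at hab
    rcases ln2_pair a b _ _ hab with h1 | h1 | ⟨h1, h2⟩
    · exact Or.inl ⟨c, List.mem_cons_self, h1⟩
    · rcases ih h1 with ⟨d, hd, h2⟩ | ⟨a', b', h2, h3⟩
      · exact Or.inl ⟨d, List.mem_cons_of_mem _ hd, h2⟩
      · exact Or.inr ⟨a', b', List.infix_cons_iff.2 (Or.inr h2), h3⟩
    · cases y with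
      | nil =>
        have h3 := h2.length_le
        simp [app_nil] at h3
      | cons d y =>
        rw [app_cons] at h2
        refine Or.inr ⟨c, d, List.IsPrefix.isInfix ⟨y, rfl⟩, h1, ?_⟩
        cases hd : h d with
        | nil => exact absurd hd (hne d)
        | cons e l =>
          rw [hd, List.cons_append, List.cons_prefix_cons] at h2
          obtain ⟨rfl, -⟩ := h2
          exact ⟨l, rfl⟩

theorem ln2_stat {β : Type} [Fintype β] [DecidableEq β] (P : ℕ → Finset β)
    (hm : ∀ k, P k ⊆ P (k + 1)) (hs : ∀ k, P k = P (k + 1) → P (k + 1) = P (k + 2)) (j : ℕ) :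
    P j ⊆ P (Fintype.card β) := by
  have hmono : Monotone P := monotone_nat_of_le_succ hm
  by_cases hk : ∃ k, k ≤ Fintype.card β ∧ P k = P (k + 1)
  · obtain ⟨k, hk, he⟩ := hk
    have h1 : ∀ i, P (k + i) = P (k + i + 1) := by
      intro i
      induction i with
      | zero => exact he
      | succ i ih => exact hs _ ih
    have h2 : ∀ i, P (k + i) = P k := by
      intro i
      induction i with
      | zero => rfl
      | succ i ih => exact (h1 i).symm.trans ih
    calc P j ⊆ P (k + j) := hmono (Nat.le_add_left j k)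
      _ = P k := h2 j
      _ ⊆ _ := hmono hk
  · exfalso
    have h1 : ∀ k, k ≤ Fintype.card β + 1 → k ≤ (P k).card := by
      intro k
      induction k with
      | zero => intro _; exact Nat.zero_le _
      | succ k ih =>
        intro hk'
        have h2 : P k ≠ P (k + 1) := fun he => hk ⟨k, by omega, he⟩
        have h3 := Finset.card_lt_card ((hm k).ssubset_of_ne h2)
        have h4 := ih (by omega)
        omega
    have h2 := h1 _ le_rfl
    have h3 := Finset.card_le_univ (P (Fintype.card β + 1))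
    omega

theorem ln2_occ {α : Type} {h : α → List α} (hsur : ∀ b, ∃ a, b ∈ h a) (k : ℕ) (c : α) :
    ∃ c', c ∈ it h k [c'] := by
  induction k generalizing c with
  | zero => exact ⟨c, by rw [it_zero]; exact List.mem_singleton_self c⟩
  | succ k ih =>
    obtain ⟨a, ha⟩ := hsur c
    obtain ⟨c', hc'⟩ := ih a
    exact ⟨c', by rw [it_succ, mem_app]; exact ⟨a, hc', ha⟩⟩

theorem ln2_app_infix {α β : Type} {h : α → List β} {x y : List α} (hxy : x <:+: y) :
    app h x <:+: app h y := by
  obtain ⟨s, t, rfl⟩ := hxy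
  exact ⟨app h s, app h t, by rw [app_append, app_append]⟩

theorem ln2_step {α : Type} {h : α → List α} (hne : ∀ a, h a ≠ []) (hsur : ∀ b, ∃ a, b ∈ h a)
    (k : ℕ) (a b : α) : (∃ c, [a, b] <:+: it h (k + 1) [c]) ↔ (∃ c, [a, b] <:+: h c) ∨
      ∃ a' b', (∃ c, [a', b'] <:+: it h k [c]) ∧ [a] <:+ h a' ∧ [b] <+: h b' := by
  constructor
  · rintro ⟨c, hc⟩
    rw [it_succ] at hc
    rcases ln2_app hne a b _ hc with ⟨d, _, h1⟩ | ⟨a', b', h1, h2⟩
    · exact Or.inl ⟨d, h1⟩
    · exact Or.inr ⟨a', b', ⟨c, h1⟩, h2⟩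
  · rintro (⟨c, hc⟩ | ⟨a', b', ⟨c, hc⟩, h1, h2⟩)
    · obtain ⟨c', hc'⟩ := ln2_occ hsur k c
      refine ⟨c', hc.trans ?_⟩
      obtain ⟨s, t, hst⟩ := List.append_of_mem hc'
      rw [it_succ, hst, app_append, app_cons]
      exact ⟨app h s, app h t, by simp⟩
    · refine ⟨c, (ln2_pair' h1 h2).trans ?_⟩
      have h3 := ln2_app_infix (h := h) hc
      rw [it_succ]
      simpa [app_cons, app_nil] using h3

/-- Legal pairs occur in `h^(n^2)(c)` for some `c` (every letter occurs in an image; without this hypothesis it is false: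
`0 -> 12`, `1 -> 1`, `2 -> 1`).
Proof.  Let `P k` be the set of pairs `(a, b)` with `[a, b] <:+: it h k [c]` for some `c` (a `Finset (α × α)`, classically).  `P 0 = ∅`;
`P (k+1) = P 1 ∪ T (P k)` where `T (a, b) = (last letter of h a, first letter of h b)` (a factor `[a,b]` of `app h y` is inside some `h c`, or
last/first letter of the images of two consecutive letters of `y`).  So `P k ⊆ P (k+1)` (induction), and `P k = P (k+1)` implies
`P (k+1) = P (k+2)`.  An increasing chain in a set with `n^2` elements is constant from `n^2` on: if `P k ≠ P (k+1)` for all `k < n^2 + 1`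
then `card (P k) ≥ k`. -/
theorem legal_pair_level {α : Type} [Fintype α] {h : α → List α} (hne : ∀ a, h a ≠ [])
    (hsur : ∀ b, ∃ a, b ∈ h a) {a b : α} (hab : Legal h [a, b]) :
    ∃ c, [a, b] <:+: it h (Fintype.card α ^ 2) [c] := by
  classical
  let P : ℕ → Finset (α × α) := fun k => Finset.univ.filter fun q => ∃ c, [q.1, q.2] <:+: it h k [c]
  have hP : ∀ k q, q ∈ P k ↔ ∃ c, [q.1, q.2] <:+: it h k [c] := fun k q => by
    simp [P]
  have hs : ∀ k q, q ∈ P (k + 1) ↔ (∃ c, [q.1, q.2] <:+: h c) ∨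
      ∃ p ∈ P k, [q.1] <:+ h p.1 ∧ [q.2] <+: h p.2 := by
    intro k q
    rw [hP, ln2_step hne hsur]
    refine or_congr Iff.rfl ⟨?_, ?_⟩
    · rintro ⟨a', b', h1, h2⟩
      exact ⟨(a', b'), (hP _ _).2 h1, h2⟩
    · rintro ⟨p, h1, h2⟩
      exact ⟨p.1, p.2, (hP _ _).1 h1, h2⟩
  have hm : ∀ k, P k ⊆ P (k + 1) := by
    intro k
    induction k with
    | zero =>
      intro q hq
      obtain ⟨c, hc⟩ := (hP _ _).1 hq
      have h1 := hc.length_le
      rw [it_zero] at h1
      simp at h1
    | succ k ih =>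
      intro q hq
      rcases (hs _ _).1 hq with h1 | ⟨p, h1, h2⟩
      · exact (hs _ _).2 (Or.inl h1)
      · exact (hs _ _).2 (Or.inr ⟨p, ih h1, h2⟩)
  have hst : ∀ k, P k = P (k + 1) → P (k + 1) = P (k + 2) := by
    intro k hk
    ext q
    rw [hs k q, hs (k + 1) q, ← hk]
  obtain ⟨c, n, hc⟩ := hab
  have h1 := ln2_stat P hm hst n ((hP n (a, b)).2 ⟨c, hc⟩)
  have h2 : Fintype.card (α × α) = Fintype.card α ^ 2 := by
    rw [Fintype.card_prod, sq]
  rw [h2] at h1
  exact (hP _ _).1 h1

/-- Proof: `legal_pair_level` and `c ∈ it h r [d]`. -/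
theorem legal_pair_all {α : Type} [Fintype α] {h : α → List α} {m r : ℕ} (hs : Std h m r) {a b : α}
    (hab : Legal h [a, b]) (d : α) : [a, b] <:+: it h (Fintype.card α ^ 2 + r) [d] := by
  obtain ⟨c, hc⟩ := legal_pair_level hs.ne hs.sur hab
  have h1 : [c] <:+: it h r [d] := by
    obtain ⟨s, t, hst⟩ := List.append_of_mem (hs.full r le_rfl d c)
    exact ⟨s, t, by rw [hst]; simp⟩
  rw [it_add]
  exact hc.trans (it_infix _ h1)

end D0L
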