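import Pool.Agent.H.MP_374efc_lc.Fr.Ln2

/-!
# MP_374efc_lc, free case: factors of products of blocks

Paper proof: /team-store/h43_374efc_L3.md
-/

set_option autoImplicit false

namespace D0L

theorem ln3_append {β : Type} {v : List β} (u w : List β) (hv : v <:+: u ++ w) :
    v <:+: u ∨ v <:+: w ∨ ∃ v1 v2, v = v1 ++ v2 ∧ v1 <:+ u ∧ v2 <+: w := by
  induction u with
  | nil => exact Or.inr (Or.inl hv)
  | cons x u ih =>
    rw [List.cons_append, List.infix_cons_iff] at hv
    rcases hv with h1 | h1
    · rw [← List.cons_append] at h1
      rcases List.prefix_or_prefix_of_prefix h1 (List.prefix_append (x :: u) w) with h2 | h2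
      · exact Or.inl h2.isInfix
      · obtain ⟨v', rfl⟩ := h2
        exact Or.inr (Or.inr ⟨x :: u, v', rfl, List.suffix_refl _,
          (List.prefix_append_right_inj (x :: u)).1 h1⟩)
    · rcases ih h1 with h2 | h2 | ⟨v1, v2, h2, h3, h4⟩
      · exact Or.inl (List.infix_cons_iff.2 (Or.inr h2))
      · exact Or.inr (Or.inl h2)
      · exact Or.inr (Or.inr ⟨v1, v2, h2, h3.trans (List.suffix_cons _ _), h4⟩)

/-- A factor of `app g y` of length `≥ 2 B`, where `1 ≤ |g a| ≤ B` for all `a`, contains a full block.
Proof: induction on `y`, or split `y` at the letter covering the first position of the factor. -/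
theorem full_block {α β : Type} {g : α → List β} {B : ℕ} (hB : ∀ a, (g a).length ≤ B)
    (hB0 : 0 < B) {y : List α} {v : List β} (hv : v <:+: app g y) (hl : 2 * B ≤ v.length) :
    ∃ a ∈ y, g a <:+: v := by
  induction y with
  | nil =>
    have h1 := hv.length_le
    simp [app_nil] at h1
    subst h1
    simp at hl
    omega
  | cons a y ih =>
    rw [app_cons] at hv
    rcases ln3_append _ _ hv with h1 | h1 | ⟨v1, v2, rfl, h2, h3⟩
    · have h4 := h1.length_le
      have h5 := hB a
      omega
    · obtain ⟨b, hb, h2⟩ := ih h1
      exact ⟨b, List.mem_cons_of_mem _ hb, h2⟩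
    · have h4 := h2.length_le
      have h5 := hB a
      rw [List.length_append] at hl
      cases y with
      | nil =>
        have h6 := h3.length_le
        simp [app_nil] at h6
        subst h6
        simp at hl
        omega
      | cons b y =>
        rw [app_cons] at h3
        have h6 : g b <+: v2 := by
          refine List.prefix_of_prefix_length_le (List.prefix_append (g b) (app g y)) h3 ?_
          have h7 := hB b
          omega
        obtain ⟨t, rfl⟩ := h6
        exact ⟨b, List.mem_cons_of_mem _ List.mem_cons_self, v1, t, by simp⟩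

/-- A short factor of `app g y` is a factor of the image of one letter or of two consecutive letters.
Proof: induction on `y`, with `|z| ≤ |g a|` for all `a`. -/
theorem short_factor {α β : Type} {g : α → List β} {z : List β} (hz : ∀ a, z.length ≤ (g a).length)
    {y : List α} (hy : y ≠ []) (hv : z <:+: app g y) :
    (∃ a ∈ y, z <:+: g a) ∨ ∃ a b, [a, b] <:+: y ∧ z <:+: g a ++ g b := by
  induction y with
  | nil => exact absurd rfl hy
  | cons a y ih =>
    rw [app_cons] at hv
    rcases ln3_append _ _ hv with h1 | h1 | ⟨v1, v2, rfl, ⟨s, h2⟩, h3⟩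
    · exact Or.inl ⟨a, List.mem_cons_self, h1⟩
    · cases y with
      | nil =>
        rw [app_nil] at h1
        have h2 : z = [] := List.eq_nil_of_infix_nil h1
        subst h2
        exact Or.inl ⟨a, List.mem_cons_self, List.nil_infix⟩
      | cons b y =>
        rcases ih (List.cons_ne_nil _ _) h1 with ⟨c, hc, h2⟩ | ⟨c, d, h2, h3⟩
        · exact Or.inl ⟨c, List.mem_cons_of_mem _ hc, h2⟩
        · exact Or.inr ⟨c, d, List.infix_cons_iff.2 (Or.inr h2), h3⟩
    · cases y with
      | nil =>
        rw [app_nil] at h3
        have h4 : v2 = [] := List.eq_nil_of_prefix_nil h3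
        subst h4
        refine Or.inl ⟨a, List.mem_cons_self, s, [], ?_⟩
        rw [← h2]
        simp
      | cons b y =>
        rw [app_cons] at h3
        have h4 : v2 <+: g b := by
          refine List.prefix_of_prefix_length_le h3 (List.prefix_append (g b) (app g y)) ?_
          have h5 := hz b
          rw [List.length_append] at h5
          omega
        obtain ⟨t, ht⟩ := h4
        refine Or.inr ⟨a, b, List.IsPrefix.isInfix ⟨y, rfl⟩, s, t, ?_⟩
        rw [← h2, ← ht]
        simp

end D0L
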