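import Pool.Agent.H.MP_374efc_lc.Fr.Ln4

/-!
# MP_374efc_lc, free case: legal words are extendable

Paper proof: /team-store/h43_374efc_L3.md
-/

set_option autoImplicit false

namespace D0L

theorem Legal.fac {α : Type} {h : α → List α} {u v : List α} (hv : Legal h v) (huv : u <:+: v) :
    Legal h u := by
  obtain ⟨c, n, hn⟩ := hv
  exact ⟨c, n, huv.trans hn⟩

/-- Legal words are extendable to the right.
Proof: `v <:+: it h k [a]` for all large `k`, all `a` (`Legal.high`); take a letter `c` and `j` with `|it h j [c]| ≥ 2`; `it h j [c] = a :: b :: _`, then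
`it h k (a :: b :: ..)` has the factor `v` followed by some letter (the image of `b` is nonempty). -/
theorem Legal.extend {α : Type} [Fintype α] {h : α → List α} {m r : ℕ} (hs : Std h m r) {v : List α}
    (hv : Legal h v) : ∃ c, Legal h (v ++ [c]) := by
  obtain ⟨K, hK⟩ := hv.high hs
  obtain ⟨J, hJ⟩ := hs.grow 2
  obtain ⟨c0, n0, -⟩ := hv
  have h2 : 2 ≤ (it h J [c0]).length := hJ J le_rfl c0
  obtain ⟨a, b, rest, hab⟩ : ∃ a b rest, it h J [c0] = a :: b :: rest := by
    match hx : it h J [c0], h2 with
    | a :: b :: rest, _ => exact ⟨a, b, rest, rfl⟩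
  obtain ⟨s, t, hst⟩ := hK K le_rfl a
  have hb : it h K (b :: rest) ≠ [] := by
    intro he
    have := length_le_it hs.ne K (b :: rest)
    rw [he] at this
    simp at this
  have hne : t ++ it h K (b :: rest) ≠ [] := by simp [hb]
  obtain ⟨c, t', hc⟩ := List.exists_cons_of_ne_nil hne
  refine ⟨c, c0, K + J, s, t', ?_⟩
  have h3 : it h (K + J) [c0] = it h K [a] ++ it h K (b :: rest) := by
    rw [it_add, hab, ← it_append]
    rfl
  rw [h3, ← hst, List.append_assoc (s ++ v) t, hc]
  simp

end D0L
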