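import Pool.Agent.H.MP_374efc_lc.Fr.Mh1

/-!
# MP_374efc_lc, free case: unique extensions imply periodicity

Paper proof: /team-store/h43_374efc_L3.md
-/

set_option autoImplicit false

namespace D0L

/-- the factor of length `j` at position `x` -/
def mh2_W {α : Type} (U : ℕ → α) (x j : ℕ) : List α := (List.range j).map (fun i => U (x + i))

theorem mh2_W_length {α : Type} (U : ℕ → α) (x j : ℕ) : (mh2_W U x j).length = j := by
  simp [mh2_W]

theorem mh2_W_get {α : Type} (U : ℕ → α) (x j i : ℕ) (hi : i < (mh2_W U x j).length) :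
    (mh2_W U x j)[i] = U (x + i) := by
  simp [mh2_W]

theorem mh2_W_add {α : Type} (U : ℕ → α) (x a b : ℕ) :
    mh2_W U x (a + b) = mh2_W U x a ++ mh2_W U (x + a) b := by
  unfold mh2_W
  rw [List.range_add, List.map_append, List.map_map]
  congr 1
  refine List.map_congr_left fun i _ => ?_
  show U (x + (a + i)) = U (x + a + i)
  rw [Nat.add_assoc]

theorem mh2_W_one {α : Type} (U : ℕ → α) (x a : ℕ) :
    mh2_W U x (a + 1) = mh2_W U x a ++ [U (x + a)] := by
  rw [mh2_W_add]
  simp [mh2_W]

theorem mh2_mid {α : Type} {U : ℕ → α} {x N : ℕ} {s z t : List α}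
    (h : s ++ z ++ t = mh2_W U x N) : z = mh2_W U (x + s.length) z.length := by
  have hN : s.length + z.length + t.length = N := by
    have h1 := congrArg List.length h
    rw [mh2_W_length, List.length_append, List.length_append] at h1
    exact h1
  rw [← hN, mh2_W_add, mh2_W_add] at h
  have h2 := (List.append_inj h (by rw [List.length_append, List.length_append, mh2_W_length,
    mh2_W_length])).1
  exact (List.append_inj h2 (by rw [mh2_W_length])).2

/-- a sequence all factors of which are legal -/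
theorem mh2_seq {α : Type} [Fintype α] {h : α → List α} {m r : ℕ} (hs : Std h m r) :
    ∃ U : ℕ → α, ∀ x j, Legal h (mh2_W U x j) := by
  classical
  have hα : Nonempty α := by
    have h1 : 0 < Fintype.card α := by have := hs.two; omega
    exact Fintype.card_pos_iff.1 h1
  obtain ⟨a0⟩ := hα
  have hnil : Legal h ([] : List α) := ⟨a0, 0, List.nil_infix⟩
  choose c hc using fun (v : {v : List α // Legal h v}) => Legal.extend hs v.2
  obtain ⟨V, hV0, hV1⟩ : ∃ V : ℕ → {v : List α // Legal h v}, V 0 = ⟨[], hnil⟩ ∧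
      ∀ i, V (i + 1) = ⟨(V i).1 ++ [c (V i)], hc (V i)⟩ :=
    ⟨fun n => Nat.rec ⟨[], hnil⟩ (fun _ v => ⟨v.1 ++ [c v], hc v⟩) n, rfl, fun i => rfl⟩
  have hVU : ∀ n, (V n).1 = mh2_W (fun i => c (V i)) 0 n := by
    intro n
    induction n with
    | zero => rw [hV0]; rfl
    | succ n ih =>
      rw [hV1, mh2_W_one, ← ih, Nat.zero_add]
  refine ⟨fun i => c (V i), fun x j => ?_⟩
  have h1 : Legal h (mh2_W (fun i => c (V i)) 0 (x + j)) := by
    rw [← hVU]
    exact (V (x + j)).2
  refine Legal.fac h1 ?_
  rw [mh2_W_add, Nat.zero_add]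
  exact (List.suffix_append _ _).isInfix

/-- If every legal word of length `ℓ` has at most one legal extension to the right then the system is periodic.
Proof.  Let `v0` be legal of length `ℓ` (exists: prefixes of long legal words).  Define a sequence of legal words `v0 <+: v1 <+: ..`, `|v_i| = ℓ + i`,
`v_(i+1) = v_i ++ [c]` (choice from `Legal.extend`), and `U : ℕ → α` its limit: `U x = (v_(x+1))[x]`, all words `U[x, x+j)` are legal.
By `lin_rec` there is `x > 0` with `U[x, x+ℓ) = v0` (the legal word `U[1, 1 + C ℓ')` contains `v0`, `ℓ' = max ℓ 1`).  By uniqueness of extensions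
`U (y + x) = U y` for all `y` (strong induction on `y`: for `y < ℓ` because `U[x,x+ℓ) = v0 = U[0,ℓ)`; for `y ≥ ℓ` `U y` and `U (y+x)` both extend the
legal word `U[y-ℓ,y) = U[y+x-ℓ,y+x)`).  Every `it h n [c]` is a factor of `U[0, C |..|)` by `lin_rec`. -/
theorem per_of_unique {α : Type} [Fintype α] {h : α → List α} {m r : ℕ} (hs : Std h m r) (ℓ : ℕ)
    (hu : ∀ v c c', v.length = ℓ → Legal h (v ++ [c]) → Legal h (v ++ [c']) → c = c') : Per h := by
  obtain ⟨U, hU⟩ := mh2_seq hs
  -- a return of the first factor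
  have hret : ∃ x, 0 < x ∧ mh2_W U 0 ℓ = mh2_W U x ℓ := by
    have h1 : mh2_W U 0 ℓ <:+: mh2_W U 1 (cLR (Fintype.card α) m r * max ℓ 1) :=
      lin_rec hs (le_max_right ℓ 1) (hU _ _) (by rw [mh2_W_length]) (hU _ _)
        (by rw [mh2_W_length]; exact le_max_left ℓ 1)
    obtain ⟨s, t, hst⟩ := h1
    have h2 := mh2_mid hst
    rw [mh2_W_length] at h2
    exact ⟨1 + s.length, by omega, h2⟩
  obtain ⟨x, hx, hW⟩ := hret
  have hper : ∀ y, U (y + x) = U y := by
    intro y
    induction y using Nat.strong_induction_on with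
    | _ y ih =>
      by_cases hy : y < ℓ
      · have h1 : y < (mh2_W U 0 ℓ).length := by rw [mh2_W_length]; exact hy
        have h2 : y < (mh2_W U x ℓ).length := by rw [mh2_W_length]; exact hy
        have h3 : (mh2_W U 0 ℓ)[y] = (mh2_W U x ℓ)[y] := by simp only [hW]
        rw [mh2_W_get, mh2_W_get, Nat.zero_add] at h3
        rw [h3, Nat.add_comm]
      · have hy' : ℓ ≤ y := by omega
        have e : mh2_W U (y - ℓ) ℓ = mh2_W U (y - ℓ + x) ℓ := by
          unfold mh2_W
          refine List.map_congr_left fun i hi => ?_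
          rw [List.mem_range] at hi
          have h4 := ih (y - ℓ + i) (by omega)
          rw [← h4]
          congr 1
          omega
        have h5 := hU (y - ℓ) (ℓ + 1)
        have h6 := hU (y - ℓ + x) (ℓ + 1)
        rw [mh2_W_one] at h5 h6
        rw [← e] at h6
        have h7 := hu _ _ _ (mh2_W_length U (y - ℓ) ℓ) h5 h6
        have e1 : y - ℓ + ℓ = y := by omega
        have e2 : y - ℓ + x + ℓ = y + x := by omega
        rw [e1, e2] at h7
        exact h7.symm
  refine ⟨U, x, hx, hper, fun c n => ?_⟩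
  have hleg : Legal h (it h n [c]) := ⟨c, n, List.infix_refl _⟩
  have h8 : it h n [c] <:+: mh2_W U 0 (cLR (Fintype.card α) m r * max (it h n [c]).length 1) :=
    lin_rec hs (le_max_right _ 1) (hU _ _) (by rw [mh2_W_length]) hleg (le_max_left _ 1)
  obtain ⟨s, t, hst⟩ := h8
  have h9 := mh2_mid hst
  exact ⟨0 + s.length, h9⟩

end D0L
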