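import Pool.Agent.H.MP_374efc_lc.Fr.Mh2

/-!
# MP_374efc_lc, free case: more than l legal words of length l

Paper proof: /team-store/h43_374efc_L3.md
-/

set_option autoImplicit false

namespace D0L

/-- A finite set containing all legal words of length `ℓ` has more than `ℓ` elements.
Proof.  Let `A ℓ` be the finite set of the legal words of length `ℓ` (classically; words of length `ℓ` over `α` are finitely many:
`List.finite_length_eq`).  `card (A 0) = 1`.  `card (A (ℓ+1)) ≥ card (A ℓ)` (drop the last letter is surjective by `Legal.extend`), with equality iff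
this map is injective, i.e. iff extensions are unique, excluded by `per_of_unique` and `hs.aper`.  So `card (A ℓ) ≥ ℓ + 1` by induction. -/
theorem many_legal {α : Type} [Fintype α] {h : α → List α} {m r : ℕ} (hs : Std h m r) (ℓ : ℕ)
    (A : Finset (List α)) (hA : ∀ v, Legal h v → v.length = ℓ → v ∈ A) : ℓ + 1 ≤ A.card := by
  classical
  have hα : Nonempty α := by
    have h1 : 0 < Fintype.card α := by have := hs.two; omega
    exact Fintype.card_pos_iff.1 h1
  obtain ⟨a0⟩ := hα
  have hnil : Legal h ([] : List α) := ⟨a0, 0, List.nil_infix⟩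
  induction ℓ generalizing A with
  | zero =>
    have h1 : ([] : List α) ∈ A := hA [] hnil rfl
    have h2 : 0 < A.card := Finset.card_pos.2 ⟨_, h1⟩
    omega
  | succ ℓ ih =>
    have hfin : {v : List α | Legal h v ∧ v.length = ℓ}.Finite :=
      (List.finite_length_eq α ℓ).subset fun v hv => hv.2
    have hB : ∀ v, v ∈ hfin.toFinset ↔ Legal h v ∧ v.length = ℓ := fun v => by
      rw [Set.Finite.mem_toFinset, Set.mem_ofPred_eq]
    have h1 : ℓ + 1 ≤ hfin.toFinset.card := ih hfin.toFinset fun v hv hl => (hB v).2 ⟨hv, hl⟩
    let A' : Finset (List α) := A.filter fun v => Legal h v ∧ v.length = ℓ + 1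
    have hA' : ∀ v, v ∈ A' ↔ v ∈ A ∧ (Legal h v ∧ v.length = ℓ + 1) := fun v => by
      simp only [A', Finset.mem_filter]
    have h2 : hfin.toFinset ⊆ A'.image List.dropLast := by
      intro v hv
      obtain ⟨hv1, hv2⟩ := (hB v).1 hv
      obtain ⟨c, hc⟩ := Legal.extend hs hv1
      have hl : (v ++ [c]).length = ℓ + 1 := by
        rw [List.length_append, hv2, List.length_singleton]
      refine Finset.mem_image.2 ⟨v ++ [c], (hA' _).2 ⟨hA _ hc hl, hc, hl⟩, ?_⟩
      exact List.dropLast_concat
    have h3 : hfin.toFinset.card ≤ (A'.image List.dropLast).card := Finset.card_le_card h2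
    have h4 : (A'.image List.dropLast).card ≤ A'.card := Finset.card_image_le
    have h5 : A'.card ≤ A.card := Finset.card_filter_le _ _
    by_contra hcon
    have h6 : (A'.image List.dropLast).card = A'.card := by omega
    have h7 : Set.InjOn List.dropLast (A' : Set (List α)) := Finset.card_image_iff.1 h6
    refine hs.aper (per_of_unique hs ℓ fun v c c' hv hc hc' => ?_)
    have hl : (v ++ [c]).length = ℓ + 1 := by
      rw [List.length_append, hv, List.length_singleton]
    have hl' : (v ++ [c']).length = ℓ + 1 := by
      rw [List.length_append, hv, List.length_singleton]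
    have h8 : v ++ [c] ∈ A' := (hA' _).2 ⟨hA _ hc hl, hc, hl⟩
    have h9 : v ++ [c'] ∈ A' := (hA' _).2 ⟨hA _ hc' hl', hc', hl'⟩
    have h10 := h7 (Finset.mem_coe.2 h8) (Finset.mem_coe.2 h9) (by
      rw [List.dropLast_concat, List.dropLast_concat])
    have h11 := List.append_cancel_left h10
    exact List.singleton_injective h11

end D0L
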