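import Pool.Agent.H.MP_374efc_lc.Fr.Db3

/-!
# MP_374efc_lc, free case: words with a period have few factors; close pair

Paper proof: /team-store/h43_374efc_L3.md
-/

set_option autoImplicit false

namespace D0L

/-- a word at position `|A|` of `z = A ++ u ++ B`, read letter by letter -/
theorem pb1_get {α : Type} {u z A B : List α} (h1 : z = A ++ u ++ B) {i : ℕ} (hi : i < u.length) :
    u[i]? = z[A.length + i]? := by
  rw [h1, List.append_assoc, List.getElem?_append_right (Nat.le_add_right _ _), Nat.add_sub_cancel_left,
    List.getElem?_append_left hi]

/-- A word which occurs in `z` at two positions at distance `d` (not larger than its length) has period `d`, so it has at most `d`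
factors of length `d`.
Proof: `u = u.take d ++ u.drop d` and `u.drop d <+: u` (both occurrences are read in `z`: `z = A ++ u ++ B = A' ++ u ++ B'`, `|A'| = |A| + d`), i.e.
`u[i + d]? = u[i]?` for `i + d < |u|`.  The finite set: the words `(u.drop i).take d`, `i < d`; the factor of length `d` at position `i ≥ d` equals the
factor at position `i - d` (strong induction). -/
theorem few_factors {α : Type} {u z A B A' B' : List α} {d : ℕ} (hd : 0 < d) (hu : d ≤ u.length)
    (h1 : z = A ++ u ++ B) (h2 : z = A' ++ u ++ B') (hA : A'.length = A.length + d) :
    ∃ F : Finset (List α), F.card ≤ d ∧ ∀ v, v <:+: u → v.length = d → v ∈ F := by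
  classical
  have hper : ∀ i, i + d < u.length → u[i + d]? = u[i]? := by
    intro i hi
    rw [pb1_get h1 hi, pb1_get h2 (show i < u.length by omega), hA]
    congr 1
    omega
  refine ⟨(Finset.range d).image fun i => (u.drop i).take d, ?_, ?_⟩
  · exact Finset.card_image_le.trans (by rw [Finset.card_range])
  · have key : ∀ i, i + d ≤ u.length → (u.drop i).take d ∈ (Finset.range d).image fun i => (u.drop i).take d := by
      intro i
      induction i using Nat.strong_induction_on with
      | _ i ih =>
        intro hi
        by_cases hid : i < d
        · exact Finset.mem_image.2 ⟨i, Finset.mem_range.2 hid, rfl⟩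
        · have h3 : (u.drop i).take d = (u.drop (i - d)).take d := by
            apply List.ext_getElem?
            intro k
            by_cases hk : k < d
            · rw [List.getElem?_take_of_lt hk, List.getElem?_take_of_lt hk, List.getElem?_drop, List.getElem?_drop]
              have h4 := hper (i - d + k) (by omega)
              rw [← h4]
              congr 1
              omega
            · rw [List.getElem?_take_eq_none (by omega), List.getElem?_take_eq_none (by omega)]
          rw [h3]
          exact ih (i - d) (by omega) (by omega)
    rintro v ⟨s, t, hst⟩ hv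
    have h5 : v = (u.drop s.length).take d := by
      rw [← hst, List.append_assoc, List.drop_left, ← hv, List.take_left]
    rw [h5]
    apply key
    rw [← hst, List.length_append, List.length_append]
    omega

/-- Two positions in `[0, B]` with the same label at a small positive distance.
Proof: pigeonhole for `j ↦ (label j, y j / d0)`, `Fin J → α × Fin (B / d0 + 1)`. -/
theorem close_pair {α : Type} [Fintype α] {J B d0 : ℕ} (hd0 : 0 < d0) (y : Fin J → ℕ)
    (lab : Fin J → α) (hy : ∀ j, y j ≤ B) (hinj : Function.Injective y)
    (hJ : Fintype.card α * (B / d0 + 1) < J) :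
    ∃ j j', lab j = lab j' ∧ y j < y j' ∧ y j' ≤ y j + d0 := by
  classical
  let f : Fin J → α × Fin (B / d0 + 1) := fun j =>
    (lab j, ⟨y j / d0, Nat.lt_succ_of_le (Nat.div_le_div_right (hy j))⟩)
  obtain ⟨a, b, hab, hf⟩ := Fintype.exists_ne_map_eq_of_card_lt f (by
    rw [Fintype.card_prod, Fintype.card_fin, Fintype.card_fin]; exact hJ)
  have h1 : lab a = lab b := congrArg Prod.fst hf
  have h2 : y a / d0 = y b / d0 := congrArg (fun p => (p.2 : ℕ)) hf
  have h3 : y a ≠ y b := fun h => hab (hinj h)
  have ha := Nat.div_add_mod (y a) d0
  have hb := Nat.div_add_mod (y b) d0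
  have ha' := Nat.mod_lt (y a) hd0
  have hb' := Nat.mod_lt (y b) hd0
  rw [h2] at ha
  rcases lt_or_gt_of_ne h3 with h | h
  · exact ⟨a, b, h1, h, by omega⟩
  · exact ⟨b, a, h1.symm, h, by omega⟩

end D0L
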