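import Pool.Agent.H.MP_374efc_lc.Fr.Pb1

/-!
# MP_374efc_lc, free case: the first cut of an interpretation

Paper proof: /team-store/h43_374efc_L3.md
-/

set_option autoImplicit false

namespace D0L

theorem pb2_bdry {α : Type} {G : α → List α} {B : ℕ} (hB : ∀ a, (G a).length ≤ B) :
    ∀ (x : List α) (n : ℕ), n ≤ (app G x).length →
      ∃ x1 x2, x = x1 ++ x2 ∧ n ≤ (app G x1).length ∧ (app G x1).length ≤ n + B := by
  intro x
  induction x with
  | nil =>
    intro n hn
    exact ⟨[], [], rfl, hn, by rw [app_nil]; simp⟩
  | cons a x ih =>
    intro n hn
    rcases Nat.eq_zero_or_pos n with h0 | h0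
    · exact ⟨[], a :: x, rfl, by omega, by rw [app_nil]; simp⟩
    · rw [app_cons, List.length_append] at hn
      rcases le_or_gt n (G a).length with h1 | h1
      · refine ⟨[a], x, rfl, ?_, ?_⟩
        · rw [app_singleton]
          exact h1
        · rw [app_singleton]
          have := hB a
          omega
      · obtain ⟨x1, x2, e, h2, h3⟩ := ih (n - (G a).length) (by omega)
        refine ⟨a :: x1, x2, by rw [e]; rfl, ?_, ?_⟩
        · rw [app_cons, List.length_append]
          omega
        · rw [app_cons, List.length_append]
          omega

/-- The first cut.  An interpretation `app G x = P ++ v ++ S` with `1 ≤ |G a| ≤ B`, `2 B ≤ |v|`, has a cut `y ≤ B` followed by a full block inside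
`v`: `v = A ++ G a ++ A'`, `|A| = y`.
Proof: if `P = []`, `y = 0`; otherwise let `i` be the letter covering the position `|P| - 1` (`Cov.exists`), the cut after its block is at `y ≤ B`
(`|v| ≥ 2B` so there is a next letter `a`, and its block ends before `|P| + 2 B`). -/
theorem first_cut {α : Type} {G : α → List α} {B : ℕ} (hG : ∀ a, G a ≠ []) (hB : ∀ a, (G a).length ≤ B)
    {x P v S : List α} (hx : app G x = P ++ v ++ S) (hv : 2 * B ≤ v.length) (hv0 : v ≠ []) :
    ∃ y ≤ B, CutAt G x P.length y ∧ ∃ a A A', v = A ++ G a ++ A' ∧ A.length = y := by
  have hlen : (app G x).length = P.length + v.length + S.length := by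
    rw [hx, List.length_append, List.length_append]
  have hvpos : 0 < v.length := List.length_pos_of_ne_nil hv0
  have hBpos : 1 ≤ B := by
    cases x with
    | nil =>
      rw [app_nil, List.length_nil] at hlen
      omega
    | cons a x =>
      have h1 := List.length_pos_of_ne_nil (hG a)
      have h2 := hB a
      omega
  obtain ⟨x1, x2, e, h1, h2⟩ := pb2_bdry hB x P.length (by omega)
  cases x2 with
  | nil =>
    rw [List.append_nil] at e
    rw [← e] at h2
    omega
  | cons a x3 =>
    refine ⟨(app G x1).length - P.length, by omega, ⟨x1, a :: x3, e, by omega⟩, a,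
      v.take ((app G x1).length - P.length),
      v.drop ((app G x1).length - P.length + (G a).length), ?_, ?_⟩
    · obtain ⟨y, hy⟩ : ∃ y, y = (app G x1).length - P.length := ⟨_, rfl⟩
      rw [← hy]
      have hBa := hB a
      have h3 : app G x1 ++ (G a ++ app G x3) = P ++ (v ++ S) := by
        rw [← List.append_assoc P, ← hx, e, app_append, app_cons]
      have h4 := congrArg (List.drop (P.length + y)) h3
      rw [show P.length + y = (app G x1).length by omega, List.drop_left] at h4
      rw [show (app G x1).length = P.length + y by omega, List.drop_append,
        List.drop_eq_nil_of_le (by omega : P.length ≤ P.length + y), List.nil_append,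
        Nat.add_sub_cancel_left, List.drop_append_of_le_length (by omega)] at h4
      have h5 := congrArg (List.take (G a).length) h4
      rw [List.take_left, List.take_append_of_le_length (by
        rw [List.length_drop]
        omega)] at h5
      have h6 : v.take y ++ G a = v.take (y + (G a).length) := by
        rw [List.take_add, h5, List.length_take, List.length_drop]
        congr 2
        omega
      rw [h6, List.take_append_drop]
    · rw [List.length_take]
      omega

end D0L
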