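import Pool.Agent.H.MP_374efc_lc.Fr.Pb2
import Pool.Agent.H.MP_374efc_lc.Red.Trans

/-!
# MP_374efc_lc, free case: not all short words have two cut-disjoint interpretations

Paper proof: /team-store/h43_374efc_L3.md
-/

set_option autoImplicit false

namespace D0L

/-- Some nonempty legal word of length at most `l0` does not have two cut-disjoint interpretations.
Proof.  Let `k = k0`, `g = pw h r`, `G = pw g k`; `G a = it h (r * k) [a]` (`it_pow` in `Red/Trans.lean`).  Let `B = max |G a|`, `M = min |G a|` (attained,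
`α` is finite and nonempty): `B ≤ m ^ r * M` (`ratio`), `2 ^ k ≤ M` (`two_pow_le`), `2 * B ≤ l0` (`length_it_le`).  Let `v` be a legal word of length `2 B` (take it
from `it h j [a]`, `j` large).  By `doubling` it has `2 ^ k` pairwise cut-disjoint interpretations; `first_cut` gives for each of them `y ≤ B` and a
letter `a`; the `y` are pairwise different.  With `C = cLR n m r`, `d0 = M / (C + 1)`: `1 ≤ d0` (`C + 1 ≤ k0 ≤ 2 ^ k`), `M ≤ 2 (C+1) d0`, so
`B / d0 ≤ 2 (C + 1) m ^ r` and `n * (B / d0 + 1) ≤ k0 < 2 ^ k0`: `close_pair` gives one letter `a` and `0 < d ≤ d0` with `G a` at the positions `y`, `y + d` of `v`,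
`(C + 1) * d ≤ M ≤ |G a|`.  By `few_factors` at most `d` factors of `G a` of length `d`, but by `lin_rec` `G a` contains all legal words of length
`d`: contradiction to `many_legal`. -/
theorem not_two {α : Type} [Fintype α] {h : α → List α} {m r : ℕ} (hs : Std h m r) :
    ¬ Many h (pw h r) (l0 (Fintype.card α) m r) 2 := by
  classical
  intro h2
  obtain ⟨n, hn⟩ : ∃ n, n = Fintype.card α := ⟨_, rfl⟩
  obtain ⟨k, hk⟩ : ∃ k, k = k0 n m r := ⟨_, rfl⟩
  obtain ⟨C, hC⟩ : ∃ C, C = cLR n m r := ⟨_, rfl⟩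
  rw [← hn] at h2
  have hn2 : 2 ≤ n := by rw [hn]; exact hs.two
  have hne : Nonempty α := by
    rw [← Fintype.card_pos_iff, ← hn]
    omega
  have hm : 1 ≤ m := by
    obtain ⟨a⟩ := hne
    have h3 := List.length_pos_of_ne_nil (hs.ne a)
    exact le_trans h3 (hs.len a)
  have hmr : 1 ≤ m ^ r := Nat.one_le_pow _ _ hm
  have hg : ∀ a, 2 ≤ (pw h r a).length := by
    intro a
    have h3 := two_pow_le hs 1 a
    rw [mul_one, pow_one] at h3
    exact h3
  have hM := doubling hg h2 k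
  obtain ⟨G, hG⟩ : ∃ G : α → List α, G = pw (pw h r) k := ⟨_, rfl⟩
  rw [← hG] at hM
  have hGe : ∀ a, G a = it h (r * k) [a] := by
    intro a
    rw [hG]
    exact it_pow h r k [a]
  obtain ⟨b0, hb0⟩ := Finite.exists_max (fun a => (G a).length)
  obtain ⟨a0, ha0⟩ := Finite.exists_min (fun a => (G a).length)
  obtain ⟨B, hB⟩ : ∃ B, B = (G b0).length := ⟨_, rfl⟩
  obtain ⟨M, hMe⟩ : ∃ M, M = (G a0).length := ⟨_, rfl⟩
  have hBa : ∀ a, (G a).length ≤ B := fun a => by rw [hB]; exact hb0 a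
  have hMa : ∀ a, M ≤ (G a).length := fun a => by rw [hMe]; exact ha0 a
  have hBM : B ≤ m ^ r * M := by
    rw [hB, hMe, hGe, hGe]
    exact ratio hs _ _ _
  have h2M : 2 ^ k ≤ M := by
    rw [hMe, hGe]
    exact two_pow_le hs k a0
  have hM1 : 1 ≤ M := le_trans Nat.one_le_two_pow h2M
  have hMB : M ≤ B := hMe ▸ hBa a0
  have hGne : ∀ a, G a ≠ [] := by
    intro a h3
    have h4 := hMa a
    rw [h3] at h4
    simp only [List.length_nil] at h4
    omega
  have h2B : 2 * B ≤ l0 n m r := by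
    have h3 : B ≤ (m ^ r) ^ k := by
      rw [hB, hGe, ← pow_mul]
      have h4 := length_it_le hs.len (r * k) [b0]
      simpa using h4
    rw [hk] at h3
    show 2 * B ≤ 2 * (m ^ r) ^ k0 n m r
    omega
  -- a legal word of length 2B
  obtain ⟨v, hvl, hv⟩ : ∃ v, v.length = 2 * B ∧ Legal h v := by
    obtain ⟨K, hK⟩ := hs.grow (2 * B)
    have h3 := hK K le_rfl a0
    refine ⟨(it h K [a0]).take (2 * B), ?_, a0, K, (List.take_prefix _ _).isInfix⟩
    rw [List.length_take]
    omega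
  have hv0 : v ≠ [] := by
    intro h3
    rw [h3] at hvl
    simp only [List.length_nil] at hvl
    omega
  obtain ⟨F, hF, hFd⟩ := hM v hv hv0 (by rw [hvl]; exact h2B)
  have hfc : ∀ i, ∃ y ≤ B, CutAt G (F i).1 (F i).2.1.length y ∧
      ∃ a A A', v = A ++ G a ++ A' ∧ A.length = y := fun i =>
    first_cut hGne hBa (hF i).2 hvl.ge hv0
  choose y hyB hyc lab A A' hvA hAy using hfc
  have hinj : Function.Injective y := by
    intro i j hij
    by_contra hne'
    refine hFd i j hne' (y i) ?_ ⟨hyc i, ?_⟩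
    · have := hyB i
      omega
    · rw [hij]
      exact hyc j
  -- the constants
  have hkC : C + 1 ≤ k := by
    rw [hk, hC]
    show cLR n m r + 1 ≤ n * (2 * m ^ r * (cLR n m r + 1) + 1)
    nlinarith [Nat.zero_le (cLR n m r), Nat.mul_le_mul hmr (le_refl (cLR n m r + 1)),
      Nat.mul_le_mul (show 1 ≤ n by omega) (le_refl (2 * m ^ r * (cLR n m r + 1) + 1))]
  have hk2 : k < 2 ^ k := Nat.lt_two_pow_self
  have hCM : C + 1 ≤ M := by omega
  obtain ⟨d0, hd0⟩ : ∃ d0, d0 = M / (C + 1) := ⟨_, rfl⟩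
  have hd01 : 1 ≤ d0 := by
    rw [hd0]
    exact (Nat.one_le_div_iff (Nat.succ_pos C)).mpr hCM
  have hCd : (C + 1) * d0 ≤ M := by
    rw [hd0]
    exact Nat.mul_div_le M (C + 1)
  have hM2 : M ≤ 2 * (C + 1) * d0 := by
    have h3 : M < (C + 1) * (d0 + 1) := by
      rw [hd0]
      exact Nat.lt_mul_div_succ M (Nat.succ_pos C)
    nlinarith
  have hBd : B / d0 ≤ 2 * m ^ r * (C + 1) := by
    apply Nat.div_le_of_le_mul
    calc B ≤ m ^ r * M := hBM
      _ ≤ m ^ r * (2 * (C + 1) * d0) := Nat.mul_le_mul_left _ hM2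
      _ = d0 * (2 * m ^ r * (C + 1)) := by ring
  have hJ : Fintype.card α * (B / d0 + 1) < 2 ^ k := by
    refine lt_of_le_of_lt ?_ hk2
    rw [← hn, hk]
    show n * (B / d0 + 1) ≤ n * (2 * m ^ r * (cLR n m r + 1) + 1)
    apply Nat.mul_le_mul_left
    rw [← hC]
    omega
  obtain ⟨j, j', hlab, hlt, hle⟩ := close_pair hd01 y lab hyB hinj hJ
  obtain ⟨d, hd⟩ : ∃ d, d = y j' - y j := ⟨_, rfl⟩
  have hd1 : 0 < d := by omega
  have hdd : d ≤ d0 := by omega
  have hdM : (C + 1) * d ≤ M := le_trans (Nat.mul_le_mul_left _ hdd) hCd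
  have hdu : d ≤ (G (lab j)).length := by
    have h3 := hMa (lab j)
    nlinarith
  obtain ⟨E, hE, hE2⟩ := few_factors (u := G (lab j)) (z := v) hd1 hdu (hvA j)
    (by rw [hlab]; exact hvA j') (by rw [hAy, hAy]; omega)
  have h5 := many_legal hs d E (fun z hz hzl => hE2 z (lin_rec hs (ℓ := d) hd1 (v := G (lab j))
    ⟨lab j, r * k, by rw [hGe]⟩ (by
      rw [← hn, ← hC]
      have h6 := hMa (lab j)
      nlinarith) hz hzl.le) hzl)
  omega

end D0L
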