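import Pool.Agent.H.MP_374efc_lc.Fr.Gl1
import Pool.Agent.H.MP_374efc_lc.Fr.Cd2

/-!
# MP_374efc_lc, free case: a long interval without special elements

Paper proof: /team-store/h43_374efc_L3.md
-/

set_option autoImplicit false

namespace D0L

/-- A long list contains a long interval without elements of a small set.
Proof: induction on `S.ncard` or on the list: otherwise every interval of length `L` contains an element of `S`; cut `l` into `|S| + 1` disjoint
intervals of length `L` (`(|S| + 1) L ≤ |l|`): `|S| + 1` different elements of `S` (`l` has no duplicates). -/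
theorem interval {E : Type} {l : List E} (hl : l.Nodup) {S : Set E} (hS : S.Finite) {c L : ℕ}
    (hc : S.ncard ≤ c) (hlen : (c + 1) * L ≤ l.length) :
    ∃ s, s + L ≤ l.length ∧ ∀ i, s ≤ i → i < s + L → ∀ e, l[i]? = some e → e ∉ S := by
  by_contra hcon
  push Not at hcon
  have H : ∀ j : Fin (c + 1), ∃ (i : ℕ) (e : E), (j : ℕ) * L ≤ i ∧ i < (j : ℕ) * L + L ∧
      l[i]? = some e ∧ e ∈ S := by
    intro j
    have hj : (j : ℕ) + 1 ≤ c + 1 := j.2
    have h1 : ((j : ℕ) + 1) * L ≤ (c + 1) * L := Nat.mul_le_mul_right L hj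
    have h2 : (j : ℕ) * L + L ≤ l.length := by
      have : ((j : ℕ) + 1) * L = (j : ℕ) * L + L := by ring
      omega
    obtain ⟨i, h3, h4, e, h5, h6⟩ := hcon ((j : ℕ) * L) h2
    exact ⟨i, e, h3, h4, h5, h6⟩
  choose i e h1 h2 h3 h4 using H
  have inj : Function.Injective e := by
    intro j j' hj
    have a1 : i j < l.length := (List.getElem?_eq_some_iff.mp (h3 j)).1
    have hi : i j = i j' :=
      (List.getElem?_inj a1 hl).mp (by rw [h3 j, h3 j', hj])
    have b1 := h1 j
    have b2 := h2 j
    have b3 := h1 j'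
    have b4 := h2 j'
    have c1 : (j : ℕ) < (j' : ℕ) + 1 := by
      by_contra hcc
      have : ((j' : ℕ) + 1) * L ≤ (j : ℕ) * L := Nat.mul_le_mul_right L (not_lt.mp hcc)
      have : ((j' : ℕ) + 1) * L = (j' : ℕ) * L + L := by ring
      omega
    have c2 : (j' : ℕ) < (j : ℕ) + 1 := by
      by_contra hcc
      have : ((j : ℕ) + 1) * L ≤ (j' : ℕ) * L := Nat.mul_le_mul_right L (not_lt.mp hcc)
      have : ((j : ℕ) + 1) * L = (j : ℕ) * L + L := by ring
      omega
    exact Fin.ext (by omega)
  have hsub : Set.range e ⊆ S := by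
    rintro _ ⟨j, rfl⟩
    exact h4 j
  have hcard : (Set.range e).ncard = c + 1 := by
    rw [← Set.image_univ, Set.ncard_image_of_injective _ inj, Set.ncard_univ,
      Nat.card_eq_fintype_card, Fintype.card_fin]
  have := Set.ncard_le_ncard hsub hS
  omega

end D0L
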