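import Pool.Agent.H.MP_374efc_lc.Fr.Pi1

/-!
# MP_374efc_lc, free case: the pigeonhole

Paper proof: /team-store/h43_374efc_L3.md
-/

set_option autoImplicit false

namespace D0L

/-- The inverse of an isomorphism of collars. -/
theorem pi2_symm {α Θ E : Type} {src tgt : Θ → α} {inv : Θ → Θ} (A : Act α Θ E src tgt inv)
    {T X X' : Set E} {ψ ψ' : E → E} (hi : A.Iso T X X' ψ ψ') : A.Iso T X' X ψ' ψ where
  mem := hi.mem'
  mem' := hi.mem
  left := hi.right
  right := hi.left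
  letter := fun u hu => by
    have h1 := hi.letter (ψ' u) (hi.mem' u hu)
    rw [hi.right u hu] at h1
    exact h1.symm
  inT := fun u hu => by
    have h1 := hi.inT (ψ' u) (hi.mem' u hu)
    rw [hi.right u hu] at h1
    exact h1.symm
  inX := fun u hu => by
    have h1 := hi.inX (ψ' u) (hi.mem' u hu)
    rw [hi.right u hu] at h1
    exact h1.symm
  inC := fun u hu => by
    have h1 := hi.inC (ψ' u) (hi.mem' u hu)
    rw [hi.right u hu] at h1
    exact h1.symm
  idT := fun u hu => by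
    have h1 := hi.left u (Or.inl hu)
    rwa [hi.idT u hu] at h1
  op := fun u hu θ => by
    have huN : u ∈ A.NN T X' := Or.inr (Or.inl hu)
    have h1 := hi.inC (ψ' u) (hi.mem' u huN)
    rw [hi.right u huN] at h1
    have h2 := h1.1 hu
    have h3 := hi.op (ψ' u) h2 θ
    rw [hi.right u huN] at h3
    have h4 := hi.left (A.op θ (ψ' u)) (Or.inr (Or.inr ⟨ψ' u, h2, θ, rfl⟩))
    rwa [h3] at h4

theorem pi2_length {E : Type} [Fintype E] (T : Set E) (l : List E) (hl : l.Nodup)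
    (hlT : ∀ e, e ∈ l ↔ e ∉ T) : l.length + T.ncard = Fintype.card E := by
  classical
  have h1 : T.ncard + Tᶜ.ncard = Fintype.card E := by
    rw [Set.ncard_add_ncard_compl, Nat.card_eq_fintype_card]
  have h2 : Tᶜ = ↑l.toFinset := by
    ext e
    rw [Set.mem_compl_iff, List.coe_toFinset, Set.mem_ofPred_eq, hlT]
  rw [h2, Set.ncard_coe_finset, List.toFinset_card_of_nodup hl] at h1
  omega

/-- The pigeonhole.
`T` a finite set with at most `t` elements, `l` an enumeration of the complement of `T`, `X i = T ∪ {first i elements of l}`, each with at most `W` cut edges.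
Proof.  `interval` with `S = T2`, `c = t (1 + δ)^2` (`card_T2`), `L = thC n δ (qC δ t W)`; `l.length = card E - T.ncard` (`T ⊆ T2`, `T.ncard ≤ c`).  `codes` for
`ι = Fin (L + 1)`, `X (s + i)` (`card_NN`); order the two indices (the inverse of an `Iso` is an `Iso`), `X' - X` is contained in the interval.  `glue`. -/
theorem pigeon {α Θ E : Type} [Fintype α] [Fintype Θ] [Fintype E] {src tgt : Θ → α}
    {inv : Θ → Θ} (h1 : ∀ θ, src (inv θ) = tgt θ) (A : Act α Θ E src tgt inv) (T : Set E)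
    (l : List E) (hl : l.Nodup) (hlT : ∀ e, e ∈ l ↔ e ∉ T) (t W : ℕ) (ht : T.ncard ≤ t)
    (hW : ∀ i, (A.CE T (T ∪ {e | e ∈ l.take i})).ncard ≤ W)
    (hE : eC (Fintype.card α) (Fintype.card Θ) t W < Fintype.card E) :
    ∃ i i', i < i' ∧ i' ≤ l.length ∧ ∃ X X' : Set E, X = T ∪ {e | e ∈ l.take i} ∧
      X' = T ∪ {e | e ∈ l.take i'} ∧
      ∃ Ψ Ψ' : E → E, ∃ (q1 : ∀ y, y ∉ X' → Ψ' y ∉ X) (q2 : ∀ y, y ∈ X → Ψ y ∈ X'),
      (∀ y, y ∉ X' → A.π (Ψ' y) = A.π y) ∧ (∀ y, y ∈ X → A.π (Ψ y) = A.π y) ∧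
      (∀ b ∈ X', ∀ θ0, A.π b = src θ0 → A.op θ0 b ∉ X' → ∀ θ, A.π (A.op θ0 b) = src θ →
        Sg.up X X' Ψ q2 (A.op θ (Ψ' (A.op θ0 b))) = Sg.lo X X' Ψ' q1 (A.op θ (A.op θ0 b))) ∧
      ∀ b, b ∉ X → ∀ θ0, A.π b = src θ0 → A.op θ0 b ∈ X → ∀ θ, A.π (A.op θ0 b) = src θ →
        Sg.lo X X' Ψ' q1 (A.op θ (Ψ (A.op θ0 b))) = Sg.up X X' Ψ q2 (A.op θ (A.op θ0 b)) := by
  classical
  set n := Fintype.card α with hn
  set δ := Fintype.card Θ with hδ
  set c := t * (1 + δ) ^ 2 with hc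
  set L := thC n δ (qC δ t W) with hL
  have hlen := pi2_length T l hl hlT
  have htc : t ≤ c := by
    rw [hc]
    exact Nat.le_mul_of_pos_right _ (by positivity)
  have hE' : c + (c + 1) * L < Fintype.card E := hE
  have hl2 : (c + 1) * L ≤ l.length := by omega
  obtain ⟨s, hs, hs2⟩ := interval hl (S := A.T2 T) (Set.toFinite _) (A.card_T2 T ht) hl2
  have hQ : ∀ i : Fin (L + 1),
      (A.NN T (T ∪ {e | e ∈ l.take (s + i)})).ncard ≤ qC δ t W :=
    fun i => A.card_NN T ht (hW _)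
  obtain ⟨i, i', hne, ψ, ψ', hiso⟩ := codes A (T := T)
    (fun i : Fin (L + 1) => T ∪ {e | e ∈ l.take (s + i)}) (fun i => Set.subset_union_left) hQ
    (by rw [Fintype.card_fin]; exact Nat.lt_succ_self _)
  obtain ⟨j, j', hjj, hj', φ, φ', hφ⟩ : ∃ j j' : ℕ, j < j' ∧ j' ≤ L ∧ ∃ φ φ' : E → E,
      A.Iso T (T ∪ {e | e ∈ l.take (s + j)}) (T ∪ {e | e ∈ l.take (s + j')}) φ φ' := by
    have h2 := i.2
    have h3 := i'.2
    rcases lt_or_gt_of_ne hne with h | h
    · exact ⟨i, i', h, by omega, ψ, ψ', hiso⟩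
    · exact ⟨i', i, h, by omega, ψ', ψ, pi2_symm A hiso⟩
  refine ⟨s + j, s + j', by omega, by omega, _, _, rfl, rfl, ?_⟩
  refine glue h1 A Set.subset_union_left ?_ hφ ?_
  · refine Set.union_subset_union_right _ ?_
    intro e he
    have h2 : l.take (s + j) = (l.take (s + j')).take (s + j) := by
      rw [List.take_take, min_eq_left (by omega)]
    rw [Set.mem_ofPred_eq, h2] at he
    exact List.mem_of_mem_take he
  · intro e he hne2
    have h2 : e ∈ l.take (s + j') := by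
      rcases he with he | he
      · exact absurd (Or.inl he) hne2
      · exact he
    have h3 : e ∉ l.take (s + j) := fun h => hne2 (Or.inr h)
    obtain ⟨k, hk⟩ := List.mem_iff_getElem?.1 h2
    rw [List.getElem?_take] at hk
    split_ifs at hk with hk2
    refine hs2 k ?_ (by omega) e hk
    by_contra h4
    refine h3 (List.mem_iff_getElem?.2 ⟨k, ?_⟩)
    rw [List.getElem?_take, if_pos (by omega)]
    exact hk

end D0L
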