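import Pool.Agent.H.MP_374efc_lc.Fr.Act

/-!
# MP_374efc_lc, free case: the surgery

Paper proof: /team-store/h43_374efc_L3.md
-/

set_option autoImplicit false

namespace D0L

section

variable {E : Type} (X X' : Set E) (Ψ Ψ' : E → E)

/-- The set after the surgery: lower part `X'`, upper part the complement of `X`. -/
abbrev Sg : Type := {y : E // y ∈ X'} ⊕ {y : E // y ∉ X}

open Classical in
/-- Landing from the lower part. -/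
noncomputable def Sg.lo (h1 : ∀ y, y ∉ X' → Ψ' y ∉ X) (y : E) : Sg X X' :=
  if hy : y ∈ X' then Sum.inl ⟨y, hy⟩ else Sum.inr ⟨Ψ' y, h1 y hy⟩

open Classical in
/-- Landing from the upper part. -/
noncomputable def Sg.up (h2 : ∀ y, y ∈ X → Ψ y ∈ X') (y : E) : Sg X X' :=
  if hy : y ∈ X then Sum.inl ⟨Ψ y, h2 y hy⟩ else Sum.inr ⟨y, hy⟩

end

/-- The surgery.
Proof.  `π'' (inl y) = π y`, `π'' (inr y) = π y`; `op'' θ (inl y) = lo (op θ y)`, `op'' θ (inr y) = up (op θ y)`.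
`π''(lo y) = π y`, `π'' (up y) = π y` by `p1`, `p2`.
Key: for `b ∈ X'`, `π b = src θ0`, `π (op θ0 b) = src θ`: `op'' θ (lo (op θ0 b)) = lo (op θ (op θ0 b))`: if `op θ0 b ∈ X'` by definition, otherwise
`lo (op θ0 b) = inr (Ψ' ..)`, `op'' θ (inr (Ψ' ..)) = up (op θ (Ψ' ..))`, and this is `CA`.  Similarly for `b ∉ X` with `up` (`CB`).
`inv_op`: `op'' (inv θ) (op'' θ (inl b)) = lo (op (inv θ) (op θ b)) = lo b = inl b`.  The two-step formulas are the key facts. -/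
theorem surgery {α Θ E : Type} {src tgt : Θ → α} {inv : Θ → Θ}
    (h1 : ∀ θ, src (inv θ) = tgt θ) (A : Act α Θ E src tgt inv) (X X' : Set E) (Ψ Ψ' : E → E)
    (q1 : ∀ y, y ∉ X' → Ψ' y ∉ X) (q2 : ∀ y, y ∈ X → Ψ y ∈ X')
    (p1 : ∀ y, y ∉ X' → A.π (Ψ' y) = A.π y) (p2 : ∀ y, y ∈ X → A.π (Ψ y) = A.π y)
    (CA : ∀ b ∈ X', ∀ θ0, A.π b = src θ0 → A.op θ0 b ∉ X' → ∀ θ, A.π (A.op θ0 b) = src θ →
      Sg.up X X' Ψ q2 (A.op θ (Ψ' (A.op θ0 b))) = Sg.lo X X' Ψ' q1 (A.op θ (A.op θ0 b)))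
    (CB : ∀ b, b ∉ X → ∀ θ0, A.π b = src θ0 → A.op θ0 b ∈ X → ∀ θ, A.π (A.op θ0 b) = src θ →
      Sg.lo X X' Ψ' q1 (A.op θ (Ψ (A.op θ0 b))) = Sg.up X X' Ψ q2 (A.op θ (A.op θ0 b))) :
    ∃ B : Act α Θ (Sg X X') src tgt inv,
      (∀ y : {y : E // y ∈ X'}, B.π (Sum.inl y) = A.π y) ∧
      (∀ y : {y : E // y ∉ X}, B.π (Sum.inr y) = A.π y) ∧
      (∀ θ (y : {y : E // y ∈ X'}), B.op θ (Sum.inl y) = Sg.lo X X' Ψ' q1 (A.op θ y)) ∧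
      (∀ θ (y : {y : E // y ∉ X}), B.op θ (Sum.inr y) = Sg.up X X' Ψ q2 (A.op θ y)) ∧
      (∀ θ0 θ (y : {y : E // y ∈ X'}), A.π y = src θ0 → tgt θ0 = src θ →
        B.op θ (B.op θ0 (Sum.inl y)) = Sg.lo X X' Ψ' q1 (A.op θ (A.op θ0 y))) ∧
      ∀ θ0 θ (y : {y : E // y ∉ X}), A.π y = src θ0 → tgt θ0 = src θ →
        B.op θ (B.op θ0 (Sum.inr y)) = Sg.up X X' Ψ q2 (A.op θ (A.op θ0 y)) := by
  classical
  have lo_pos : ∀ y (hy : y ∈ X'), Sg.lo X X' Ψ' q1 y = Sum.inl ⟨y, hy⟩ := by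
    intro y hy
    unfold Sg.lo
    rw [dif_pos hy]
  have lo_neg : ∀ y (hy : y ∉ X'), Sg.lo X X' Ψ' q1 y = Sum.inr ⟨Ψ' y, q1 y hy⟩ := by
    intro y hy
    unfold Sg.lo
    rw [dif_neg hy]
  have up_pos : ∀ y (hy : y ∈ X), Sg.up X X' Ψ q2 y = Sum.inl ⟨Ψ y, q2 y hy⟩ := by
    intro y hy
    unfold Sg.up
    rw [dif_pos hy]
  have up_neg : ∀ y (hy : y ∉ X), Sg.up X X' Ψ q2 y = Sum.inr ⟨y, hy⟩ := by
    intro y hy
    unfold Sg.up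
    rw [dif_neg hy]
  obtain ⟨opE, oi, oo⟩ : ∃ f : Θ → Sg X X' → Sg X X',
      (∀ θ (y : {y : E // y ∈ X'}), f θ (Sum.inl y) = Sg.lo X X' Ψ' q1 (A.op θ y)) ∧
      (∀ θ (y : {y : E // y ∉ X}), f θ (Sum.inr y) = Sg.up X X' Ψ q2 (A.op θ y)) :=
    ⟨fun θ s => Sum.elim (fun y => Sg.lo X X' Ψ' q1 (A.op θ y.1))
      (fun y => Sg.up X X' Ψ q2 (A.op θ y.1)) s, fun _ _ => rfl, fun _ _ => rfl⟩
  obtain ⟨piE, pi1, pi2⟩ : ∃ f : Sg X X' → α,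
      (∀ y : {y : E // y ∈ X'}, f (Sum.inl y) = A.π y) ∧
      (∀ y : {y : E // y ∉ X}, f (Sum.inr y) = A.π y) :=
    ⟨fun s => Sum.elim (fun y => A.π y.1) (fun y => A.π y.1) s, fun _ => rfl, fun _ => rfl⟩
  have plo : ∀ y, piE (Sg.lo X X' Ψ' q1 y) = A.π y := by
    intro y
    by_cases hy : y ∈ X'
    · rw [lo_pos y hy, pi1]
    · rw [lo_neg y hy, pi2]
      exact p1 y hy
  have pup : ∀ y, piE (Sg.up X X' Ψ q2 y) = A.π y := by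
    intro y
    by_cases hy : y ∈ X
    · rw [up_pos y hy, pi1]
      exact p2 y hy
    · rw [up_neg y hy, pi2]
  have K1 : ∀ θ0 θ (y : {y : E // y ∈ X'}), A.π y = src θ0 → tgt θ0 = src θ →
      opE θ (opE θ0 (Sum.inl y)) = Sg.lo X X' Ψ' q1 (A.op θ (A.op θ0 y)) := by
    intro θ0 θ y hy hθ
    rw [oi]
    by_cases hz : A.op θ0 y ∈ X'
    · rw [lo_pos _ hz, oi]
    · rw [lo_neg _ hz, oo]
      exact CA y.1 y.2 θ0 hy hz θ ((A.π_op θ0 y.1 hy).trans hθ)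
  have K2 : ∀ θ0 θ (y : {y : E // y ∉ X}), A.π y = src θ0 → tgt θ0 = src θ →
      opE θ (opE θ0 (Sum.inr y)) = Sg.up X X' Ψ q2 (A.op θ (A.op θ0 y)) := by
    intro θ0 θ y hy hθ
    rw [oo]
    by_cases hz : A.op θ0 y ∈ X
    · rw [up_pos _ hz, oi]
      exact CB y.1 y.2 θ0 hy hz θ ((A.π_op θ0 y.1 hy).trans hθ)
    · rw [up_neg _ hz, oo]
  refine ⟨⟨piE, opE, ?_, ?_⟩, pi1, pi2, oi, oo, K1, K2⟩
  · intro θ e he
    rcases e with y | y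
    · rw [pi1] at he
      rw [oi, plo]
      exact A.π_op θ y.1 he
    · rw [pi2] at he
      rw [oo, pup]
      exact A.π_op θ y.1 he
  · intro θ e he
    rcases e with y | y
    · rw [pi1] at he
      rw [K1 θ (inv θ) y he (h1 θ).symm, A.inv_op θ y.1 he, lo_pos _ y.2]
    · rw [pi2] at he
      rw [K2 θ (inv θ) y he (h1 θ).symm, A.inv_op θ y.1 he, up_neg _ y.2]

end D0L
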