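import Pool.Agent.H.MP_374efc_lc.Fr.Se2
import Pool.Agent.H.MP_374efc_lc.Fr.Pu1

/-!
# MP_374efc_lc, free case: the ends of the words do not change

Paper proof: /team-store/h43_374efc_L3.md
-/

set_option autoImplicit false

namespace D0L.VS

variable {α E : Type} {h : α → List α} {w : List α} {N : ℕ} {js : List ℕ}

theorem pu2_pos (hne : ∀ a, h a ≠ []) (hw : w ≠ []) (i : ℕ) : 0 < (it h i w).length := by
  have h1 : w.length ≤ (it h i w).length := by
    induction i with
    | zero => exact le_rfl
    | succ i ih =>
      rw [it_succ]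
      exact ih.trans (length_le_app hne _)
  have h2 := List.length_pos_of_ne_nil hw
  omega

theorem pu2_op {E' : Type} (B : Act α (Op h) E' (osrc h) (otgt h) (oinv h)) (z : E') {a b a' b' : α}
    (h1 : Legal h [a, b]) (h2 : Legal h [a', b']) (ha : a = a') (hb : b = b') :
    B.op (tauo a b h1) z = B.op (tauo a' b' h2) z := by
  subst ha
  subst hb
  rfl

theorem pu2_nb {E' : Type} (M : VS h w N js E) {D : ℕ}
    (B : Act α (Op h) E' (osrc h) (otgt h) (oinv h)) (f : E → E') (f1 : ∀ e, B.π (f e) = M.A.π e)
    (f2 : ∀ e ∈ M.T D, ∀ θ, M.A.π e = osrc h θ → B.op θ (f e) = f (M.A.op θ e)) {x y : E}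
    (hx : x ∈ M.T D) (hxy : M.A.Nb x y) : B.Nb (f x) (f y) := by
  obtain ⟨hl, hy⟩ := hxy
  have hl' : Legal h [B.π (f x), B.π (f y)] := by
    rw [f1, f1]
    exact hl
  refine ⟨hl', ?_⟩
  rw [pu2_op B (f x) hl' hl (f1 x) (f1 y), f2 x hx _ rfl, ← hy]

/-- Adjacent elements of a chain. -/
theorem pu2_adj {β : Type} {R : β → β → Prop} {V : List β} (hV : List.IsChain R V) {p : ℕ}
    {x y : β} (hx : V[p]? = some x) (hy : V[p + 1]? = some y) : R x y := by
  obtain ⟨h1, h2⟩ := List.getElem?_eq_some_iff.1 hx
  obtain ⟨h3, h4⟩ := List.getElem?_eq_some_iff.1 hy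
  have h5 := List.isChain_iff_getElem.1 hV p h3
  rw [h2, h4] at h5
  exact h5

/-- The first and last elements of the words `om i` do not see a change of the action outside `T`.
`f : E → E'` is compatible with `π` everywhere and with the operations on `T D`.
Proof.  Induction on `i`.  `it B.et i (om.map f)` is a chain over `it h i w`.  Its first element is `f` of the first element of `om i` (`B.op (fwd a 0) (f e) = f (A.op (fwd a 0) e)`,
`e ∈ T`), and then `e_(p+1) = op τ e_p` in both words, `e_p ∈ T D` for `p ≤ D`.  Similarly from the right end with the inverse operations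
(`oinv`; the last element: `op (fwd a (|h a| - 1))`). -/
theorem ends {E' : Type} (M : VS h w N js E) (hne : ∀ a, h a ≠ []) (hw : w ≠ []) {D : ℕ}
    (hwD : w.length ≤ D + 1) (B : Act α (Op h) E' (osrc h) (otgt h) (oinv h)) (hB : Cpt B)
    (f : E → E') (f1 : ∀ e, B.π (f e) = M.A.π e)
    (f2 : ∀ e ∈ M.T D, ∀ θ, M.A.π e = osrc h θ → B.op θ (f e) = f (M.A.op θ e)) (i p : ℕ)
    (hp : p ≤ D ∨ (it h i w).length ≤ p + 1 + D) :
    (it B.et i (M.om.map f))[p]? = ((it M.A.et i M.om)[p]?).map f := by
  have hmem : ∀ (i p : ℕ) (e : E), (it M.A.et i M.om)[p]? = some e →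
      (p ≤ D ∨ (it h i w).length ≤ p + 1 + D) → e ∈ M.T D := by
    intro i p e he hp
    refine ⟨i, p, he, ?_⟩
    rw [M.length_om]
    exact hp
  have hpos := fun i => pu2_pos (h := h) (w := w) hne hw i
  have hnb : ∀ x y, x ∈ M.T D → M.A.Nb x y → B.Nb (f x) (f y) :=
    fun x y hx hxy => pu2_nb M B f f1 f2 hx hxy
  have hlen0 : M.om.length = w.length := by
    have h1 := congrArg List.length M.om_π
    rwa [List.length_map] at h1
  have hch0 : List.IsChain B.Nb (M.om.map f) := by
    rw [List.isChain_iff_getElem]
    intro q hq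
    rw [List.length_map] at hq
    rw [List.getElem_map, List.getElem_map]
    refine hnb _ _ ?_ (List.isChain_iff_getElem.1 M.om_nb q hq)
    refine hmem 0 q _ (List.getElem?_eq_getElem (by rw [it_zero]; omega)) (Or.inl ?_)
    omega
  have hmap0 : (M.om.map f).map B.π = w := by
    have h1 : (B.π ∘ f) = M.A.π := by
      funext e
      exact f1 e
    rw [List.map_map, h1]
    exact M.om_π
  have hπ : ∀ i, (it B.et i (M.om.map f)).map B.π = it h i w := by
    intro i
    rw [B.map_it_et, hmap0]
  have hlen' : ∀ i, (it B.et i (M.om.map f)).length = (it h i w).length := by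
    intro i
    rw [← hπ i, List.length_map]
  have hlen : ∀ i, (it M.A.et i M.om).length = (it h i w).length := M.length_om
  have hch' : ∀ i, List.IsChain B.Nb (it B.et i (M.om.map f)) := Cpt.chain_it hB hne hch0
  have hch : ∀ i, List.IsChain M.A.Nb (it M.A.et i M.om) := Cpt.chain_it M.cpt hne M.om_nb
  have hpr : ∀ (i p : ℕ) (x : E) (y : E'), (it B.et i (M.om.map f))[p]? = some y →
      (it M.A.et i M.om)[p]? = some x → B.π y = B.π (f x) := by
    intro i p x y hy hx
    have h1 : (it h i w)[p]? = some (B.π y) := by
      rw [← hπ i, List.getElem?_map, hy, Option.map_some]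
    have h2 : (it h i w)[p]? = some (M.A.π x) := by
      rw [← M.map_om i, List.getElem?_map, hx, Option.map_some]
    rw [h1] at h2
    rw [Option.some.inj h2, f1]
  have hstep : ∀ i, (it B.et i (M.om.map f))[0]? = ((it M.A.et i M.om)[0]?).map f →
      (it B.et i (M.om.map f))[(it h i w).length - 1]? =
        ((it M.A.et i M.om)[(it h i w).length - 1]?).map f →
      ∀ p : ℕ, (p ≤ D ∨ (it h i w).length ≤ p + 1 + D) →
        (it B.et i (M.om.map f))[p]? = ((it M.A.et i M.om)[p]?).map f := by
    intro i h0 h1 p hp
    rcases Nat.lt_or_ge p (it h i w).length with hlt | hge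
    swap
    · rw [List.getElem?_eq_none (by rw [hlen' i]; exact hge),
        List.getElem?_eq_none (by rw [hlen i]; exact hge)]
      rfl
    rcases hp with hp | hp
    · induction p with
      | zero => exact h0
      | succ p ih =>
        have ih' := ih (by omega) (by omega)
        have a1 : (it M.A.et i M.om)[p]? = some _ :=
          List.getElem?_eq_getElem (by rw [hlen i]; omega)
        have a2 : (it M.A.et i M.om)[p + 1]? = some _ :=
          List.getElem?_eq_getElem (by rw [hlen i]; omega)
        have a3 : (it B.et i (M.om.map f))[p + 1]? = some _ :=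
          List.getElem?_eq_getElem (by rw [hlen' i]; omega)
        rw [a1, Option.map_some] at ih'
        have b1 := pu2_adj (hch' i) ih' a3
        have b2 := hnb _ _ (hmem i p _ a1 (Or.inl (by omega))) (pu2_adj (hch i) a1 a2)
        have b3 := B.nb_det b1 b2 (hpr i (p + 1) _ _ a3 a2)
        rw [a3, a2, Option.map_some, b3]
    · obtain ⟨q, hq⟩ : ∃ q, q = (it h i w).length - 1 - p := ⟨_, rfl⟩
      induction q generalizing p with
      | zero =>
        have : p = (it h i w).length - 1 := by omega
        rw [this]
        exact h1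
      | succ q ih =>
        have ih' := ih (p + 1) (by omega) (by omega) (by omega)
        have a1 : (it M.A.et i M.om)[p]? = some _ :=
          List.getElem?_eq_getElem (by rw [hlen i]; omega)
        have a2 : (it M.A.et i M.om)[p + 1]? = some _ :=
          List.getElem?_eq_getElem (by rw [hlen i]; omega)
        have a3 : (it B.et i (M.om.map f))[p]? = some _ :=
          List.getElem?_eq_getElem (by rw [hlen' i]; omega)
        rw [a2, Option.map_some] at ih'
        have b1 := pu2_adj (hch' i) a3 ih'
        have b2 := hnb _ _ (hmem i p _ a1 (Or.inr (by omega))) (pu2_adj (hch i) a1 a2)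
        have b3 := B.nb_det' b1 b2 (hpr i p _ _ a3 a1)
        rw [a3, a1, Option.map_some, b3]
  induction i generalizing p with
  | zero =>
    rw [it_zero, it_zero, List.getElem?_map]
  | succ i ih =>
    refine hstep (i + 1) ?_ ?_ p hp
    · have c0 := ih 0 (Or.inl (Nat.zero_le _))
      have hpi := hpos i
      rw [← hlen i] at hpi
      obtain ⟨x, t, hx⟩ := List.exists_cons_of_length_pos hpi
      have hpi' := hpos i
      rw [← hlen' i] at hpi'
      obtain ⟨y, t', hy⟩ := List.exists_cons_of_length_pos hpi'
      have hxy : y = f x := by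
        rw [hx, hy] at c0
        simpa using c0
      have hxT : x ∈ M.T D := hmem i 0 x (by rw [hx]; rfl) (Or.inl (Nat.zero_le _))
      have hl0 : 0 < (h (M.A.π x)).length := List.length_pos_of_ne_nil (hne _)
      have e1 : (M.A.et x)[0]? = some (M.A.op (fwd (M.A.π x) ⟨0, hl0⟩) x) :=
        M.A.ab2_et_get rfl hl0
      have e2 : (B.et (f x))[0]? = some (B.op (fwd (M.A.π x) ⟨0, hl0⟩) (f x)) :=
        B.ab2_et_get (f1 x) hl0
      have l1 : 0 < (M.A.et x).length := by rw [M.A.ab2_et_len]; exact hl0
      have l2 : 0 < (B.et (f x)).length := by rw [B.ab2_et_len, f1]; exact hl0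
      rw [it_succ, it_succ, hx, hy, app_cons, app_cons, hxy, List.getElem?_append_left l1,
        List.getElem?_append_left l2, e1, e2, Option.map_some, f2 x hxT _ rfl]
    · have hpi := hpos i
      have c0 := ih ((it h i w).length - 1) (Or.inr (by omega))
      obtain ⟨t, x, hx⟩ : ∃ t x, it M.A.et i M.om = t ++ [x] := by
        rcases List.eq_nil_or_concat (it M.A.et i M.om) with h5 | ⟨t, x, h5⟩
        · rw [← hlen i, h5] at hpi
          exact absurd hpi (lt_irrefl _)
        · exact ⟨t, x, by rw [h5, List.concat_eq_append]⟩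
      obtain ⟨t', y, hy⟩ : ∃ t' y, it B.et i (M.om.map f) = t' ++ [y] := by
        rcases List.eq_nil_or_concat (it B.et i (M.om.map f)) with h5 | ⟨t, x, h5⟩
        · rw [← hlen' i, h5] at hpi
          exact absurd hpi (lt_irrefl _)
        · exact ⟨t, x, by rw [h5, List.concat_eq_append]⟩
      have k1 : (it h i w).length = t.length + 1 := by
        rw [← hlen i, hx, List.length_append, List.length_singleton]
      have k2 : (it h i w).length = t'.length + 1 := by
        rw [← hlen' i, hy, List.length_append, List.length_singleton]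
      have m1 : (it M.A.et i M.om)[(it h i w).length - 1]? = some x := by
        rw [hx, k1, Nat.add_sub_cancel, List.getElem?_append_right (le_refl _), Nat.sub_self]
        rfl
      have m2 : (it B.et i (M.om.map f))[(it h i w).length - 1]? = some y := by
        rw [hy, k2, Nat.add_sub_cancel, List.getElem?_append_right (le_refl _), Nat.sub_self]
        rfl
      have hxy : y = f x := by
        rw [m1, m2, Option.map_some] at c0
        exact Option.some.inj c0
      have hxT : x ∈ M.T D := hmem i _ x m1 (Or.inr (by omega))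
      have hl0 : 0 < (h (M.A.π x)).length := List.length_pos_of_ne_nil (hne _)
      have hl1 : (h (M.A.π x)).length - 1 < (h (M.A.π x)).length := by omega
      have e1 : (M.A.et x)[(h (M.A.π x)).length - 1]? =
          some (M.A.op (fwd (M.A.π x) ⟨(h (M.A.π x)).length - 1, hl1⟩) x) :=
        M.A.ab2_et_get rfl hl1
      have e2 : (B.et (f x))[(h (M.A.π x)).length - 1]? =
          some (B.op (fwd (M.A.π x) ⟨(h (M.A.π x)).length - 1, hl1⟩) (f x)) :=
        B.ab2_et_get (f1 x) hl1
      have n1 : it M.A.et (i + 1) M.om = app M.A.et t ++ M.A.et x := by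
        rw [it_succ, hx, app_append, app_singleton]
      have n2 : it B.et (i + 1) (M.om.map f) = app B.et t' ++ B.et (f x) := by
        rw [it_succ, hy, app_append, app_singleton, hxy]
      have o1 : (it h (i + 1) w).length = (app M.A.et t).length + (h (M.A.π x)).length := by
        rw [← hlen (i + 1), n1, List.length_append, M.A.ab2_et_len]
      have o2 : (it h (i + 1) w).length = (app B.et t').length + (h (M.A.π x)).length := by
        rw [← hlen' (i + 1), n2, List.length_append, B.ab2_et_len, f1]
      have q1 : (it h (i + 1) w).length - 1 =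
          (app M.A.et t).length + ((h (M.A.π x)).length - 1) := by omega
      have q2 : (it h (i + 1) w).length - 1 =
          (app B.et t').length + ((h (M.A.π x)).length - 1) := by omega
      have r1 : (it M.A.et (i + 1) M.om)[(it h (i + 1) w).length - 1]? =
          some (M.A.op (fwd (M.A.π x) ⟨(h (M.A.π x)).length - 1, hl1⟩) x) := by
        rw [q1, n1, List.getElem?_append_right (by omega), Nat.add_sub_cancel_left, e1]
      have r2 : (it B.et (i + 1) (M.om.map f))[(it h (i + 1) w).length - 1]? =
          some (B.op (fwd (M.A.π x) ⟨(h (M.A.π x)).length - 1, hl1⟩) (f x)) := by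
        rw [q2, n2, List.getElem?_append_right (by omega), Nat.add_sub_cancel_left, e2]
      rw [r1, r2, Option.map_some, f2 x hxT _ rfl]

end D0L.VS
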