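import Pool.Agent.H.MP_374efc_lc.Fr.Pu2

/-!
# MP_374efc_lc, free case: transport of a valid structure

Paper proof: /team-store/h43_374efc_L3.md
-/

set_option autoImplicit false

namespace D0L.VS

variable {α E : Type} {h : α → List α} {w : List α} {N : ℕ} {js : List ℕ}

theorem pu3_nb {E' : Type} (M : VS h w N js E) {D : ℕ}
    (B : Act α (Op h) E' (osrc h) (otgt h) (oinv h)) (f : E → E')
    (f1 : ∀ e, B.π (f e) = M.A.π e)
    (f2 : ∀ e ∈ M.T D, ∀ θ, M.A.π e = osrc h θ → B.op θ (f e) = f (M.A.op θ e))
    {x y : E} (hx : x ∈ M.T D) (hxy : M.A.Nb x y) : B.Nb (f x) (f y) := by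
  obtain ⟨hl, e1⟩ := hxy
  have key : ∀ (a b : α) (hab : Legal h [a, b]), M.A.π x = a → B.π (f x) = a → B.π (f y) = b →
      y = M.A.op (tauo a b hab) x → B.Nb (f x) (f y) := by
    intro a b hab hxa hxa' hyb hy
    subst hxa'
    subst hyb
    refine ⟨hab, ?_⟩
    rw [f2 x hx (tauo (B.π (f x)) (B.π (f y)) hab) hxa, ← hy]
  exact key _ _ hl rfl (f1 x) (f1 y) e1

theorem pu3_T_head {M : VS h w N js E} {D i : ℕ} {x : E}
    (hx : x ∈ (it M.A.et i M.om).head?) : x ∈ M.T D := by
  refine ⟨i, 0, ?_, Or.inl (Nat.zero_le _)⟩
  rw [← List.head?_eq_getElem?]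
  exact hx

theorem pu3_T_last {M : VS h w N js E} {D i : ℕ} {x : E}
    (hx : x ∈ (it M.A.et i M.om).getLast?) : x ∈ M.T D := by
  refine ⟨i, (it M.A.et i M.om).length - 1, ?_, Or.inr (by omega)⟩
  rw [← List.getLast?_eq_getElem?]
  exact hx

theorem pu3_len {E' : Type} (M : VS h w N js E)
    (B : Act α (Op h) E' (osrc h) (otgt h) (oinv h)) (f : E → E')
    (f1 : ∀ e, B.π (f e) = M.A.π e) :
    (M.om.map f).map B.π = w := by
  refine Eq.trans ?_ M.om_π
  rw [List.map_map]
  exact List.map_congr_left (fun e _ => f1 e)

/-- A compatible action on another set, generated by the image of `T`, is a valid structure.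
Proof.  `om' = om.map f` (`om_nb`: `x ∈ T`, `f y = f (op τ x) = op τ (f x)`).  By `ends` the first and last elements of `om' i` are the images of those of `om i`: `first`,
`last`.  `rel`: both sides are chains over the same word (for the right hand side: the junction pairs are the images of the junction pairs in
`M.rel`, which are neighbours in the chain `om N`) with the same first element: `chain_eq`.  `gen` from `hgen` (the elements `f e`, `e ∈ T D`, are in some `om' i` by
`ends`; then `op (fwd _ j)` of an element of `om' i` is in `om' (i+1)`). -/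
theorem transport {E' : Type} (M : VS h w N js E) (hne : ∀ a, h a ≠ []) (hw : w ≠ [])
    (hjs : js ≠ []) {D : ℕ} (hwD : w.length ≤ D + 1)
    (B : Act α (Op h) E' (osrc h) (otgt h) (oinv h)) (hB : Cpt B) (f : E → E')
    (f1 : ∀ e, B.π (f e) = M.A.π e)
    (f2 : ∀ e ∈ M.T D, ∀ θ, M.A.π e = osrc h θ → B.op θ (f e) = f (M.A.op θ e))
    (hgen : ∀ C : Set E', (∀ e ∈ M.T D, f e ∈ C) → (∀ x ∈ C, ∀ y ∈ B.et x, y ∈ C) → ∀ x, x ∈ C) :
    Nonempty (VS h w N js E') := by
  have hom : (M.om.map f).map B.π = w := pu3_len M B f f1
  have hlom : M.om.length = w.length := by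
    have h1 := congrArg List.length M.om_π
    rwa [List.length_map] at h1
  have hO'π : ∀ i, (it B.et i (M.om.map f)).map B.π = it h i w := by
    intro i
    rw [B.map_it_et, hom]
  have hOπ : ∀ i, (it M.A.et i M.om).map M.A.π = it h i w := by
    intro i
    rw [M.A.map_it_et, M.om_π]
  have hlO' : ∀ i, (it B.et i (M.om.map f)).length = (it h i w).length := by
    intro i
    rw [← hO'π i, List.length_map]
  have hlO : ∀ i, (it M.A.et i M.om).length = (it h i w).length := by
    intro i
    rw [← hOπ i, List.length_map]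
  have hhead : ∀ i, (it B.et i (M.om.map f)).head? = ((it M.A.et i M.om).head?).map f := by
    intro i
    rw [List.head?_eq_getElem?, List.head?_eq_getElem?]
    exact ends M hne hw hwD B hB f f1 f2 i 0 (Or.inl (Nat.zero_le _))
  have hlast : ∀ i, (it B.et i (M.om.map f)).getLast? = ((it M.A.et i M.om).getLast?).map f := by
    intro i
    rw [List.getLast?_eq_getElem?, List.getLast?_eq_getElem?, hlO', hlO]
    exact ends M hne hw hwD B hB f f1 f2 i _ (Or.inr (by omega))
  have hom_T : ∀ x ∈ M.om, x ∈ M.T D := by
    intro x hx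
    obtain ⟨p, hp, hpx⟩ := List.mem_iff_getElem.1 hx
    refine ⟨0, p, ?_, Or.inl (by omega)⟩
    rw [it_zero, List.getElem?_eq_getElem hp, hpx]
  have hnb : List.IsChain B.Nb (M.om.map f) := by
    rw [List.isChain_map]
    have hc := M.om_nb
    rw [List.isChain_iff_getElem] at hc ⊢
    intro i hi
    exact pu3_nb M B f f1 f2 (hom_T _ (List.getElem_mem _)) (hc i hi)
  have hwl : ∀ i, w.length ≤ (it h i w).length := by
    intro i
    induction i with
    | zero => exact le_refl _
    | succ i ih =>
      rw [it_succ]
      exact ih.trans (length_le_app hne _)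
  have hOne : ∀ i, it M.A.et i M.om ≠ [] := by
    intro i h0
    have h1 := hlO i
    rw [h0] at h1
    have h2 := hwl i
    have h3 : 0 < w.length := List.length_pos_iff.2 hw
    simp only [List.length_nil] at h1
    omega
  have hO'ne : ∀ i, it B.et i (M.om.map f) ≠ [] := by
    intro i h0
    have h1 := hlO' i
    rw [h0] at h1
    have h2 := hwl i
    have h3 : 0 < w.length := List.length_pos_iff.2 hw
    simp only [List.length_nil] at h1
    omega
  refine ⟨⟨B, hB, M.om.map f, hom, hnb, ?_, ?_, ?_, ?_⟩⟩
  · -- rel
    have hc1 : List.IsChain M.A.Nb (js.map (fun j => it M.A.et j M.om)).flatten := by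
      rw [← M.rel]
      exact M.cpt.chain_it hne M.om_nb N
    rw [List.isChain_flatten (by
      intro h0
      obtain ⟨j, _, hj⟩ := List.mem_map.1 h0
      exact hOne j hj), List.isChain_map] at hc1
    have hc2 : List.IsChain B.Nb (js.map (fun j => it B.et j (M.om.map f))).flatten := by
      rw [List.isChain_flatten (by
        intro h0
        obtain ⟨j, _, hj⟩ := List.mem_map.1 h0
        exact hO'ne j hj), List.isChain_map]
      refine ⟨?_, ?_⟩
      · intro l hl
        obtain ⟨j, _, hj⟩ := List.mem_map.1 hl
        rw [← hj]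
        exact hB.chain_it hne hnb j
      · refine hc1.2.imp ?_
        intro a b hab x hx y hy
        rw [hlast a] at hx
        rw [hhead b] at hy
        obtain ⟨x0, hx0, rfl⟩ := Option.mem_map.1 hx
        obtain ⟨y0, hy0, rfl⟩ := Option.mem_map.1 hy
        exact pu3_nb M B f f1 f2 (pu3_T_last hx0) (hab x0 hx0 y0 hy0)
    refine B.chain_eq (hB.chain_it hne hnb N) hc2 ?_ ?_
    · rw [hO'π N, List.map_flatten, List.map_map, ← hOπ N, M.rel, List.map_flatten, List.map_map]
      congr 1
      refine List.map_congr_left (fun j _ => ?_)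
      simp only [Function.comp]
      rw [hO'π j, hOπ j]
    · rw [hhead N, M.rel]
      cases js with
      | nil => exact absurd rfl hjs
      | cons j t =>
        rw [List.map_cons, List.map_cons, List.flatten_cons, List.flatten_cons]
        rw [List.head?_append, List.head?_append, hhead j]
        cases hh : (it M.A.et j M.om).head? with
        | none => exact absurd (List.head?_eq_none_iff.1 hh) (hOne j)
        | some z => rfl
  · -- gen
    refine hgen {x | ∃ i, x ∈ it B.et i (M.om.map f)} ?_ ?_
    · rintro e ⟨i, p, hp, hpD⟩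
      refine ⟨i, ?_⟩
      have h1 := ends M hne hw hwD B hB f f1 f2 i p (by rw [← hlO i]; exact hpD)
      rw [hp] at h1
      exact List.mem_of_getElem? h1
    · rintro x ⟨i, hx⟩ y hy
      refine ⟨i + 1, ?_⟩
      rw [it_succ]
      exact mem_app.2 ⟨x, hx, hy⟩
  · intro i i' x x' V V' e1 e2 hxx
    have a1 := hhead i
    have a2 := hhead i'
    rw [e1, List.head?_cons] at a1
    rw [e2, List.head?_cons] at a2
    cases hh : it M.A.et i M.om with
    | nil => exact absurd hh (hOne i)
    | cons z U =>
      cases hh' : it M.A.et i' M.om with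
      | nil => exact absurd hh' (hOne i')
      | cons z' U' =>
        rw [hh] at a1
        rw [hh'] at a2
        simp only [List.head?_cons, Option.map_some, Option.some.injEq] at a1 a2
        rw [a1, a2, f1, f1] at hxx
        rw [a1, a2, M.first i i' z z' U U' hh hh' hxx]
  · intro i i' x x' V V' e1 e2 hxx
    have a1 := hlast i
    have a2 := hlast i'
    rw [e1, List.getLast?_concat] at a1
    rw [e2, List.getLast?_concat] at a2
    rcases List.eq_nil_or_concat (it M.A.et i M.om) with hh | ⟨U, z, hh⟩
    · exact absurd hh (hOne i)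
    · rcases List.eq_nil_or_concat (it M.A.et i' M.om) with hh' | ⟨U', z', hh'⟩
      · exact absurd hh' (hOne i')
      · rw [List.concat_eq_append] at hh hh'
        rw [hh, List.getLast?_concat] at a1
        rw [hh', List.getLast?_concat] at a2
        simp only [Option.map_some, Option.some.injEq] at a1 a2
        rw [a1, a2, f1, f1] at hxx
        rw [a1, a2, M.last i i' z z' U U' hh hh' hxx]

end D0L.VS
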