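import Pool.Agent.H.MP_374efc_lc.Fr.Pb3
import Pool.Agent.H.MP_374efc_lc.Fr.Dl3

/-!
# MP_374efc_lc, free case: recognizability

Paper proof: /team-store/h43_374efc_L3.md
-/

set_option autoImplicit false

namespace D0L

theorem rc1_cut {α β : Type} {g : α → List β} {x : List α} {P A : List β} {y : ℕ}
    (hc : CutAt g x (P ++ A).length y) : CutAt g x P.length (A.length + y) := by
  obtain ⟨x1, x2, e1, e2⟩ := hc
  refine ⟨x1, x2, e1, ?_⟩
  rw [e2, List.length_append]
  omega

theorem rc1_legal {α : Type} {h : α → List α} {r : ℕ} {x P v S : List α} (hx : Legal h x)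
    (h1 : app (pw h r) x = P ++ v ++ S) : Legal h v := by
  obtain ⟨c, k, s, t, hst⟩ := hx
  refine ⟨c, r + k, it h r s ++ P, S ++ it h r t, ?_⟩
  have e1 : it h r x = P ++ v ++ S := by
    rw [it_eq_app]
    exact h1
  rw [it_add, ← hst, it_append, it_append, e1]
  simp only [List.append_assoc]

/-- Recognizability.
Proof.  `g = pw h r`, `2 ≤ |g a|` (`Std.full`, `Std.two`).  Suppose `¬ (a = a' ∧ o = o')`.  By `no_common_cut` (`D = dly m (n m) r ≤ D0`, `Std.delay`,
`Std.delay_rev`) `(x, P, S)`, `(x', P', S')` have no common cut in `v`.  Then `Many h g l0 2` holds, contradiction to `not_two`: for a legal word `z ≠ []`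
of length `≤ l0` we have `z <:+: v` (`lin_rec`: `v` is legal — a factor of `app g x`, `x` legal — and `|v| = 2 D0 + 1 ≥ cLR * l0`), `v = A ++ z ++ B`; the
interpretations `(x, P ++ A, B ++ S)`, `(x', P' ++ A, B ++ S')` of `z`: a common cut `q` would be the common cut `|A| + q` of `v`. -/
theorem recog {α : Type} [Fintype α] {h : α → List α} {m r : ℕ} (hs : Std h m r)
    {x x' P P' S S' v : List α} (hx : Legal h x) (hx' : Legal h x')
    (h1 : app (pw h r) x = P ++ v ++ S) (h2 : app (pw h r) x' = P' ++ v ++ S')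
    (hv : v.length = 2 * D0 (Fintype.card α) m r + 1) {i i' : ℕ} {a a' : α} {o o' : ℕ}
    (c1 : Cov (pw h r) x (P.length + D0 (Fintype.card α) m r) i a o)
    (c2 : Cov (pw h r) x' (P'.length + D0 (Fintype.card α) m r) i' a' o') :
    a = a' ∧ o = o' := by
  classical
  by_contra hne
  have hDD : dly m (Fintype.card α * m) r ≤ D0 (Fintype.card α) m r := by
    unfold D0
    exact Nat.le_add_left _ _
  have hncc := no_common_cut hs.delay hs.delay_rev hDD h1 h2 hv c1 c2 hne
  apply not_two hs
  intro z hz hz0 hzl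
  have hl : 1 ≤ l0 (Fintype.card α) m r := by
    have := List.length_pos_of_ne_nil hz0
    omega
  have hvl : cLR (Fintype.card α) m r * l0 (Fintype.card α) m r ≤ v.length := by
    rw [hv]
    unfold D0
    omega
  obtain ⟨A, B, hAB⟩ := lin_rec hs hl (rc1_legal hx h1) hvl hz hzl
  have hlen : v.length = A.length + z.length + B.length := by
    rw [← hAB, List.length_append, List.length_append]
  have key : ∀ y ≤ z.length, CutAt (pw h r) x (P ++ A).length y →
      CutAt (pw h r) x' (P' ++ A).length y → False := by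
    intro y hy k1 k2
    exact hncc (A.length + y) (by omega) ⟨rc1_cut k1, rc1_cut k2⟩
  refine ⟨![(x, P ++ A, B ++ S), (x', P' ++ A, B ++ S')], ?_, ?_⟩
  · intro i
    fin_cases i
    · refine ⟨hx, ?_⟩
      simp only [Fin.zero_eta, Matrix.cons_val_zero]
      rw [h1, ← hAB]
      simp only [List.append_assoc]
    · refine ⟨hx', ?_⟩
      simp only [Fin.mk_one, Matrix.cons_val_one, Matrix.cons_val_fin_one]
      rw [h2, ← hAB]
      simp only [List.append_assoc]
  · intro i i' hii y hy hcc
    fin_cases i <;> fin_cases i'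
    · exact hii rfl
    · exact key y hy hcc.1 hcc.2
    · exact key y hy hcc.2 hcc.1
    · exact hii rfl

end D0L
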