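import Pool.Agent.H.MP_374efc_lc.Fr.Ab4

/-!
# MP_374efc_lc, free case: elements near the ends

Paper proof: /team-store/h43_374efc_L3.md
-/

set_option autoImplicit false

namespace D0L

theorem se1_take {β γ : Type} {R : β → β → Prop} {f : β → γ}
    (hR : ∀ x y y', R x y → R x y' → f y = f y' → y = y') {l l' : List β} {p : ℕ} {e e' : β}
    (hl : List.IsChain R l) (hl' : List.IsChain R l') (he : l[p]? = some e)
    (he' : l'[p]? = some e') (hm : (l.map f).take (p + 1) = (l'.map f).take (p + 1))
    (h0 : ∀ x x', l.head? = some x → l'.head? = some x' → f x = f x' → x = x') : e = e' := by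
  have hh : (l.take (p + 1)).head? = (l'.take (p + 1)).head? := by
    cases l with
    | nil => simp at he
    | cons x t =>
      cases l' with
      | nil => simp at he'
      | cons x' t' =>
        rw [List.map_cons, List.map_cons, List.take_succ_cons, List.take_succ_cons] at hm
        have h1 : x = x' := h0 x x' rfl rfl (List.cons.inj hm).1
        rw [List.take_succ_cons, List.take_succ_cons, List.head?_cons, List.head?_cons, h1]
  have hV : l.take (p + 1) = l'.take (p + 1) := by
    refine Act.ab2_chain hR (hl.take _) (hl'.take _) ?_ hh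
    rw [List.map_take, List.map_take, hm]
  have h2 : (l.take (p + 1))[p]? = some e := by
    rw [List.getElem?_take, if_pos (Nat.lt_succ_self p), he]
  have h3 : (l'.take (p + 1))[p]? = some e' := by
    rw [List.getElem?_take, if_pos (Nat.lt_succ_self p), he']
  rw [hV, h3] at h2
  exact (Option.some.inj h2).symm

end D0L

namespace D0L.VS

variable {α E : Type} {h : α → List α} {w : List α} {N : ℕ} {js : List ℕ} (M : VS h w N js E)

/-- Elements at distance at most `D` from an end of some `om i`. -/
def T (D : ℕ) : Set E := {e | ∃ i p, (it M.A.et i M.om)[p]? = some e ∧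
  (p ≤ D ∨ (it M.A.et i M.om).length ≤ p + 1 + D)}

/-- Proof: the chains `(om i).take (p+1)` and `(om i').take (p+1)` have the same projection, so the same first element by `first`; `chain_eq`
(`Cpt.chain_it`, a initial piece of a chain is a chain). -/
theorem eq_of_prefix (hne : ∀ a, h a ≠ []) {i i' p : ℕ} {e e' : E}
    (he : (it M.A.et i M.om)[p]? = some e) (he' : (it M.A.et i' M.om)[p]? = some e')
    (hp : (it h i w).take (p + 1) = (it h i' w).take (p + 1)) : e = e' := by
  refine se1_take (R := M.A.Nb) (f := M.A.π) (fun _ _ _ h1 h2 h3 => M.A.nb_det h1 h2 h3)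
    (M.cpt.chain_it hne M.om_nb i) (M.cpt.chain_it hne M.om_nb i') he he' ?_ ?_
  · rw [M.map_om, M.map_om, hp]
  · intro x x' hx hx' hxx
    obtain ⟨V, hV⟩ := List.head?_eq_some_iff.1 hx
    obtain ⟨V', hV'⟩ := List.head?_eq_some_iff.1 hx'
    exact M.first i i' x x' V V' hV hV' hxx

/-- Mirror image: `p` letters to the right of `e`. -/
theorem eq_of_suffix (hne : ∀ a, h a ≠ []) {i i' p : ℕ} {e e' : E}
    (he : (it M.A.et i M.om).reverse[p]? = some e) (he' : (it M.A.et i' M.om).reverse[p]? = some e')
    (hp : (it h i w).reverse.take (p + 1) = (it h i' w).reverse.take (p + 1)) : e = e' := by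
  refine se1_take (R := fun a b => M.A.Nb b a) (f := M.A.π)
    (fun _ _ _ h1 h2 h3 => M.A.nb_det' h1 h2 h3)
    (List.isChain_reverse.2 (M.cpt.chain_it hne M.om_nb i))
    (List.isChain_reverse.2 (M.cpt.chain_it hne M.om_nb i')) he he' ?_ ?_
  · rw [List.map_reverse, List.map_reverse, M.map_om, M.map_om, hp]
  · intro x x' hx hx' hxx
    rw [List.head?_reverse] at hx hx'
    obtain ⟨V, hV⟩ := List.getLast?_eq_some_iff.1 hx
    obtain ⟨V', hV'⟩ := List.getLast?_eq_some_iff.1 hx'
    exact M.last i i' x x' V V' hV hV' hxx

end D0L.VS
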