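import Pool.Agent.H.MP_374efc_lc.Fr.Se1

/-!
# MP_374efc_lc, free case: number of elements near the ends

Paper proof: /team-store/h43_374efc_L3.md
-/

set_option autoImplicit false

namespace D0L.VS

/-- A set all of whose elements are described by elements of a finite type. -/
theorem se2_ncard_le {S E : Type} [Fintype S] (A : Set E) (R : S → E → Prop)
    (huniq : ∀ s e e', R s e → R s e' → e = e') (hcov : ∀ e ∈ A, ∃ s, R s e) :
    A.ncard ≤ Fintype.card S := by
  classical
  have hinj : Function.Injective (fun e : A => Classical.choose (hcov e.1 e.2)) := by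
    intro e e' he
    have h1 := Classical.choose_spec (hcov e.1 e.2)
    have h2 := Classical.choose_spec (hcov e'.1 e'.2)
    simp only at he
    rw [← he] at h2
    exact Subtype.ext (huniq _ _ _ h1 h2)
  have := Nat.card_le_card_of_injective _ hinj
  rwa [Nat.card_coe_set_eq, Nat.card_eq_fintype_card] at this

/-- The number of nonempty words of length at most `D + 1`. -/
theorem se2_card_words {α : Type} [Fintype α] (h2 : 2 ≤ Fintype.card α) (D : ℕ) :
    Fintype.card (Σ p : Fin (D + 1), (Fin (p.1 + 1) → α)) ≤ Fintype.card α ^ (D + 2) := by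
  classical
  rw [Fintype.card_sigma]
  simp only [Fintype.card_fun, Fintype.card_fin]
  rw [Fin.sum_univ_eq_sum_range (fun i => Fintype.card α ^ (i + 1)) (D + 1)]
  induction D with
  | zero =>
    simp only [zero_add, Finset.range_one, Finset.sum_singleton, pow_one]
    nlinarith
  | succ D ih =>
    rw [Finset.sum_range_succ]
    have : Fintype.card α ^ (D + 1 + 2) = Fintype.card α * Fintype.card α ^ (D + 2) := by ring
    rw [this]
    have h3 : Fintype.card α ^ (D + 1 + 1) = Fintype.card α ^ (D + 2) := rfl
    rw [h3]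
    nlinarith [Nat.mul_le_mul_right (Fintype.card α ^ (D + 2)) h2]

variable {α E : Type} {h : α → List α} {w : List α} {N : ℕ} {js : List ℕ} (M : VS h w N js E)

/-- The word of length `p + 1` cut from a longer word. -/
theorem se2_exists_fun {α : Type} {l : List α} {D p : ℕ} (hp : p ≤ D) (hl : p < l.length) :
    ∃ s : (Σ q : Fin (D + 1), (Fin (q.1 + 1) → α)), s.1.1 = p ∧
      List.ofFn s.2 = l.take (p + 1) := by
  refine ⟨⟨⟨p, by omega⟩, fun k => l.get ⟨k.1, by have := k.2; simp only at this; omega⟩⟩, rfl, ?_⟩
  apply List.ext_getElem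
  · simp; omega
  · intro n h1 h2
    rw [List.getElem_ofFn, List.getElem_take]
    rfl

/-- Proof: an element at distance `p ≤ D` from the left end is determined by the word `(it h i w).take (p+1)` of length `p + 1 ≤ D + 1`, similarly at the
right end; the number of words with length in `[1, D + 1]` is at most `∑_(i ≤ D) n ^ (i+1) ≤ n ^ (D+2)`. -/
theorem card_T [Fintype α] (h2 : 2 ≤ Fintype.card α) (hne : ∀ a, h a ≠ []) (D : ℕ) :
    (M.T D).ncard ≤ 2 * Fintype.card α ^ (D + 2) := by
  classical
  set L : Set E := {e | ∃ i p, (it M.A.et i M.om)[p]? = some e ∧ p ≤ D} with hL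
  set R : Set E := {e | ∃ i p, (it M.A.et i M.om).reverse[p]? = some e ∧ p ≤ D} with hR
  have hsub : M.T D = L ∪ R := by
    ext e
    constructor
    · rintro ⟨i, p, hp, hD | hD⟩
      · exact Or.inl ⟨i, p, hp, hD⟩
      · right
        have hlt : p < (it M.A.et i M.om).length := by
          by_contra hcon
          rw [List.getElem?_eq_none (by omega)] at hp
          simp at hp
        refine ⟨i, (it M.A.et i M.om).length - 1 - p, ?_, by omega⟩
        rw [List.getElem?_reverse (by omega)]
        have : (it M.A.et i M.om).length - 1 - ((it M.A.et i M.om).length - 1 - p) = p := by omega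
        rw [this]; exact hp
    · rintro (⟨i, p, hp, hD⟩ | ⟨i, p, hp, hD⟩)
      · exact ⟨i, p, hp, Or.inl hD⟩
      · have hlt : p < (it M.A.et i M.om).length := by
          by_contra hcon
          rw [List.getElem?_eq_none (by simpa using hcon)] at hp
          simp at hp
        rw [List.getElem?_reverse (by omega)] at hp
        exact ⟨i, _, hp, Or.inr (by omega)⟩
  have hLc : L.ncard ≤ Fintype.card α ^ (D + 2) := by
    refine le_trans (se2_ncard_le L (fun (s : Σ q : Fin (D + 1), (Fin (q.1 + 1) → α)) e =>
      ∃ i, (it M.A.et i M.om)[s.1.1]? = some e ∧ List.ofFn s.2 = (it h i w).take (s.1.1 + 1))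
      ?_ ?_) (se2_card_words h2 D)
    · rintro s e e' ⟨i, h1, h3⟩ ⟨i', h1', h3'⟩
      exact M.eq_of_prefix hne h1 h1' (h3.symm.trans h3')
    · rintro e ⟨i, p, hp, hD⟩
      have hlt : p < (it M.A.et i M.om).length := by
        by_contra hcon
        rw [List.getElem?_eq_none (by omega)] at hp
        simp at hp
      rw [M.length_om] at hlt
      obtain ⟨s, hs1, hs2⟩ := se2_exists_fun hD hlt
      refine ⟨s, i, ?_, ?_⟩
      · rw [hs1]; exact hp
      · exact hs2.trans (by rw [hs1])
  have hRc : R.ncard ≤ Fintype.card α ^ (D + 2) := by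
    refine le_trans (se2_ncard_le R (fun (s : Σ q : Fin (D + 1), (Fin (q.1 + 1) → α)) e =>
      ∃ i, (it M.A.et i M.om).reverse[s.1.1]? = some e ∧
        List.ofFn s.2 = (it h i w).reverse.take (s.1.1 + 1))
      ?_ ?_) (se2_card_words h2 D)
    · rintro s e e' ⟨i, h1, h3⟩ ⟨i', h1', h3'⟩
      exact M.eq_of_suffix hne h1 h1' (h3.symm.trans h3')
    · rintro e ⟨i, p, hp, hD⟩
      have hlt : p < (it M.A.et i M.om).length := by
        by_contra hcon
        rw [List.getElem?_eq_none (by simpa using hcon)] at hp
        simp at hp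
      rw [M.length_om] at hlt
      obtain ⟨s, hs1, hs2⟩ := se2_exists_fun (l := (it h i w).reverse) hD (by simpa using hlt)
      refine ⟨s, i, ?_, ?_⟩
      · rw [hs1]; exact hp
      · exact hs2.trans (by rw [hs1])
  rw [hsub]
  calc (L ∪ R).ncard ≤ L.ncard + R.ncard := Set.ncard_union_le L R
    _ ≤ Fintype.card α ^ (D + 2) + Fintype.card α ^ (D + 2) := Nat.add_le_add hLc hRc
    _ = 2 * Fintype.card α ^ (D + 2) := by ring

end D0L.VS
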