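import Pool.Agent.H.MP_374efc_lc.Fr.Tv2

/-!
# MP_374efc_lc, free case: tile words over the same letters: in between

Paper proof: /team-store/h43_374efc_L3.md
-/

set_option autoImplicit false

namespace D0L.TS

variable {α P T : Type} (S : TS α P T)

/-- The token of an element of a product of tokens. -/
theorem ta1_dec {z : List T} : ∀ {A B : List P} {x : P}, app S.tk z = A ++ x :: B →
    ∃ z1 t z2 u v, z = z1 ++ t :: z2 ∧ S.tk t = u ++ x :: v ∧ A = app S.tk z1 ++ u ∧
      B = v ++ app S.tk z2 := by
  induction z with
  | nil =>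
    intro A B x h
    rw [app_nil] at h
    cases A <;> cases h
  | cons t z ih =>
    intro A B x h
    rw [app_cons] at h
    rcases List.append_eq_append_iff.1 h with ⟨A', hA, hB⟩ | ⟨C, hA, hB⟩
    · -- `A = tk t ++ A'`, `app tk z = A' ++ x :: B`
      obtain ⟨z1, t', z2, u, v, h1, h2, h3, h4⟩ := ih hB
      refine ⟨t :: z1, t', z2, u, v, ?_, h2, ?_, h4⟩
      · rw [h1, List.cons_append]
      · rw [hA, h3, app_cons, List.append_assoc]
    · -- `tk t = A ++ C`, `x :: B = C ++ app tk z`
      cases C with
      | nil =>
        rw [List.nil_append] at hB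
        obtain ⟨z1, t', z2, u, v, h1, h2, h3, h4⟩ := ih (A := []) (B := B) (x := x)
          (by rw [List.nil_append, ← hB])
        refine ⟨t :: z1, t', z2, u, v, ?_, h2, ?_, h4⟩
        · rw [h1, List.cons_append]
        · rw [app_cons, List.append_assoc, ← h3, List.append_nil]
          rw [List.append_nil] at hA
          exact hA.symm
      | cons c C =>
        rw [List.cons_append] at hB
        obtain ⟨rfl, hB2⟩ := List.cons.inj hB
        exact ⟨[], t, z, A, C, rfl, hA, by rw [app_nil, List.nil_append], hB2⟩

theorem ta1_split {α : Type} {L : List α} {q : ℕ} {y : α} (h : L[q]? = some y) :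
    ∃ B, L = L.take q ++ y :: B := by
  obtain ⟨hq, hy⟩ := List.getElem?_eq_some_iff.1 h
  refine ⟨L.drop (q + 1), ?_⟩
  rw [← hy, ← List.drop_eq_getElem_cons hq, List.take_append_drop]

theorem ta1_eq {v : List P} {z z' : List T} {q : ℕ} {y : P}
    (h : (v ++ app S.tk z)[q]? = some y) (h' : (v ++ app S.tk z')[q]? = some y)
    (hp : ((v ++ app S.tk z).take q).map S.pr = ((v ++ app S.tk z').take q).map S.pr) :
    (v ++ app S.tk z).take q = (v ++ app S.tk z').take q := by
  rcases lt_or_ge q v.length with hq | hq
  · rw [List.take_append_of_le_length hq.le, List.take_append_of_le_length hq.le]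
  · obtain ⟨r, rfl⟩ := Nat.exists_eq_add_of_le hq
    rw [List.getElem?_append_right (Nat.le_add_right _ _), Nat.add_sub_cancel_left] at h h'
    rw [List.take_length_add_append, List.take_length_add_append] at hp ⊢
    rw [List.map_append, List.map_append] at hp
    have hp' := List.append_cancel_left hp
    obtain ⟨B, hB⟩ := ta1_split h
    obtain ⟨B', hB'⟩ := ta1_split h'
    obtain ⟨z1, t, z2, u, w, h1, h2, h3, h4⟩ := S.ta1_dec hB
    obtain ⟨z1', t', z2', u', w', h1', h2', h3', h4'⟩ := S.ta1_dec hB'
    obtain ⟨-, hu, -⟩ := S.uniq y t u w t' u' w' h2 h2'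
    subst hu
    rw [h3, h3'] at hp' ⊢
    rw [List.map_append, List.map_append] at hp'
    have h5 := S.code _ _ (List.append_cancel_right hp')
    rw [h5]

/-- Two tile words over the same letters which agree at `i` and at `j` agree in between.
Proof.  In a tile word an element `x` of `tk t = u ++ x :: x' :: v` is followed by `x'`, and the last element of a token is followed by a token
start (if by anything) (`V <:+: app tk z`, induction on `z`).  Let `i < j`, `V[i] = V'[i] = x`.  Go to the right from `i` in both words until the token of `x` ends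
(at `i' - 1`) or `j` is reached: the words agree, and `V[i'], V'[i']` are token starts.  Go to the left from `j` until the token of `V[j]` starts
(at `j'`).  If `i' ≤ j'` then `V[i', j')` and `V'[i', j')` are products of tokens (`seg_get`) over the same letters: equal by `code`. -/
theorem agree_between {V V' : List P} (hV : S.Tile V) (hV' : S.Tile V')
    (hp : V.map S.pr = V'.map S.pr) {i j : ℕ} (hi : V[i]? = V'[i]?) (hj : V[j]? = V'[j]?)
    (hjl : j < V.length) {s : ℕ} (his : i ≤ s) (hsj : s ≤ j) : V[s]? = V'[s]? := by
  rcases eq_or_lt_of_le his with rfl | his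
  · exact hi
  rcases eq_or_lt_of_le hsj with rfl | hsj
  · exact hj
  have hlen : V.length = V'.length := by
    have := congrArg List.length hp
    simpa using this
  -- the elements
  obtain ⟨x, hx⟩ : ∃ x, V[i]? = some x := ⟨_, List.getElem?_eq_getElem (by omega)⟩
  obtain ⟨y, hy⟩ : ∃ y, V[j]? = some y := ⟨_, List.getElem?_eq_getElem hjl⟩
  have hx' : V'[i]? = some x := by rw [← hi, hx]
  have hy' : V'[j]? = some y := by rw [← hj, hy]
  obtain ⟨z, C, D, hz⟩ := hV
  obtain ⟨z', C', D', hz'⟩ := hV'
  have key : ∀ {V : List P} {z : List T} {C D : List P}, C ++ V ++ D = app S.tk z →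
      V[i]? = some x → ∃ t u v z2, S.tk t = u ++ x :: v ∧
        V.drop (i + 1) ++ D = v ++ app S.tk z2 := by
    intro V z C D hz hx
    obtain ⟨hi, hx2⟩ := List.getElem?_eq_some_iff.1 hx
    have h1 : V = V.take i ++ x :: V.drop (i + 1) := by
      rw [← hx2, ← List.drop_eq_getElem_cons hi, List.take_append_drop]
    have h2 : app S.tk z = (C ++ V.take i) ++ x :: (V.drop (i + 1) ++ D) := by
      rw [← hz]
      conv_lhs => rw [h1]
      simp
    obtain ⟨z1, t, z2, u, v, -, h3, -, h4⟩ := S.ta1_dec h2
    exact ⟨t, u, v, z2, h3, h4⟩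
  obtain ⟨t, u, v, z2, h1, h2⟩ := key hz hx
  obtain ⟨t', u', v', z2', h1', h2'⟩ := key hz' hx'
  obtain ⟨-, -, hv⟩ := S.uniq x t u v t' u' v' h1 h1'
  subst hv
  -- positions after `i`
  have get : ∀ {V D : List P} {n : ℕ}, n < V.length → i < n →
      (V.drop (i + 1) ++ D)[n - (i + 1)]? = V[n]? := by
    intro V D n hn hin
    rw [List.getElem?_append_left (by rw [List.length_drop]; omega), List.getElem?_drop]
    congr 1
    omega
  have hij : i < j := his.trans hsj
  have h3 := get (D := D) hjl hij
  have h3' := get (V := V') (D := D') (n := j) (by omega) hij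
  rw [h2, hy] at h3
  rw [h2', hy'] at h3'
  have tk : ∀ {V D : List P}, j ≤ V.length →
      ((V.drop (i + 1) ++ D).take (j - (i + 1))).map S.pr =
        ((V.map S.pr).drop (i + 1)).take (j - (i + 1)) := by
    intro V D hj
    rw [List.take_append_of_le_length (by rw [List.length_drop]; omega), List.map_take,
      List.map_drop]
  have h4 := tk (D := D) hjl.le
  have h4' := tk (V := V') (D := D') (by omega)
  rw [h2] at h4
  rw [h2', ← hp, ← h4] at h4'
  have h5 := S.ta1_eq h3 h3' h4'.symm
  have h6 := get (D := D) (hsj.trans hjl) his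
  have h6' := get (V := V') (D := D') (n := s) (by omega) his
  rw [← h6, ← h6', h2, h2']
  have h7 : s - (i + 1) < j - (i + 1) := by omega
  have h8 := congrArg (fun L : List P => L[s - (i + 1)]?) h5
  simp only [List.getElem?_take_of_lt h7] at h8
  exact h8

end D0L.TS
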