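import Pool.Agent.H.MP_374efc_lc.Fr.Ta1

/-!
# MP_374efc_lc, free case: tile words over the same letters: from a token start

Paper proof: /team-store/h43_374efc_L3.md
-/

set_option autoImplicit false

namespace D0L.TS

variable {α P T : Type} (S : TS α P T)

theorem ta2_pos (z : List T) : ∀ {A B : List P} {y : P}, app S.tk z = A ++ y :: B →
    ∃ z1 t u v, A = app S.tk z1 ++ u ∧ S.tk t = u ++ y :: v := by
  induction z with
  | nil =>
    intro A B y h1
    rw [app_nil] at h1
    have h2 := congrArg List.length h1
    simp at h2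
  | cons t z ih =>
    intro A B y h1
    rw [app_cons] at h1
    rcases List.append_eq_append_iff.1 h1 with ⟨A', h2, h3⟩ | ⟨C, h2, h3⟩
    · obtain ⟨z1, t1, u, v, h4, h5⟩ := ih h3
      exact ⟨t :: z1, t1, u, v, by rw [app_cons, h2, h4, List.append_assoc], h5⟩
    · cases C with
      | nil =>
        have h6 : app S.tk z = [] ++ y :: B := by
          rw [List.nil_append] at h3
          rw [← h3, List.nil_append]
        obtain ⟨z1, t1, u, v, h4, h5⟩ := ih h6
        refine ⟨t :: z1, t1, u, v, ?_, h5⟩
        rw [app_cons, List.append_assoc, ← h4, List.append_nil, h2, List.append_nil]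
      | cons c C =>
        have h6 : y = c ∧ B = C ++ app S.tk z := by simpa using h3
        obtain ⟨rfl, _⟩ := h6
        exact ⟨[], t, A, C, by rw [app_nil, List.nil_append], h2⟩

theorem ta2_take {V : List P} (hV : S.Tile V) {x y : P} (hx : V[0]? = some x) (sx : S.St x)
    {j : ℕ} (hy : V[j]? = some y) :
    ∃ z1 t u v, V.take j = app S.tk z1 ++ u ∧ S.tk t = u ++ y :: v := by
  obtain ⟨z, s, e, h1⟩ := hV
  obtain ⟨hl, hg⟩ := List.getElem?_eq_some_iff.1 hx
  have h2 : V = x :: V.drop 1 := by
    have h3 := List.drop_eq_getElem_cons hl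
    rw [List.drop_zero, hg] at h3
    exact h3
  have h3 : app S.tk z = s ++ x :: (V.drop 1 ++ e) := by
    rw [← h1]
    conv_lhs => rw [h2]
    simp
  obtain ⟨z1, z2, _, _, h4⟩ := S.boundary h3 sx
  have h5 : app S.tk z2 = V ++ e := by
    rw [← h4]
    conv_rhs => rw [h2]
    rfl
  obtain ⟨hl', hg'⟩ := List.getElem?_eq_some_iff.1 hy
  have h6 : V = V.take j ++ y :: V.drop (j + 1) := by
    rw [← hg', ← List.drop_eq_getElem_cons hl', List.take_append_drop]
  have h7 : app S.tk z2 = V.take j ++ y :: (V.drop (j + 1) ++ e) := by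
    rw [h5]
    conv_lhs => rw [h6]
    simp
  exact S.ta2_pos z2 h7

/-- Two tile words over the same letters, both beginning with a token start, which agree at `j`, agree on `[0, j]`.
Proof: let `j'` be the start of the token of `V[j]` (the same in both, or the token begins before `0`, impossible); `V[0, j')`, `V'[0, j')` are products of tokens
over the same letters. -/
theorem agree_start {V V' : List P} (hV : S.Tile V) (hV' : S.Tile V')
    (hp : V.map S.pr = V'.map S.pr) {x x' : P} (hx : V[0]? = some x) (hx' : V'[0]? = some x')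
    (sx : S.St x) (sx' : S.St x') {j : ℕ} (hj : V[j]? = V'[j]?) (hjl : j < V.length) {s : ℕ}
    (hsj : s ≤ j) : V[s]? = V'[s]? := by
  obtain ⟨y, hy⟩ : ∃ y, V[j]? = some y := ⟨V[j], List.getElem?_eq_getElem hjl⟩
  have hy' : V'[j]? = some y := by rw [← hj, hy]
  have hlen : V.length = V'.length := by
    have h1 := congrArg List.length hp
    simpa using h1
  obtain ⟨z1, t1, u1, v1, h1, h2⟩ := S.ta2_take hV hx sx hy
  obtain ⟨z2, t2, u2, v2, h3, h4⟩ := S.ta2_take hV' hx' sx' hy'
  obtain ⟨_, h5, _⟩ := S.uniq y t1 u1 v1 t2 u2 v2 h2 h4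
  subst h5
  have h6 : (V.take j).map S.pr = (V'.take j).map S.pr := by
    rw [List.map_take, List.map_take, hp]
  have h7 : (app S.tk z1).map S.pr = (app S.tk z2).map S.pr := by
    rw [h1, h3, List.map_append, List.map_append] at h6
    exact List.append_cancel_right h6
  have h8 : V.take j = V'.take j := by
    rw [h1, h3, S.code z1 z2 h7]
  rcases Nat.eq_or_lt_of_le hsj with h9 | h9
  · rw [h9]
    exact hj
  · have h10 : (V.take j)[s]? = (V'.take j)[s]? := by rw [h8]
    rwa [List.getElem?_take_of_lt h9, List.getElem?_take_of_lt h9] at h10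

/-- Mirror image of `agree_start` (apply it to `S.rev`). -/
theorem agree_end {V V' : List P} (hV : S.Tile V) (hV' : S.Tile V')
    (hp : V.map S.pr = V'.map S.pr) {x x' : P} (hx : V[V.length - 1]? = some x)
    (hx' : V'[V.length - 1]? = some x') (sx : S.En x) (sx' : S.En x') {j : ℕ}
    (hj : V[j]? = V'[j]?) (hjl : j < V.length) {s : ℕ} (hjs : j ≤ s) : V[s]? = V'[s]? := by
  have hlen : V.length = V'.length := by
    have h1 := congrArg List.length hp
    simpa using h1
  rcases Nat.lt_or_ge s V.length with hs | hs
  · have a1 : S.rev.Tile V.reverse := S.rev_tile.2 hV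
    have a2 : S.rev.Tile V'.reverse := S.rev_tile.2 hV'
    have a3 : V.reverse.map S.rev.pr = V'.reverse.map S.rev.pr := by
      change V.reverse.map S.pr = V'.reverse.map S.pr
      rw [List.map_reverse, List.map_reverse, hp]
    have b1 : ∀ i, i < V.length → V.reverse[V.length - 1 - i]? = V[i]? := by
      intro i hi
      rw [List.getElem?_reverse (by omega)]
      congr 1
      omega
    have b2 : ∀ i, i < V.length → V'.reverse[V.length - 1 - i]? = V'[i]? := by
      intro i hi
      rw [List.getElem?_reverse (by omega)]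
      congr 1
      omega
    have a4 : V.reverse[0]? = some x := by
      rw [← hx, ← b1 (V.length - 1) (by omega)]
      congr 1
      omega
    have a5 : V'.reverse[0]? = some x' := by
      rw [← hx', ← b2 (V.length - 1) (by omega)]
      congr 1
      omega
    have a6 : V.reverse[V.length - 1 - j]? = V'.reverse[V.length - 1 - j]? := by
      rw [b1 j hjl, b2 j hjl, hj]
    have a7 := S.rev.agree_start a1 a2 a3 a4 a5 (S.rev_st.2 sx) (S.rev_st.2 sx')
      (j := V.length - 1 - j) a6 (by rw [List.length_reverse]; omega)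
      (s := V.length - 1 - s) (by omega)
    rwa [b1 s hs, b2 s hs] at a7
  · rw [List.getElem?_eq_none hs, List.getElem?_eq_none (by omega)]

end D0L.TS
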