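import Pool.Agent.H.MP_374efc_lc.Fr.TS

/-!
# MP_374efc_lc, free case: basic facts on lifts

Paper proof: /team-store/h43_374efc_L3.md
-/

set_option autoImplicit false

namespace D0L

/-- The letter `J` of the block of the `i`-th letter.
Proof: `x = x.take i ++ a :: x.drop (i+1)`, `it_append`. -/
theorem it_get {α : Type} (h : α → List α) (k : ℕ) {x : List α} {i : ℕ} {a : α} (hi : x[i]? = some a)
    {J : ℕ} (hJ : J < (it h k [a]).length) :
    (it h k x)[(it h k (x.take i)).length + J]? = (it h k [a])[J]? := by
  obtain ⟨hlt, hget⟩ := List.getElem?_eq_some_iff.1 hi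
  have hx : x.take i ++ a :: x.drop (i + 1) = x := by
    rw [← hget, ← List.drop_eq_getElem_cons hlt, List.take_append_drop]
  have e : it h k x = it h k (x.take i) ++ (it h k [a] ++ it h k (x.drop (i + 1))) := by
    conv_lhs => rw [← hx]
    rw [it_append, ← it_append h k [a]]
    rfl
  rw [e, List.getElem?_append_right (by omega), Nat.add_sub_cancel_left,
    List.getElem?_append_left hJ]

/-- Every position of `it h k x` is in the block of some letter of `x`.
Proof: induction on `x`. -/
theorem it_get_inv {α : Type} (h : α → List α) (k : ℕ) {x : List α} {q : ℕ}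
    (hq : q < (it h k x).length) :
    ∃ i a J, x[i]? = some a ∧ J < (it h k [a]).length ∧ q = (it h k (x.take i)).length + J := by
  induction x generalizing q with
  | nil => rw [it_nil] at hq; simp at hq
  | cons b x ih =>
    have e : it h k (b :: x) = it h k [b] ++ it h k x := by
      rw [← it_append h k [b]]
      rfl
    rw [e, List.length_append] at hq
    rcases Nat.lt_or_ge q (it h k [b]).length with h1 | h1
    · exact ⟨0, b, q, by simp, h1, by simp [it_nil]⟩
    · obtain ⟨i, a, J, h2, h3, h4⟩ := ih (q := q - (it h k [b]).length) (by omega)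
      refine ⟨i + 1, a, J, by simpa using h2, h3, ?_⟩
      have e2 : it h k ((b :: x).take (i + 1)) = it h k [b] ++ it h k (x.take i) := by
        rw [List.take_succ_cons, ← it_append h k [b]]
        rfl
      rw [e2, List.length_append]
      omega

theorem tb1_app_rev {α β : Type} (h : α → List β) (x : List α) :
    app (rev h) x.reverse = (app h x).reverse := by
  induction x with
  | nil => rfl
  | cons a x ih =>
    rw [List.reverse_cons, app_append, ih, app_singleton, app_cons, List.reverse_append]
    rfl

/-- `it` of the reversed morphism. -/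
theorem tb1_it_rev {α : Type} (h : α → List α) (k : ℕ) (x : List α) :
    it (rev h) k x.reverse = (it h k x).reverse := by
  induction k with
  | zero => rfl
  | succ k ih => rw [it_succ, it_succ, ih, tb1_app_rev]

namespace TS

variable {α P T : Type} (S : TS α P T)

theorem tb1_map_app (V : List P) : (app S.hh V).map S.pr = app S.h (V.map S.pr) := by
  induction V with
  | nil => rfl
  | cons e V ih =>
    rw [app_cons, List.map_append, ih, S.pr_hh, List.map_cons, app_cons]

theorem map_it (k : ℕ) (V : List P) : (it S.hh k V).map S.pr = it S.h k (V.map S.pr) := by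
  induction k with
  | zero => rfl
  | succ k ih => rw [it_succ, it_succ, tb1_map_app, ih]

theorem length_it (k : ℕ) (V : List P) : (it S.hh k V).length = (it S.h k (V.map S.pr)).length := by
  rw [← map_it, List.length_map]

theorem tb1_app_tk (z : List T) : app S.hh (app S.tk z) = app S.tk (app S.H z) := by
  rw [app_app, app_app]
  congr 1
  funext t
  exact S.hh_tk t

theorem it_tk (k : ℕ) (z : List T) : it S.hh k (app S.tk z) = app S.tk (it S.H k z) := by
  induction k with
  | zero => rfl
  | succ k ih => rw [it_succ, it_succ, ih, tb1_app_tk]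

/-- `h^k` of a product of tokens is a product of tokens. -/
theorem it_W (k : ℕ) (z : List T) : it S.h k (S.W z) = S.W (it S.H k z) := by
  unfold W
  rw [← map_it, it_tk]

theorem Tile.it {V : List P} (hV : S.Tile V) (k : ℕ) : S.Tile (it S.hh k V) := by
  obtain ⟨z, s, t, hz⟩ := hV
  refine ⟨D0L.it S.H k z, D0L.it S.hh k s, D0L.it S.hh k t, ?_⟩
  rw [← it_append, ← it_append, hz, it_tk]

theorem tile_it (k : ℕ) (e : P) : S.Tile (it S.hh k [e]) := by
  obtain ⟨t, ht⟩ := S.cov e
  obtain ⟨u, v, huv⟩ := List.append_of_mem ht
  have h1 : S.Tile [e] := ⟨[t], u, v, by rw [app_singleton, huv]; simp⟩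
  exact Tile.it S h1 k

end TS

end D0L
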