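import Pool.Agent.H.MP_374efc_lc.Fr.Tb3

/-!
# MP_374efc_lc, free case: the chain of switches

Paper proof: /team-store/h43_374efc_L3.md
-/

set_option autoImplicit false

namespace D0L.TS

variable {α P T : Type} (S : TS α P T)

theorem tc1_split {β : Type} (U : List β) {p q r : ℕ} (hpq : p ≤ q) (hqr : q ≤ r) :
    (U.drop p).take (r - p) = (U.drop p).take (q - p) ++ (U.drop q).take (r - q) := by
  have e1 : r - p = (q - p) + (r - q) := by omega
  have e2 : U.drop q = (U.drop p).drop (q - p) := by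
    rw [List.drop_drop]
    congr 1
    omega
  rw [e1, List.take_add, e2]

theorem tc1_map {U : List α} {V : List P} (hV : V.map S.pr = U) {z : List T} {p n : ℕ}
    (h : (V.drop p).take n = app S.tk z) : (U.drop p).take n = S.W z := by
  rw [← hV, ← List.map_drop, ← List.map_take, h]
  rfl

theorem tc1_W_append (z z' : List T) : S.W (z ++ z') = S.W z ++ S.W z' := by
  unfold W
  rw [app_append, List.map_append]

theorem tc1_cons {V : List P} {p q : ℕ} {e : P} {i : T} {w : List P} (hp : V[p]? = some e)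
    (hi : S.tk i = e :: w) (hpq : p < q) {z : List T} (hz : (V.drop p).take (q - p) = app S.tk z) :
    ∃ z', z = i :: z' := by
  have h0 : ((V.drop p).take (q - p))[0]? = some e := by
    rw [List.getElem?_take, if_pos (by omega), List.getElem?_drop]
    simpa using hp
  rw [hz] at h0
  cases z with
  | nil => simp [app_nil] at h0
  | cons j z' =>
    refine ⟨z', ?_⟩
    rw [app_cons] at h0
    cases hj : S.tk j with
    | nil => exact absurd hj (S.tkne j)
    | cons y v =>
      rw [hj] at h0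
      simp only [List.cons_append, List.getElem?_cons_zero, Option.some.injEq] at h0
      subst h0
      have := S.uniq y i [] w j [] v (by simpa using hi) (by simpa using hj)
      rw [this.1]

/-- The claim. -/
theorem tc1_claim {ι : Type} {U : List α} {V : ι → List P}
    (hV : ∀ x, (V x).map S.pr = U) (hT : ∀ x, S.Tile (V x)) {N : ℕ} {X : ℕ → ι} {a b : ℕ → ℕ}
    (hab : ∀ s < N, a s ≤ b s) (hba : ∀ s, s + 1 < N → b s < a (s + 1))
    (ha : ∀ s < N, ∃ e, (V (X s))[a s]? = some e ∧ S.St e)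
    (hb : ∀ s < N, ∃ e, (V (X (s + 1)))[b s]? = some e ∧ S.St e)
    (hW : ∀ s < N, ∃ z, (U.drop (a s)).take (b s - a s) = S.W z)
    {s : ℕ} {e : P} {i : T} {w : List P} (he : (V (X (s + 1)))[b s]? = some e)
    (hi : S.tk i = e :: w) {zs : List T} (hzs : (U.drop (a s)).take (b s - a s) = S.W zs) (d : ℕ) :
    s + 2 + d ≤ N → a s ≤ b (s + 1 + d) ∧
      ∃ z, (U.drop (a s)).take (b (s + 1 + d) - a s) = S.W (zs ++ i :: z) := by
  induction d with
  | zero =>
    intro hd
    have h1 : a s ≤ b s := hab s (by omega)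
    have h2 : b s < a (s + 1) := hba s (by omega)
    have h3 : a (s + 1) ≤ b (s + 1) := hab (s + 1) (by omega)
    refine ⟨by rw [Nat.add_zero]; omega, ?_⟩
    obtain ⟨e1, he1, hs1⟩ := ha (s + 1) (by omega)
    obtain ⟨z1, hz1⟩ := S.seg_get (hT (X (s + 1))) he he1 ⟨i, w, hi⟩ hs1 h2.le
    obtain ⟨z2, rfl⟩ := S.tc1_cons he hi h2 hz1
    obtain ⟨z3, hz3⟩ := hW (s + 1) (by omega)
    refine ⟨z2 ++ z3, ?_⟩
    rw [Nat.add_zero, tc1_split U h1 (h2.le.trans h3), tc1_split U h2.le h3, hzs,
      S.tc1_map (hV _) hz1, hz3, ← S.tc1_W_append, ← S.tc1_W_append]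
    simp
  | succ d ih =>
    intro hd
    obtain ⟨h0, z, hz⟩ := ih (by omega)
    have h2 : b (s + 1 + d) < a (s + 1 + d + 1) := hba _ (by omega)
    have h3 : a (s + 1 + d + 1) ≤ b (s + 1 + d + 1) := hab _ (by omega)
    refine ⟨by rw [← Nat.add_assoc]; omega, ?_⟩
    obtain ⟨e0, he0, hs0⟩ := hb (s + 1 + d) (by omega)
    obtain ⟨e1, he1, hs1⟩ := ha (s + 1 + d + 1) (by omega)
    obtain ⟨z1, hz1⟩ := S.seg_get (hT (X (s + 1 + d + 1))) he0 he1 hs0 hs1 h2.le
    obtain ⟨z3, hz3⟩ := hW (s + 1 + d + 1) (by omega)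
    refine ⟨z ++ (z1 ++ z3), ?_⟩
    rw [← Nat.add_assoc, tc1_split U h0 (h2.le.trans h3), tc1_split U h2.le h3, hz,
      S.tc1_map (hV _) hz1, hz3, ← S.tc1_W_append, ← S.tc1_W_append]
    simp

/-- No return. -/
theorem tc1_ret {ι : Type} {U : List α} {V : ι → List P}
    (hV : ∀ x, (V x).map S.pr = U) (hT : ∀ x, S.Tile (V x))
    (hne : ∀ x y, x ≠ y → ∀ i, i < U.length → (V x)[i]? ≠ (V y)[i]?)
    {N : ℕ} {X : ℕ → ι} {a b : ℕ → ℕ}
    (hX : ∀ s < N, X (s + 1) ≠ X s)
    (hab : ∀ s < N, a s ≤ b s) (hba : ∀ s, s + 1 < N → b s < a (s + 1))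
    (ha : ∀ s < N, ∃ e, (V (X s))[a s]? = some e ∧ S.St e)
    (hb : ∀ s < N, ∃ e, (V (X (s + 1)))[b s]? = some e ∧ S.St e)
    (hW : ∀ s < N, ∃ z, (U.drop (a s)).take (b s - a s) = S.W z)
    {s d : ℕ} (hd : s + 2 + d ≤ N) (hst : X s = X (s + 1 + d + 1)) : False := by
  obtain ⟨e, he, i, w, hi⟩ := hb s (by omega)
  obtain ⟨zs, hzs⟩ := hW s (by omega)
  obtain ⟨h0, z, hz⟩ := S.tc1_claim hV hT hab hba ha hb hW he hi hzs d hd
  obtain ⟨e1, he1, hs1⟩ := ha s (by omega)
  obtain ⟨e2, he2, hs2⟩ := hb (s + 1 + d) (by omega)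
  rw [← hst] at he2
  obtain ⟨z', hz'⟩ := S.seg_get (hT (X s)) he1 he2 hs1 hs2 h0
  have hzz : S.W z' = S.W (zs ++ i :: z) := (S.tc1_map (hV _) hz').symm.trans hz
  have := S.W_inj hzz
  subst this
  have hlU : b s < U.length := by
    rw [← hV (X (s + 1)), List.length_map]
    exact (List.getElem?_eq_some_iff.1 he).1
  have h1 : a s ≤ b s := hab s (by omega)
  have hlen : (app S.tk zs).length = b s - a s := by
    have := congrArg List.length hzs
    rw [List.length_take, List.length_drop] at this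
    unfold W at this
    rw [List.length_map] at this
    omega
  have hbb : b s - a s < b (s + 1 + d) - a s := by
    have h5 := congrArg List.length hz'
    rw [List.length_take, app_append, app_cons, hi, List.length_append, List.length_append, hlen,
      List.length_cons] at h5
    omega
  have hget : (V (X s))[b s]? = some e := by
    have h6 : ((V (X s)).drop (a s))[b s - a s]? = some e := by
      have h7 : (((V (X s)).drop (a s)).take (b (s + 1 + d) - a s))[b s - a s]? = some e := by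
        rw [hz', app_append, List.getElem?_append_right (by omega), hlen, Nat.sub_self, app_cons, hi]
        rfl
      rw [List.getElem?_take, if_pos hbb] at h7
      exact h7
    rw [List.getElem?_drop] at h6
    rwa [show a s + (b s - a s) = b s from by omega] at h6
  exact hne (X (s + 1)) (X s) (hX s (by omega)) (b s) hlU (he.trans hget.symm)

/-- The chain of switches.  `V x`, `x ∈ ι`, are pairwise everywhere different tile words over the word `U`; in each of `card ι` consecutive windows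
`[L s, L (s+1))` there is from each `V x` a switch to another `V y`.  Contradiction.
Proof.  Choose `x_0`, and recursively `x_(s+1) = y` for window `s` and `x_s` (`s < card ι`), with `v_s ≤ v'_s` in the window.  Two of the `card ι + 1` elements
`x_0, ..` are equal: `x_s = x_t`, `s < t`; as `x_(s+1) ≠ x_s`, `t ≥ s + 2`.
Claim: for all `s + 2 ≤ t` there is `z` with `U[v_s, v'_(t-1)) = W (z_s ++ i :: z)` where `z_s` is the product of the switch `s` and `i` the token of `V x_(s+1)`
which starts at `v'_s`.  Proof of the claim by induction on `t`: `U[v_s, v'_(t-1)) = U[v_s, v'_(t-2)) ++ U[v'_(t-2), v_(t-1)) ++ U[v_(t-1), v'_(t-1))`, the middle part is a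
product of tokens of `V x_(t-1)` (`seg_get`, nonempty because `v'_(t-2) < L (t-1) ≤ v_(t-1)`), the last one a switch; for `t = s + 2` the middle part
`U[v'_s, v_(s+1))` is a nonempty product of tokens beginning with `i`.
On the other hand `v_s` and `v'_(t-1)` are starts of `V x_s` (`= V x_t`), so `U[v_s, v'_(t-1)) = W z'` with `(V x_s)[v_s, v'_(t-1)) = app tk z'` (`seg_get`).  By `W_inj`
`z' = z_s ++ i :: z`.  So at the position `v_s + |W z_s| = v'_s` the word `V x_s` has the first element of `tk i`, which is also the element of `V x_(s+1)` there: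
contradiction to `hne`. -/
theorem chain {ι : Type} [Fintype ι] [Nonempty ι] (U : List α) (V : ι → List P)
    (hV : ∀ x, (V x).map S.pr = U) (hT : ∀ x, S.Tile (V x))
    (hne : ∀ x y, x ≠ y → ∀ i, i < U.length → (V x)[i]? ≠ (V y)[i]?)
    (L : ℕ → ℕ) (hL : ∀ s, L s ≤ L (s + 1)) (hLU : L (Fintype.card ι) ≤ U.length)
    (hw : ∀ s < Fintype.card ι, ∀ x, ∃ y, y ≠ x ∧ ∃ v v' e e', L s ≤ v ∧ v ≤ v' ∧ v' < L (s + 1) ∧
      (V x)[v]? = some e ∧ S.St e ∧ (V y)[v']? = some e' ∧ S.St e' ∧
      ∃ z, (U.drop v).take (v' - v) = S.W z) : False := by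
  classical
  have hw' : ∀ s x, ∃ y v v', s < Fintype.card ι → (y ≠ x ∧ L s ≤ v ∧ v ≤ v' ∧ v' < L (s + 1) ∧
      (∃ e, (V x)[v]? = some e ∧ S.St e) ∧ (∃ e', (V y)[v']? = some e' ∧ S.St e') ∧
      ∃ z, (U.drop v).take (v' - v) = S.W z) := by
    intro s x
    by_cases hs : s < Fintype.card ι
    · obtain ⟨y, hy, v, v', e, e', h1, h2, h3, h4, h5, h6, h7, h8⟩ := hw s hs x
      exact ⟨y, v, v', fun _ => ⟨hy, h1, h2, h3, ⟨e, h4, h5⟩, ⟨e', h6, h7⟩, h8⟩⟩
    · exact ⟨x, 0, 0, fun h => absurd h hs⟩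
  choose f v v' hf using hw'
  let X : ℕ → ι := fun n => Nat.rec (Classical.arbitrary ι) (fun s x => f s x) n
  have hXs : ∀ s, X (s + 1) = f s (X s) := fun s => rfl
  have hX : ∀ s < Fintype.card ι, X (s + 1) ≠ X s := fun s hs => by
    rw [hXs]
    exact (hf s (X s) hs).1
  have key : ∀ s t, s < t → t ≤ Fintype.card ι → X s = X t → False := by
    intro s t hst ht heq
    by_cases h1 : t = s + 1
    · subst h1
      exact hX s (by omega) heq.symm
    · obtain ⟨d, rfl⟩ : ∃ d, t = s + 1 + d + 1 := ⟨t - s - 2, by omega⟩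
      refine S.tc1_ret hV hT hne (N := Fintype.card ι) (X := X) (a := fun s => v s (X s))
        (b := fun s => v' s (X s)) hX (fun s hs => (hf s (X s) hs).2.2.1) ?_
        (fun s hs => (hf s (X s) hs).2.2.2.2.1) (fun s hs => ?_)
        (fun s hs => (hf s (X s) hs).2.2.2.2.2.2) (s := s) (d := d) (by omega) heq
      · intro s hs
        have h2 := (hf s (X s) (by omega)).2.2.2.1
        have h3 := (hf (s + 1) (X (s + 1)) hs).2.1
        exact lt_of_lt_of_le h2 h3
      · rw [hXs]
        exact (hf s (X s) hs).2.2.2.2.2.1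
  have hcard : Fintype.card ι < Fintype.card (Fin (Fintype.card ι + 1)) := by simp
  obtain ⟨s, t, hne', heq⟩ := Fintype.exists_ne_map_eq_of_card_lt
    (fun s : Fin (Fintype.card ι + 1) => X s) hcard
  rcases lt_or_gt_of_ne hne' with h | h
  · exact key s t h (by omega) heq
  · exact key t s h (by omega) heq.symm

end D0L.TS
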