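import Pool.Agent.H.MP_374efc_lc.Fr.Tk3
import Pool.Agent.H.MP_374efc_lc.Fr.Ta2

/-!
# MP_374efc_lc, free case: equivalent elements

Paper proof: /team-store/h43_374efc_L3.md
-/

set_option autoImplicit false

namespace D0L.TS

variable {α P T : Type} [Fintype P] (S : TS α P T)

omit [Fintype P] in
theorem te1_lt {β : Type} {w : List β} {J : ℕ} {b : β} (hb : w[J]? = some b) : J < w.length := by
  by_contra h
  rw [List.getElem?_eq_none (not_lt.1 h)] at hb
  cases hb

theorem Eqv.refl (e : P) : S.Eqv e e := ⟨rfl, fun _ _ _ => rfl⟩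

theorem Eqv.symm {e f : P} (h1 : S.Eqv e f) : S.Eqv f e :=
  ⟨h1.1.symm, fun k J hJ => (h1.2 k J (h1.1 ▸ hJ)).symm⟩

theorem Eqv.trans {e f g : P} (h1 : S.Eqv e f) (h2 : S.Eqv f g) : S.Eqv e g :=
  ⟨h1.1.trans h2.1, fun k J hJ => (h1.2 k J hJ).trans (h2.2 k J (h1.1 ▸ hJ))⟩

variable [Nonempty α] [Fintype T]

/-- Proof: `K1`. -/
theorem eqv_of_rc {e f : P} (hp : S.pr e = S.pr f) {k J : ℕ} (hJ : S.RC (S.pr e) k J)
    (h1 : (it S.hh k [e])[J]? = (it S.hh k [f])[J]?) : S.Eqv e f :=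
  ⟨hp, fun _ _ hJ' => K1 S hp hJ hJ' h1⟩

/-- every letter has a position of minimal rank -/
theorem te1_rc (b : α) : ∃ l J, S.RC b l J := by
  obtain ⟨a, k, J, hr⟩ := exists_rc S
  obtain ⟨q, hq⟩ := reach_letter S b a
  obtain ⟨J1, hJ1, h2⟩ := List.mem_iff_getElem.1 hq
  exact ⟨_, _, RC.pre S (List.getElem?_eq_some_iff.2 ⟨hJ1, h2⟩) hr⟩

/-- Elements whose images agree somewhere are equivalent.
Proof: let `b` be the letter at `J`; a position of minimal rank of `b` (`rc_level`, or `MI.exists` and `reach_letter`) composed with `J` has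
minimal rank (`RC.pre`), and the images agree there (`it_add`, `it_get`). -/
theorem eqv_of_get {e f : P} (hp : S.pr e = S.pr f) {k J : ℕ} (hJ : J < (it S.h k [S.pr e]).length)
    (h1 : (it S.hh k [e])[J]? = (it S.hh k [f])[J]?) : S.Eqv e f := by
  obtain ⟨x, hx⟩ := S.tr2_some (e := e) rfl hJ
  have hb : (it S.h k [S.pr e])[J]? = some (it S.h k [S.pr e])[J] := List.getElem?_eq_getElem hJ
  obtain ⟨l, J', hr⟩ := te1_rc S (it S.h k [S.pr e])[J]
  refine eqv_of_rc S hp (RC.pre S hb hr) ?_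
  rw [S.tr2_get (e := e) rfl hx hb hr.1]
  rw [h1] at hx
  rw [S.tr2_get (e := f) hp.symm hx hb hr.1]

/-- `e ~ f` iff the elements at the position `J` of `hh^k(e)`, `hh^k(f)` are equivalent.
Proof: a position `(l, J')` of minimal rank of the letter at `J`, composed with `J`, has minimal rank (`RC.pre`): `eqv_of_rc` and the definition. -/
theorem eqv_get_iff {e f : P} (hp : S.pr e = S.pr f) {k J : ℕ} {x y : P}
    (hx : (it S.hh k [e])[J]? = some x) (hy : (it S.hh k [f])[J]? = some y) :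
    S.Eqv e f ↔ S.Eqv x y := by
  have hJ : J < (it S.h k [S.pr e]).length := by
    rw [← S.tr2_len (e := e) rfl]
    exact te1_lt hx
  have hb : (it S.h k [S.pr e])[J]? = some (it S.h k [S.pr e])[J] := List.getElem?_eq_getElem hJ
  have hxb := S.tr2_pr (e := e) rfl hb hx
  have hyb := S.tr2_pr (e := f) hp.symm hb hy
  constructor
  · intro h1
    refine ⟨hxb.trans hyb.symm, fun l J' hr => ?_⟩
    rw [hxb] at hr
    have h2 := h1.2 _ _ (RC.pre S hb hr)
    rw [S.tr2_get (e := e) rfl hx hb hr.1, S.tr2_get (e := f) hp.symm hy hb hr.1] at h2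
    exact h2
  · intro h1
    obtain ⟨l, J', hr⟩ := te1_rc S (it S.h k [S.pr e])[J]
    refine eqv_of_rc S hp (RC.pre S hb hr) ?_
    rw [S.tr2_get (e := e) rfl hx hb hr.1, S.tr2_get (e := f) hp.symm hy hb hr.1]
    exact h1.2 l J' (by rw [hxb]; exact hr)

end D0L.TS
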