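import Pool.Agent.H.MP_374efc_lc.Fr.Te1

/-!
# MP_374efc_lc, free case: minimal images and classes, agreement of the images

Paper proof: /team-store/h43_374efc_L3.md
-/

set_option autoImplicit false

namespace D0L.TS

variable {α P T : Type} [Fintype P] (S : TS α P T)

variable [Nonempty α] [Fintype T]

/-- Every letter has a position of minimal rank. -/
theorem te2_rc (a : α) : ∃ k J, S.RC a k J := by
  obtain ⟨b, l, J', hr⟩ := S.exists_rc
  obtain ⟨q, hq⟩ := S.reach_letter a b
  obtain ⟨J, hJ⟩ := List.mem_iff_getElem?.1 hq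
  exact ⟨_, _, RC.pre S hJ hr⟩

/-- A minimal image meets every class exactly once. -/
theorem MI.class {a : α} {I : Finset P} (hI : S.MI a I) {e : P} (he : S.pr e = a) :
    ∃ f ∈ I, S.Eqv f e := by
  obtain ⟨k, J, hr⟩ := S.te2_rc a
  obtain ⟨f, hf, hfe⟩ := MI.select S hI hr he
  have hpf : S.pr f = a := MI.pr_eq S hI hf
  refine ⟨f, hf, ?_⟩
  exact eqv_of_rc S (hpf.trans he.symm) (k := k) (J := J) (by rw [hpf]; exact hr) hfe

/-- Proof: an element at a position of minimal rank; `MI.push` injectivity. -/
theorem MI.eq_of_eqv {a : α} {I : Finset P} (hI : S.MI a I) {e f : P} (he : e ∈ I) (hf : f ∈ I)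
    (h1 : S.Eqv e f) : e = f := by
  obtain ⟨k, J, hr⟩ := S.te2_rc a
  have hpe : S.pr e = a := MI.pr_eq S hI he
  have hb : (it S.h k [a])[J]? = some ((it S.h k [a])[J]'hr.1) := List.getElem?_eq_getElem hr.1
  obtain ⟨I', -, -, -, h4⟩ := MI.push S hI hb
  refine h4 e he f hf (h1.2 k J ?_)
  rw [hpe]
  exact hr

theorem te2_len_mono (x : List α) (m n : ℕ) : (it S.h m x).length ≤ (it S.h (n + m) x).length := by
  induction n with
  | zero => rw [Nat.zero_add]
  | succ n ih =>
    refine ih.trans ?_
    rw [show n + 1 + m = (n + m) + 1 from by omega, it_succ]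
    exact length_le_app S.ne _

theorem te2_last {β : Type} (l : List β) (hl : l.length - 1 < l.length) :
    l.take (l.length - 1) ++ [l[l.length - 1]'hl] = l := by
  rw [List.take_append_getElem hl, Nat.sub_add_cancel (by omega), List.take_length]

/-- Equivalent elements have the same images except near the ends.
Proof: `K` of `rc_level`, `G = max |it h K [b]|`; for `k ≥ K` the first and the last block `it h K [b]` of `it h k [pr e]` contain positions of
minimal rank (`RC.pre`), where the images agree; `agree_between`.  For `k < K`: `|it h k [pr e]| ≤ |it h K [pr e]| ≤ G`, nothing to prove. -/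
theorem eqv_agree [Fintype α] : ∃ G, ∀ e f, S.Eqv e f → ∀ k i, G ≤ i →
    i + G < (it S.h k [S.pr e]).length → (it S.hh k [e])[i]? = (it S.hh k [f])[i]? := by
  obtain ⟨K, hK⟩ := S.rc_level
  refine ⟨Finset.univ.sup (fun b => (it S.h K [b]).length), fun e f hef k i hi hiG => ?_⟩
  have hG : ∀ b, (it S.h K [b]).length ≤ Finset.univ.sup (fun b => (it S.h K [b]).length) :=
    fun b => Finset.le_sup (f := fun b => (it S.h K [b]).length) (Finset.mem_univ b)
  generalize Finset.univ.sup (fun b => (it S.h K [b]).length) = G at hi hiG hG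
  rcases Nat.lt_or_ge k K with hk | hk
  · exfalso
    obtain ⟨d, rfl⟩ : ∃ d, K = d + k := ⟨K - k, by omega⟩
    have h1 := S.te2_len_mono [S.pr e] k d
    have h2 := hG (S.pr e)
    omega
  · obtain ⟨m, rfl⟩ : ∃ m, k = K + m := ⟨k - K, by omega⟩
    have hmlen : 0 < (it S.h m [S.pr e]).length := by
      have h1 := S.te2_len_mono [S.pr e] 0 m
      rw [it_zero, List.length_singleton, Nat.add_zero] at h1
      exact h1
    -- the first block
    obtain ⟨J1, h1⟩ := hK ((it S.h m [S.pr e])[0]'hmlen)
    have r1 := RC.pre S (List.getElem?_eq_getElem hmlen) h1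
    -- the last block
    have hl : (it S.h m [S.pr e]).length - 1 < (it S.h m [S.pr e]).length := by omega
    obtain ⟨J2, h2⟩ := hK ((it S.h m [S.pr e])[(it S.h m [S.pr e]).length - 1]'hl)
    have r2 := RC.pre S (List.getElem?_eq_getElem hl) h2
    have a1 := hef.2 _ _ r1
    have a2 := hef.2 _ _ r2
    have hlen : (it S.h (K + m) [S.pr e]).length =
        (it S.h K ((it S.h m [S.pr e]).take ((it S.h m [S.pr e]).length - 1))).length +
          (it S.h K [(it S.h m [S.pr e])[(it S.h m [S.pr e]).length - 1]'hl]).length := by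
      rw [it_add, ← List.length_append, ← it_append, te2_last _ hl]
    have g1 := hG ((it S.h m [S.pr e])[0]'hmlen)
    have g2 := hG ((it S.h m [S.pr e])[(it S.h m [S.pr e]).length - 1]'hl)
    have p1 := h1.1
    have p2 := h2.1
    have p3 := r2.1
    rw [List.take_zero, it_nil, List.length_nil, Nat.zero_add] at a1
    refine S.agree_between (S.tile_it _ _) (S.tile_it _ _) ?_ a1 a2 ?_ ?_ ?_
    · rw [S.map_it, S.map_it, List.map_singleton, List.map_singleton, hef.1]
    · rw [S.length_it, List.map_singleton]
      exact p3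
    · omega
    · omega

end D0L.TS
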