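import Pool.Agent.H.MP_374efc_lc.Fr.Tb3

/-!
# MP_374efc_lc, free case: irreducibility of token systems

Paper proof: /team-store/h43_374efc_L3.md
-/

set_option autoImplicit false

namespace D0L.TS

variable {α P T : Type} (S : TS α P T)

theorem ti1_full {M : ℕ} (hM : ∀ t, (S.tk t).length ≤ M) (z : List T) :
    ∀ s V e : List P, s ++ V ++ e = app S.tk z → 2 * M + 1 ≤ V.length → ∃ t, S.tk t <:+: V := by
  induction z with
  | nil =>
    intro s V e h1 h2
    rw [app_nil] at h1
    have h3 := congrArg List.length h1
    simp only [List.length_append, List.length_nil] at h3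
    omega
  | cons t z ih =>
    intro s V e h1 h2
    rw [app_cons, List.append_assoc] at h1
    rcases List.append_eq_append_iff.1 h1 with ⟨C, h3, h4⟩ | ⟨s', h3, h4⟩
    · have h5 : C.length ≤ M := by
        have h6 := hM t
        rw [h3] at h6
        simp only [List.length_append] at h6
        omega
      rcases List.append_eq_append_iff.1 h4 with ⟨D, h6, h7⟩ | ⟨V', h6, h7⟩
      · exfalso
        have h8 := congrArg List.length h6
        simp only [List.length_append] at h8
        omega
      · have h9 := congrArg List.length h6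
        simp only [List.length_append] at h9
        cases z with
        | nil =>
          exfalso
          rw [app_nil] at h7
          have h8 := congrArg List.length h7
          simp only [List.length_append, List.length_nil] at h8
          omega
        | cons t' z' =>
          rw [app_cons] at h7
          have h10 := hM t'
          rcases List.append_eq_append_iff.1 h7 with ⟨E, h11, _⟩ | ⟨E, h11, _⟩
          · exact ⟨t', C, E, by rw [h6, h11, List.append_assoc]⟩
          · have h12 := congrArg List.length h11
            simp only [List.length_append] at h12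
            omega
    · exact ih s' V e (by rw [h4, List.append_assoc]) h2

/-- Long tile words contain a full token.
Proof: a factor of length `≥ 2 B` of a product of blocks of length `≤ B` (`B = max |tk t| ≥ 1`) contains a full block. -/
theorem long_full [Fintype T] : ∃ L, ∀ V, S.Tile V → L ≤ V.length → ∃ t, S.tk t <:+: V := by
  refine ⟨2 * (Finset.univ.sup fun t => (S.tk t).length) + 1, ?_⟩
  intro V hV hL
  obtain ⟨z, s, e, h1⟩ := hV
  exact S.ti1_full (fun t => Finset.le_sup (f := fun t => (S.tk t).length) (Finset.mem_univ t)) z
    s V e h1 hL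

/-- Every element is reached from every element.
Proof: `|it hh k [e]| = |it h k [pr e]|` is large (`grow`), so it contains a full token `tk t` (`long_full`).  Let `e' ∈ tk t'` (`cov`) and
`t' ∈ it H q [t]` (`irr`).  `it hh q (tk t) = app tk (it H q [t])` contains `tk t'`. -/
theorem reach [Fintype T] (e e' : P) : ∃ q, e' ∈ it S.hh q [e] := by
  obtain ⟨L, hL⟩ := S.long_full
  obtain ⟨K, hK⟩ := S.grow L
  have h1 : L ≤ (it S.hh K [e]).length := by
    rw [S.length_it]
    exact hK K le_rfl (S.pr e)
  obtain ⟨t, s, u, h2⟩ := hL _ (S.tile_it K e) h1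
  obtain ⟨t', ht'⟩ := S.cov e'
  obtain ⟨q, hq⟩ := S.irr t t'
  refine ⟨q + K, ?_⟩
  rw [it_add, ← h2, it_append, it_append, List.mem_append, List.mem_append]
  refine Or.inl (Or.inr ?_)
  have h3 := S.it_tk q [t]
  rw [app_singleton] at h3
  rw [h3]
  exact mem_app.2 ⟨t', hq, ht'⟩

theorem reach_bdd [Fintype T] [Fintype P] : ∃ Q, ∀ e e', ∃ q ≤ Q, e' ∈ it S.hh q [e] := by
  choose f hf using S.reach
  refine ⟨Finset.univ.sup fun x : P × P => f x.1 x.2, ?_⟩
  intro e e'
  exact ⟨f e e', Finset.le_sup (f := fun x : P × P => f x.1 x.2) (Finset.mem_univ (e, e')),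
    hf e e'⟩

/-- Proof: `reach` for elements over `a` and `b` (`sur`), then project (`map_it`). -/
theorem reach_letter [Fintype T] (a b : α) : ∃ q, b ∈ it S.h q [a] := by
  obtain ⟨e, rfl⟩ := S.sur a
  obtain ⟨e', rfl⟩ := S.sur b
  obtain ⟨q, hq⟩ := S.reach e e'
  refine ⟨q, ?_⟩
  have h1 := S.map_it q [e]
  rw [List.map_singleton] at h1
  rw [← h1]
  exact List.mem_map_of_mem hq

end D0L.TS
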