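import Pool.Agent.H.MP_374efc_lc.Fr.Tv1

/-!
# MP_374efc_lc, free case: the reversed token system: ranks and classes

Paper proof: /team-store/h43_374efc_L3.md
-/

set_option autoImplicit false

namespace D0L.TS

variable {α P T : Type} (S : TS α P T)

theorem tv2_it_h (a : α) (k : ℕ) : it S.rev.h k [a] = (it S.h k [a]).reverse := by
  have h1 := S.rev_it_h k [a]
  rwa [List.reverse_singleton] at h1

theorem tv2_it_hh (e : P) (k : ℕ) : it S.rev.hh k [e] = (it S.hh k [e]).reverse := by
  have h1 := S.rev_it_hh k [e]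
  rwa [List.reverse_singleton] at h1

theorem tv2_len (a : α) (k : ℕ) : (it S.rev.h k [a]).length = (it S.h k [a]).length := by
  rw [tv2_it_h, List.length_reverse]

theorem tv2_h_get {a : α} {k J : ℕ} (hJ : J < (it S.h k [a]).length) :
    (it S.rev.h k [a])[(it S.h k [a]).length - 1 - J]? = (it S.h k [a])[J]? := by
  rw [tv2_it_h, List.getElem?_reverse (by omega)]
  congr 1
  omega

theorem tv2_hh_get {e : P} {a : α} (he : S.pr e = a) {k J : ℕ}
    (hJ : J < (it S.h k [a]).length) :
    (it S.rev.hh k [e])[(it S.h k [a]).length - 1 - J]? = (it S.hh k [e])[J]? := by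
  have h1 : (it S.hh k [e]).length = (it S.h k [a]).length := by
    rw [S.length_it, List.map_singleton, he]
  rw [← h1] at hJ ⊢
  exact S.rev_get hJ

variable [Fintype P]

theorem rev_rk {a : α} {k J : ℕ} (hJ : J < (it S.h k [a]).length) :
    S.rev.rk a k ((it S.h k [a]).length - 1 - J) = S.rk a k J := by
  classical
  unfold TS.rk
  refine congrArg Finset.card ?_
  refine Finset.image_congr ?_
  intro e he
  have he' : S.pr e = a := (Finset.mem_filter.1 (Finset.mem_coe.1 he)).2
  exact S.tv2_hh_get he' hJ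

theorem rev_c : S.rev.c = S.c := by
  unfold TS.c
  refine congrArg sInf (Set.ext fun n => ?_)
  constructor
  · rintro ⟨a, k, J, hJ, hn⟩
    rw [tv2_len] at hJ
    have h1 : (it S.h k [a]).length - 1 - J < (it S.h k [a]).length := by omega
    refine ⟨a, k, _, h1, ?_⟩
    rw [← S.rev_rk h1, ← hn]
    congr 1
    omega
  · rintro ⟨a, k, J, hJ, hn⟩
    refine ⟨a, k, (it S.h k [a]).length - 1 - J, ?_, ?_⟩
    · rw [tv2_len]
      omega
    · rw [S.rev_rk hJ, hn]

theorem rev_rc {a : α} {k J : ℕ} (hJ : J < (it S.h k [a]).length) :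
    S.rev.RC a k ((it S.h k [a]).length - 1 - J) ↔ S.RC a k J := by
  unfold TS.RC
  rw [S.rev_rk hJ, S.rev_c, tv2_len]
  constructor
  · rintro ⟨_, h⟩
    exact ⟨hJ, h⟩
  · rintro ⟨_, h⟩
    exact ⟨by omega, h⟩

theorem tv2_rc {a : α} {k J : ℕ} (hr : S.rev.RC a k J) :
    S.RC a k ((it S.h k [a]).length - 1 - J) := by
  have hJ : J < (it S.h k [a]).length := by
    have h1 := hr.1
    rwa [tv2_len] at h1
  have h1 : (it S.h k [a]).length - 1 - J < (it S.h k [a]).length := by omega
  refine (S.rev_rc h1).1 ?_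
  have h2 : (it S.h k [a]).length - 1 - ((it S.h k [a]).length - 1 - J) = J := by omega
  rw [h2]
  exact hr

theorem rev_mi {b : α} {I : Finset P} : S.rev.MI b I ↔ S.MI b I := by
  constructor
  · rintro ⟨a, k, J, hr, hb, hI⟩
    have hJ : J < (it S.h k [a]).length := by
      have h1 := hr.1
      rwa [tv2_len] at h1
    have h1 : (it S.h k [a]).length - 1 - J < (it S.h k [a]).length := by omega
    have h2 : (it S.h k [a]).length - 1 - ((it S.h k [a]).length - 1 - J) = J := by omega
    refine ⟨a, k, _, S.tv2_rc hr, ?_, ?_⟩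
    · rw [← S.tv2_h_get h1, h2]
      exact hb
    · intro x
      rw [hI]
      refine exists_congr fun e => ?_
      refine and_congr_right fun he => ?_
      have h3 := S.tv2_hh_get he h1
      rw [h2] at h3
      rw [h3]
  · rintro ⟨a, k, J, hr, hb, hI⟩
    have hJ : J < (it S.h k [a]).length := hr.1
    refine ⟨a, k, _, (S.rev_rc hJ).2 hr, ?_, ?_⟩
    · rw [S.tv2_h_get hJ]
      exact hb
    · intro x
      rw [hI]
      refine exists_congr fun e => ?_
      refine and_congr_right fun he => ?_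
      rw [S.tv2_hh_get he hJ]

theorem rev_eqv {e f : P} : S.rev.Eqv e f ↔ S.Eqv e f := by
  constructor
  · rintro ⟨h1, h2⟩
    have h1' : S.pr e = S.pr f := h1
    refine ⟨h1', fun k J hr => ?_⟩
    have h3 := h2 k _ ((S.rev_rc hr.1).2 hr)
    rwa [S.tv2_hh_get rfl hr.1, S.tv2_hh_get h1'.symm hr.1] at h3
  · rintro ⟨h1, h2⟩
    refine ⟨h1, fun k J hr => ?_⟩
    have hr' : S.rev.RC (S.pr e) k J := hr
    have hJ : J < (it S.h k [S.pr e]).length := by
      have h1 := hr'.1
      rwa [tv2_len] at h1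
    have h4 : (it S.h k [S.pr e]).length - 1 - J < (it S.h k [S.pr e]).length := by omega
    have h5 : (it S.h k [S.pr e]).length - 1 - ((it S.h k [S.pr e]).length - 1 - J) = J := by
      omega
    have h3 := h2 k _ (S.tv2_rc hr')
    rwa [← S.tv2_hh_get rfl h4, ← S.tv2_hh_get h1.symm h4, h5] at h3

theorem rev_adj {e f : P} : S.rev.Adj f e ↔ S.Adj e f := by
  constructor
  · rintro ⟨g, k, A, B, h⟩
    refine ⟨g, k, B.reverse, A.reverse, ?_⟩
    rw [tv2_it_hh] at h
    have h1 := congrArg List.reverse h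
    rw [List.reverse_reverse] at h1
    rw [h1]
    simp
  · rintro ⟨g, k, A, B, h⟩
    refine ⟨g, k, B.reverse, A.reverse, ?_⟩
    rw [tv2_it_hh, h]
    simp

end D0L.TS
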