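import Pool.Agent.H.MP_374efc_lc.Fr.Ts2
import Pool.Agent.H.MP_374efc_lc.Fr.Tv2

/-!
# MP_374efc_lc, free case: a bridge gives a switch

Paper proof: /team-store/h43_374efc_L3.md
-/

set_option autoImplicit false

namespace D0L.TS

variable {α P T : Type} (S : TS α P T)

theorem tk1_get {β : Type} {V A B : List β} {p L : ℕ} {x : β}
    (h : (V.drop p).take L = A ++ x :: B) : A.length < L ∧ V[p + A.length]? = some x := by
  have h1 : ((V.drop p).take L)[A.length]? = some x := by
    rw [h, List.getElem?_append_right (le_refl _), Nat.sub_self]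
    rfl
  have h2 : A.length < L := by
    have h3 := congrArg List.length h
    rw [List.length_append, List.length_cons, List.length_take] at h3
    omega
  rw [List.getElem?_take, if_pos h2, List.getElem?_drop] at h1
  exact ⟨h2, h1⟩

theorem tk1_tile {V : List P} (hV : S.Tile V) (p L : ℕ) : S.Tile ((V.drop p).take L) := by
  obtain ⟨z, hz⟩ := hV
  exact ⟨z, ((List.take_prefix _ _).isInfix.trans (List.drop_suffix _ _).isInfix).trans hz⟩

/-- A tile word `V'` over a factor of `it h k [pr e]` which agrees with `it hh k [e]` on a long interval and further to the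
right with `it hh k [f]` on a long interval gives a switch.
Proof: `L` of `long_st` (at least `1`).  A token start `x` of `V'` in the interval `[p, p + L)`, at `v`, is also the element of `it hh k [e]` at `|X0| + v`; a token
start `y` of `V'` in `[p', p' + L)`, at `v'`, is the element of `it hh k [f]` at `|X0| + v'`; `v < v'`; by `seg_get` (for `V'`) the letters between `v` and `v'` form
some `W z`; `X = (it h k [pr e]).take (|X0| + v)`, etc. -/
theorem sw_of_bridge [Fintype T] : ∃ L, ∀ (k : ℕ) (e f : P) (V' : List P) (X0 Z0 : List α),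
    S.Tile V' → X0 ++ V'.map S.pr ++ Z0 = it S.h k [S.pr e] →
    ∀ p p' : ℕ, p + L ≤ p' → p' + L ≤ V'.length →
    (∀ i, p ≤ i → i < p + L → V'[i]? = (it S.hh k [e])[X0.length + i]?) →
    (∀ i, p' ≤ i → i < p' + L → V'[i]? = (it S.hh k [f])[X0.length + i]?) → S.Sw k e f := by
  obtain ⟨L0, hL0⟩ := S.long_st
  refine ⟨L0 + 1, ?_⟩
  intro k e f V' X0 Z0 hT hX p p' hp hp' hA hB
  have len1 : L0 ≤ ((V'.drop p).take (L0 + 1)).length := by
    rw [List.length_take, List.length_drop]
    omega
  have len2 : L0 ≤ ((V'.drop p').take (L0 + 1)).length := by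
    rw [List.length_take, List.length_drop]
    omega
  obtain ⟨A, x, B, e1, hx⟩ := hL0 _ (S.tk1_tile hT p (L0 + 1)) len1
  obtain ⟨A', y, B', e2, hy⟩ := hL0 _ (S.tk1_tile hT p' (L0 + 1)) len2
  obtain ⟨a1, a2⟩ := tk1_get e1
  obtain ⟨b1, b2⟩ := tk1_get e2
  have g1 := hA (p + A.length) (by omega) (by omega)
  have g2 := hB (p' + A'.length) (by omega) (by omega)
  generalize hv : p + A.length = v at *
  generalize hv' : p' + A'.length = v' at *
  have hvv : v ≤ v' := by omega
  have hvl : v' ≤ V'.length := by omega
  obtain ⟨z, hz⟩ := S.seg_get hT a2 b2 hx hy hvv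
  have hdec : V' = V'.take v ++ (V'.drop v).take (v' - v) ++ V'.drop v' := by
    have h1 : (V'.drop v).drop (v' - v) = V'.drop v' := by
      rw [List.drop_drop]
      refine congrArg (fun n => V'.drop n) ?_
      omega
    rw [List.append_assoc, ← h1, List.take_append_drop, List.take_append_drop]
  have lX : (X0 ++ (V'.take v).map S.pr).length = X0.length + v := by
    rw [List.length_append, List.length_map, List.length_take]
    omega
  have lXY : ((X0 ++ (V'.take v).map S.pr) ++ ((V'.drop v).take (v' - v)).map S.pr).length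
      = X0.length + v' := by
    rw [List.length_append, lX, List.length_map, List.length_take, List.length_drop]
    omega
  refine ⟨X0 ++ (V'.take v).map S.pr, ((V'.drop v).take (v' - v)).map S.pr,
    (V'.drop v').map S.pr ++ Z0, z, x, y, ?_, ?_, ?_, hx, ?_, hy⟩
  · have h1 : V'.map S.pr = (V'.take v).map S.pr ++ ((V'.drop v).take (v' - v)).map S.pr ++
        (V'.drop v').map S.pr := by
      rw [← List.map_append, ← List.map_append, ← hdec]
    rw [← hX, h1]
    simp only [List.append_assoc]
  · rw [hz]
    rfl
  · rw [lX, ← g1]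
    exact a2
  · rw [lXY, ← g2]
    exact b2

end D0L.TS
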