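import Pool.Agent.H.MP_374efc_lc.Fr.Tk1

/-!
# MP_374efc_lc, free case: K1 to the right

Paper proof: /team-store/h43_374efc_L3.md
-/

set_option autoImplicit false

namespace D0L.TS

variable {α P T : Type} (S : TS α P T)

/-- The blocks up to `J'` contain the block of the letter at `J < J'`. -/
theorem tk2_len (h : α → List α) (l : ℕ) {w : List α} {J J' : ℕ} {b : α} (hb : w[J]? = some b)
    (hJJ : J < J') :
    (it h l (w.take J)).length + (it h l [b]).length ≤ (it h l (w.take J')).length := by
  have h0 : (w.take J')[J]? = some b := by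
    rw [List.getElem?_take, if_pos hJJ]
    exact hb
  obtain ⟨hlt, hget⟩ := List.getElem?_eq_some_iff.1 h0
  have h1 : (w.take J').take J ++ b :: (w.take J').drop (J + 1) = w.take J' := by
    rw [← hget, ← List.drop_eq_getElem_cons hlt, List.take_append_drop]
  have h2 : (w.take J').take J = w.take J := by
    rw [List.take_take, min_eq_left hJJ.le]
  have h3 : it h l (w.take J') =
      it h l (w.take J) ++ (it h l [b] ++ it h l ((w.take J').drop (J + 1))) := by
    rw [← it_append h l [b], ← it_append]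
    congr 1
    rw [← h2]
    exact h1.symm
  rw [h3, List.length_append, List.length_append]
  omega

/-- Proof.  Suppose `e, e'` differ at `J'` and agree at `J < J'`.  `L` of `sw_of_bridge`, `l` with `L ≤ |it h l [b]|` for all `b` (`grow`).  `no_switch` for `e` and the
level `l + k`: for `MI (pr e) I`, `e ∈ I`, choose `f ∈ I` with the same image as `e'` at `J'` (`MI.select`), so `f ≠ e`; `V' = it hh (l + k) [e']` agrees with
`it hh (l + k) [e]` on the block of `J`, with `it hh (l + k) [f]` on the block of `J'` (`it_get`); `sw_of_bridge` with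
`X0 = []`, `p = |it h l ((it h k [pr e]).take J)|`, `p' = |it h l ((it h k [pr e]).take J')|`. -/
theorem K1_right [Nonempty α] [Fintype P] [Fintype T] {e e' : P} (hp : S.pr e = S.pr e')
    {k J J' : ℕ} (hJJ : J < J') (hJ : S.RC (S.pr e) k J) (hJ' : S.RC (S.pr e) k J')
    (h1 : (it S.hh k [e])[J]? = (it S.hh k [e'])[J]?) :
    (it S.hh k [e])[J']? = (it S.hh k [e'])[J']? := by
  by_contra hne
  obtain ⟨L, hL⟩ := S.sw_of_bridge
  obtain ⟨l, hl⟩ := S.grow L
  replace hl := hl l le_rfl
  refine S.no_switch (l + k) e ?_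
  intro I hI heI
  obtain ⟨f, hf, hff⟩ := MI.select S hI hJ' hp.symm
  have hfe : f ≠ e := by
    rintro rfl
    exact hne hff
  refine ⟨f, hf, hfe, ?_⟩
  have hprf : S.pr f = S.pr e := MI.pr_eq S hI hf
  obtain ⟨b, hb⟩ : ∃ b, (it S.h k [S.pr e])[J]? = some b := ⟨_, List.getElem?_eq_getElem hJ.1⟩
  obtain ⟨b', hb'⟩ : ∃ b, (it S.h k [S.pr e])[J']? = some b :=
    ⟨_, List.getElem?_eq_getElem hJ'.1⟩
  obtain ⟨x, hx⟩ := S.tr2_some (rfl : S.pr e = S.pr e) hJ.1
  obtain ⟨y, hy⟩ := S.tr2_some hp.symm hJ'.1
  have hx' : (it S.hh k [e'])[J]? = some x := by rw [← h1]; exact hx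
  have hy' : (it S.hh k [f])[J']? = some y := by rw [hff]; exact hy
  refine hL (l + k) e f (it S.hh (l + k) [e']) [] [] (S.tile_it _ _) ?_
    (it S.h l ((it S.h k [S.pr e]).take J)).length
    (it S.h l ((it S.h k [S.pr e]).take J')).length ?_ ?_ ?_ ?_
  · rw [List.nil_append, List.append_nil, S.map_it, List.map_cons, List.map_nil, hp]
  · have := tk2_len S.h l hb hJJ
    have := hl b
    omega
  · have h2 := tk2_len S.h l hb' hJ'.1
    have h3 := hl b'
    rw [List.take_length] at h2
    rw [S.length_it, List.map_cons, List.map_nil, ← hp, it_add]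
    omega
  · intro i hi1 hi2
    obtain ⟨j, rfl⟩ := Nat.exists_eq_add_of_le hi1
    have hj : j < (it S.h l [b]).length := by
      have := hl b
      omega
    rw [List.length_nil, Nat.zero_add, S.tr2_get hp.symm hx' hb hj, S.tr2_get rfl hx hb hj]
  · intro i hi1 hi2
    obtain ⟨j, rfl⟩ := Nat.exists_eq_add_of_le hi1
    have hj : j < (it S.h l [b']).length := by
      have := hl b'
      omega
    rw [List.length_nil, Nat.zero_add, S.tr2_get hp.symm hy hb' hj, S.tr2_get hprf hy' hb' hj]

end D0L.TS
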