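import Pool.Agent.H.MP_374efc_lc.Fr.Tk2

/-!
# MP_374efc_lc, free case: K1

Paper proof: /team-store/h43_374efc_L3.md
-/

set_option autoImplicit false

namespace D0L.TS

variable {α P T : Type} (S : TS α P T)

theorem tk3_pos (l : ℕ) (b : α) : 0 < (it S.h l [b]).length := by
  induction l with
  | zero =>
    rw [it_zero]
    simp
  | succ n ih =>
    rw [it_succ]
    exact lt_of_lt_of_le ih (length_le_app S.ne _)

/-- The same level. -/
theorem tk3_same [Nonempty α] [Fintype P] [Fintype T] {e e' : P} (hp : S.pr e = S.pr e')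
    {k J J' : ℕ} (hJ : S.RC (S.pr e) k J) (hJ' : S.RC (S.pr e) k J')
    (h1 : (it S.hh k [e])[J]? = (it S.hh k [e'])[J]?) :
    (it S.hh k [e])[J']? = (it S.hh k [e'])[J']? := by
  rcases lt_trichotomy J J' with h | h | h
  · exact S.K1_right hp h hJ hJ' h1
  · rw [← h]
    exact h1
  · have hl : (it S.hh k [e]).length = (it S.h k [S.pr e]).length := S.tr2_len rfl k
    have hl' : (it S.hh k [e']).length = (it S.h k [S.pr e]).length := S.tr2_len hp.symm k
    have hJl := hJ.1
    have hJl' := hJ'.1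
    have g1 := S.rev_get (k := k) (J := J) (e := e) (by rw [hl]; exact hJl)
    have g2 := S.rev_get (k := k) (J := J) (e := e') (by rw [hl']; exact hJl)
    have g3 := S.rev_get (k := k) (J := J') (e := e) (by rw [hl]; exact hJl')
    have g4 := S.rev_get (k := k) (J := J') (e := e') (by rw [hl']; exact hJl')
    rw [hl] at g1 g3
    rw [hl'] at g2 g4
    have r1 : S.rev.RC (S.rev.pr e) k ((it S.h k [S.pr e]).length - 1 - J) :=
      (S.rev_rc hJl).2 hJ
    have r2 : S.rev.RC (S.rev.pr e) k ((it S.h k [S.pr e]).length - 1 - J') :=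
      (S.rev_rc hJl').2 hJ'
    have hlt : (it S.h k [S.pr e]).length - 1 - J < (it S.h k [S.pr e]).length - 1 - J' := by
      omega
    have hp' : S.rev.pr e = S.rev.pr e' := hp
    have h2 := S.rev.K1_right hp' hlt r1 r2 (by rw [g1, g2]; exact h1)
    rw [g3, g4] at h2
    exact h2

/-- K1.
Proof.  Same level `k = k'`: trivial for `J = J'`, `K1_right` for `J < J'`, `K1_right` for `S.rev` for `J > J'` (`rev_rc`, `rev_get`).
In general extend `(k, J)` and `(k', J')` to the common level `K = max k k'` (`RC.push`, offset `0`): equality at `(k, J)` gives equality at the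
extended position; same level; and equality at the extension of `(k', J')` gives equality at `(k', J')` because following a position of
minimal rank is injective on the image of the fibre (both images have `c` elements; or `MI.push`). -/
theorem K1 [Nonempty α] [Fintype P] [Fintype T] {e e' : P} (hp : S.pr e = S.pr e') {k J k' J' : ℕ}
    (hJ : S.RC (S.pr e) k J) (hJ' : S.RC (S.pr e) k' J')
    (h1 : (it S.hh k [e])[J]? = (it S.hh k [e'])[J]?) :
    (it S.hh k' [e])[J']? = (it S.hh k' [e'])[J']? := by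
  classical
  obtain ⟨K, hK⟩ : ∃ K, K = max k k' := ⟨_, rfl⟩
  obtain ⟨l, hl⟩ : ∃ l, K = l + k := ⟨K - k, by omega⟩
  obtain ⟨l', hl'⟩ : ∃ l', K = l' + k' := ⟨K - k', by omega⟩
  have hb : ∃ b, (it S.h k [S.pr e])[J]? = some b := ⟨_, List.getElem?_eq_getElem hJ.1⟩
  have hb' : ∃ b', (it S.h k' [S.pr e])[J']? = some b' := ⟨_, List.getElem?_eq_getElem hJ'.1⟩
  obtain ⟨b, hb⟩ := hb
  obtain ⟨b', hb'⟩ := hb'
  obtain ⟨x, hx⟩ := S.tr2_some (e := e) rfl hJ.1
  obtain ⟨y, hy⟩ := S.tr2_some (e := e) rfl hJ'.1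
  obtain ⟨y', hy'⟩ := S.tr2_some (e := e') hp.symm hJ'.1
  have hx' : (it S.hh k [e'])[J]? = some x := by rw [← h1, hx]
  have r1 := RC.push S hJ hb (S.tk3_pos l b)
  have r2 := RC.push S hJ' hb' (S.tk3_pos l' b')
  have e1 := S.tr2_get (e := e) rfl hx hb (S.tk3_pos l b)
  have e2 := S.tr2_get (e := e') hp.symm hx' hb (S.tk3_pos l b)
  have e3 := S.tr2_get (e := e) rfl hy hb' (S.tk3_pos l' b')
  have e4 := S.tr2_get (e := e') hp.symm hy' hb' (S.tk3_pos l' b')
  rw [← hl] at r1 e1 e2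
  rw [← hl'] at r2 e3 e4
  have h2 := S.tk3_same hp r1 r2 (by rw [e1, e2])
  rw [e3, e4] at h2
  let I : Finset P := Finset.univ.filter fun z => ∃ f, S.pr f = S.pr e ∧ (it S.hh k' [f])[J']? = some z
  have hI : ∀ z, z ∈ I ↔ ∃ f, S.pr f = S.pr e ∧ (it S.hh k' [f])[J']? = some z := by
    intro z
    simp [I]
  have hMI : S.MI b' I := ⟨S.pr e, k', J', hJ', hb', hI⟩
  have hb0 : ∃ c, (it S.h l' [b'])[0]? = some c := ⟨_, List.getElem?_eq_getElem (S.tk3_pos l' b')⟩
  obtain ⟨c, hc⟩ := hb0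
  obtain ⟨I', _, _, _, hinj⟩ := MI.push S hMI hc
  have h3 := hinj y ((hI y).2 ⟨e, rfl, hy⟩) y' ((hI y').2 ⟨e', hp.symm, hy'⟩) h2
  rw [hy, hy', h3]

end D0L.TS
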