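import Pool.Agent.H.MP_374efc_lc.Fr.Tt4

/-!
# MP_374efc_lc, free case: agreement of images of pairs, starts, ends

Paper proof: /team-store/h43_374efc_L3.md
-/

set_option autoImplicit false

namespace D0L.TS

variable {α P T : Type} [Fintype P] [Nonempty α] [Fintype T] (S : TS α P T)

/-- The classes. -/
def setoid : Setoid P where
  r := S.Eqv
  iseqv := ⟨fun e => Eqv.refl S e, fun h1 => Eqv.symm S h1, fun h1 h2 => Eqv.trans S h1 h2⟩

omit [Fintype P] [Nonempty α] [Fintype T] in
theorem tn1_len (e : P) (k : ℕ) : (it S.hh k [e]).length = (it S.h k [S.pr e]).length := by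
  rw [S.length_it, List.map_singleton]

omit [Fintype P] [Nonempty α] [Fintype T] in
theorem tn1_pair (k : ℕ) (e f : P) : it S.hh k [e, f] = it S.hh k [e] ++ it S.hh k [f] :=
  it_append S.hh k [e] [f]

omit [Fintype P] [Nonempty α] [Fintype T] in
theorem tn1_tile {e f : P} (h1 : S.Adj e f) (k : ℕ) : S.Tile (it S.hh k [e, f]) := by
  obtain ⟨g, k0, A, B, h2⟩ := h1
  obtain ⟨z, h3⟩ := S.tile_it (k + k0) g
  refine ⟨z, List.IsInfix.trans ?_ h3⟩
  rw [it_add, h2]
  have h4 : A ++ e :: f :: B = A ++ [e, f] ++ B := by simp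
  rw [h4, it_append, it_append]
  exact ⟨_, _, rfl⟩

/-- The images of two pairs of neighbours which are equivalent agree except near the ends.
Proof: `it hh k [e, f] = it hh k [e] ++ it hh k [f]` is a tile word; `eqv_agree` for `e ~ e'` and `f ~ f'` (`adj_right`) gives agreement in the middle of both
blocks; `agree_between`. -/
theorem pair_agree [Fintype α] {G : ℕ} (hG : ∀ e f, S.Eqv e f → ∀ k i, G ≤ i →
    i + G < (it S.h k [S.pr e]).length → (it S.hh k [e])[i]? = (it S.hh k [f])[i]?)
    {k : ℕ} (hk : ∀ a, 2 * G + 1 ≤ (it S.h k [a]).length) {e f e' f' : P} (h1 : S.Adj e f)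
    (h2 : S.Adj e' f') (hp : S.pr f = S.pr f') (he : S.Eqv e e') {i : ℕ} (hi : G ≤ i)
    (hi' : i + G < (it S.hh k [e, f]).length) :
    (it S.hh k [e, f])[i]? = (it S.hh k [e', f'])[i]? := by
  have hf : S.Eqv f f' := S.adj_right h1 h2 hp he
  have hpe : S.pr e = S.pr e' := he.1
  have hle := S.tn1_len e k
  have hle' := S.tn1_len e' k
  have hlf := S.tn1_len f k
  have hlf' := S.tn1_len f' k
  rw [← hpe] at hle'
  rw [← hp] at hlf'
  have hke := hk (S.pr e)
  have hkf := hk (S.pr f)
  have hV := S.tn1_tile h1 k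
  have hV' := S.tn1_tile h2 k
  have hm : (it S.hh k [e, f]).map S.pr = (it S.hh k [e', f']).map S.pr := by
    rw [S.map_it, S.map_it]
    simp [hpe, hp]
  have hlen : (it S.hh k [e, f]).length = (it S.h k [S.pr e]).length +
      (it S.h k [S.pr f]).length := by
    rw [S.tn1_pair, List.length_append, hle, hlf]
  rw [hlen] at hi'
  refine S.agree_between hV hV' hm (i := G)
    (j := (it S.h k [S.pr e]).length + ((it S.h k [S.pr f]).length - 1 - G)) ?_ ?_ ?_ hi ?_
  · rw [S.tn1_pair, S.tn1_pair, List.getElem?_append_left (by omega),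
      List.getElem?_append_left (by omega)]
    exact hG e e' he k G le_rfl (by omega)
  · rw [S.tn1_pair, S.tn1_pair, List.getElem?_append_right (by omega),
      List.getElem?_append_right (by omega), hle, hle', Nat.add_sub_cancel_left]
    exact hG f f' hf k _ (by omega) (by omega)
  · rw [hlen]
    omega
  · omega

/-- The images of two token starts over the same letter agree except near the right end. -/
theorem start_agree [Fintype α] {G : ℕ} (hG : ∀ e f, S.Eqv e f → ∀ k i, G ≤ i →
    i + G < (it S.h k [S.pr e]).length → (it S.hh k [e])[i]? = (it S.hh k [f])[i]?)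
    {k : ℕ} (hk : ∀ a, 2 * G + 1 ≤ (it S.h k [a]).length) {e e' : P} (he : S.St e) (he' : S.St e')
    (hp : S.pr e = S.pr e') {i : ℕ} (hi : i + G < (it S.hh k [e]).length) :
    (it S.hh k [e])[i]? = (it S.hh k [e'])[i]? := by
  have h1 : S.Eqv e e' := S.st_eqv hp he he'
  obtain ⟨x, V, hx, sx⟩ := S.st_it he k
  obtain ⟨x', V', hx', sx'⟩ := S.st_it he' k
  have hle := S.tn1_len e k
  have hke := hk (S.pr e)
  have hm : (it S.hh k [e]).map S.pr = (it S.hh k [e']).map S.pr := by
    rw [S.map_it, S.map_it, List.map_singleton, List.map_singleton, hp]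
  refine S.agree_start (S.tile_it k e) (S.tile_it k e') hm (x := x) (x' := x') ?_ ?_ sx sx'
    (j := (it S.h k [S.pr e]).length - 1 - G) ?_ ?_ ?_
  · rw [hx]
    rfl
  · rw [hx']
    rfl
  · exact hG e e' h1 k _ (by omega) (by omega)
  · omega
  · omega

omit [Fintype P] [Nonempty α] [Fintype T] in
theorem tn1_en {e : P} (he : S.En e) (k : ℕ) :
    ∃ x, (it S.hh k [e])[(it S.hh k [e]).length - 1]? = some x ∧ S.En x := by
  obtain ⟨y, V, h1, h2⟩ := S.rev.st_it (S.rev_st.2 he) k
  rw [S.tv2_it_hh] at h1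
  have h3 : it S.hh k [e] = V.reverse ++ [y] := by
    have h4 := congrArg List.reverse h1
    rw [List.reverse_reverse, List.reverse_cons] at h4
    exact h4
  refine ⟨y, ?_, S.rev_st.1 h2⟩
  rw [h3]
  simp

/-- The images of two token ends over the same letter agree except near the left end. -/
theorem end_agree [Fintype α] {G : ℕ} (hG : ∀ e f, S.Eqv e f → ∀ k i, G ≤ i →
    i + G < (it S.h k [S.pr e]).length → (it S.hh k [e])[i]? = (it S.hh k [f])[i]?)
    {k : ℕ} (hk : ∀ a, 2 * G + 1 ≤ (it S.h k [a]).length) {e e' : P} (he : S.En e) (he' : S.En e')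
    (hp : S.pr e = S.pr e') {i : ℕ} (hi : G ≤ i) :
    (it S.hh k [e])[i]? = (it S.hh k [e'])[i]? := by
  have h1 : S.Eqv e e' := S.en_eqv hp he he'
  obtain ⟨x, hx, sx⟩ := S.tn1_en he k
  obtain ⟨x', hx', sx'⟩ := S.tn1_en he' k
  have hle := S.tn1_len e k
  have hle' := S.tn1_len e' k
  rw [← hp, ← hle] at hle'
  have hke := hk (S.pr e)
  have hm : (it S.hh k [e]).map S.pr = (it S.hh k [e']).map S.pr := by
    rw [S.map_it, S.map_it, List.map_singleton, List.map_singleton, hp]
  rw [hle'] at hx'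
  exact S.agree_end (S.tile_it k e) (S.tile_it k e') hm hx hx' sx sx' (j := G)
    (hG e e' h1 k G le_rfl (by omega)) (by omega) hi

end D0L.TS
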