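import Pool.Agent.H.MP_374efc_lc.Fr.Tn1

/-!
# MP_374efc_lc, free case: splitting of the token counts

Paper proof: /team-store/h43_374efc_L3.md
-/

set_option autoImplicit false

namespace D0L.TS

variable {α P T : Type} [Fintype P] [Nonempty α] [Fintype T] (S : TS α P T)

theorem tn2_choose {X K Y : Type} [Inhabited Y] (key : X → K) (Q : X → Prop) (F : X → Y)
    (hF : ∀ x x', Q x → Q x' → key x = key x' → F x = F x') :
    ∃ f : K → Y, ∀ x, Q x → f (key x) = F x := by
  classical
  refine ⟨fun k => if hk : ∃ x, Q x ∧ key x = k then F hk.choose else default, fun x hx => ?_⟩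
  have hk : ∃ x', Q x' ∧ key x' = key x := ⟨x, hx, rfl⟩
  simp only [dif_pos hk]
  exact hF _ _ hk.choose_spec.1 hx hk.choose_spec.2

theorem tn2_sum {X : Type} (F M L : X → ℚ) (l : List X) (hl : l ≠ []) :
    (l.map (fun e => F e + M e + L e)).sum = (l.map M).sum +
      ((l.zip l.tail).map (fun p => L p.1 + F p.2)).sum +
      (l.head?.elim 0 F) + (l.getLast?.elim 0 L) := by
  induction l with
  | nil => exact absurd rfl hl
  | cons a l ih =>
    cases l with
    | nil => simp; ring
    | cons b l =>
      have h1 := ih (List.cons_ne_nil _ _)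
      simp only [List.map_cons, List.sum_cons, List.tail_cons, List.zip_cons_cons, List.head?_cons,
        Option.elim_some, List.getLast?_cons_cons] at h1 ⊢
      linear_combination h1

theorem tn2_zip {X : Type} (l : List X) (p : X × X) (hp : p ∈ l.zip l.tail) :
    ∃ A B, l = A ++ p.1 :: p.2 :: B := by
  induction l with
  | nil => simp at hp
  | cons a l ih =>
    cases l with
    | nil => simp at hp
    | cons b l =>
      rw [List.tail_cons, List.zip_cons_cons, List.mem_cons] at hp
      rcases hp with rfl | hp
      · exact ⟨[], l, rfl⟩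
      · obtain ⟨A, B, h1⟩ := ih hp
        exact ⟨a :: A, B, by rw [h1]; rfl⟩

theorem tn2_slice {X : Type} {V W : List X} {a n : ℕ} (h : ∀ i, a ≤ i → i < a + n → V[i]? = W[i]?) :
    (V.drop a).take n = (W.drop a).take n := by
  apply List.ext_getElem?
  intro i
  rw [List.getElem?_take, List.getElem?_take]
  split_ifs with hi
  · rw [List.getElem?_drop, List.getElem?_drop]
    exact h _ (Nat.le_add_right _ _) (by omega)
  · rfl

theorem tn2_one [DecidableEq P] {s x : T} {p : P} {w : List P} (hs : S.tk s = p :: w) :
    (S.tk x).count p = if (S.tk x).head? = (S.tk s).head? then 1 else 0 := by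
  split_ifs with h1
  · rw [hs, List.head?_cons] at h1
    cases hx : S.tk x with
    | nil => exact absurd hx (S.tkne x)
    | cons q v =>
      rw [hx, List.head?_cons, Option.some_inj] at h1
      subst h1
      rw [List.count_cons_self]
      have h2 : q ∉ v := by
        intro hq
        obtain ⟨v1, v2, rfl⟩ := List.append_of_mem hq
        have h3 := S.uniq q x [] (v1 ++ q :: v2) x (q :: v1) v2 hx (by rw [hx]; rfl)
        exact absurd h3.2.1 (by simp)
      rw [List.count_eq_zero_of_not_mem h2]
  · refine List.count_eq_zero_of_not_mem fun hq => h1 ?_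
    obtain ⟨v1, v2, hv⟩ := List.append_of_mem hq
    have h3 := S.uniq p x v1 v2 s [] w hv hs
    rw [h3.1]

theorem tn2_count [DecidableEq P] {s : T} {p : P} {w : List P} (hs : S.tk s = p :: w)
    (z : List T) : (app S.tk z).count p = z.countP (fun x => (S.tk x).head? = (S.tk s).head?) := by
  induction z with
  | nil => rfl
  | cons x z ih =>
    rw [app_cons, List.count_append, ih, tn2_one S hs, List.countP_cons, Nat.add_comm]
    simp only [decide_eq_true_eq]

theorem tn2_len (e : P) (k : ℕ) : (it S.hh k [e]).length = (it S.h k [S.pr e]).length := by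
  rw [length_it]
  rfl

/-- the number of `p` in the first `G` letters, in the middle, in the last `G` letters of `hh^k(e)` -/
theorem tn2_block [DecidableEq P] {G k : ℕ} {e : P} (p : P)
    (hk : 2 * G + 1 ≤ (it S.hh k [e]).length) :
    (it S.hh k [e]).count p = ((it S.hh k [e]).take G).count p +
      (((it S.hh k [e]).drop G).take ((it S.hh k [e]).length - 2 * G)).count p +
      ((it S.hh k [e]).drop ((it S.hh k [e]).length - G)).count p := by
  generalize it S.hh k [e] = B at hk ⊢
  have h1 : B = B.take G ++ ((B.drop G).take (B.length - 2 * G) ++ B.drop (B.length - G)) := by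
    have h2 : B.drop (B.length - G) = (B.drop G).drop (B.length - 2 * G) := by
      rw [List.drop_drop]
      congr 1
      omega
    rw [h2, List.take_append_drop, List.take_append_drop]
  conv_lhs => rw [h1]
  rw [List.count_append, List.count_append]
  ring

theorem tn2_pair {X : Type} {B C : List X} {G : ℕ} (hB : G ≤ B.length) :
    B.drop (B.length - G) ++ C.take G = ((B ++ C).drop (B.length - G)).take (2 * G) := by
  rw [List.drop_append_of_le_length (Nat.sub_le _ _), List.take_append, List.length_drop]
  have h1 : (B.drop (B.length - G)).take (2 * G) = B.drop (B.length - G) := by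
    apply List.take_of_length_le
    rw [List.length_drop]
    omega
  rw [h1]
  congr 2
  omega

/-- A counting function on words of positions which splits: for all words of neighbours.
The number of token starts of the token `s` in `it hh k (tk t)` is a sum of four kinds of terms.
Proof.  `it hh k (e_1 .. e_l) = B_1 .. B_l`, `B_i = it hh k [e_i]`, `|B_i| ≥ 2 G + 1`.  Cut every block: first `G` letters, middle, last `G` letters.
`cnt s (B_1..B_l) = cnt s (first G of B_1) + ∑_i cnt s (middle of B_i) + ∑_(i<l) cnt s (last G of B_i ++ first G of B_(i+1)) + cnt s (last G of B_l)`.  The terms depend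
only on the letter of `e_1`, the class of `e_i`, the class of `e_i` and the letter of `e_(i+1)`, the letter of `e_l` by the preceding lemmas
(choose representatives to define the four functions). -/
theorem count_split [Fintype α] [DecidableEq P] : ∃ k : ℕ,
    ∃ (fa : Quotient S.setoid → T → ℚ) (fb : Quotient S.setoid × α → T → ℚ) (fs ft : α → T → ℚ),
    ∀ t s : T, ((it S.H k [t]).countP (fun x => (S.tk x).head? = (S.tk s).head?) : ℚ) =
      ((S.tk t).map (fun e => fa (Quotient.mk S.setoid e) s)).sum +
      (((S.tk t).zip (S.tk t).tail).map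
        (fun p => fb (Quotient.mk S.setoid p.1, S.pr p.2) s)).sum +
      ((S.tk t).head?.elim 0 (fun e => fs (S.pr e) s)) +
      ((S.tk t).getLast?.elim 0 (fun e => ft (S.pr e) s)) := by
  obtain ⟨G, hG⟩ := S.eqv_agree
  obtain ⟨k, hk0⟩ := S.grow (2 * G + 1)
  have hk : ∀ a, 2 * G + 1 ≤ (it S.h k [a]).length := hk0 k le_rfl
  have hkk : ∀ e, 2 * G + 1 ≤ (it S.hh k [e]).length := fun e => by
    rw [tn2_len]
    exact hk _
  have hhead : ∀ s : T, ∃ p w, S.tk s = p :: w := fun s =>
    List.exists_cons_of_ne_nil (S.tkne s)
  choose hd tl htk using hhead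
  let F : P → T → ℚ := fun e s => (((it S.hh k [e]).take G).count (hd s) : ℕ)
  let M : P → T → ℚ := fun e s =>
    ((((it S.hh k [e]).drop G).take ((it S.hh k [e]).length - 2 * G)).count (hd s) : ℕ)
  let L : P → T → ℚ := fun e s =>
    (((it S.hh k [e]).drop ((it S.hh k [e]).length - G)).count (hd s) : ℕ)
  have hM : ∀ e e', S.Eqv e e' → M e = M e' := by
    intro e e' he
    funext s
    have h1 : (it S.hh k [e]).length = (it S.hh k [e']).length := by
      rw [tn2_len, tn2_len, he.1]
    have h2 := tn2_slice (V := it S.hh k [e]) (W := it S.hh k [e']) (a := G)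
      (n := (it S.hh k [e]).length - 2 * G) (fun i hi hi' => hG e e' he k i hi (by
        rw [← tn2_len]
        have := hkk e
        omega))
    simp only [M]
    rw [h2, h1]
  have hF : ∀ e e', S.St e → S.St e' → S.pr e = S.pr e' → F e = F e' := by
    intro e e' he he' hp
    funext s
    have h2 := tn2_slice (V := it S.hh k [e]) (W := it S.hh k [e']) (a := 0)
      (n := G) (fun i _ hi' => S.start_agree hG hk he he' hp (by
        have := hkk e
        omega))
    rw [List.drop_zero, List.drop_zero] at h2
    simp only [F]
    rw [h2]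
  have hL : ∀ e e', S.En e → S.En e' → S.pr e = S.pr e' → L e = L e' := by
    intro e e' he he' hp
    funext s
    have h1 : (it S.hh k [e]).length = (it S.hh k [e']).length := by
      rw [tn2_len, tn2_len, hp]
    have h2 := tn2_slice (V := it S.hh k [e]) (W := it S.hh k [e'])
      (a := (it S.hh k [e]).length - G) (n := G) (fun i hi _ => S.end_agree hG hk he he' hp (by
        have := hkk e
        omega))
    have h3 : ∀ B : List P, B.length = (it S.hh k [e]).length →
        (B.drop ((it S.hh k [e]).length - G)).take G = B.drop ((it S.hh k [e]).length - G) := by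
      intro B hB
      apply List.take_of_length_le
      rw [List.length_drop]
      omega
    rw [h3 _ rfl, h3 _ h1.symm] at h2
    simp only [L]
    rw [h2, h1]
  have hB : ∀ e f e' f', S.Adj e f → S.Adj e' f' → S.Eqv e e' → S.pr f = S.pr f' →
      L e + F f = L e' + F f' := by
    intro e f e' f' h1 h2 he hp
    funext s
    have h3 : (it S.hh k [e]).length = (it S.hh k [e']).length := by
      rw [tn2_len, tn2_len, he.1]
    have h4 : ∀ e f : P, it S.hh k [e, f] = it S.hh k [e] ++ it S.hh k [f] := fun e f => by
      rw [← it_append]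
      rfl
    have h5 := tn2_slice (V := it S.hh k [e, f]) (W := it S.hh k [e', f'])
      (a := (it S.hh k [e]).length - G) (n := 2 * G) (fun i hi hi' =>
        S.pair_agree hG hk h1 h2 hp he (by
          have := hkk e
          omega) (by
          rw [h4, List.length_append]
          have := hkk e
          have := hkk f
          omega))
    have h6 : ∀ e f : P, L e s + F f s =
        ((((it S.hh k [e, f]).drop ((it S.hh k [e]).length - G)).take (2 * G)).count (hd s) : ℕ) := by
      intro e f
      rw [h4, ← tn2_pair (by
        have := hkk e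
        omega), List.count_append]
      push_cast
      rfl
    change L e s + F f s = L e' s + F f' s
    rw [h6, h6, h5, h3]
  obtain ⟨fa, hfa⟩ := tn2_choose (fun e : P => Quotient.mk S.setoid e) (fun _ => True) M
    (fun e e' _ _ he => hM e e' (Quotient.exact he))
  obtain ⟨fs, hfs⟩ := tn2_choose S.pr S.St F hF
  obtain ⟨ft, hft⟩ := tn2_choose S.pr S.En L hL
  obtain ⟨fb, hfb⟩ := tn2_choose (fun p : P × P => (Quotient.mk S.setoid p.1, S.pr p.2))
    (fun p => S.Adj p.1 p.2) (fun p => L p.1 + F p.2) (fun p p' h1 h2 h3 => by
      rw [Prod.mk.injEq] at h3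
      exact hB _ _ _ _ h1 h2 (Quotient.exact h3.1) h3.2)
  refine ⟨k, fa, fb, fs, ft, fun t s => ?_⟩
  have h1 : (it S.H k [t]).countP (fun x => (S.tk x).head? = (S.tk s).head?) =
      (it S.hh k (S.tk t)).count (hd s) := by
    rw [← tn2_count S (htk s), ← it_tk, app_singleton]
  have h2 : (((it S.hh k (S.tk t)).count (hd s) : ℕ) : ℚ) =
      ((S.tk t).map (fun e => F e s + M e s + L e s)).sum := by
    rw [it_eq_app]
    generalize S.tk t = l
    induction l with
    | nil => simp [app_nil]
    | cons e l ih =>
      rw [app_cons, List.count_append, Nat.cast_add, ih, List.map_cons, List.sum_cons]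
      congr 1
      rw [tn2_block S (hd s) (hkk e)]
      push_cast
      rfl
  rw [h1, h2, tn2_sum (fun e => F e s) (fun e => M e s) (fun e => L e s) (S.tk t) (S.tkne t)]
  congr 1
  · congr 1
    · congr 1
      · congr 1
        refine List.map_congr_left fun e _ => ?_
        rw [hfa e trivial]
      · congr 1
        refine List.map_congr_left fun p hp => ?_
        obtain ⟨A, B, h3⟩ := tn2_zip _ _ hp
        rw [hfb p (S.adj_tk h3)]
        rfl
    · rw [htk t, List.head?_cons]
      change F (hd t) s = fs (S.pr (hd t)) s
      rw [hfs _ ⟨t, tl t, htk t⟩]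
  · obtain ⟨v, e, h3⟩ : ∃ v e, S.tk t = v ++ [e] :=
      ⟨_, _, (List.dropLast_append_getLast (S.tkne t)).symm⟩
    rw [h3, List.getLast?_concat]
    change L e s = ft (S.pr e) s
    rw [hft _ ⟨t, v, h3⟩]

end D0L.TS
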