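import Pool.Agent.H.MP_374efc_lc.Fr.Tn2

/-!
# MP_374efc_lc, free case: the rank bound

Paper proof: /team-store/h43_374efc_L3.md
-/

set_option autoImplicit false

namespace D0L.TS

variable {α P T : Type} [Fintype P] [Nonempty α] [Fintype T] (S : TS α P T)

omit [Fintype P] [Nonempty α] [Fintype T] in
theorem tn3_sum {β : Type} (V : Submodule ℚ (T → ℚ)) (g : β → T → ℚ) (h : ∀ b, g b ∈ V)
    (l : List β) : (fun s => (l.map (fun b => g b s)).sum) ∈ V := by
  induction l with
  | nil => exact V.zero_mem
  | cons b l ih => exact V.add_mem (h b) ih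

omit [Fintype P] [Nonempty α] [Fintype T] in
theorem tn3_elim {β : Type} (V : Submodule ℚ (T → ℚ)) (g : β → T → ℚ) (h : ∀ b, g b ∈ V)
    (o : Option β) : (fun s => (o.elim 0 (fun b => g b s) : ℚ)) ∈ V := by
  cases o with
  | none => exact V.zero_mem
  | some b => exact h b

omit [Fintype P] [Nonempty α] [Fintype T] in
theorem tn3_head (x s : T) :
    ((S.tk x).head? = (S.tk s).head?) ↔ x = s := by
  constructor
  · intro h
    obtain ⟨e, u, hx⟩ := List.exists_cons_of_ne_nil (S.tkne x)
    obtain ⟨e', u', hs⟩ := List.exists_cons_of_ne_nil (S.tkne s)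
    rw [hx, hs, List.head?_cons, List.head?_cons, Option.some.injEq] at h
    subst h
    exact (S.uniq e x [] u s [] u' hx hs).1
  · rintro rfl
    rfl

omit [Fintype P] [Nonempty α] in
theorem tn3_count_app [DecidableEq T] (f : T → List T) (l : List T) (s : T) :
    ((app f l).count s : ℚ) = ∑ u, ((f u).count s : ℚ) * (l.count u : ℚ) := by
  induction l with
  | nil => simp [app_nil]
  | cons a l ih =>
    rw [app_cons, List.count_append, Nat.cast_add, ih]
    have h1 : ∀ u, ((f u).count s : ℚ) * ((a :: l).count u : ℚ) =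
        ((f u).count s : ℚ) * (l.count u : ℚ) + (if a = u then ((f u).count s : ℚ) else 0) := by
      intro u
      rw [List.count_cons, Nat.cast_add, mul_add]
      by_cases h : a = u
      · simp [h]
      · simp [h]
    rw [Finset.sum_congr rfl (fun u _ => h1 u), Finset.sum_add_distrib, Finset.sum_ite_eq]
    simp only [Finset.mem_univ, if_true]
    ring

/-- The incidence map. -/
noncomputable def tn3_M [DecidableEq T] (f : T → List T) : (T → ℚ) →ₗ[ℚ] (T → ℚ) where
  toFun x := fun s => ∑ t, ((f t).count s : ℚ) * x t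
  map_add' x y := by
    funext s
    simp only [Pi.add_apply, mul_add, Finset.sum_add_distrib]
  map_smul' c x := by
    funext s
    simp only [Pi.smul_apply, smul_eq_mul, RingHom.id_apply, Finset.mul_sum]
    refine Finset.sum_congr rfl (fun t _ => ?_)
    ring

omit [Fintype P] [Nonempty α] in
theorem tn3_pow [DecidableEq T] (f : T → List T) (k : ℕ) (t : T) :
    ((tn3_M f) ^ k) (Pi.single t 1) = fun s => ((it f k [t]).count s : ℚ) := by
  induction k with
  | zero =>
    funext s
    rw [pow_zero, it_zero, Module.End.one_apply, Pi.single_apply, List.count_singleton]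
    by_cases h : s = t
    · subst h
      simp
    · have h' : ¬ t = s := fun h1 => h h1.symm
      simp [h, h']
  | succ k ih =>
    rw [pow_succ', Module.End.mul_apply, ih, it_succ]
    funext s
    rw [tn3_count_app]
    rfl

/-- The rank bound.
Proof.  `v t s = countP ..` of `count_split` is the number of occurrences of the token `s` in `it H k [t]` (tokens with the same first element are equal,
`uniq`), i.e. the entry of the `k`-th power of the incidence matrix `M s t = (H t).count s`; `M` is injective on vectors (`hdet`), so the vectors `v t`,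
`t ∈ T`, of `T → ℚ` are linearly independent.  By `count_split` they are in the span of the vectors `fa q`, `fb (q, a)`, `fs a`, `ft a`: at most
`card Q + card Q * n + n + n` vectors. -/
theorem rank_bound [Fintype α] [DecidableEq T]
    (hdet : ∀ x : T → ℚ, (∀ s, ∑ t, ((S.H t).count s : ℚ) * x t = 0) → x = 0) :
    Fintype.card T ≤ (Fintype.card α + 1) * Nat.card (Quotient S.setoid) + 2 * Fintype.card α := by
  classical
  obtain ⟨k, fa, fb, fs, ft, hsp⟩ := count_split S
  have : Finite (Quotient S.setoid) := Quotient.finite _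
  let _ : Fintype (Quotient S.setoid) := Fintype.ofFinite _
  have hinj : Function.Injective (tn3_M S.H) := by
    rw [← LinearMap.ker_eq_bot, LinearMap.ker_eq_bot']
    intro x hx
    exact hdet x (fun s => congrFun hx s)
  have hinj' : Function.Injective ((tn3_M S.H) ^ k) := by
    rw [Module.End.coe_pow]
    exact hinj.iterate k
  have hb : LinearIndependent ℚ (fun t : T => (Pi.single t 1 : T → ℚ)) :=
    Pi.linearIndependent_single_one T ℚ
  have hv : LinearIndependent ℚ (fun t : T => ((tn3_M S.H) ^ k) (Pi.single t 1 : T → ℚ)) :=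
    hb.map' _ (LinearMap.ker_eq_bot.2 hinj')
  let g : (Quotient S.setoid ⊕ Quotient S.setoid × α) ⊕ (α ⊕ α) → T → ℚ :=
    Sum.elim (Sum.elim fa fb) (Sum.elim fs ft)
  have hga : ∀ q, fa q ∈ Submodule.span ℚ (Set.range g) := fun q =>
    Submodule.subset_span ⟨Sum.inl (Sum.inl q), rfl⟩
  have hgb : ∀ q, fb q ∈ Submodule.span ℚ (Set.range g) := fun q =>
    Submodule.subset_span ⟨Sum.inl (Sum.inr q), rfl⟩
  have hgs : ∀ q, fs q ∈ Submodule.span ℚ (Set.range g) := fun q =>
    Submodule.subset_span ⟨Sum.inr (Sum.inl q), rfl⟩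
  have hgt : ∀ q, ft q ∈ Submodule.span ℚ (Set.range g) := fun q =>
    Submodule.subset_span ⟨Sum.inr (Sum.inr q), rfl⟩
  have hmem : ∀ t : T, ((tn3_M S.H) ^ k) (Pi.single t 1 : T → ℚ) ∈
      Submodule.span ℚ (Set.range g) := by
    intro t
    have h1 : ((tn3_M S.H) ^ k) (Pi.single t 1 : T → ℚ) = fun s =>
        ((S.tk t).map (fun e => fa (Quotient.mk S.setoid e) s)).sum +
        (((S.tk t).zip (S.tk t).tail).map
          (fun p => fb (Quotient.mk S.setoid p.1, S.pr p.2) s)).sum +
        ((S.tk t).head?.elim 0 (fun e => fs (S.pr e) s)) +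
        ((S.tk t).getLast?.elim 0 (fun e => ft (S.pr e) s)) := by
      rw [tn3_pow]
      funext s
      rw [← hsp t s, List.count]
      congr 1
      apply List.countP_congr
      intro x _
      simp only [beq_iff_eq, decide_eq_true_eq]
      exact (tn3_head S x s).symm
    rw [h1]
    exact Submodule.add_mem _ (Submodule.add_mem _ (Submodule.add_mem _
      (tn3_sum _ (fun e => fa (Quotient.mk S.setoid e)) (fun e => hga _) _)
      (tn3_sum _ (fun p : P × P => fb (Quotient.mk S.setoid p.1, S.pr p.2)) (fun p => hgb _) _))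
      (tn3_elim _ (fun e => fs (S.pr e)) (fun e => hgs _) _))
      (tn3_elim _ (fun e => ft (S.pr e)) (fun e => hgt _) _)
  have hv' : LinearIndependent ℚ (fun t : T =>
      (⟨((tn3_M S.H) ^ k) (Pi.single t 1 : T → ℚ), hmem t⟩ :
        Submodule.span ℚ (Set.range g))) :=
    LinearIndependent.of_comp (Submodule.span ℚ (Set.range g)).subtype hv
  have h2 := hv'.fintype_card_le_finrank
  have h3 : Module.finrank ℚ (Submodule.span ℚ (Set.range g)) ≤
      Fintype.card ((Quotient S.setoid ⊕ Quotient S.setoid × α) ⊕ (α ⊕ α)) :=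
    finrank_range_le_card g
  rw [Fintype.card_sum, Fintype.card_sum, Fintype.card_sum, Fintype.card_prod] at h3
  rw [Nat.card_eq_fintype_card]
  calc Fintype.card T ≤ _ := h2.trans h3
    _ = _ := by ring

end D0L.TS
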