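import Pool.Agent.H.MP_374efc_lc.Fr.Ti1

/-!
# MP_374efc_lc, free case: positions of minimal rank

Paper proof: /team-store/h43_374efc_L3.md
-/

set_option autoImplicit false

namespace D0L.TS

variable {α P T : Type} [Fintype P] (S : TS α P T)

theorem c_le {a : α} {k J : ℕ} (hJ : J < (it S.h k [a]).length) : S.c ≤ S.rk a k J :=
  Nat.sInf_le ⟨a, k, J, hJ, rfl⟩

theorem exists_rc [Nonempty α] : ∃ a k J, S.RC a k J := by
  obtain ⟨a0⟩ := ‹Nonempty α›
  have h1 : {n | ∃ a k J, J < (it S.h k [a]).length ∧ S.rk a k J = n}.Nonempty :=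
    ⟨S.rk a0 0 0, a0, 0, 0, by simp [it_zero], rfl⟩
  obtain ⟨a, k, J, hJ, h2⟩ := Nat.sInf_mem h1
  exact ⟨a, k, J, hJ, h2⟩

omit [Fintype P] in
theorem tr1_lt {a b : α} {k J l J' : ℕ} (hb : (it S.h k [a])[J]? = some b)
    (hJ : J' < (it S.h l [b]).length) :
    (it S.h l ((it S.h k [a]).take J)).length + J' < (it S.h (l + k) [a]).length := by
  have h1 := it_get S.h l hb hJ
  rw [← it_add] at h1
  have h2 : (it S.h l [b])[J']? = some ((it S.h l [b])[J']) := List.getElem?_eq_getElem hJ
  rw [h2] at h1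
  exact (List.getElem?_eq_some_iff.1 h1).1

omit [Fintype P] in
theorem tr1_val {a b : α} {k J l J' : ℕ} (hb : (it S.h k [a])[J]? = some b)
    (hJ : J' < (it S.h l [b]).length) {e : P} (he : S.pr e = a) :
    ∃ f, (it S.hh k [e])[J]? = some f ∧ S.pr f = b ∧
      (it S.hh (l + k) [e])[(it S.h l ((it S.h k [a]).take J)).length + J']? =
        (it S.hh l [f])[J']? := by
  have h1 : (it S.hh k [e]).map S.pr = it S.h k [a] := by
    rw [S.map_it, List.map_singleton, he]
  have h2 := hb
  rw [← h1, List.getElem?_map] at h2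
  obtain ⟨f, h3, h4⟩ := Option.map_eq_some_iff.1 h2
  refine ⟨f, h3, h4, ?_⟩
  have h5 : J' < (it S.hh l [f]).length := by
    rw [S.length_it, List.map_singleton, h4]
    exact hJ
  have h6 := it_get S.hh l h3 h5
  have h7 : (it S.hh l ((it S.hh k [e]).take J)).length =
      (it S.h l ((it S.h k [a]).take J)).length := by
    rw [S.length_it, List.map_take, h1]
  rw [h7, ← it_add] at h6
  exact h6

/-- Following a position of minimal rank.
Proof: the map `e ↦ (it hh (l+k) [e])[..]` is the composition of `e ↦ (it hh k [e])[J]` with `x ↦ (it hh l [x])[J']` (`it_add`, `it_get`), so the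
rank does not increase; `c_le`. -/
theorem RC.push {a b : α} {k J l J' : ℕ} (hr : S.RC a k J) (hb : (it S.h k [a])[J]? = some b)
    (hJ : J' < (it S.h l [b]).length) :
    S.RC a (l + k) ((it S.h l ((it S.h k [a]).take J)).length + J') := by
  classical
  refine ⟨S.tr1_lt hb hJ, le_antisymm ?_ (S.c_le (S.tr1_lt hb hJ))⟩
  rw [← hr.2]
  unfold rk
  have h1 : (Finset.univ.filter (fun e : P => S.pr e = a)).image
      (fun e => (it S.hh (l + k) [e])[(it S.h l ((it S.h k [a]).take J)).length + J']?) ⊆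
      ((Finset.univ.filter (fun e : P => S.pr e = a)).image
        (fun e => (it S.hh k [e])[J]?)).image
        (fun o => o.bind (fun f => (it S.hh l [f])[J']?)) := by
    intro o ho
    obtain ⟨e, he, rfl⟩ := Finset.mem_image.1 ho
    have he' : S.pr e = a := (Finset.mem_filter.1 he).2
    obtain ⟨f, h3, h4, h5⟩ := S.tr1_val hb hJ he'
    refine Finset.mem_image.2 ⟨(it S.hh k [e])[J]?, Finset.mem_image.2 ⟨e, he, rfl⟩, ?_⟩
    rw [h5, h3]
    rfl
  convert (Finset.card_le_card h1).trans Finset.card_image_le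

/-- Preceding a position of minimal rank.  Proof: the image of the fibre of `a` is contained in the fibre of `b`. -/
theorem RC.pre {a b : α} {k J l J' : ℕ} (hJ : (it S.h k [a])[J]? = some b)
    (hr : S.RC b l J') : S.RC a (l + k) ((it S.h l ((it S.h k [a]).take J)).length + J') := by
  classical
  refine ⟨S.tr1_lt hJ hr.1, le_antisymm ?_ (S.c_le (S.tr1_lt hJ hr.1))⟩
  rw [← hr.2]
  unfold rk
  have h1 : (Finset.univ.filter (fun e : P => S.pr e = a)).image
      (fun e => (it S.hh (l + k) [e])[(it S.h l ((it S.h k [a]).take J)).length + J']?) ⊆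
      (Finset.univ.filter (fun e : P => S.pr e = b)).image (fun e => (it S.hh l [e])[J']?) := by
    intro o ho
    obtain ⟨e, he, rfl⟩ := Finset.mem_image.1 ho
    have he' : S.pr e = a := (Finset.mem_filter.1 he).2
    obtain ⟨f, h3, h4, h5⟩ := S.tr1_val hJ hr.1 he'
    refine Finset.mem_image.2 ⟨f, Finset.mem_filter.2 ⟨Finset.mem_univ f, h4⟩, ?_⟩
    rw [h5]
  convert Finset.card_le_card h1

end D0L.TS
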