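import Pool.Agent.H.MP_374efc_lc.Fr.Tr1

/-!
# MP_374efc_lc, free case: minimal images

Paper proof: /team-store/h43_374efc_L3.md
-/

set_option autoImplicit false

namespace D0L.TS

variable {α P T : Type} [Fintype P] (S : TS α P T)

theorem tr2_len {e : P} {a : α} (he : S.pr e = a) (k : ℕ) :
    (it S.hh k [e]).length = (it S.h k [a]).length := by
  rw [S.length_it, List.map_cons, List.map_nil, he]

theorem tr2_some {e : P} {a : α} (he : S.pr e = a) {k J : ℕ} (hJ : J < (it S.h k [a]).length) :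
    ∃ x, (it S.hh k [e])[J]? = some x := by
  have h1 : J < (it S.hh k [e]).length := by rw [S.tr2_len he]; exact hJ
  exact ⟨_, List.getElem?_eq_getElem h1⟩

theorem tr2_pr {e : P} {a : α} (he : S.pr e = a) {k J : ℕ} {b : α} {x : P}
    (hb : (it S.h k [a])[J]? = some b) (hx : (it S.hh k [e])[J]? = some x) : S.pr x = b := by
  have h1 : it S.h k [a] = (it S.hh k [e]).map S.pr := by
    rw [S.map_it, List.map_cons, List.map_nil, he]
  rw [h1, List.getElem?_map, hx, Option.map_some] at hb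
  exact Option.some.inj hb

theorem tr2_lt {w : List α} {J : ℕ} {b : α} (hb : w[J]? = some b) : J < w.length := by
  by_contra h
  rw [List.getElem?_eq_none (not_lt.1 h)] at hb
  cases hb

theorem MI.card {b : α} {I : Finset P} (hI : S.MI b I) : I.card = S.c := by
  classical
  obtain ⟨a, k, J, hr, hb, h⟩ := hI
  rw [← hr.2]
  unfold rk
  rw [← Finset.card_image_of_injective I (Option.some_injective P)]
  congr 1
  ext o
  simp only [Finset.mem_image, Finset.mem_filter, Finset.mem_univ, true_and]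
  constructor
  · rintro ⟨x, hx, rfl⟩
    obtain ⟨e, he, hex⟩ := (h x).1 hx
    exact ⟨e, he, hex⟩
  · rintro ⟨e, he, rfl⟩
    obtain ⟨x, hx⟩ := S.tr2_some he hr.1
    exact ⟨x, (h x).2 ⟨e, he, hx⟩, hx.symm⟩

theorem MI.pr_eq {b : α} {I : Finset P} (hI : S.MI b I) {x : P} (hx : x ∈ I) : S.pr x = b := by
  obtain ⟨a, k, J, hr, hb, h⟩ := hI
  obtain ⟨e, he, hex⟩ := (h x).1 hx
  exact S.tr2_pr he hb hex

theorem MI.nonempty {b : α} {I : Finset P} (hI : S.MI b I) : I.Nonempty := by
  obtain ⟨a, k, J, hr, hb, h⟩ := hI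
  obtain ⟨e, he⟩ := S.sur a
  obtain ⟨x, hx⟩ := S.tr2_some he hr.1
  exact ⟨x, (h x).2 ⟨e, he, hx⟩⟩

theorem tr2_get {e : P} {a : α} (he : S.pr e = a) {k₀ J₀ k J : ℕ} {b : α} {x : P}
    (hx : (it S.hh k₀ [e])[J₀]? = some x) (hb : (it S.h k₀ [a])[J₀]? = some b)
    (hJ : J < (it S.h k [b]).length) :
    (it S.hh (k + k₀) [e])[(it S.h k ((it S.h k₀ [a]).take J₀)).length + J]? =
      (it S.hh k [x])[J]? := by
  have h1 : (it S.hh k ((it S.hh k₀ [e]).take J₀)).length =
      (it S.h k ((it S.h k₀ [a]).take J₀)).length := by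
    rw [S.length_it, List.map_take, S.map_it, List.map_cons, List.map_nil, he]
  rw [it_add, ← h1]
  refine it_get S.hh k hx ?_
  rw [S.tr2_len (S.tr2_pr he hb hx)]
  exact hJ

/-- A minimal image is mapped injectively onto a minimal image.
Proof: `RC.push` for the defining position; both images have `c` elements. -/
theorem MI.push {b b' : α} {I : Finset P} (hI : S.MI b I) {k J : ℕ}
    (hb : (it S.h k [b])[J]? = some b') :
    ∃ I', S.MI b' I' ∧ (∀ x' ∈ I', ∃ x ∈ I, (it S.hh k [x])[J]? = some x') ∧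
      (∀ x ∈ I, ∃ x' ∈ I', (it S.hh k [x])[J]? = some x') ∧
      ∀ x ∈ I, ∀ y ∈ I, (it S.hh k [x])[J]? = (it S.hh k [y])[J]? → x = y := by
  classical
  have hJ : J < (it S.h k [b]).length := tr2_lt hb
  have hIpr : ∀ x ∈ I, S.pr x = b := fun x hx => MI.pr_eq S hI hx
  have hcard := MI.card S hI
  obtain ⟨a, k₀, J₀, hr, hb₀, h⟩ := hI
  let I' : Finset P := Finset.univ.filter fun x' => ∃ x ∈ I, (it S.hh k [x])[J]? = some x'
  have hmem : ∀ x', x' ∈ I' ↔ ∃ x ∈ I, (it S.hh k [x])[J]? = some x' := by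
    intro x'
    simp [I']
  have hMI : S.MI b' I' := by
    refine ⟨a, k + k₀, (it S.h k ((it S.h k₀ [a]).take J₀)).length + J,
      RC.push S hr hb₀ hJ, ?_, ?_⟩
    · rw [it_add, it_get S.h k hb₀ hJ]
      exact hb
    · intro x'
      rw [hmem]
      constructor
      · rintro ⟨x, hx, hxx⟩
        obtain ⟨e, he, hex⟩ := (h x).1 hx
        exact ⟨e, he, by rw [S.tr2_get he hex hb₀ hJ]; exact hxx⟩
      · rintro ⟨e, he, hex⟩
        obtain ⟨x, hx⟩ := S.tr2_some he hr.1
        rw [S.tr2_get he hx hb₀ hJ] at hex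
        exact ⟨x, (h x).2 ⟨e, he, hx⟩, hex⟩
  refine ⟨I', hMI, fun x' hx' => (hmem x').1 hx', ?_, ?_⟩
  · intro x hx
    obtain ⟨x', hx'⟩ := S.tr2_some (hIpr x hx) hJ
    exact ⟨x', (hmem x').2 ⟨x, hx, hx'⟩, hx'⟩
  · have hcard' := MI.card S hMI
    have himg : I.image (fun x => (it S.hh k [x])[J]?) = I'.image some := by
      ext o
      simp only [Finset.mem_image]
      constructor
      · rintro ⟨x, hx, rfl⟩
        obtain ⟨x', hx'⟩ := S.tr2_some (hIpr x hx) hJ
        exact ⟨x', (hmem x').2 ⟨x, hx, hx'⟩, hx'.symm⟩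
      · rintro ⟨x', hx', rfl⟩
        exact (hmem x').1 hx'
    have hc : (I.image (fun x => (it S.hh k [x])[J]?)).card = I.card := by
      rw [himg, Finset.card_image_of_injective _ (Option.some_injective P), hcard', hcard]
    have hinj := Finset.card_image_iff.1 hc
    intro x hx y hy hxy
    exact hinj hx hy hxy

end D0L.TS
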