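import Pool.Agent.H.MP_374efc_lc.Fr.Tr2

/-!
# MP_374efc_lc, free case: existence of minimal images, selection

Paper proof: /team-store/h43_374efc_L3.md
-/

set_option autoImplicit false

namespace D0L.TS

variable {α P T : Type} [Fintype P] (S : TS α P T)

omit [Fintype P] in
theorem tr3_pos (l : ℕ) (b : α) : 0 < (it S.h l [b]).length := by
  have key : ∀ (n : ℕ) (w : List α), w.length ≤ (it S.h n w).length := by
    intro n w
    induction n with
    | zero => exact le_rfl
    | succ n ih =>
      rw [it_succ]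
      exact ih.trans (length_le_app S.ne _)
  exact lt_of_lt_of_le (by simp) (key l [b])

theorem tr3_get {w : List α} {J : ℕ} (hJ : J < w.length) : ∃ b, w[J]? = some b :=
  ⟨w[J], List.getElem?_eq_getElem hJ⟩

/-- Every fibre contains a minimal image.  Proof: `exists_rc`, `reach_letter`, `RC.push`. -/
theorem MI.exists [Nonempty α] [Fintype T] (b : α) : ∃ I, S.MI b I := by
  classical
  obtain ⟨a, k, J, hr⟩ := S.exists_rc
  obtain ⟨c, hc⟩ := tr3_get hr.1
  obtain ⟨q, hq⟩ := S.reach_letter c b
  obtain ⟨J', hJ'⟩ := List.mem_iff_getElem?.1 hq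
  have hlt : J' < (it S.h q [c]).length := tr2_lt hJ'
  refine ⟨Finset.univ.filter (fun x => ∃ e, S.pr e = a ∧
    (it S.hh (q + k) [e])[(it S.h q ((it S.h k [a]).take J)).length + J']? = some x), a, q + k,
    (it S.h q ((it S.h k [a]).take J)).length + J', RC.push S hr hc hlt, ?_, ?_⟩
  · rw [it_add, it_get S.h q hc hlt]
    exact hJ'
  · intro x
    simp

/-- Proof: any minimal image, an element of it reaches `e` (`reach`), `MI.push`. -/
theorem MI.exists_mem [Nonempty α] [Fintype T] (e : P) : ∃ I, S.MI (S.pr e) I ∧ e ∈ I := by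
  obtain ⟨I, hI⟩ := MI.exists S (S.pr e)
  obtain ⟨x, hx⟩ := MI.nonempty S hI
  obtain ⟨q, hq⟩ := S.reach x e
  obtain ⟨j, hj⟩ := List.mem_iff_getElem?.1 hq
  have hb : (it S.h q [S.pr e])[j]? = some (S.pr e) := by
    have h1 : it S.h q [S.pr e] = (it S.hh q [x]).map S.pr := by
      rw [S.map_it, List.map_cons, List.map_nil, MI.pr_eq S hI hx]
    rw [h1, List.getElem?_map, hj, Option.map_some]
  obtain ⟨I', hI', -, h3, -⟩ := MI.push S hI hb
  obtain ⟨x', hx', hx''⟩ := h3 x hx
  rw [hj, Option.some.injEq] at hx''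
  exact ⟨I', hI', hx'' ▸ hx'⟩

/-- At a position of minimal rank a minimal image has the same image as the whole fibre.
Proof: `I ⊆` fibre, the image of `I` has `c` elements (`MI.push`), the image of the fibre has `c` elements. -/
theorem MI.select {a : α} {I : Finset P} (hI : S.MI a I) {k J : ℕ} (hr : S.RC a k J) {e : P}
    (he : S.pr e = a) : ∃ f ∈ I, (it S.hh k [f])[J]? = (it S.hh k [e])[J]? := by
  classical
  obtain ⟨b, hb⟩ := tr3_get hr.1
  obtain ⟨I', -, -, -, h4⟩ := MI.push S hI hb
  have hsub : I.image (fun x => (it S.hh k [x])[J]?) ⊆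
      (Finset.univ.filter (fun x : P => S.pr x = a)).image (fun x => (it S.hh k [x])[J]?) := by
    apply Finset.image_subset_image
    intro x hx
    rw [Finset.mem_filter]
    exact ⟨Finset.mem_univ _, MI.pr_eq S hI hx⟩
  have hcard : (I.image (fun x => (it S.hh k [x])[J]?)).card = I.card := by
    apply Finset.card_image_of_injOn
    intro x hx y hy hxy
    exact h4 x hx y hy hxy
  have hrk : ((Finset.univ.filter (fun x : P => S.pr x = a)).image
      (fun x => (it S.hh k [x])[J]?)).card = S.c := by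
    rw [← hr.2]
    unfold rk
    congr!
  have heq := Finset.eq_of_subset_of_card_le hsub (by rw [hcard, hrk, MI.card S hI])
  have hmem : (it S.hh k [e])[J]? ∈ I.image (fun x => (it S.hh k [x])[J]?) := by
    rw [heq, Finset.mem_image]
    exact ⟨e, by rw [Finset.mem_filter]; exact ⟨Finset.mem_univ _, he⟩, rfl⟩
  obtain ⟨f, hf, hfe⟩ := Finset.mem_image.1 hmem
  exact ⟨f, hf, hfe⟩

/-- At all large levels all letters have positions of minimal rank, in every block.
Proof: from `b` reach the letter `a0` of some `RC a0 k0 J0` at level `q b`, use `RC.pre` and `RC.push` to go to a common level. -/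
theorem rc_level [Nonempty α] [Fintype α] [Fintype T] : ∃ K, ∀ b, ∃ J, S.RC b K J := by
  obtain ⟨a0, k0, J0, hr0⟩ := S.exists_rc
  choose q hq using fun b => S.reach_letter b a0
  refine ⟨(∑ b, q b) + k0, ?_⟩
  intro b
  have hle : q b ≤ ∑ b, q b := Finset.single_le_sum (fun _ _ => Nat.zero_le _) (Finset.mem_univ b)
  obtain ⟨j, hj⟩ := List.mem_iff_getElem?.1 (hq b)
  have h1 := RC.pre S hj hr0
  obtain ⟨c, hc⟩ := tr3_get h1.1
  have h2 := RC.push S h1 hc (S.tr3_pos ((∑ b, q b) - q b) c)
  have h3 : (∑ b, q b) - q b + (k0 + q b) = (∑ b, q b) + k0 := by omega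
  rw [h3] at h2
  exact ⟨_, h2⟩

end D0L.TS
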