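import Pool.Agent.H.MP_374efc_lc.Fr.Tr3
import Pool.Agent.H.MP_374efc_lc.Fr.Tc1

/-!
# MP_374efc_lc, free case: switches at higher levels

Paper proof: /team-store/h43_374efc_L3.md
-/

set_option autoImplicit false

namespace D0L.TS

variable {α P T : Type} (S : TS α P T)

theorem ts1_W (z : List T) : app S.h (S.W z) = S.W (app S.H z) := by
  unfold W
  rw [← S.tb1_map_app, S.tb1_app_tk]

/-- One step for a token start of `V = it hh k [e]`. -/
theorem ts1_step {k : ℕ} {e x : P} {X R : List α} (hX : it S.h k [S.pr e] = X ++ R)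
    (hx : (it S.hh k [e])[X.length]? = some x) (hs : S.St x) :
    ∃ y, (it S.hh (k + 1) [e])[(app S.h X).length]? = some y ∧ S.St y := by
  obtain ⟨y, V, hV, hy⟩ := S.st_it hs 1
  refine ⟨y, ?_, hy⟩
  have h1 : 0 < (it S.hh 1 [x]).length := by
    rw [hV]
    simp
  have h2 := it_get S.hh 1 hx h1
  have h3 : ((it S.hh k [e]).take X.length).map S.pr = X := by
    rw [List.map_take, S.map_it]
    change (it S.h k [S.pr e]).take X.length = X
    rw [hX, List.take_left]
  rw [Nat.add_zero, S.length_it, h3, hV] at h2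
  rw [it_succ]
  exact h2

/-- Proof: apply `h`: `app h (X ++ Y ++ Z)`, `it_W` with `k = 1`; if `V[|X|]? = some x` (`V = it hh k [e]`) then `app hh V` has at `|app h X|` the first
element of `hh x`, a token start (`st_it`). -/
theorem Sw.succ {k : ℕ} {e f : P} (hs : S.Sw k e f) (hf : S.pr f = S.pr e) : S.Sw (k + 1) e f := by
  obtain ⟨X, Y, Z, z, x, y, h1, h2, h3, h4, h5, h6⟩ := hs
  obtain ⟨x', hx', hsx⟩ := S.ts1_step (X := X) (R := Y ++ Z) (by rw [h1, List.append_assoc]) h3 h4
  obtain ⟨y', hy', hsy⟩ := S.ts1_step (e := f) (X := X ++ Y) (R := Z) (by rw [hf, h1]) h5 h6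
  refine ⟨app S.h X, app S.h Y, app S.h Z, app S.H z, x', y', ?_, ?_, hx', hsx, ?_, hsy⟩
  · rw [it_succ, h1, app_append, app_append]
  · rw [h2, S.ts1_W]
  · rw [← app_append]
    exact hy'

theorem Sw.mono {k k' : ℕ} {e f : P} (hs : S.Sw k e f) (hf : S.pr f = S.pr e) (hk : k ≤ k') :
    S.Sw k' e f := by
  induction k', hk using Nat.le_induction with
  | base => exact hs
  | succ n _ ih => exact Sw.succ S ih hf

end D0L.TS
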