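import Pool.Agent.H.MP_374efc_lc.Fr.Ts1

/-!
# MP_374efc_lc, free case: there are no switches

Paper proof: /team-store/h43_374efc_L3.md
-/

set_option autoImplicit false

namespace D0L.TS

variable {α P T : Type} (S : TS α P T)

theorem ts2_split {β : Type} {l : List β} {i : ℕ} {a : β} (h : l[i]? = some a) :
    l = l.take i ++ a :: l.drop (i + 1) := by
  obtain ⟨hi, rfl⟩ := List.getElem?_eq_some_iff.1 h
  rw [← List.drop_eq_getElem_cons hi, List.take_append_drop]

theorem ts2_take {β : Type} {l : List β} {i : ℕ} {a : β} (h : l[i]? = some a) :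
    l.take (i + 1) = l.take i ++ [a] := by
  rw [List.take_add_one, h]
  rfl

theorem ts2_lt {β : Type} {l : List β} {i : ℕ} {a : β} (h : l[i]? = some a) : i < l.length :=
  (List.getElem?_eq_some_iff.1 h).1

theorem ts2_length_take {β : Type} (h : β → List β) (k : ℕ) (l : List β) (i : ℕ) :
    (it h k (l.take i)).length ≤ (it h k l).length := by
  conv_rhs => rw [← List.take_append_drop i l, it_append, List.length_append]
  omega

theorem ts2_pr {k J : ℕ} {x y : P} (h : (it S.hh k [x])[J]? = some y) :
    (it S.h k [S.pr x])[J]? = some (S.pr y) := by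
  have h1 := congrArg (Option.map S.pr) h
  rw [← List.getElem?_map, S.map_it] at h1
  exact h1

theorem ts2_len_take {x : P} (k l i : ℕ) :
    (it S.hh k ((it S.hh l [x]).take i)).length =
      (it S.h k ((it S.h l [S.pr x]).take i)).length := by
  rw [S.length_it, List.map_take, S.map_it]
  rfl

/-- There is no switch.
Proof.  Suppose `H : ∀ I, MI (pr e) I → e ∈ I → ∃ f ∈ I, f ≠ e ∧ Sw k e f`.  Let `b` be a letter, `I0` with `MI b I0` (`MI.exists`), `Q` of `reach_bdd`, `Q0` with
`card I0 < |it h Q0 [b]|` (`grow`), `K = Q + k`.  Apply `chain` with `ι = I0`, `U = it h (K + Q0) [b]`, `V x = it hh (K + Q0) [x]`,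
`L s = |it h K ((it h Q0 [b]).take s)|` (`L (card I0) ≤ |U|`).  Different elements of `I0` have different images at every position (`MI.push`).  Window `s`,
thread `x`: `w = (it hh Q0 [x])[s]`; there is `q ≤ Q` with `e ∈ it hh q [w]`, at the position `j`.  By `MI.push` (twice, or once with level `q + Q0`) the elements of the
threads at this place form a minimal image containing `e` (over `pr e`).  By `H` there is `f ≠ e` in it, the element of a thread `y ≠ x`, with
`Sw k e f`, so `Sw (K - q) e f` (`Sw.mono`).  The word `it hh (K - q) [e]` sits in `V x` at the position `p = |it h (K-q) ((it h (q + Q0) [b]).take (|it h q ((it h Q0 [b]).take s)| + j))|`,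
`it hh (K - q) [f]` in `V y` at the same position (`it_get`); so `v = p + |X|`, `v' = p + |X ++ Y|`, inside the window `s`; `U[v, v') = Y = W z`. -/
theorem no_switch [Nonempty α] [Fintype P] [Fintype T] (k : ℕ) (e : P)
    (H : ∀ I, S.MI (S.pr e) I → e ∈ I → ∃ f ∈ I, f ≠ e ∧ S.Sw k e f) : False := by
  classical
  obtain ⟨b⟩ : Nonempty α := inferInstance
  obtain ⟨I0, hI0⟩ := MI.exists S b
  obtain ⟨Q, hQ⟩ := S.reach_bdd
  obtain ⟨Q0, hQ0⟩ := S.grow (I0.card + 1)
  have hlen0 : I0.card < (it S.h Q0 [b]).length := hQ0 Q0 le_rfl b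
  obtain ⟨x0, hx0⟩ := MI.nonempty S hI0
  have hprI : ∀ x ∈ I0, S.pr x = b := fun x hx => MI.pr_eq S hI0 hx
  haveI : Nonempty {x // x ∈ I0} := ⟨⟨x0, hx0⟩⟩
  have hcard : Fintype.card {x // x ∈ I0} = I0.card := Fintype.card_coe I0
  refine chain S (ι := {x // x ∈ I0}) (it S.h (Q + k + Q0) [b])
    (fun x => it S.hh (Q + k + Q0) [x.1]) ?_ ?_ ?_
    (fun s => (it S.h (Q + k) ((it S.h Q0 [b]).take s)).length) ?_ ?_ ?_
  · intro x
    rw [S.map_it]
    have := hprI x.1 x.2
    simp only [List.map_cons, List.map_nil, this]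
  · intro x
    exact S.tile_it _ _
  · intro x y hxy i hi heq
    have hb : (it S.h (Q + k + Q0) [b])[i]? = some ((it S.h (Q + k + Q0) [b])[i]) :=
      List.getElem?_eq_getElem hi
    obtain ⟨I', -, -, -, h4⟩ := MI.push S hI0 hb
    exact hxy (Subtype.ext (h4 x.1 x.2 y.1 y.2 heq))
  · intro s
    have h1 : ((it S.h Q0 [b]).take (s + 1)).take s = (it S.h Q0 [b]).take s := by
      rw [List.take_take]
      congr 1
      omega
    have h2 := ts2_length_take S.h (Q + k) ((it S.h Q0 [b]).take (s + 1)) s
    rw [h1] at h2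
    exact h2
  · rw [it_add S.h (Q + k) Q0]
    exact ts2_length_take S.h (Q + k) (it S.h Q0 [b]) _
  · rintro s hs ⟨x, hx⟩
    rw [hcard] at hs
    have hsl : s < (it S.h Q0 [b]).length := hs.trans hlen0
    have hprx := hprI x hx
    have hlx : (it S.hh Q0 [x]).length = (it S.h Q0 [b]).length := by
      rw [S.length_it]
      simp only [List.map_cons, List.map_nil, hprx]
    obtain ⟨w, hw⟩ : ∃ w, (it S.hh Q0 [x])[s]? = some w := by
      rw [← hlx] at hsl
      exact ⟨_, List.getElem?_eq_getElem hsl⟩
    have hwb : (it S.h Q0 [b])[s]? = some (S.pr w) := by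
      rw [← hprx]
      exact ts2_pr S hw
    obtain ⟨q, hqQ, heq⟩ := hQ w e
    obtain ⟨j, hj⟩ : ∃ j, (it S.hh q [w])[j]? = some e := List.mem_iff_getElem?.1 heq
    have hjb : (it S.h q [S.pr w])[j]? = some (S.pr e) := ts2_pr S hj
    -- the position of `e`
    obtain ⟨n1, hn1⟩ : ∃ n1, n1 = (it S.h q ((it S.h Q0 [b]).take s)).length + j := ⟨_, rfl⟩
    have hxe : (it S.hh (q + Q0) [x])[n1]? = some e := by
      have h1 := it_get S.hh q hw (ts2_lt hj)
      rw [hj, ts2_len_take, hprx, ← it_add, ← hn1] at h1
      exact h1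
    have hbe : (it S.h (q + Q0) [b])[n1]? = some (S.pr e) := by
      rw [← hprx]
      exact ts2_pr S hxe
    obtain ⟨I', hI', h2, h3, h4⟩ := MI.push S hI0 hbe
    have heI : e ∈ I' := by
      obtain ⟨x', hx', hx''⟩ := h3 x hx
      rw [hxe, Option.some.injEq] at hx''
      rw [hx'']
      exact hx'
    obtain ⟨f, hf, hfe, hsw⟩ := H I' hI' heI
    obtain ⟨y, hy, hyf⟩ := h2 f hf
    have hprf : S.pr f = S.pr e := MI.pr_eq S hI' hf
    have hpry := hprI y hy
    have hyx : (⟨y, hy⟩ : {x // x ∈ I0}) ≠ ⟨x, hx⟩ := by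
      intro h5
      have h6 : y = x := congrArg Subtype.val h5
      rw [h6, hxe, Option.some.injEq] at hyf
      exact hfe hyf.symm
    obtain ⟨k', hk'⟩ : ∃ k', k' = Q + k - q := ⟨_, rfl⟩
    have hsw' : S.Sw k' e f := Sw.mono S hsw hprf (by omega)
    obtain ⟨X, Y, Z, z, x1, y1, g1, g2, g3, g4, g5, g6⟩ := hsw'
    have hK : Q + k + Q0 = k' + (q + Q0) := by omega
    have hK2 : Q + k = k' + q := by omega
    obtain ⟨p, hp⟩ : ∃ p, p = (it S.h k' ((it S.h (q + Q0) [b]).take n1)).length := ⟨_, rfl⟩
    -- the decomposition of the window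
    have hB : it S.h Q0 [b] = (it S.h Q0 [b]).take s ++ S.pr w :: (it S.h Q0 [b]).drop (s + 1) :=
      ts2_split hwb
    have hpL : p = (it S.h (Q + k) ((it S.h Q0 [b]).take s)).length +
        (it S.h k' ((it S.h q [S.pr w]).take j)).length := by
      have h5 : (it S.h (q + Q0) [b]).take n1 = it S.h q ((it S.h Q0 [b]).take s) ++
          (it S.h q [S.pr w]).take j := by
        have h6 : it S.h (q + Q0) [b] = it S.h q ((it S.h Q0 [b]).take s) ++
            (it S.h q [S.pr w] ++ it S.h q ((it S.h Q0 [b]).drop (s + 1))) := by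
          rw [it_add, ← it_append, ← it_append]
          conv_lhs => rw [hB]
          rfl
        rw [h6, hn1, List.take_append, List.take_of_length_le (by omega), Nat.add_sub_cancel_left,
          List.take_append_of_le_length (ts2_lt hjb).le]
      rw [hp, h5, it_append, List.length_append, hK2, it_add S.h k' q]
    have hnext : (it S.h (Q + k) ((it S.h Q0 [b]).take (s + 1))).length =
        (it S.h (Q + k) ((it S.h Q0 [b]).take s)).length +
          (it S.h k' (it S.h q [S.pr w])).length := by
      rw [ts2_take hwb, it_append, List.length_append]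
      congr 2
      rw [hK2, it_add]
    have hblock : (it S.h k' ((it S.h q [S.pr w]).take j)).length +
        (it S.h k' [S.pr e]).length ≤ (it S.h k' (it S.h q [S.pr w])).length := by
      have h5 := ts2_length_take S.h k' (it S.h q [S.pr w]) (j + 1)
      rw [ts2_take hjb, it_append, List.length_append] at h5
      exact h5
    have hXY : (X ++ Y).length < (it S.h k' [S.pr e]).length := by
      have h5 := ts2_lt g5
      rw [S.length_it] at h5
      simp only [List.map_cons, List.map_nil, hprf] at h5
      exact h5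
    refine ⟨⟨y, hy⟩, hyx, p + X.length, p + (X ++ Y).length, x1, y1, ?_, ?_, ?_, ?_, g4, ?_, g6,
      z, ?_⟩
    · show (it S.h (Q + k) ((it S.h Q0 [b]).take s)).length ≤ p + X.length
      omega
    · rw [List.length_append]
      omega
    · show p + (X ++ Y).length < (it S.h (Q + k) ((it S.h Q0 [b]).take (s + 1))).length
      omega
    · show (it S.hh (Q + k + Q0) [x])[p + X.length]? = some x1
      have h5 := it_get S.hh k' hxe (ts2_lt g3)
      rw [g3, ts2_len_take, hprx, ← hp, ← it_add, ← hK] at h5
      exact h5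
    · show (it S.hh (Q + k + Q0) [y])[p + (X ++ Y).length]? = some y1
      have h5 := it_get S.hh k' hyf (ts2_lt g5)
      rw [g5, ts2_len_take, hpry, ← hp, ← it_add, ← hK] at h5
      exact h5
    · have h5 : it S.h (Q + k + Q0) [b] = it S.h k' ((it S.h (q + Q0) [b]).take n1) ++
          (X ++ (Y ++ (Z ++ it S.h k' ((it S.h (q + Q0) [b]).drop (n1 + 1))))) := by
        rw [hK, it_add S.h k' (q + Q0)]
        conv_lhs => rw [ts2_split hbe]
        have h6 : ∀ (a : α) (l : List α), it S.h k' (a :: l) = it S.h k' [a] ++ it S.h k' l := by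
          intro a l
          rw [← it_append]
          rfl
        rw [it_append, h6, g1]
        simp only [List.append_assoc]
      rw [h5, ← List.append_assoc, List.drop_append_of_le_length (by
        rw [List.length_append, ← hp]), List.drop_of_length_le (by
        rw [List.length_append, ← hp]), List.nil_append, List.take_append_of_le_length (by
        rw [List.length_append]; omega), List.take_of_length_le (by
        rw [List.length_append]; omega), g2]

end D0L.TS
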