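import Pool.Agent.H.MP_374efc_lc.Fr.Te2

/-!
# MP_374efc_lc, free case: neighbours of equivalent elements

Paper proof: /team-store/h43_374efc_L3.md
-/

set_option autoImplicit false

namespace D0L.TS

variable {α P T : Type} [Fintype P] [Nonempty α] [Fintype T] (S : TS α P T)

omit [Fintype P] [Nonempty α] [Fintype T] in
theorem tt1_len (e : P) (k : ℕ) : (it S.hh k [e]).length = (it S.h k [S.pr e]).length := by
  rw [S.length_it, List.map_cons, List.map_nil]

omit [Fintype P] [Nonempty α] [Fintype T] in
theorem tt1_pr {e : P} {k J : ℕ} {b : α} {x : P} (hb : (it S.h k [S.pr e])[J]? = some b)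
    (hx : (it S.hh k [e])[J]? = some x) : S.pr x = b := by
  have h1 : it S.h k [S.pr e] = (it S.hh k [e]).map S.pr := by
    rw [S.map_it, List.map_cons, List.map_nil]
  rw [h1, List.getElem?_map, hx, Option.map_some] at hb
  exact Option.some.inj hb

omit [Fintype P] [Nonempty α] [Fintype T] in
/-- Reading in the block of the position `J₀`. -/
theorem tt1_get {e : P} {k₀ J₀ k J : ℕ} {b : α} {x : P} (hx : (it S.hh k₀ [e])[J₀]? = some x)
    (hb : (it S.h k₀ [S.pr e])[J₀]? = some b) (hJ : J < (it S.h k [b]).length) :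
    (it S.hh (k + k₀) [e])[(it S.h k ((it S.h k₀ [S.pr e]).take J₀)).length + J]? =
      (it S.hh k [x])[J]? := by
  have h1 : (it S.hh k ((it S.hh k₀ [e]).take J₀)).length =
      (it S.h k ((it S.h k₀ [S.pr e]).take J₀)).length := by
    rw [S.length_it, List.map_take, S.map_it, List.map_cons, List.map_nil]
  rw [it_add, ← h1]
  refine it_get S.hh k hx ?_
  rw [S.tt1_len, S.tt1_pr hb hx]
  exact hJ

omit [Fintype P] [Nonempty α] [Fintype T] in
/-- Two elements over the same letter whose images agree at `J` have the same higher images on a block. -/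
theorem tt1_block {y y' : P} (hp : S.pr y = S.pr y') {K l J L : ℕ}
    (hJ : J < (it S.h K [S.pr y]).length) (hL : ∀ a, L ≤ (it S.h l [a]).length)
    (h1 : (it S.hh K [y])[J]? = (it S.hh K [y'])[J]?) {t : ℕ} (ht : t < L) :
    (it S.hh (l + K) [y])[(it S.h l ((it S.h K [S.pr y]).take J)).length + t]? =
      (it S.hh (l + K) [y'])[(it S.h l ((it S.h K [S.pr y]).take J)).length + t]? := by
  have hb : (it S.h K [S.pr y])[J]? = some ((it S.h K [S.pr y])[J]) :=
    List.getElem?_eq_getElem hJ
  have hJ' : J < (it S.hh K [y]).length := by rw [S.tt1_len]; exact hJ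
  have hx : (it S.hh K [y])[J]? = some ((it S.hh K [y])[J]) := List.getElem?_eq_getElem hJ'
  have hx' : (it S.hh K [y'])[J]? = some ((it S.hh K [y])[J]) := by rw [← h1]; exact hx
  have ht' : t < (it S.h l [(it S.h K [S.pr y])[J]]).length := lt_of_lt_of_le ht (hL _)
  rw [S.tt1_get hx hb ht', hp]
  have hb' : (it S.h K [S.pr y'])[J]? = some ((it S.h K [S.pr y])[J]) := by rw [← hp]; exact hb
  rw [S.tt1_get hx' hb' ht']

omit [Fintype P] [Nonempty α] [Fintype T] in
theorem tt1_block_le (a : α) {K l J L : ℕ} (hJ : J < (it S.h K [a]).length)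
    (hL : ∀ a, L ≤ (it S.h l [a]).length) :
    (it S.h l ((it S.h K [a]).take J)).length + L ≤ (it S.h (l + K) [a]).length := by
  have h1 : it S.h K [a] = (it S.h K [a]).take J ++ ([(it S.h K [a])[J]] ++
      (it S.h K [a]).drop (J + 1)) := by
    conv_lhs => rw [← List.take_append_drop J (it S.h K [a])]
    rw [List.drop_eq_getElem_cons hJ]
    rfl
  have h2 : it S.h (l + K) [a] = it S.h l ((it S.h K [a]).take J) ++
      (it S.h l [(it S.h K [a])[J]] ++ it S.h l ((it S.h K [a]).drop (J + 1))) := by
    rw [it_add]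
    conv_lhs => rw [h1]
    rw [it_append, it_append]
  rw [h2, List.length_append, List.length_append]
  have h3 := hL ((it S.h K [a])[J])
  omega

/-- Proof.  Suppose `¬ Eqv f f'`.  `it hh k0 [g] = A ++ e :: f :: B`.  `no_switch` for the element `g` and the level `K + k0`, `K = Kc + l` where `Kc` is a level at which the
letters `pr e`, `pr f` have positions of minimal rank (`rc_level` or `MI.exists` etc.: a common level for the two letters), `l` with `L ≤ |it h l [b]|` for all `b`,
`L` of `sw_of_bridge`.  Let `MI (pr g) I`, `g ∈ I`.  The elements of the threads `it hh k0 [x]`, `x ∈ I`, at the position `|A| + 1` form a minimal image over `pr f`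
(`MI.push`), so one of them is equivalent to `f'` (`MI.class`): the one of `x`, `x ≠ g`.  `V' = it hh K [e', f']` is a tile word (`Adj e' f'`); it agrees with
`it hh (K + k0) [g]` on the block (of level `l`) of a position of minimal rank of `pr e` (because `e ~ e'`), and with `it hh (K + k0) [x]` on the block of a
position of minimal rank of `pr f`. -/
theorem adj_right [Fintype α] {e f e' f' : P} (h1 : S.Adj e f) (h2 : S.Adj e' f')
    (hp : S.pr f = S.pr f') (he : S.Eqv e e') : S.Eqv f f' := by
  by_contra hcon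
  obtain ⟨g, k0, A, B, hg⟩ := h1
  obtain ⟨g', k0', A', B', hg'⟩ := h2
  obtain ⟨L, hbr⟩ := S.sw_of_bridge
  obtain ⟨Kc, hKc⟩ := S.rc_level
  obtain ⟨l, hl⟩ := S.grow L
  have hL : ∀ a, L ≤ (it S.h l [a]).length := fun a => hl l le_rfl a
  obtain ⟨Ja, hJa⟩ := hKc (S.pr e)
  obtain ⟨Jb, hJb⟩ := hKc (S.pr f)
  -- letters
  have hgl : it S.h k0 [S.pr g] = A.map S.pr ++ S.pr e :: S.pr f :: B.map S.pr := by
    have h3 : it S.h k0 [S.pr g] = (it S.hh k0 [g]).map S.pr := by
      rw [S.map_it, List.map_cons, List.map_nil]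
    rw [h3, hg, List.map_append, List.map_cons, List.map_cons]
  have hge : (it S.hh k0 [g])[A.length]? = some e := by
    rw [hg, List.getElem?_append_right (le_refl _), Nat.sub_self]
    rfl
  have hgf : (it S.hh k0 [g])[A.length + 1]? = some f := by
    rw [hg, List.getElem?_append_right (by omega), Nat.add_sub_cancel_left]
    rfl
  have hla : (it S.h k0 [S.pr g])[A.length]? = some (S.pr e) := by
    rw [hgl, List.getElem?_append_right (by rw [List.length_map]), List.length_map, Nat.sub_self]
    rfl
  have hlb : (it S.h k0 [S.pr g])[A.length + 1]? = some (S.pr f) := by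
    rw [hgl, List.getElem?_append_right (by rw [List.length_map]; omega), List.length_map,
      Nat.add_sub_cancel_left]
    rfl
  have hta : (it S.h k0 [S.pr g]).take A.length = A.map S.pr := by
    rw [hgl, List.take_append_of_le_length (by rw [List.length_map])]
    rw [List.take_of_length_le (by rw [List.length_map])]
  have htb : (it S.h k0 [S.pr g]).take (A.length + 1) = A.map S.pr ++ [S.pr e] := by
    have h3 : A.map S.pr ++ S.pr e :: S.pr f :: B.map S.pr =
        (A.map S.pr ++ [S.pr e]) ++ S.pr f :: B.map S.pr := by simp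
    rw [hgl, h3, List.take_append_of_le_length (by simp)]
    rw [List.take_of_length_le (by simp)]
  have hte : ∀ K, S.Tile (it S.hh K [e', f']) := by
    intro K
    have h3 : S.Tile (it S.hh k0' [g']) := S.tile_it k0' g'
    rw [hg'] at h3
    have h4 : S.Tile [e', f'] := by
      obtain ⟨z, hz⟩ := h3
      refine ⟨z, List.IsInfix.trans ?_ hz⟩
      exact ⟨A', B', by simp⟩
    exact Tile.it S h4 K
  refine S.no_switch (l + Kc + k0) g fun I hI hgI => ?_
  obtain ⟨I', hI', hI1, -, -⟩ := MI.push S hI hlb
  obtain ⟨x', hx', hxe⟩ := MI.class S hI' hp.symm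
  obtain ⟨x, hxI, hxx⟩ := hI1 x' hx'
  have hxp : S.pr x = S.pr g := MI.pr_eq S hI hxI
  refine ⟨x, hxI, ?_, ?_⟩
  · intro h3
    rw [h3, hgf] at hxx
    have h4 : f = x' := Option.some.inj hxx
    rw [← h4] at hxe
    exact hcon hxe
  have hx'p : S.pr x' = S.pr f := MI.pr_eq S hI' hx'
  set K := l + Kc with hK
  have hsplit : it S.hh K [e', f'] = it S.hh K [e'] ++ it S.hh K [f'] := by
    rw [← it_append]
    rfl
  have hlene : (it S.hh K [e']).length = (it S.h K [S.pr e]).length := by
    rw [S.tt1_len, ← he.1]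
  have hlenf : (it S.hh K [f']).length = (it S.h K [S.pr f]).length := by
    rw [S.tt1_len, ← hp]
  have hPa := S.tt1_block_le (S.pr e) hJa.1 hL
  have hPb := S.tt1_block_le (S.pr f) hJb.1 hL
  rw [← hK] at hPa hPb
  set pa := (it S.h l ((it S.h Kc [S.pr e]).take Ja)).length with hpa
  set pb := (it S.h l ((it S.h Kc [S.pr f]).take Jb)).length with hpb
  refine hbr (K + k0) g x (it S.hh K [e', f']) (it S.h K (A.map S.pr)) (it S.h K (B.map S.pr))
    (hte K) ?_ pa ((it S.h K [S.pr e]).length + pb) (by omega) ?_ ?_ ?_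
  · have hadd : it S.h (K + k0) [S.pr g] = it S.h K (it S.h k0 [S.pr g]) := it_add _ _ _ _
    rw [S.map_it, List.map_cons, List.map_cons, List.map_nil, ← he.1, ← hp, hadd, hgl,
      ← it_append, ← it_append]
    simp
  · rw [hsplit, List.length_append, hlene, hlenf]
    omega
  · intro i hi hi'
    obtain ⟨t, rfl⟩ : ∃ t, i = pa + t := ⟨i - pa, by omega⟩
    have ht : t < L := by omega
    have h3 : (it S.hh K [e', f'])[pa + t]? = (it S.hh K [e'])[pa + t]? := by
      rw [hsplit, List.getElem?_append_left (by rw [hlene]; omega)]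
    have h4 : (it S.hh (K + k0) [g])[(it S.h K (A.map S.pr)).length + (pa + t)]? =
        (it S.hh K [e])[pa + t]? := by
      rw [← hta]
      exact S.tt1_get hge hla (by omega)
    rw [h3, h4]
    have h5 := S.tt1_block he.1 hJa.1 hL (he.2 Kc Ja hJa) ht
    exact h5.symm
  · intro i hi hi'
    obtain ⟨t, rfl⟩ : ∃ t, i = (it S.h K [S.pr e]).length + pb + t := ⟨i - ((it S.h K [S.pr e]).length + pb), by omega⟩
    have ht : t < L := by omega
    have h3 : (it S.hh K [e', f'])[(it S.h K [S.pr e]).length + pb + t]? =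
        (it S.hh K [f'])[pb + t]? := by
      rw [hsplit, List.getElem?_append_right (by rw [hlene]; omega), hlene]
      congr 1
      omega
    have h6 : (it S.h K ((it S.h k0 [S.pr g]).take (A.length + 1))).length =
        (it S.h K (A.map S.pr)).length + (it S.h K [S.pr e]).length := by
      rw [htb, it_append, List.length_append]
    have h4 : (it S.hh (K + k0) [x])[(it S.h K (A.map S.pr)).length +
        ((it S.h K [S.pr e]).length + pb + t)]? = (it S.hh K [x'])[pb + t]? := by
      have h7 : (it S.h K (A.map S.pr)).length + ((it S.h K [S.pr e]).length + pb + t) =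
          (it S.h K ((it S.h k0 [S.pr x]).take (A.length + 1))).length + (pb + t) := by
        rw [hxp, h6]
        omega
      rw [h7]
      refine S.tt1_get hxx (b := S.pr f) ?_ (by omega)
      rw [hxp]
      exact hlb
    rw [h3, h4]
    have hx'f : S.pr x' = S.pr f' := hxe.1
    have h5 := S.tt1_block hx'f (K := Kc) (l := l) (J := Jb) (L := L)
      (by rw [hx'p]; exact hJb.1) hL (hxe.2 Kc Jb (by rw [hx'p]; exact hJb)) ht
    rw [hx'p] at h5
    exact h5.symm

end D0L.TS
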