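import Pool.Agent.H.MP_374efc_lc.Fr.Tt1

/-!
# MP_374efc_lc, free case: mirror image; token starts are equivalent

Paper proof: /team-store/h43_374efc_L3.md
-/

set_option autoImplicit false

namespace D0L.TS

variable {α P T : Type} [Fintype P] [Nonempty α] [Fintype T] (S : TS α P T)

/-- Mirror image (`S.rev`). -/
theorem adj_left [Fintype α] {e f e' f' : P} (h1 : S.Adj e f) (h2 : S.Adj e' f')
    (hp : S.pr e = S.pr e') (hf : S.Eqv f f') : S.Eqv e e' :=
  S.rev_eqv.1 (S.rev.adj_right (S.rev_adj.2 h1) (S.rev_adj.2 h2) hp (S.rev_eqv.2 hf))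

/-- Token starts over the same letter are equivalent.
Proof.  Suppose not.  `no_switch` for `e` and the level `K = Kc + l`: `MI (pr e) I`, `e ∈ I`; `f ∈ I` with `f ~ e'` (`MI.class`), `f ≠ e`.  `V' = it hh K [e']` begins with a token
start (`st_it`), and agrees with `it hh K [f]` on the block of a position of minimal rank (long, so it contains a token start `y` at `v'`).  Switch:
`X = []`, `Y = (it h K [pr e]).take v' = W z` (`seg_get`), `x` = first element of `it hh K [e]`. -/
theorem st_eqv [Fintype α] {e e' : P} (hp : S.pr e = S.pr e') (he : S.St e) (he' : S.St e') :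
    S.Eqv e e' := by
  by_contra hne
  obtain ⟨Kc, hKc⟩ := S.rc_level
  obtain ⟨J, hJ⟩ := hKc (S.pr e)
  obtain ⟨L, hL⟩ := S.long_st
  obtain ⟨l, hl⟩ := S.grow L
  refine S.no_switch (l + Kc) e fun I hI heI => ?_
  obtain ⟨f, hf, hfe⟩ := MI.class S hI (e := e') hp.symm
  have hprf : S.pr f = S.pr e := hfe.1.trans hp.symm
  refine ⟨f, hf, ?_, ?_⟩
  · rintro rfl
    exact hne hfe
  · -- the common image of `f` and `e'`
    obtain ⟨x0, hx0⟩ := S.tr2_some hprf hJ.1
    have hx0' : (it S.hh Kc [e'])[J]? = some x0 := by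
      rw [← hfe.2 Kc J (by rw [hprf]; exact hJ)]
      exact hx0
    have hb : (it S.h Kc [S.pr e])[J]? = some (S.pr x0) := by
      rw [← hprf]
      exact ts2_pr S hx0
    have hlen : L ≤ (it S.hh l [x0]).length := by
      rw [S.tr2_len rfl]
      exact hl l le_rfl (S.pr x0)
    obtain ⟨A, y, B, hAB, hy⟩ := hL _ (S.tile_it l x0) hlen
    have hyA : (it S.hh l [x0])[A.length]? = some y := by
      rw [hAB, List.getElem?_append_right (le_refl _), Nat.sub_self]
      rfl
    have hAl : A.length < (it S.h l [S.pr x0]).length := by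
      rw [← S.tr2_len rfl]
      exact ts2_lt hyA
    obtain ⟨q, hq⟩ : ∃ q, q = (it S.h l ((it S.h Kc [S.pr e]).take J)).length + A.length :=
      ⟨_, rfl⟩
    have hfq : (it S.hh (l + Kc) [f])[q]? = some y := by
      rw [hq, S.tr2_get hprf hx0 hb hAl]
      exact hyA
    have heq : (it S.hh (l + Kc) [e'])[q]? = some y := by
      rw [hq, S.tr2_get hp.symm hx0' hb hAl]
      exact hyA
    obtain ⟨y0, V0, hV0, hy0⟩ := S.st_it he' (l + Kc)
    obtain ⟨x1, V1, hV1, hx1⟩ := S.st_it he (l + Kc)
    have hy00 : (it S.hh (l + Kc) [e'])[0]? = some y0 := by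
      rw [hV0]
      rfl
    have hx10 : (it S.hh (l + Kc) [e])[0]? = some x1 := by
      rw [hV1]
      rfl
    obtain ⟨z, hz⟩ := S.seg_get (S.tile_it (l + Kc) e') hy00 heq hy0 hy (Nat.zero_le q)
    have hmap : it S.h (l + Kc) [S.pr e] = (it S.hh (l + Kc) [e']).map S.pr := by
      rw [S.map_it, List.map_cons, List.map_nil, hp]
    have hql : q ≤ (it S.h (l + Kc) [S.pr e]).length := by
      have h1 := ts2_lt hfq
      rw [S.tr2_len hprf] at h1
      exact h1.le
    refine ⟨[], (it S.h (l + Kc) [S.pr e]).take q, (it S.h (l + Kc) [S.pr e]).drop q, z, x1, y,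
      ?_, ?_, hx10, hx1, ?_, hy⟩
    · rw [List.nil_append, List.take_append_drop]
    · rw [hmap, ← List.map_take]
      rw [List.drop_zero, Nat.sub_zero] at hz
      rw [hz]
      rfl
    · rw [List.nil_append, List.length_take, Nat.min_eq_left hql]
      exact hfq

/-- Mirror image. -/
theorem en_eqv [Fintype α] {e e' : P} (hp : S.pr e = S.pr e') (he : S.En e) (he' : S.En e') :
    S.Eqv e e' :=
  S.rev_eqv.1 (S.rev.st_eqv hp (S.rev_st.2 he) (S.rev_st.2 he'))

end D0L.TS
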