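import Pool.Agent.H.MP_374efc_lc.Fr.Tt2

/-!
# MP_374efc_lc, free case: existence of neighbours

Paper proof: /team-store/h43_374efc_L3.md
-/

set_option autoImplicit false

namespace D0L.TS

variable {α P T : Type} [Fintype P] [Nonempty α] [Fintype T] (S : TS α P T)

theorem Adj.legal {e f : P} (h1 : S.Adj e f) : Legal S.h [S.pr e, S.pr f] := by
  obtain ⟨g, k, A, B, hg⟩ := h1
  refine ⟨S.pr g, k, A.map S.pr, B.map S.pr, ?_⟩
  have h2 := S.map_it k [g]
  rw [hg] at h2
  simpa using h2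

omit [Fintype P] [Nonempty α] [Fintype T] in
theorem tt3_adj {x : P} {k J : ℕ} {e f : P} (h1 : (it S.hh k [x])[J]? = some e)
    (h2 : (it S.hh k [x])[J + 1]? = some f) : S.Adj e f := by
  obtain ⟨h3, h4⟩ := List.getElem?_eq_some_iff.1 h1
  obtain ⟨h5, h6⟩ := List.getElem?_eq_some_iff.1 h2
  refine ⟨x, k, (it S.hh k [x]).take J, (it S.hh k [x]).drop (J + 1 + 1), ?_⟩
  conv_lhs => rw [← List.take_append_drop J (it S.hh k [x])]
  rw [List.drop_eq_getElem_cons h3, List.drop_eq_getElem_cons h5, h4, h6]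

omit [Fintype P] [Nonempty α] [Fintype T] in
theorem tt3_pr {x : P} {c : α} (hx : S.pr x = c) {k J : ℕ} {a : α} {e : P}
    (ha : (it S.h k [c])[J]? = some a) (he : (it S.hh k [x])[J]? = some e) : S.pr e = a := by
  have h1 : it S.h k [c] = (it S.hh k [x]).map S.pr := by
    rw [S.map_it, List.map_cons, List.map_nil, hx]
  rw [h1, List.getElem?_map, he, Option.map_some] at ha
  exact Option.some.inj ha

omit [Fintype P] [Nonempty α] [Fintype T] in
theorem tt3_some {x : P} {c : α} (hx : S.pr x = c) {k J : ℕ} {a : α}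
    (ha : (it S.h k [c])[J]? = some a) : ∃ e, (it S.hh k [x])[J]? = some e ∧ S.pr e = a := by
  have h1 : it S.h k [c] = (it S.hh k [x]).map S.pr := by
    rw [S.map_it, List.map_cons, List.map_nil, hx]
  rw [h1, List.getElem?_map] at ha
  obtain ⟨e, he, h2⟩ := Option.map_eq_some_iff.1 ha
  exact ⟨e, he, h2⟩

/-- Proof: `[a, b] <:+: it h k [c]`, `I` with `MI c I`; the threads `it hh k [x]`, `x ∈ I`, have at this place pairs of neighbours; their first elements
form a minimal image over `a` (`MI.push`, `MI.class`). -/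
theorem adj_exists_right {a b : α} (hab : Legal S.h [a, b]) {e : P} (he : S.pr e = a) :
    ∃ e' f', S.Adj e' f' ∧ S.Eqv e e' ∧ S.pr f' = b := by
  obtain ⟨c, k, A, B, hc⟩ := hab
  obtain ⟨I, hI⟩ := MI.exists S c
  have ha : (it S.h k [c])[A.length]? = some a := by
    rw [← hc, List.append_assoc, List.getElem?_append_right le_rfl, Nat.sub_self]
    rfl
  have hb : (it S.h k [c])[A.length + 1]? = some b := by
    rw [← hc, List.append_assoc, List.getElem?_append_right (by omega), Nat.add_sub_cancel_left]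
    rfl
  obtain ⟨I', hI', h1, -, -⟩ := MI.push S hI ha
  obtain ⟨f, hf, hfe⟩ := MI.class S hI' he
  obtain ⟨x, hx, hxf⟩ := h1 f hf
  obtain ⟨f', hf', hp⟩ := S.tt3_some (MI.pr_eq S hI hx) hb
  exact ⟨f, f', S.tt3_adj hxf hf', Eqv.symm S hfe, hp⟩

theorem adj_exists_left {a b : α} (hab : Legal S.h [a, b]) {f : P} (hf : S.pr f = b) :
    ∃ e' f', S.Adj e' f' ∧ S.Eqv f f' ∧ S.pr e' = a := by
  obtain ⟨c, k, A, B, hc⟩ := hab
  obtain ⟨I, hI⟩ := MI.exists S c
  have ha : (it S.h k [c])[A.length]? = some a := by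
    rw [← hc, List.append_assoc, List.getElem?_append_right le_rfl, Nat.sub_self]
    rfl
  have hb : (it S.h k [c])[A.length + 1]? = some b := by
    rw [← hc, List.append_assoc, List.getElem?_append_right (by omega), Nat.add_sub_cancel_left]
    rfl
  obtain ⟨I', hI', h1, -, -⟩ := MI.push S hI hb
  obtain ⟨f', hf', hfe⟩ := MI.class S hI' hf
  obtain ⟨x, hx, hxf⟩ := h1 f' hf'
  obtain ⟨e', he', hp⟩ := S.tt3_some (MI.pr_eq S hI hx) ha
  exact ⟨e', f', S.tt3_adj he' hxf, Eqv.symm S hfe, hp⟩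

end D0L.TS
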