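import Pool.Agent.H.MP_374efc_lc.Fr.Tt3

/-!
# MP_374efc_lc, free case: neighbours in images and tokens

Paper proof: /team-store/h43_374efc_L3.md
-/

set_option autoImplicit false

namespace D0L.TS

variable {α P T : Type} [Fintype P] [Nonempty α] [Fintype T] (S : TS α P T)

omit [Fintype P] in
/-- Products of tokens in the words `H^q(t)` are factors of some `hh^k(g)`. -/
theorem tt4_word {z : List T} {q : ℕ} {t : T} (hz : z <:+: it S.H q [t]) :
    ∃ (g : P) (k : ℕ) (A B : List P), it S.hh k [g] = A ++ app S.tk z ++ B := by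
  obtain ⟨g, _⟩ := S.sur (Classical.arbitrary α)
  obtain ⟨L, hL⟩ := S.long_full
  obtain ⟨K, hK⟩ := S.grow L
  have h1 : L ≤ (it S.hh K [g]).length := by
    rw [S.length_it, List.map_cons, List.map_nil]
    exact hK K le_rfl _
  obtain ⟨t', ht'⟩ := hL _ (S.tile_it K g) h1
  obtain ⟨s1, s2, hs⟩ := ht'
  obtain ⟨q', hq'⟩ := S.irr t' t
  obtain ⟨u1, u2, hu⟩ := List.append_of_mem hq'
  obtain ⟨v1, v2, hv⟩ := hz
  have e1 : it S.hh (q + q') (S.tk t') =
      app S.tk (it S.H q u1) ++ app S.tk v1 ++ app S.tk z ++ (app S.tk v2 ++ app S.tk (it S.H q u2)) := by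
    have e2 : S.tk t' = app S.tk [t'] := (app_singleton _ _).symm
    have e3 : u1 ++ t :: u2 = u1 ++ ([t] ++ u2) := rfl
    rw [e2, S.it_tk, it_add, hu, e3, it_append, it_append, ← hv]
    simp only [app_append, List.append_assoc]
  refine ⟨g, (q + q') + K, it S.hh (q + q') s1 ++ (app S.tk (it S.H q u1) ++ app S.tk v1),
    (app S.tk v2 ++ app S.tk (it S.H q u2)) ++ it S.hh (q + q') s2, ?_⟩
  rw [it_add, ← hs, it_append, it_append, e1]
  simp only [List.append_assoc]

/-- Neighbours in `hh(e)`. -/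
theorem adj_hh {e x y : P} {A B : List P} (he : S.hh e = A ++ x :: y :: B) : S.Adj x y := ⟨e, 1, A, B, by rw [it_one, app_singleton]; exact he⟩

/-- Junctions. -/
theorem Adj.hh {e f x y : P} {A B : List P} (h1 : S.Adj e f) (he : S.hh e = A ++ [x])
    (hf : S.hh f = y :: B) : S.Adj x y := by
  obtain ⟨g, k, A0, B0, hg⟩ := h1
  refine ⟨g, k + 1, app S.hh A0 ++ A, B ++ app S.hh B0, ?_⟩
  rw [it_succ, hg, app_append, app_cons, app_cons, he, hf]
  simp

/-- Neighbours in a token.
Proof: some `it hh k [g]` contains a full token (`long_full`), so `it hh (q + k) [g]` contains the token `tk t` for a suitable `q` (`irr`, `it_tk`). -/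
theorem adj_tk {t : T} {x y : P} {A B : List P} (ht : S.tk t = A ++ x :: y :: B) : S.Adj x y := by
  obtain ⟨g, k, A', B', hg⟩ := S.tt4_word (z := [t]) (q := 0) (t := t) ⟨[], [], by simp [it_zero]⟩
  rw [app_singleton, ht] at hg
  refine ⟨g, k, A' ++ A, B ++ B', ?_⟩
  rw [hg]
  simp

/-- Neighbours in the product of tokens `z`, if `z` is a factor of some `H^q(t)`.
Proof: some `it hh k [g]` contains a full token `tk t'` (`long_full`), and `t ∈ it H q' [t']` (`irr`), so `it hh (q + q' + k) [g]` contains `app tk (it H q [t])`, which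
contains `app tk z`. -/
theorem adj_word {z : List T} {q : ℕ} {t : T} (hz : z <:+: it S.H q [t]) {x y : P} {A B : List P}
    (h1 : app S.tk z = A ++ x :: y :: B) : S.Adj x y := by
  obtain ⟨g, k, A', B', hg⟩ := S.tt4_word hz
  rw [h1] at hg
  refine ⟨g, k, A' ++ A, B ++ B', ?_⟩
  rw [hg]
  simp

/-- Projected version: the word of a token is legal. -/
theorem legal_tk (t : T) : Legal S.h ((S.tk t).map S.pr) := by
  obtain ⟨g, k, A', B', hg⟩ := S.tt4_word (z := [t]) (q := 0) (t := t) ⟨[], [], by simp [it_zero]⟩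
  rw [app_singleton] at hg
  refine ⟨S.pr g, k, A'.map S.pr, B'.map S.pr, ?_⟩
  have h2 := S.map_it k [g]
  rw [hg, List.map_append, List.map_append] at h2
  exact h2

end D0L.TS
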