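import Pool.Agent.H.MP_374efc_lc.Fr.Tr3

/-!
# MP_374efc_lc, free case: the reversed token system: words

Paper proof: /team-store/h43_374efc_L3.md
-/

set_option autoImplicit false

namespace D0L.TS

variable {α P T : Type} (S : TS α P T)

theorem tv1_app {β γ : Type} (g : β → List γ) (z : List β) :
    app (D0L.rev g) z.reverse = (app g z).reverse := by
  induction z with
  | nil => rfl
  | cons t z ih =>
    rw [List.reverse_cons, app_append, ih, app_singleton, app_cons, List.reverse_append]
    rfl

theorem rev_it_hh (k : ℕ) (V : List P) : it S.rev.hh k V.reverse = (it S.hh k V).reverse :=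
  tb1_it_rev S.hh k V

theorem rev_it_h (k : ℕ) (V : List α) : it S.rev.h k V.reverse = (it S.h k V).reverse :=
  tb1_it_rev S.h k V

theorem rev_tk (z : List T) : app S.rev.tk z.reverse = (app S.tk z).reverse :=
  tv1_app S.tk z

theorem rev_W (z : List T) : S.rev.W z.reverse = (S.W z).reverse := by
  have h1 : S.rev.W z.reverse = (app S.rev.tk z.reverse).map S.pr := rfl
  rw [h1, S.rev_tk, List.map_reverse]
  rfl

theorem rev_st {e : P} : S.rev.St e ↔ S.En e := by
  constructor
  · rintro ⟨t, v, h1⟩
    refine ⟨t, v.reverse, ?_⟩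
    have h2 : (S.tk t).reverse = e :: v := h1
    have h3 := congrArg List.reverse h2
    rw [List.reverse_reverse, List.reverse_cons] at h3
    exact h3
  · rintro ⟨t, v, h1⟩
    refine ⟨t, v.reverse, ?_⟩
    have h2 : (S.tk t).reverse = e :: v.reverse := by
      rw [h1]
      simp
    exact h2

theorem rev_en {e : P} : S.rev.En e ↔ S.St e := by
  constructor
  · rintro ⟨t, v, h1⟩
    refine ⟨t, v.reverse, ?_⟩
    have h2 : (S.tk t).reverse = v ++ [e] := h1
    have h3 := congrArg List.reverse h2
    rw [List.reverse_reverse, List.reverse_append] at h3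
    exact h3
  · rintro ⟨t, v, h1⟩
    refine ⟨t, v.reverse, ?_⟩
    have h2 : (S.tk t).reverse = v.reverse ++ [e] := by
      rw [h1, List.reverse_cons]
    exact h2

theorem rev_tile {V : List P} : S.rev.Tile V.reverse ↔ S.Tile V := by
  constructor
  · rintro ⟨z, h1⟩
    refine ⟨z.reverse, ?_⟩
    have h2 := S.rev_tk z.reverse
    rw [List.reverse_reverse] at h2
    rw [h2] at h1
    exact List.reverse_infix.1 h1
  · rintro ⟨z, h1⟩
    refine ⟨z.reverse, ?_⟩
    rw [S.rev_tk]
    exact List.reverse_infix.2 h1

/-- Reading a position from the other end. -/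
theorem rev_get {k J : ℕ} {e : P} (hJ : J < (it S.hh k [e]).length) :
    (it S.rev.hh k [e])[(it S.hh k [e]).length - 1 - J]? = (it S.hh k [e])[J]? := by
  have h1 := S.rev_it_hh k [e]
  rw [List.reverse_singleton] at h1
  rw [h1, List.getElem?_reverse (by omega)]
  congr 1
  omega

end D0L.TS
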