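import Pool.Agent.H.MP_374efc_lc.Fr.Tn3
import Pool.Agent.H.MP_374efc_lc.Fr.Ab4

/-!
# MP_374efc_lc, free case: the action on the classes

Paper proof: /team-store/h43_374efc_L3.md
-/

set_option autoImplicit false

namespace D0L.TS

variable {α P T : Type} [Fintype α] [Fintype P] [Nonempty α] [Fintype T] (S : TS α P T)

/-- The letter of a class. -/
def vv1_pi (x : Quotient S.setoid) : α :=
  Quotient.lift S.pr (fun e f (hab : S.Eqv e f) => hab.1) x

/-- The relation defining the operations on the classes. -/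
def vv1_R (g : Op0 S.h) (x y : Quotient S.setoid) : Prop :=
  match g with
  | Sum.inl p => ∃ e f, x = Quotient.mk S.setoid e ∧ y = Quotient.mk S.setoid f ∧ S.pr e = p.1 ∧
      (S.hh e)[p.2.1]? = some f
  | Sum.inr p => ∃ e f, x = Quotient.mk S.setoid e ∧ y = Quotient.mk S.setoid f ∧
      S.pr e = p.1.1 ∧ S.pr f = p.1.2 ∧ S.Adj e f

omit [Fintype α] [Fintype P] [Nonempty α] [Fintype T] in
theorem vv1_get {e : P} {a : α} (he : S.pr e = a) (j : Fin (S.h a).length) :
    ∃ f, (S.hh e)[j.1]? = some f ∧ S.pr f = (S.h a).get j := by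
  subst he
  have h1 := S.pr_hh e
  have hj : j.1 < (S.hh e).length := by
    have h2 := congrArg List.length h1
    rw [List.length_map] at h2
    rw [h2]
    exact j.2
  refine ⟨(S.hh e)[j.1], List.getElem?_eq_getElem hj, ?_⟩
  have h2 : ((S.hh e).map S.pr)[j.1]? = (S.h (S.pr e))[j.1]? := by rw [h1]
  rw [List.getElem?_map, List.getElem?_eq_getElem hj, List.getElem?_eq_getElem j.2,
    Option.map_some] at h2
  exact Option.some.inj h2

omit [Fintype α] in
theorem vv1_iff {e e' f f' : P} (hp : S.pr e = S.pr e') {j : ℕ} (hf : (S.hh e)[j]? = some f)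
    (hf' : (S.hh e')[j]? = some f') : S.Eqv e e' ↔ S.Eqv f f' := by
  have h1 : ∀ x, it S.hh 1 [x] = S.hh x := fun x => by rw [it_one, app_singleton]
  exact S.eqv_get_iff hp (k := 1) (J := j) (by rw [h1]; exact hf) (by rw [h1]; exact hf')

omit [Fintype α] in
theorem vv1_pre {a : α} (j : Fin (S.h a).length) {f : P} (hf : S.pr f = (S.h a).get j) :
    ∃ e f', S.pr e = a ∧ (S.hh e)[j.1]? = some f' ∧ S.Eqv f' f := by
  obtain ⟨I, hI⟩ := MI.exists S a
  have hb : (it S.h 1 [a])[j.1]? = some ((S.h a).get j) := by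
    rw [it_one, app_singleton, List.getElem?_eq_getElem j.2]
    rfl
  obtain ⟨I', hI', h1, h2, h3⟩ := MI.push S hI hb
  obtain ⟨f', hf', he'⟩ := MI.class S hI' hf
  obtain ⟨x, hx, hx'⟩ := h1 f' hf'
  refine ⟨x, f', MI.pr_eq S hI hx, ?_, he'⟩
  rw [it_one, app_singleton] at hx'
  exact hx'

theorem vv1_h1 (g : Op0 S.h) (x : Quotient S.setoid) (hx : S.vv1_pi x = src0 S.h g) :
    ∃! y, S.vv1_pi y = tgt0 S.h g ∧ S.vv1_R g x y := by
  induction x using Quotient.inductionOn with
  | h e =>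
  rcases g with ⟨a, j⟩ | ⟨⟨a, b⟩, hab⟩
  · have he : S.pr e = a := hx
    obtain ⟨f, hf, hfp⟩ := S.vv1_get he j
    refine ⟨Quotient.mk S.setoid f, ⟨hfp, e, f, rfl, rfl, he, hf⟩, ?_⟩
    rintro y ⟨-, e', f', h1, h2, h3, h4⟩
    have h5 : S.Eqv e e' := Quotient.exact h1
    have h6 : S.Eqv f f' := (S.vv1_iff (he.trans h3.symm) hf h4).1 h5
    rw [h2]
    exact (Quotient.sound (s := S.setoid) h6).symm
  · have he : S.pr e = a := hx
    obtain ⟨e', f, h1, h2, h3⟩ := S.adj_exists_right hab he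
    have he' : S.pr e' = a := h2.1.symm.trans he
    have h2' : Quotient.mk S.setoid e = Quotient.mk S.setoid e' := Quotient.sound (s := S.setoid) h2
    refine ⟨Quotient.mk S.setoid f, ⟨h3, e', f, h2', rfl, he', h3, h1⟩, ?_⟩
    rintro y ⟨-, e'', f'', k1, k2, k3, k4, k5⟩
    have h5 : S.Eqv e' e'' := Eqv.trans S (Eqv.symm S h2) (Quotient.exact k1)
    have h6 : S.Eqv f f'' := S.adj_right h1 k5 (h3.trans k4.symm) h5
    rw [k2]
    exact (Quotient.sound (s := S.setoid) h6).symm

theorem vv1_h2 (g : Op0 S.h) (y : Quotient S.setoid) (hy : S.vv1_pi y = tgt0 S.h g) :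
    ∃! x, S.vv1_pi x = src0 S.h g ∧ S.vv1_R g x y := by
  induction y using Quotient.inductionOn with
  | h f =>
  rcases g with ⟨a, j⟩ | ⟨⟨a, b⟩, hab⟩
  · have hf : S.pr f = (S.h a).get j := hy
    obtain ⟨e, f', he, h1, h2⟩ := S.vv1_pre j hf
    have h2' : Quotient.mk S.setoid f = Quotient.mk S.setoid f' :=
      Quotient.sound (s := S.setoid) (Eqv.symm S h2)
    refine ⟨Quotient.mk S.setoid e, ⟨he, e, f', rfl, h2', he, h1⟩, ?_⟩
    rintro x ⟨-, e'', f'', k1, k2, k3, k4⟩
    have h5 : S.Eqv f' f'' := Eqv.trans S h2 (Quotient.exact k2)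
    have h6 : S.Eqv e e'' := (S.vv1_iff (he.trans k3.symm) h1 k4).2 h5
    rw [k1]
    exact (Quotient.sound (s := S.setoid) h6).symm
  · have hf : S.pr f = b := hy
    obtain ⟨e, f', h1, h2, h3⟩ := S.adj_exists_left hab hf
    have hf' : S.pr f' = b := h2.1.symm.trans hf
    have h2' : Quotient.mk S.setoid f = Quotient.mk S.setoid f' := Quotient.sound (s := S.setoid) h2
    refine ⟨Quotient.mk S.setoid e, ⟨h3, e, f', rfl, h2', h3, hf', h1⟩, ?_⟩
    rintro x ⟨-, e'', f'', k1, k2, k3, k4, k5⟩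
    have h5 : S.Eqv f' f'' := Eqv.trans S (Eqv.symm S h2) (Quotient.exact k2)
    have h6 : S.Eqv e e'' := S.adj_left h1 k5 (h3.trans k3.symm) h5
    rw [k1]
    exact (Quotient.sound (s := S.setoid) h6).symm

theorem vv1_split {β : Type} {l : List β} {j : ℕ} {x y : β} (hx : l[j]? = some x)
    (hy : l[j + 1]? = some y) : ∃ A B, l = A ++ x :: y :: B := by
  refine ⟨l.take j, l.drop (j + 2), ?_⟩
  obtain ⟨hj, h1⟩ := List.getElem?_eq_some_iff.1 hx
  obtain ⟨hj', h2⟩ := List.getElem?_eq_some_iff.1 hy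
  rw [← h1, ← h2, ← List.drop_eq_getElem_cons hj', ← List.drop_eq_getElem_cons hj,
    List.take_append_drop]

theorem vv1_last {β : Type} {l : List β} {j : ℕ} {x : β} (hx : l[j]? = some x)
    (hj : j + 1 = l.length) : ∃ A, l = A ++ [x] := by
  refine ⟨l.take j, ?_⟩
  obtain ⟨hj', h1⟩ := List.getElem?_eq_some_iff.1 hx
  have h2 : l.drop (j + 1) = [] := List.drop_eq_nil_of_le (by omega)
  have h3 : l.take j ++ l.drop j = l := List.take_append_drop j l
  rw [List.drop_eq_getElem_cons hj', h2, h1] at h3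
  exact h3.symm

theorem vv1_first {β : Type} {l : List β} {x : β} (hx : l[0]? = some x) : ∃ B, l = x :: B := by
  cases l with
  | nil => simp at hx
  | cons a l =>
    rw [List.getElem?_cons_zero] at hx
    exact ⟨l, by rw [Option.some.inj hx]⟩

/-- The action on the classes.
Proof.  `Act.ofRel` with `π ⟦e⟧ = pr e`, `R (inl ⟨a, j⟩) x y := ∃ e f, x = ⟦e⟧ ∧ y = ⟦f⟧ ∧ pr e = a ∧ (hh e)[j]? = some f`,
`R (inr (a, b)) x y := ∃ e f, x = ⟦e⟧ ∧ y = ⟦f⟧ ∧ pr e = a ∧ pr f = b ∧ Adj e f`.  Unique existence: for `inl`: `eqv_get_iff` with `k = 1` gives uniqueness both ways;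
existence of a preimage of `⟦f⟧`: let `I` be a minimal image over `a`; the map `x ↦ (hh x)[j]` maps it onto a minimal image over `pr f` (`MI.push`), which
contains an element equivalent to `f` (`MI.class`).  For `inr`: `adj_right`, `adj_left`, `adj_exists_right`, `adj_exists_left`.
(V1): `adj_hh`; (V2): `Adj.hh`. -/
theorem real_act : ∃ A : Act α (Op S.h) (Quotient S.setoid) (osrc S.h) (otgt S.h) (oinv S.h),
    Cpt A ∧ (∀ e, A.π (Quotient.mk S.setoid e) = S.pr e) ∧
    (∀ e, A.et (Quotient.mk S.setoid e) = (S.hh e).map (Quotient.mk S.setoid)) ∧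
    ∀ e f, S.Adj e f → A.Nb (Quotient.mk S.setoid e) (Quotient.mk S.setoid f) := by
  obtain ⟨A, hπ, hR⟩ := Act.ofRel S.vv1_pi S.vv1_R S.vv1_h1 S.vv1_h2
  have hpi : ∀ e, A.π (Quotient.mk S.setoid e) = S.pr e := fun e => by rw [hπ]; rfl
  have opl : ∀ (a : α) (j : Fin (S.h a).length) (e f : P), S.pr e = a →
      (S.hh e)[j.1]? = some f →
      A.op (fwd a j) (Quotient.mk S.setoid e) = Quotient.mk S.setoid f := by
    intro a j e f he hf
    obtain ⟨f', hf', hfp⟩ := S.vv1_get he j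
    have h0 : f' = f := by
      rw [hf'] at hf
      exact Option.some.inj hf
    subst h0
    exact (hR (Sum.inl ⟨a, j⟩) (Quotient.mk S.setoid e) (Quotient.mk S.setoid f') he hfp).2
      ⟨e, f', rfl, rfl, he, hf⟩
  have opr : ∀ (a b : α) (hab : Legal S.h [a, b]) (e f : P), S.pr e = a → S.pr f = b →
      S.Adj e f → A.op (tauo a b hab) (Quotient.mk S.setoid e) = Quotient.mk S.setoid f := by
    intro a b hab e f he hf hadj
    exact (hR (Sum.inr ⟨(a, b), hab⟩) (Quotient.mk S.setoid e) (Quotient.mk S.setoid f) he hf).2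
      ⟨e, f, rfl, rfl, he, hf, hadj⟩
  refine ⟨A, ⟨?_, ?_⟩, hpi, ?_, ?_⟩
  · intro a j j' hj hl x hx
    induction x using Quotient.inductionOn with
    | h e =>
    have he : S.pr e = a := (hpi e).symm.trans hx
    obtain ⟨f, hf, hfp⟩ := S.vv1_get he j
    obtain ⟨f', hf', hfp'⟩ := S.vv1_get he j'
    rw [opl a j e f he hf, opl a j' e f' he hf']
    rw [hj] at hf'
    obtain ⟨A1, B1, h1⟩ := vv1_split hf hf'
    exact (opr _ _ hl f f' hfp hfp' (S.adj_hh h1)).symm
  · intro a b hab j hj j' hj' hl x hx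
    induction x using Quotient.inductionOn with
    | h e =>
    have he : S.pr e = a := (hpi e).symm.trans hx
    obtain ⟨e', f', h1, h2, h3⟩ := S.adj_exists_right hab he
    have he' : S.pr e' = a := h2.1.symm.trans he
    have h2' : Quotient.mk S.setoid e = Quotient.mk S.setoid e' := Quotient.sound (s := S.setoid) h2
    rw [h2']
    obtain ⟨x1, hx1, hx1p⟩ := S.vv1_get he' j
    obtain ⟨y1, hy1, hy1p⟩ := S.vv1_get h3 j'
    rw [opr a b hab e' f' he' h3 h1, opl a j e' x1 he' hx1, opl b j' f' y1 h3 hy1]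
    have hlen : (S.hh e').length = (S.h a).length := by
      have h4 := congrArg List.length (S.pr_hh e')
      rw [List.length_map, he'] at h4
      exact h4
    obtain ⟨A1, hA1⟩ := vv1_last hx1 (hj.trans hlen.symm)
    rw [hj'] at hy1
    obtain ⟨B1, hB1⟩ := vv1_first hy1
    exact (opr _ _ hl x1 y1 hx1p hy1p (Adj.hh S h1 hA1 hB1)).symm
  · intro e
    have hlen : (S.h (A.π (Quotient.mk S.setoid e))).length = (S.hh e).length := by
      have h4 := congrArg List.length (S.pr_hh e)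
      rw [List.length_map] at h4
      rw [hpi, h4]
    refine List.ext_getElem ?_ ?_
    · rw [Act.et, List.length_ofFn, List.length_map, hlen]
    · intro i hi hi'
      rw [List.length_map] at hi'
      simp only [Act.et, List.getElem_ofFn, List.getElem_map]
      exact opl _ ⟨i, by rw [hlen]; exact hi'⟩ e _ (hpi e).symm (List.getElem?_eq_getElem hi')
  · intro e f hadj
    have hl : Legal S.h [A.π (Quotient.mk S.setoid e), A.π (Quotient.mk S.setoid f)] := by
      rw [hpi, hpi]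
      exact Adj.legal S hadj
    exact ⟨hl, (opr _ _ hl e f (hpi e).symm (hpi f).symm hadj).symm⟩

end D0L.TS
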