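import Pool.Agent.H.MP_374efc_lc.Fr.Ab4
import Pool.Agent.H.MP_374efc_lc.Fr.Ln4

/-!
# MP_374efc_lc, free case: closed sets: arrows

Paper proof: /team-store/h43_374efc_L3.md
-/

set_option autoImplicit false

namespace D0L

variable {α E : Type} [Fintype α] [Fintype E] {h : α → List α}
  (A : Act α (Op h) E (osrc h) (otgt h) (oinv h))

/-- Closed sets: `X` contains all arrow predecessors of the elements of `X` outside `T`. -/
def Act.Closed (T X : Finset E) : Prop := T ⊆ X ∧ ∀ x y, y ∈ X → y ∉ T → y ∈ A.et x → x ∈ X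

/-- Elements of `X` outside `T` over the letter `a`. -/
noncomputable def Act.Sa (T X : Finset E) (a : α) : Finset E := by
  classical exact X.filter (fun e => e ∉ T ∧ A.π e = a)

omit [Fintype α] [Fintype E] in
theorem Act.wi1_mem {x : E} {a : α} (hx : A.π x = a) (j : Fin (h a).length) :
    A.op (fwd a j) x ∈ A.et x := by
  subst hx
  unfold Act.et
  rw [List.mem_ofFn]
  exact ⟨j, rfl⟩

omit [Fintype α] [Fintype E] in
/-- The preimage of an element over `h a [j]` under `fwd a j`. -/
theorem Act.wi1_pre {a : α} {j : Fin (h a).length} {e : E} (he : A.π e = (h a).get j) :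
    A.π (A.op (oinv h (fwd a j)) e) = a ∧
      A.op (fwd a j) (A.op (oinv h (fwd a j)) e) = e ∧
        e ∈ A.et (A.op (oinv h (fwd a j)) e) := by
  have h1 : A.π e = osrc h (oinv h (fwd a j)) := he
  have h2 : A.π (A.op (oinv h (fwd a j)) e) = a := A.π_op _ _ h1
  have h3 : A.op (fwd a j) (A.op (oinv h (fwd a j)) e) = e := A.inv_op _ _ h1
  refine ⟨h2, h3, ?_⟩
  have h4 := A.wi1_mem h2 j
  rw [h3] at h4
  exact h4

omit [Fintype α] [Fintype E] in
theorem Act.wi1_sa {T X : Finset E} {a : α} {e : E} :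
    e ∈ A.Sa T X a ↔ e ∈ X ∧ e ∉ T ∧ A.π e = a := by
  classical
  unfold Act.Sa
  rw [Finset.mem_filter]

/-- Proof: `op (inv θ)`, `θ = fwd a j`, maps the elements of `X - T` over `h a [j]` injectively to elements of `X` over `a`, at most `|T|` of which are in `T`. -/
theorem Act.card_step {T X : Finset E} (hX : A.Closed T X) (a : α) (j : Fin (h a).length) :
    (A.Sa T X ((h a).get j)).card ≤ (A.Sa T X a).card + T.card := by
  classical
  have h1 : (A.Sa T X ((h a).get j)).card ≤ (A.Sa T X a ∪ T).card := by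
    apply Finset.card_le_card_of_injOn (fun e => A.op (oinv h (fwd a j)) e)
    · intro e he
      have he' := A.wi1_sa.1 (Finset.mem_coe.1 he)
      obtain ⟨p1, p2, p3⟩ := A.wi1_pre he'.2.2
      have h2 : A.op (oinv h (fwd a j)) e ∈ X := hX.2 _ _ he'.1 he'.2.1 p3
      rw [Finset.mem_coe, Finset.mem_union]
      by_cases h3 : A.op (oinv h (fwd a j)) e ∈ T
      · exact Or.inr h3
      · exact Or.inl (A.wi1_sa.2 ⟨h2, h3, p1⟩)
    · intro e he e' he' hee
      have q := A.wi1_sa.1 (Finset.mem_coe.1 he)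
      have q' := A.wi1_sa.1 (Finset.mem_coe.1 he')
      rw [← (A.wi1_pre q.2.2).2.1, ← (A.wi1_pre q'.2.2).2.1]
      exact congrArg _ hee
  exact h1.trans (Finset.card_union_le _ _)

/-- Proof: `b ∈ it h r [a]`: a path of `r` steps; induction on the number of steps (for `b ∈ it h k [a]`). -/
theorem Act.card_step' {T X : Finset E} (hX : A.Closed T X) {k : ℕ} {a b : α}
    (hb : b ∈ it h k [a]) : (A.Sa T X b).card ≤ (A.Sa T X a).card + k * T.card := by
  induction k generalizing b with
  | zero =>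
    rw [it_zero, List.mem_singleton] at hb
    subst hb
    omega
  | succ k ih =>
    rw [it_succ, mem_app] at hb
    obtain ⟨c, hc, hbc⟩ := hb
    obtain ⟨j, hj⟩ := List.get_of_mem hbc
    have h1 := A.card_step hX c j
    rw [hj] at h1
    have h2 := ih hc
    have h3 : (k + 1) * T.card = k * T.card + T.card := by ring
    omega

/-- Elements `x` of `X` outside `T` in the source fibre with `op θ x ∉ X`. -/
noncomputable def Act.cut (T X : Finset E) (θ : Op h) : Finset E := by
  classical exact X.filter (fun e => e ∉ T ∧ A.π e = osrc h θ ∧ A.op θ e ∉ X)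

omit [Fintype α] [Fintype E] in
theorem Act.wi1_cut {T X : Finset E} {θ : Op h} {e : E} :
    e ∈ A.cut T X θ ↔ e ∈ X ∧ e ∉ T ∧ A.π e = osrc h θ ∧ A.op θ e ∉ X := by
  classical
  unfold Act.cut
  rw [Finset.mem_filter]

/-- Arrows leaving `X`.
Proof: let `b = h a [j]`.  At least `|S_b| - |T|` elements of `S_b` have their `fwd a j`-preimage in `S_a` (`Closed`, injectivity), so at most
`|S_a| - |S_b| + |T| ≤ (r + 1) |T|` elements of `S_a` are mapped outside `X` (`card_step'` from `b` to `a`, `Std.full`). -/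
theorem Act.cut_fwd {m r : ℕ} (hs : Std h m r) {T X : Finset E} (hX : A.Closed T X) (a : α)
    (j : Fin (h a).length) : (A.cut T X (fwd a j)).card ≤ (r + 1) * T.card := by
  classical
  have h1 : (A.Sa T X ((h a).get j)).card ≤ ((A.Sa T X a \ A.cut T X (fwd a j)) ∪ T).card := by
    apply Finset.card_le_card_of_injOn (fun e => A.op (oinv h (fwd a j)) e)
    · intro e he
      have he' := A.wi1_sa.1 (Finset.mem_coe.1 he)
      obtain ⟨p1, p2, p3⟩ := A.wi1_pre he'.2.2
      have h2 : A.op (oinv h (fwd a j)) e ∈ X := hX.2 _ _ he'.1 he'.2.1 p3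
      rw [Finset.mem_coe, Finset.mem_union]
      by_cases h3 : A.op (oinv h (fwd a j)) e ∈ T
      · exact Or.inr h3
      · refine Or.inl (Finset.mem_sdiff.2 ⟨A.wi1_sa.2 ⟨h2, h3, p1⟩, ?_⟩)
        intro h4
        have h5 := (A.wi1_cut.1 h4).2.2.2
        rw [p2] at h5
        exact h5 he'.1
    · intro e he e' he' hee
      have q := A.wi1_sa.1 (Finset.mem_coe.1 he)
      have q' := A.wi1_sa.1 (Finset.mem_coe.1 he')
      rw [← (A.wi1_pre q.2.2).2.1, ← (A.wi1_pre q'.2.2).2.1]
      exact congrArg _ hee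
  have h2 := Finset.card_union_le (A.Sa T X a \ A.cut T X (fwd a j)) T
  have hsub : A.cut T X (fwd a j) ⊆ A.Sa T X a := by
    intro e he
    have h3 := A.wi1_cut.1 he
    exact A.wi1_sa.2 ⟨h3.1, h3.2.1, h3.2.2.1⟩
  have h3 := Finset.card_sdiff_add_card_eq_card hsub
  have h4 := A.card_step' hX (hs.full r le_rfl ((h a).get j) a)
  have h5 : (r + 1) * T.card = r * T.card + T.card := by ring
  omega

/-- Inverse arrows do not leave `X`. -/
theorem Act.cut_bwd {T X : Finset E} (hX : A.Closed T X) (a : α)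
    (j : Fin (h a).length) : A.cut T X (oinv h (fwd a j)) = ∅ := by
  rw [Finset.eq_empty_iff_forall_notMem]
  intro e he
  obtain ⟨h1, h2, h3, h4⟩ := A.wi1_cut.1 he
  exact h4 (hX.2 _ _ h1 h2 (A.wi1_pre h3).2.2)

end D0L
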