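import Pool.Agent.H.MP_374efc_lc.Fr.Wi1
import Pool.Agent.H.MP_374efc_lc.Fr.Cv1

/-!
# MP_374efc_lc, free case: closed sets: tau edges

Paper proof: /team-store/h43_374efc_L3.md
-/

set_option autoImplicit false

namespace D0L

variable {α E : Type} [Fintype α] [Fintype E] {h : α → List α}
  (A : Act α (Op h) E (osrc h) (otgt h) (oinv h))

theorem wi2_get {α : Type} {a b : α} {w : List α} (hw : [a, b] <:+: w) :
    ∃ i, w[i]? = some a ∧ w[i + 1]? = some b := by
  obtain ⟨s, t, rfl⟩ := hw
  refine ⟨s.length, ?_, ?_⟩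
  · rw [List.append_assoc, List.getElem?_append_right le_rfl]
    simp
  · rw [List.append_assoc, List.getElem?_append_right (by omega)]
    simp

theorem wi2_infix {α : Type} {a b : α} {w : List α} {i : ℕ} (h1 : w[i]? = some a)
    (h2 : w[i + 1]? = some b) : [a, b] <:+: w := by
  obtain ⟨l1, e1⟩ := List.getElem?_eq_some_iff.1 h1
  obtain ⟨l2, e2⟩ := List.getElem?_eq_some_iff.1 h2
  refine ⟨w.take i, w.drop (i + 2), ?_⟩
  have h3 : w.drop i = a :: b :: w.drop (i + 2) := by
    rw [List.drop_eq_getElem_cons l1, List.drop_eq_getElem_cons l2, e1, e2]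
  calc w.take i ++ [a, b] ++ w.drop (i + 2) = w.take i ++ w.drop i := by
        rw [h3, List.append_assoc]
        rfl
    _ = w := List.take_append_drop i w

/-- Two consecutive letters of `app h y`: inside a block or at a junction. -/
theorem wi2_split {α : Type} {h : α → List α} (hne : ∀ a, h a ≠ []) {y : List α} {a b : α}
    (hy : [a, b] <:+: app h y) :
    (∃ (c : α) (j j' : Fin (h c).length), j'.1 = j.1 + 1 ∧ (h c).get j = a ∧ (h c).get j' = b) ∨
      ∃ (a' b' : α) (_ : [a', b'] <:+: y) (j : Fin (h a').length) (j' : Fin (h b').length),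
        j.1 + 1 = (h a').length ∧ j'.1 = 0 ∧ (h a').get j = a ∧ (h b').get j' = b := by
  obtain ⟨q, h1, h2⟩ := wi2_get hy
  obtain ⟨l1, -⟩ := List.getElem?_eq_some_iff.1 h1
  obtain ⟨l2, -⟩ := List.getElem?_eq_some_iff.1 h2
  obtain ⟨i, c, o, c1⟩ := Cov.exists l1
  have g1 := c1.get
  have e1 : (h c)[o]? = some a := by rw [← g1.1]; exact h1
  obtain ⟨m1, n1⟩ := List.getElem?_eq_some_iff.1 e1
  rcases c1.succ hne l2 with ⟨ho, c2⟩ | ⟨ho, b', c2⟩
  · left
    have g2 := c2.get
    have e2 : (h c)[o + 1]? = some b := by rw [← g2.1]; exact h2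
    obtain ⟨m2, n2⟩ := List.getElem?_eq_some_iff.1 e2
    exact ⟨c, ⟨o, m1⟩, ⟨o + 1, m2⟩, rfl, n1, n2⟩
  · right
    have g2 := c2.get
    have e2 : (h b')[0]? = some b := by rw [← g2.1]; exact h2
    obtain ⟨m2, n2⟩ := List.getElem?_eq_some_iff.1 e2
    exact ⟨c, b', wi2_infix g1.2.1 g2.2.1, ⟨o, m1⟩, ⟨0, m2⟩, ho, rfl, n1, n2⟩

omit [Fintype α] [Fintype E] in
theorem wi2_mem_cut {T X : Finset E} {θ : Op h} {e : E} :
    e ∈ A.cut T X θ ↔ e ∈ X ∧ e ∉ T ∧ A.π e = osrc h θ ∧ A.op θ e ∉ X := by
  classical
  unfold Act.cut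
  rw [Finset.mem_filter]

omit [Fintype α] [Fintype E] in
theorem wi2_mem_et {x : E} {c : α} (hx : A.π x = c) (j : Fin (h c).length) :
    A.op (fwd c j) x ∈ A.et x := by
  subst hx
  unfold Act.et
  rw [List.mem_ofFn]
  exact ⟨j, rfl⟩

omit [Fintype α] [Fintype E] in
theorem wi2_back {e : E} {c : α} {j : Fin (h c).length} (he : A.π e = (h c).get j) :
    A.π (A.op (oinv h (fwd c j)) e) = c ∧
      A.op (fwd c j) (A.op (oinv h (fwd c j)) e) = e :=
  ⟨A.π_op (oinv h (fwd c j)) e he, A.inv_op (oinv h (fwd c j)) e he⟩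

/-- `τ`-edges.
Proof: induction on `k` for all `a, b` (`k = 0`: impossible).  Either (1) `a = h c' [j]`, `b = h c' [j+1]`, or (2) `a` is the last letter of `h a'`, `b` the first
letter of `h b'` with `[a', b'] <:+: it h (k - 1) [c]` (`it h k [c] = app h (it h (k-1) [c])`).  Let `e` be in the cut.
(1): `x` = preimage of `e` under `fwd c' j`; `x ∈ X` (`Closed`); at most `|T|` of the `x` are in `T`; otherwise `op (fwd c' (j+1)) x = τ e ∉ X` (V1), so `x` is in
`cut (fwd c' (j+1))`: at most `(r + 1) |T|`.
(2): `x` = preimage of `e` under `fwd a' last`, `x ∈ X`; `x ∈ T`: at most `|T|`; otherwise `x ∈ S_a'`, `x' = τ x`: `x' ∉ X`: at most `(k-1) (r+3) |T|` by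
induction; `x' ∈ T`: at most `|T|`; otherwise `op (fwd b' 0) x' = τ e ∉ X` (V2): `x' ∈ cut (fwd b' 0)`, at most `(r + 1) |T|`. -/
theorem Act.cut_tau {m r : ℕ} (hs : Std h m r) (hA : Cpt A) {T X : Finset E}
    (hX : A.Closed T X) (k : ℕ) {a b c : α} (hc : [a, b] <:+: it h k [c]) (hab : Legal h [a, b]) :
    (A.cut T X (tauo a b hab)).card ≤ k * ((r + 3) * T.card) := by
  classical
  induction k generalizing a b with
  | zero =>
    exfalso
    rw [it_zero] at hc
    have h1 := hc.length_le
    simp at h1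
  | succ k ih =>
    rw [it_succ] at hc
    rcases wi2_split hs.ne hc with ⟨d, j, j', hj, rfl, rfl⟩ |
      ⟨a', b', hab', j, j', hj, hj', rfl, rfl⟩
    · have h1 : (A.cut T X (tauo _ _ hab)).card ≤ (T ∪ A.cut T X (fwd d j')).card := by
        apply Finset.card_le_card_of_injOn (A.op (oinv h (fwd d j)))
        · intro e he
          obtain ⟨he1, he2, he3, he4⟩ := (wi2_mem_cut A).1 (Finset.mem_coe.1 he)
          have hb := wi2_back A (e := e) (c := d) (j := j) he3
          have hx : A.op (oinv h (fwd d j)) e ∈ X :=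
            hX.2 _ e he1 he2 (by
              have := wi2_mem_et A hb.1 j
              rw [hb.2] at this
              exact this)
          rw [Finset.mem_coe, Finset.mem_union]
          by_cases hT : A.op (oinv h (fwd d j)) e ∈ T
          · exact Or.inl hT
          · right
            rw [wi2_mem_cut]
            refine ⟨hx, hT, hb.1, ?_⟩
            rw [hA.V1 d j j' hj hab _ hb.1, hb.2]
            exact he4
        · intro e he e' he' hee
          obtain ⟨he1, he2, he3, he4⟩ := (wi2_mem_cut A).1 (Finset.mem_coe.1 he)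
          obtain ⟨he1', he2', he3', he4'⟩ := (wi2_mem_cut A).1 (Finset.mem_coe.1 he')
          have hb := wi2_back A (e := e) (c := d) (j := j) he3
          have hb' := wi2_back A (e := e') (c := d) (j := j) he3'
          rw [← hb.2, ← hb'.2]
          exact congrArg _ hee
      have h2 := Finset.card_union_le T (A.cut T X (fwd d j'))
      have h3 := A.cut_fwd hs hX d j'
      have h4 : (k + 1) * ((r + 3) * T.card) =
          k * ((r + 3) * T.card) + ((r + 1) * T.card + T.card + T.card) := by ring
      rw [h4]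
      omega
    · have hl : Legal h [a', b'] := ⟨c, k, hab'⟩
      obtain ⟨f, hf⟩ : ∃ f : E → E, f = A.op (oinv h (fwd a' j)) := ⟨_, rfl⟩
      obtain ⟨g, hg⟩ : ∃ g : E → E, g = A.op (tauo a' b' hl) := ⟨_, rfl⟩
      have key : ∀ e ∈ A.cut T X (tauo _ _ hab), A.π (f e) = a' ∧
          A.op (fwd a' j) (f e) = e ∧ f e ∈ X ∧ A.π (g (f e)) = b' ∧
          A.op (oinv h (tauo a' b' hl)) (g (f e)) = f e ∧
          A.op (fwd b' j') (g (f e)) ∉ X := by
        intro e he
        obtain ⟨he1, he2, he3, he4⟩ := (wi2_mem_cut A).1 he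
        have hb := wi2_back A (e := e) (c := a') (j := j) he3
        rw [← hf] at hb
        refine ⟨hb.1, hb.2, ?_, ?_, ?_, ?_⟩
        · refine hX.2 _ e he1 he2 ?_
          have := wi2_mem_et A hb.1 j
          rw [hb.2] at this
          exact this
        · rw [hg]
          exact A.π_op (tauo a' b' hl) (f e) hb.1
        · rw [hg]
          exact A.inv_op (tauo a' b' hl) (f e) hb.1
        · rw [hg, hA.V2 a' b' hl j hj j' hj' hab (f e) hb.1, hb.2]
          exact he4
      obtain ⟨s, hse⟩ : ∃ s, s = A.cut T X (tauo ((h a').get j) ((h b').get j') hab) := ⟨_, rfl⟩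
      rw [← hse] at key ⊢
      have h1 : (s.filter (fun e => f e ∈ T ∪ A.cut T X (tauo a' b' hl))).card ≤
          (T ∪ A.cut T X (tauo a' b' hl)).card := by
        apply Finset.card_le_card_of_injOn f
        · intro e he
          exact Finset.mem_coe.2 (Finset.mem_filter.1 (Finset.mem_coe.1 he)).2
        · intro e he e' he' hee
          have k1 := key e (Finset.mem_filter.1 (Finset.mem_coe.1 he)).1
          have k2 := key e' (Finset.mem_filter.1 (Finset.mem_coe.1 he')).1
          rw [← k1.2.1, ← k2.2.1, hee]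
      have h2 : (s.filter (fun e => ¬ f e ∈ T ∪ A.cut T X (tauo a' b' hl))).card ≤
          (T ∪ A.cut T X (fwd b' j')).card := by
        apply Finset.card_le_card_of_injOn (fun e => g (f e))
        · intro e he
          obtain ⟨m1, m2⟩ := Finset.mem_filter.1 (Finset.mem_coe.1 he)
          obtain ⟨k1, k2, k3, k4, k5, k6⟩ := key e m1
          rw [Finset.mem_union, not_or] at m2
          have hx : g (f e) ∈ X := by
            by_contra hx
            apply m2.2
            rw [wi2_mem_cut]
            exact ⟨k3, m2.1, k1, by rw [← hg]; exact hx⟩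
          show g (f e) ∈ ((T ∪ A.cut T X (fwd b' j') : Finset E) : Set E)
          rw [Finset.mem_coe, Finset.mem_union]
          by_cases hT : g (f e) ∈ T
          · exact Or.inl hT
          · right
            rw [wi2_mem_cut]
            exact ⟨hx, hT, k4, k6⟩
        · intro e he e' he' hee
          have k1 := key e (Finset.mem_filter.1 (Finset.mem_coe.1 he)).1
          have k2 := key e' (Finset.mem_filter.1 (Finset.mem_coe.1 he')).1
          have hee' : g (f e) = g (f e') := hee
          rw [← k1.2.1, ← k2.2.1, ← k1.2.2.2.2.1, ← k2.2.2.2.2.1, hee']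
      have h3 : s.card ≤ (s.filter (fun e => f e ∈ T ∪ A.cut T X (tauo a' b' hl))).card +
          (s.filter (fun e => ¬ f e ∈ T ∪ A.cut T X (tauo a' b' hl))).card := by
        rw [← Finset.card_union_of_disjoint (Finset.disjoint_filter_filter_not s s _),
          Finset.filter_union_filter_not_eq]
      have h4 := Finset.card_union_le T (A.cut T X (tauo a' b' hl))
      have h5 := Finset.card_union_le T (A.cut T X (fwd b' j'))
      have h6 := A.cut_fwd hs hX b' j'
      have h7 := ih hab' hl
      have h8 : (k + 1) * ((r + 3) * T.card) =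
          k * ((r + 3) * T.card) + ((r + 1) * T.card + T.card + T.card) := by ring
      rw [h8]
      omega

end D0L
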